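import Mathlib

open Finset ArithmeticFunction

noncomputable section

namespace Pool.Agent.MP6396c4

/-- primes up to `N`. -/
def pr (N : ℕ) : Finset ℕ := (Icc 1 N).filter Nat.Prime

lemma mem_pr {N p : ℕ} : p ∈ pr N ↔ p.Prime ∧ p ≤ N := by
  simp only [pr, mem_filter, mem_Icc]
  constructor
  · rintro ⟨⟨_, h⟩, hp⟩; exact ⟨hp, h⟩
  · rintro ⟨hp, h⟩; exact ⟨⟨hp.one_le, h⟩, hp⟩

/-- primes in the interval `(a, b]`. -/
def prI (a b : ℝ) : Finset ℕ := (pr ⌊b⌋₊).filter (fun p => a < p)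

lemma mem_prI {a b : ℝ} {p : ℕ} (hb : 0 ≤ b) : p ∈ prI a b ↔ p.Prime ∧ a < p ∧ (p : ℝ) ≤ b := by
  rw [prI, mem_filter, mem_pr, Nat.le_floor_iff hb]
  tauto

lemma log_two_bounds : (0.69:ℝ) < Real.log 2 ∧ Real.log 2 < 0.7 :=
  ⟨by have := Real.log_two_gt_d9; linarith, by have := Real.log_two_lt_d9; linarith⟩

/-- numbers up to `N` with `Ω(n) = m` -/
def om (m N : ℕ) : Finset ℕ := (Icc 1 N).filter (fun n => cardFactors n = m)

lemma mem_om {m N n : ℕ} : n ∈ om m N ↔ (1 ≤ n ∧ n ≤ N) ∧ cardFactors n = m := by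
  simp [om]

/-- bounds on binomial-type weights -/
lemma pow_div_fact_shift {X κ : ℝ} (hX : 0 < X) {n j : ℕ} (hj : j ≤ n) (hn : (n : ℝ) ≤ κ * X) :
    X ^ (n - j) / ((n - j).factorial : ℝ) ≤ κ ^ j * (X ^ n / n.factorial) := by
  have hκ : 0 ≤ κ := by
    by_contra hc
    push Not at hc
    have : (0:ℝ) ≤ n := Nat.cast_nonneg n
    nlinarith
  have h1 : (n.factorial : ℝ) ≤ (n - j).factorial * (n : ℝ) ^ j := by
    have := Nat.factorial_mul_pow_sub_le_factorial (n := n - j) (m := n) (by omega)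
    have h2 : n.factorial ≤ (n - j).factorial * n ^ j := by
      have h3 := Nat.factorial_mul_descFactorial hj
      have h4 := Nat.descFactorial_le_pow n j
      rw [← h3]
      exact Nat.mul_le_mul_left _ h4
    exact_mod_cast h2
  have h2 : (n : ℝ) ^ j ≤ κ ^ j * X ^ j := by rw [← mul_pow]; gcongr
  have hf : (0:ℝ) < (n - j).factorial := by exact_mod_cast Nat.factorial_pos _
  have hf2 : (0:ℝ) < n.factorial := by exact_mod_cast Nat.factorial_pos _
  rw [mul_div_assoc', div_le_div_iff₀ hf hf2]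
  have h3 : X ^ n = X ^ (n - j) * X ^ j := by rw [← pow_add]; congr 1; omega
  calc X ^ (n - j) * n.factorial ≤ X ^ (n - j) * ((n - j).factorial * (κ ^ j * X ^ j)) := by
        gcongr
        exact h1.trans (by gcongr)
    _ = κ ^ j * X ^ n * (n - j).factorial := by rw [h3]; ring

lemma sum_inv_sq_tail (a N : ℕ) (ha : 1 ≤ a) : ∑ b ∈ (Icc 1 N).filter (fun b => a ≤ b),
    ((b : ℝ) ^ 2)⁻¹ ≤ 2 / a := by
  have h : ∀ M : ℕ, ∑ n ∈ Icc a (a + M), ((n : ℝ) ^ 2)⁻¹ ≤ 2 / a - 1 / ((a:ℝ) + M) := by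
    intro M
    have ha' : (1:ℝ) ≤ a := by exact_mod_cast ha
    induction M with
    | zero =>
      simp only [add_zero, Icc_self, sum_singleton, Nat.cast_zero]
      have e : 2 / (a:ℝ) - 1 / a = 1 / a := by ring
      rw [e, inv_eq_one_div]
      apply one_div_le_one_div_of_le (by linarith)
      nlinarith
    | succ M ih =>
      rw [← add_assoc, Finset.sum_Icc_succ_top (by omega)]
      have : (((a + M + 1 : ℕ) : ℝ) ^ 2)⁻¹ ≤ 1 / ((a : ℝ) + M) - 1 / ((a:ℝ) + M + 1) := by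
        push_cast
        rw [inv_le_iff_one_le_mul₀ (by positivity)]
        have h0 : (0:ℝ) < a + M := by positivity
        have e : (1 / ((a : ℝ) + M) - 1 / ((a:ℝ) + M + 1)) * ((a:ℝ) + M + 1) ^ 2 =
          1 + 1 / ((a:ℝ) + M) := by field_simp; ring
        rw [e]
        have : 0 ≤ 1 / ((a:ℝ) + M) := by positivity
        linarith
      push_cast at *
      rw [← add_assoc]
      linarith
  have h1 := h N
  have h2 : ∑ b ∈ (Icc 1 N).filter (fun b => a ≤ b), ((b : ℝ) ^ 2)⁻¹ ≤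
      ∑ n ∈ Icc a (a + N), ((n : ℝ) ^ 2)⁻¹ := by
    apply Finset.sum_le_sum_of_subset_of_nonneg
    · intro p hp
      rw [mem_filter, mem_Icc] at hp
      rw [mem_Icc]
      omega
    · intro n _ _; positivity
  have ha' : (1:ℝ) ≤ a := by exact_mod_cast ha
  have h3 : 0 ≤ 1 / ((a : ℝ) + N) := by positivity
  linarith

/-- scale function -/
def LT (T : ℝ) (n : ℕ) : ℝ := Real.log (T / (1 + n))

lemma stirling_upper (n : ℕ) : ((n+1).factorial : ℝ) ≤
    Real.exp 1 * √(n+1) * (((n:ℝ)+1) / Real.exp 1) ^ (n+1) := by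
  have h := Stirling.stirlingSeq'_antitone (Nat.zero_le n)
  simp only [Function.comp, Nat.succ_eq_add_one, zero_add] at h
  rw [Stirling.stirlingSeq_one, Stirling.stirlingSeq] at h
  have hpos : 0 < √(2 * ((n + 1 : ℕ):ℝ)) * (((n+1 : ℕ):ℝ) / Real.exp 1) ^ (n+1) := by positivity
  rw [div_le_iff₀ hpos] at h
  refine h.trans (le_of_eq ?_)
  push_cast
  rw [Real.sqrt_mul (by norm_num)]
  have h2 : √(2:ℝ) ≠ 0 := by positivity
  field_simp

lemma LL_facts {N : ℕ} {L0 : ℝ} (hL0 : 3 ≤ L0) (h : L0 ≤ Real.log (Real.log N)) :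
    1 ≤ Real.log N ∧ 2 ≤ N ∧ Real.log (Real.log N) ≤ Real.log (1 + Real.log N) ∧
    Real.log (1 + Real.log N) ≤ Real.log (Real.log N) + 1 := by
  set T := Real.log N with hT
  have hL3 : 3 ≤ Real.log T := by linarith
  have hT0 : 0 < T := by
    have : 0 ≤ T := Real.log_natCast_nonneg N
    rcases this.eq_or_lt with h1 | h1
    · rw [← h1, Real.log_zero] at hL3; linarith
    · exact h1
  have hT1 : 1 ≤ T := by
    by_contra hc'
    push Not at hc'
    have := Real.log_nonpos hT0.le hc'.le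
    linarith
  refine ⟨hT1, ?_, ?_, ?_⟩
  · by_contra hc
    have : N = 0 ∨ N = 1 := by omega
    rcases this with h1 | h1 <;> rw [hT, h1] at hT0 <;> simp at hT0
  · apply Real.log_le_log hT0; linarith
  · have h3 : Real.log (1 + T) ≤ Real.log (2 * T) := by
      apply Real.log_le_log (by linarith); linarith
    rw [Real.log_mul (by norm_num) hT0.ne'] at h3
    obtain ⟨_, h4⟩ := log_two_bounds
    linarith

lemma pow_le_exp_mul (A : ℕ) {b : ℝ} (hb : 0 < b) : ∃ C : ℝ, 0 < C ∧ ∀ T : ℝ, 0 ≤ T →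
    (1 + T) ^ A ≤ C * Real.exp (b * T) := by
  refine ⟨A.factorial * (b ^ A)⁻¹ * Real.exp b, by positivity, fun T hT => ?_⟩
  have h := Real.pow_div_factorial_le_exp (b * (1 + T)) (by positivity) A
  rw [div_le_iff₀ (by positivity), mul_pow] at h
  have h2 : Real.exp (b * (1 + T)) = Real.exp b * Real.exp (b * T) := by
    rw [← Real.exp_add]; congr 1; ring
  rw [h2] at h
  calc (1 + T) ^ A = (b ^ A)⁻¹ * (b ^ A * (1 + T) ^ A) := by field_simp
    _ ≤ (b ^ A)⁻¹ * (Real.exp b * Real.exp (b * T) * A.factorial) := by gcongr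
    _ = _ := by ring

/-- the scalar weight -/
def Tm (k μ : ℕ) (a b : ℝ) (lam : Fin (k+1) → ℕ) : ℝ :=
  (((∑ i, lam i).factorial : ℝ) / ∏ i, ((lam i).factorial : ℝ)) ^ 2 *
    (a ^ (∑ i, lam i) / (∑ i, lam i).factorial) *
    ∏ i, (b ^ (μ - lam i) / (μ - lam i).factorial)

lemma prodP_squarefree (B : Finset ℕ) (hB : ∀ p ∈ B, p.Prime) : Squarefree (∏ p ∈ B, p) := by
  induction B using Finset.induction_on with
  | empty => simp
  | insert a A ha ih =>
    rw [Finset.prod_insert ha, Nat.squarefree_mul_iff]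
    refine ⟨?_, (hB a (mem_insert_self _ _)).squarefree, ih (fun p hp => hB p (mem_insert_of_mem hp))⟩
    apply Nat.Coprime.prod_right
    intro p hp
    rw [Nat.coprime_primes (hB a (mem_insert_self _ _)) (hB p (mem_insert_of_mem hp))]
    rintro rfl; exact ha hp

lemma prodP_cardFactors (B : Finset ℕ) (hB : ∀ p ∈ B, p.Prime) :
    cardFactors (∏ p ∈ B, p) = #B := by
  induction B using Finset.induction_on with
  | empty => simp
  | insert a A ha ih =>
    have h1 := ih (fun p hp => hB p (mem_insert_of_mem hp))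
    rw [Finset.prod_insert ha, cardFactors_mul (hB a (mem_insert_self _ _)).ne_zero, h1,
      cardFactors_apply_prime (hB a (mem_insert_self _ _)), Finset.card_insert_of_notMem ha]
    · ring
    · exact Finset.prod_ne_zero_iff.mpr fun p hp => (hB p (mem_insert_of_mem hp)).ne_zero

lemma prodP_pos (B : Finset ℕ) (hB : ∀ p ∈ B, p.Prime) : 0 < ∏ p ∈ B, p :=
  Finset.prod_pos fun p hp => (hB p hp).pos

/-- squarefree `y`-rough numbers up to `x` with `r` prime factors. -/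
def rough (y x : ℝ) (r : ℕ) : Finset ℕ :=
  (Icc 1 ⌊x⌋₊).filter (fun v => Squarefree v ∧ cardFactors v = r ∧
    ∀ p ∈ v.primeFactors, y < p)

lemma mem_rough {y x : ℝ} {r v : ℕ} (hx : 0 ≤ x) : v ∈ rough y x r ↔ (1 ≤ v ∧ (v : ℝ) ≤ x) ∧
    Squarefree v ∧ cardFactors v = r ∧ ∀ p ∈ v.primeFactors, y < p := by
  rw [rough, mem_filter, mem_Icc, Nat.le_floor_iff hx]

lemma one_sub_ge_exp {t : ℝ} (ht0 : 0 ≤ t) (ht : t ≤ 1/2) : Real.exp (-(2 * t)) ≤ 1 - t := by
  have h1 : Real.exp (-(2*t)) ≤ 1 / (1 + 2 * t) := by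
    rw [Real.exp_neg, ← one_div]
    apply one_div_le_one_div_of_le (by linarith)
    linarith [Real.add_one_le_exp (2*t)]
  refine h1.trans ?_
  rw [div_le_iff₀ (by linarith)]
  nlinarith

/-- off-diagonal matrices -/
def offs (k N : ℕ) : Finset (Fin k → Fin k → ℕ) :=
  (Fintype.piFinset fun _ => Fintype.piFinset fun _ => Icc 1 N).filter (fun d => ∀ i, d i i = 1)

def rowp {k : ℕ} (d : Fin k → Fin k → ℕ) (i : Fin k) : ℕ := ∏ j, d i j

def colp {k : ℕ} (d : Fin k → Fin k → ℕ) (j : Fin k) : ℕ := ∏ i, d i j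

lemma mem_offs {k N : ℕ} {d : Fin k → Fin k → ℕ} :
    d ∈ offs k N ↔ (∀ i j, 1 ≤ d i j ∧ d i j ≤ N) ∧ ∀ i, d i i = 1 := by
  simp [offs, Fintype.mem_piFinset]

/-- the weight `X^(μ-a)/(μ-a)!` if `a = a' ≤ μ`, and `0` otherwise. -/
def phi (X : ℝ) (μ a a' : ℕ) : ℝ := if a = a' ∧ a ≤ μ then X ^ (μ - a) / (μ - a).factorial else 0

lemma phi_nonneg {X : ℝ} (hX : 0 ≤ X) (μ a a' : ℕ) : 0 ≤ phi X μ a a' := by
  unfold phi; split_ifs <;> positivity

/-- the off-diagonal sum -/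
def ZZ (k N : ℕ) (X : ℝ) (μ : ℕ) : ℝ := ∑ d ∈ offs k N, ∏ i : Fin k,
  (phi X μ (cardFactors (rowp d i)) (cardFactors (colp d i)) *
    ((max (rowp d i) (colp d i) : ℕ) : ℝ)⁻¹)

end Pool.Agent.MP6396c4
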