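import Mathlib
import Pool.Agent.Lib.MP_6396c4_an.Base

open Finset ArithmeticFunction

noncomputable section

namespace Pool.Agent.MP6396c4

/-- uniqueness of the smooth times rough factorisation -/
lemma smooth_rough_unique {t : ℝ} {a a' b b' : ℕ} (ha0 : 0 < a)
    (ha : ∀ p : ℕ, p.Prime → p ∣ a → (p:ℝ) ≤ t) (hb : ∀ p : ℕ, p.Prime → p ∣ b → t < p)
    (ha' : ∀ p : ℕ, p.Prime → p ∣ a' → (p:ℝ) ≤ t) (hb' : ∀ p : ℕ, p.Prime → p ∣ b' → t < p)
    (h : a * b = a' * b') : a = a' ∧ b = b' := by
  have h1 : Nat.Coprime a b' := by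
    by_contra hc
    obtain ⟨p, hp, h2, h3⟩ := Nat.Prime.not_coprime_iff_dvd.mp hc
    have := ha p hp h2
    have := hb' p hp h3
    linarith
  have h2 : Nat.Coprime a' b := by
    by_contra hc
    obtain ⟨p, hp, h2, h3⟩ := Nat.Prime.not_coprime_iff_dvd.mp hc
    have := ha' p hp h2
    have := hb p hp h3
    linarith
  have h3 : a ∣ a' := h1.dvd_of_dvd_mul_right (Dvd.intro _ h)
  have h4 : a' ∣ a := h2.dvd_of_dvd_mul_right (Dvd.intro _ h.symm)
  have h5 : a = a' := Nat.dvd_antisymm h3 h4
  subst h5
  exact ⟨rfl, Nat.eq_of_mul_eq_mul_left ha0 h⟩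

lemma prodP_inj {A B : Finset ℕ} (hA : ∀ p ∈ A, p.Prime) (hB : ∀ p ∈ B, p.Prime)
    (h : ∏ p ∈ A, p = ∏ p ∈ B, p) : A = B := by
  have h1 : (∏ p ∈ A, p).primeFactors = A := Nat.primeFactors_prod hA
  have h2 : (∏ p ∈ B, p).primeFactors = B := Nat.primeFactors_prod hB
  rw [← h1, ← h2, h]

/-- ordered factorisations of a squarefree number with prescribed numbers of prime factors -/
def parts (K : ℕ) (lam : Fin K → ℕ) (B : Finset ℕ) : Finset (Fin K → ℕ) :=
  (Fintype.piFinset fun _ => (∏ p ∈ B, p).divisors).filter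
    (fun u => ∏ i, u i = ∏ p ∈ B, p ∧ ∀ i, cardFactors (u i) = lam i)

lemma mem_parts {K : ℕ} {lam : Fin K → ℕ} {B : Finset ℕ} (hB : ∀ p ∈ B, p.Prime)
    {u : Fin K → ℕ} : u ∈ parts K lam B ↔
      ∏ i, u i = ∏ p ∈ B, p ∧ ∀ i, cardFactors (u i) = lam i := by
  unfold parts
  rw [mem_filter, and_iff_right_iff_imp]
  intro h
  rw [Fintype.mem_piFinset]
  intro i
  rw [Nat.mem_divisors]
  refine ⟨?_, (prodP_pos B hB).ne'⟩
  rw [← h.1]
  exact Finset.dvd_prod_of_mem u (mem_univ i)

lemma parts_card (K : ℕ) : ∀ (lam : Fin K → ℕ) (B : Finset ℕ), (∀ p ∈ B, p.Prime) →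
    #B = ∑ i, lam i → (#B).factorial ≤ #(parts K lam B) * ∏ i, (lam i).factorial := by
  classical
  induction K with
  | zero =>
    intro lam B hB hcard
    have hB0 : B = ∅ := by
      rw [← Finset.card_eq_zero, hcard]; simp
    subst hB0
    have : (Fin.elim0 : Fin 0 → ℕ) ∈ parts 0 lam ∅ := by
      rw [mem_parts hB]
      exact ⟨by simp, fun i => Fin.elim0 i⟩
    have h1 : 1 ≤ #(parts 0 lam ∅) := Finset.card_pos.mpr ⟨_, this⟩
    simpa using h1
  | succ K ih =>
    intro lam B hB hcard
    rw [Fin.sum_univ_succ] at hcard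
    set n := #B with hn
    set l0 := lam 0 with hl0
    have hle : l0 ≤ n := by omega
    -- the sigma type
    set Sg : Finset (Σ _ : Finset ℕ, Fin K → ℕ) :=
      (powersetCard l0 B).sigma (fun A => parts K (fun i => lam i.succ) (B \ A)) with hSg
    have hcardS : #Sg ≤ #(parts (K+1) lam B) := by
      apply Finset.card_le_card_of_injOn (fun x => (Fin.cons (∏ p ∈ x.1, p) x.2 : Fin (K+1) → ℕ))
      · intro x hx
        rw [mem_coe, hSg, mem_sigma, mem_powersetCard] at hx
        obtain ⟨⟨hA, hAc⟩, hu⟩ := hx
        rw [mem_parts (fun p hp => hB p (sdiff_subset hp))] at hu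
        rw [mem_coe, mem_parts hB, Fin.prod_univ_succ]
        constructor
        · simp only [Fin.cons_zero, Fin.cons_succ]
          rw [hu.1, mul_comm, Finset.prod_sdiff hA]
        · intro i
          induction i using Fin.cases with
          | zero =>
            simp only [Fin.cons_zero]
            rw [prodP_cardFactors _ (fun p hp => hB p (hA hp)), hAc]
          | succ i =>
            simp only [Fin.cons_succ]
            exact hu.2 i
      · rintro ⟨A, u⟩ hx ⟨A', u'⟩ hx' h
        rw [mem_coe, hSg, mem_sigma, mem_powersetCard] at hx hx'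
        simp only at h hx hx'
        have h0 := congrFun h 0
        simp only [Fin.cons_zero] at h0
        have hAA := prodP_inj (fun p hp => hB p (hx.1.1 hp)) (fun p hp => hB p (hx'.1.1 hp)) h0
        subst hAA
        have huu : u = u' := by
          funext i
          have := congrFun h i.succ
          simpa using this
        subst huu
        rfl
    have h2 : n.choose l0 * ((n - l0).factorial) ≤
        #Sg * ∏ i : Fin K, (lam i.succ).factorial := by
      rw [hSg, card_sigma, Finset.sum_mul]
      calc n.choose l0 * ((n - l0).factorial) = ∑ _A ∈ powersetCard l0 B, (n - l0).factorial := by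
            rw [Finset.sum_const, card_powersetCard, smul_eq_mul]
        _ ≤ _ := by
            apply Finset.sum_le_sum
            intro A hA
            rw [mem_powersetCard] at hA
            have hc : #(B \ A) = n - l0 := by
              rw [card_sdiff_of_subset hA.1, hA.2]
            have h3 := ih (fun i => lam i.succ) (B \ A) (fun p hp => hB p (sdiff_subset hp))
              (by rw [hc]; omega)
            rw [hc] at h3
            exact h3
    calc n.factorial = n.choose l0 * l0.factorial * (n - l0).factorial :=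
          (Nat.choose_mul_factorial_mul_factorial hle).symm
      _ = (n.choose l0 * (n - l0).factorial) * l0.factorial := by ring
      _ ≤ (#Sg * ∏ i : Fin K, (lam i.succ).factorial) * l0.factorial :=
          Nat.mul_le_mul_right _ h2
      _ ≤ (#(parts (K+1) lam B) * ∏ i : Fin K, (lam i.succ).factorial) * l0.factorial := by
          apply Nat.mul_le_mul_right
          exact Nat.mul_le_mul_right _ hcardS
      _ = #(parts (K+1) lam B) * ∏ i : Fin (K+1), (lam i).factorial := by
          rw [Fin.prod_univ_succ]; ring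

end Pool.Agent.MP6396c4
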