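import Mathlib
import Pool.Agent.Lib.MP_6396c4_an.Parts

open Finset ArithmeticFunction

noncomputable section

namespace Pool.Agent.MP6396c4

/-- the middle factors -/
def cf (k : ℕ) (q r : Fin k → ℕ) : Fin (k+1) → ℕ :=
  Fin.snoc (α := fun _ => ℕ) (fun i => 2 ^ (k-1) * q i) (∏ i, r i)

lemma cf_castSucc (k : ℕ) (q r : Fin k → ℕ) (i : Fin k) :
    cf k q r i.castSucc = 2 ^ (k-1) * q i := by simp [cf]

lemma cf_last (k : ℕ) (q r : Fin k → ℕ) : cf k q r (Fin.last k) = ∏ i, r i := by simp [cf]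

lemma prod_cf (k : ℕ) (q r : Fin k → ℕ) :
    ∏ i, cf k q r i = 2 ^ (k * (k-1)) * ((∏ i, q i) * ∏ i, r i) := by
  rw [Fin.prod_univ_castSucc]
  simp only [cf_castSucc, cf_last]
  rw [Finset.prod_mul_distrib, Finset.prod_const, card_univ, Fintype.card_fin, ← pow_mul,
    mul_comm (k-1) k]
  ring

/-- admissible configurations at one scale -/
structure Good (k : ℕ) (z w y : ℝ) (u u' : Fin (k+1) → ℕ) (r q : Fin k → ℕ)
    (v : Fin (k+1) → ℕ) : Prop where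
  hu0 : ∀ i, 0 < u i
  hu0' : ∀ i, 0 < u' i
  hu : ∀ i, ∀ p : ℕ, p.Prime → p ∣ u i → 2 < p ∧ (p:ℝ) ≤ z
  hu' : ∀ i, ∀ p : ℕ, p.Prime → p ∣ u' i → 2 < p ∧ (p:ℝ) ≤ z
  hr : ∀ i, (r i).Prime ∧ w < r i ∧ (r i : ℝ) ≤ y
  hq : ∀ i, (q i).Prime ∧ w < q i ∧ (q i : ℝ) ≤ y
  hrq : ∀ i, r i ≠ q i
  hv0 : ∀ i, 0 < v i
  hv : ∀ i, ∀ p : ℕ, p.Prime → p ∣ v i → y < p

lemma two_pow_prime {n p : ℕ} (hp : p.Prime) (h : p ∣ 2 ^ n) : p = 2 :=
  (Nat.prime_dvd_prime_iff_eq hp Nat.prime_two).mp (hp.dvd_of_dvd_pow h)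

lemma Good.swap {k : ℕ} {z w y : ℝ} {u u' : Fin (k+1) → ℕ} {r q : Fin k → ℕ}
    {v : Fin (k+1) → ℕ} (h : Good k z w y u u' r q v) : Good k z w y u' u q r v :=
  ⟨h.hu0', h.hu0, h.hu', h.hu, h.hq, h.hr, fun i => (h.hrq i).symm, h.hv0, h.hv⟩

lemma Good.cf_pos {k : ℕ} {z w y : ℝ} {u u' : Fin (k+1) → ℕ} {r q : Fin k → ℕ}
    {v : Fin (k+1) → ℕ} (h : Good k z w y u u' r q v) (i : Fin (k+1)) : 0 < cf k q r i := by
  induction i using Fin.lastCases with
  | last => rw [cf_last]; exact Finset.prod_pos fun i _ => (h.hr i).1.pos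
  | cast i => rw [cf_castSucc]; have := (h.hq i).1.pos; positivity

lemma Good.cf_dvd {k : ℕ} {z w y : ℝ} {u u' : Fin (k+1) → ℕ} {r q : Fin k → ℕ}
    {v : Fin (k+1) → ℕ} (h : Good k z w y u u' r q v) (i : Fin (k+1)) (p : ℕ) (hp : p.Prime)
    (hpd : p ∣ cf k q r i) : p = 2 ∨ (w < p ∧ (p:ℝ) ≤ y) := by
  induction i using Fin.lastCases with
  | last =>
    rw [cf_last] at hpd
    obtain ⟨i, _, hi⟩ := (Prime.dvd_finsetProd_iff hp.prime _).mp hpd
    have := (Nat.prime_dvd_prime_iff_eq hp (h.hr i).1).mp hi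
    right
    rw [this]; exact (h.hr i).2
  | cast i =>
    rw [cf_castSucc] at hpd
    rcases (Nat.Prime.dvd_mul hp).mp hpd with h1 | h1
    · left; exact two_pow_prime hp h1
    · right
      have := (Nat.prime_dvd_prime_iff_eq hp (h.hq i).1).mp h1
      rw [this]; exact (h.hq i).2

lemma Good.inj_aux {k : ℕ} {z w y : ℝ} (h2z : 2 ≤ z) (hzw : z ≤ w) (hwy : w ≤ y)
    {u u' : Fin (k+1) → ℕ} {r q : Fin k → ℕ}
    {v : Fin (k+1) → ℕ} (h : Good k z w y u u' r q v) 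
    {u1 u1' : Fin (k+1) → ℕ} {r1 q1 : Fin k → ℕ}
    {v1 : Fin (k+1) → ℕ} (h1 : Good k z w y u1 u1' r1 q1 v1)
    (hn : ∀ i, u i * cf k q r i * v i = u1 i * cf k q1 r1 i * v1 i) : 
    u = u1 ∧ q = q1 ∧ v = v1 := by
  have hsm : ∀ {u u' : Fin (k+1) → ℕ} {r q : Fin k → ℕ} {v : Fin (k+1) → ℕ}, 
      Good k z w y u u' r q v → ∀ i, ∀ p : ℕ, p.Prime → p ∣ u i * cf k q r i → (p:ℝ) ≤ y := by
    intro u u' r q v h i p hp hpd
    rcases (Nat.Prime.dvd_mul hp).mp hpd with h2 | h2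
    · exact ((h.hu i p hp h2).2.trans hzw).trans hwy
    · rcases h.cf_dvd i p hp h2 with h3 | h3
      · rw [h3]; push_cast; linarith
      · exact h3.2
  have hvv : ∀ i, u i * cf k q r i = u1 i * cf k q1 r1 i ∧ v i = v1 i := by
    intro i
    have hpos : 0 < u i * cf k q r i := Nat.mul_pos (h.hu0 i) (h.cf_pos i)
    exact smooth_rough_unique (t := y) hpos (hsm h i) (h.hv i) (hsm h1 i) (h1.hv i) (hn i)
  have hcast : ∀ i : Fin k, u i.castSucc = u1 i.castSucc ∧ q i = q1 i := by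
    intro i
    have h2 := (hvv i.castSucc).1
    rw [cf_castSucc, cf_castSucc] at h2
    have h3 : u i.castSucc * q i = u1 i.castSucc * q1 i := by
      have h4 : 2 ^ (k-1) * (u i.castSucc * q i) = 2 ^ (k-1) * (u1 i.castSucc * q1 i) := by
        linarith
      exact Nat.eq_of_mul_eq_mul_left (by positivity) h4
    apply smooth_rough_unique (t := z) (h.hu0 _) (fun p hp hpd => (h.hu _ p hp hpd).2) ?_
      (fun p hp hpd => (h1.hu _ p hp hpd).2) ?_ h3
    · intro p hp hpd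
      rw [(Nat.prime_dvd_prime_iff_eq hp (h.hq i).1).mp hpd]
      linarith [(h.hq i).2.1]
    · intro p hp hpd
      rw [(Nat.prime_dvd_prime_iff_eq hp (h1.hq i).1).mp hpd]
      linarith [(h1.hq i).2.1]
  have hlast : u (Fin.last k) = u1 (Fin.last k) := by
    have h2 := (hvv (Fin.last k)).1
    rw [cf_last, cf_last] at h2
    refine (smooth_rough_unique (t := z) (h.hu0 _) (fun p hp hpd => (h.hu _ p hp hpd).2) ?_
      (fun p hp hpd => (h1.hu _ p hp hpd).2) ?_ h2).1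
    · intro p hp hpd
      obtain ⟨i, _, hi⟩ := (Prime.dvd_finsetProd_iff hp.prime _).mp hpd
      rw [(Nat.prime_dvd_prime_iff_eq hp (h.hr i).1).mp hi]
      linarith [(h.hr i).2.1]
    · intro p hp hpd
      obtain ⟨i, _, hi⟩ := (Prime.dvd_finsetProd_iff hp.prime _).mp hpd
      rw [(Nat.prime_dvd_prime_iff_eq hp (h1.hr i).1).mp hi]
      linarith [(h1.hr i).2.1]
  refine ⟨?_, funext fun i => (hcast i).2, funext fun i => (hvv i).2⟩
  funext i
  induction i using Fin.lastCases with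
  | last => exact hlast
  | cast i => exact (hcast i).1

/-- different scales give different solutions -/
lemma Good.cross {k : ℕ} (hk : 1 ≤ k) {z w y z1 w1 y1 : ℝ} (_h2z : 2 ≤ z) (hzw : z ≤ w)
    (hwy : w ≤ y) (hyw1 : y ≤ w1) (hz1 : z1 ≤ w1)
    {u u' : Fin (k+1) → ℕ} {r q : Fin k → ℕ}
    {v : Fin (k+1) → ℕ} (h : Good k z w y u u' r q v) 
    {u1 u1' : Fin (k+1) → ℕ} {r1 q1 : Fin k → ℕ}
    {v1 : Fin (k+1) → ℕ} (h1 : Good k z1 w1 y1 u1 u1' r1 q1 v1)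
    (hn : ∀ i, u i * cf k q r i * v i = u1 i * cf k q1 r1 i * v1 i)
    (hn' : ∀ i, u' i * cf k r q i * v i = u1' i * cf k r1 q1 i * v1 i) : False := by
  set i0 : Fin k := ⟨0, hk⟩ with hi0
  have e1 := hn i0.castSucc
  have e2 := hn' i0.castSucc
  rw [cf_castSucc, cf_castSucc] at e1 e2
  set i := i0.castSucc with hi
  have e3 : u i * q i0 * v i = u1 i * q1 i0 * v1 i := by
    have : 2 ^ (k-1) * (u i * q i0 * v i) = 2 ^ (k-1) * (u1 i * q1 i0 * v1 i) := by linarith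
    exact Nat.eq_of_mul_eq_mul_left (by positivity) this
  have e4 : u' i * r i0 * v i = u1' i * r1 i0 * v1 i := by
    have : 2 ^ (k-1) * (u' i * r i0 * v i) = 2 ^ (k-1) * (u1' i * r1 i0 * v1 i) := by linarith
    exact Nat.eq_of_mul_eq_mul_left (by positivity) this
  -- cross multiply
  have e5 : (u1 i * q1 i0) * (u' i * r i0) = (u1' i * r1 i0) * (u i * q i0) := by
    have h5 : (v i * v1 i) * ((u1 i * q1 i0) * (u' i * r i0)) =
        (v i * v1 i) * ((u1' i * r1 i0) * (u i * q i0)) := by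
      calc (v i * v1 i) * ((u1 i * q1 i0) * (u' i * r i0))
          = (u1 i * q1 i0 * v1 i) * (u' i * r i0 * v i) := by ring
        _ = (u i * q i0 * v i) * (u1' i * r1 i0 * v1 i) := by rw [e3, e4]
        _ = _ := by ring
    exact Nat.eq_of_mul_eq_mul_left (Nat.mul_pos (h.hv0 i) (h1.hv0 i)) h5
  have hQ := (h1.hq i0).1
  have hd : q1 i0 ∣ (u1' i * r1 i0) * (u i * q i0) := by
    rw [← e5]
    exact Dvd.dvd.mul_right (Dvd.intro_left _ rfl) _
  have hQw := (h1.hq i0).2.1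
  rcases (Nat.Prime.dvd_mul hQ).mp hd with h5 | h5
  · rcases (Nat.Prime.dvd_mul hQ).mp h5 with h6 | h6
    · have := (h1.hu' i _ hQ h6).2
      linarith
    · have := (Nat.prime_dvd_prime_iff_eq hQ (h1.hr i0).1).mp h6
      exact h1.hrq i0 this.symm
  · rcases (Nat.Prime.dvd_mul hQ).mp h5 with h6 | h6
    · have := (h.hu i _ hQ h6).2
      linarith
    · have h7 := (Nat.prime_dvd_prime_iff_eq hQ (h.hq i0).1).mp h6
      have := (h.hq i0).2.2
      rw [← h7] at this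
      linarith

end Pool.Agent.MP6396c4
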