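import Mathlib

open Finset

namespace Pool.Agent.MP6396c4

lemma exists_factor_of_dvd_prod {α : Type*} [DecidableEq α] (s : Finset α) (a : α → ℕ) (b : ℕ)
    (h : b ∣ ∏ i ∈ s, a i) : ∃ e : α → ℕ, ∏ i ∈ s, e i = b ∧ ∀ i ∈ s, e i ∣ a i := by
  induction s using Finset.induction_on generalizing b with
  | empty =>
    refine ⟨fun _ => 1, ?_, by simp⟩
    simp only [Finset.prod_empty, Nat.dvd_one] at h ⊢
    exact h.symm
  | insert i s hi ih =>
    rw [Finset.prod_insert hi] at h
    obtain ⟨b1, b2, h1, h2, h3⟩ := exists_dvd_and_dvd_of_dvd_mul h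
    obtain ⟨e, he1, he2⟩ := ih b2 h2
    refine ⟨Function.update e i b1, ?_, ?_⟩
    · rw [Finset.prod_insert hi, Function.update_self, h3, ← he1]
      congr 1
      apply Finset.prod_congr rfl
      intro j hj
      rw [Function.update_of_ne (by rintro rfl; exact hi hj)]
    · intro j hj
      rw [mem_insert] at hj
      rcases hj with rfl | hj
      · rw [Function.update_self]; exact h1
      · rw [Function.update_of_ne (by rintro rfl; exact hi hj)]; exact he2 j hj

lemma refinement {α β : Type*} [DecidableEq α] [DecidableEq β] (s : Finset α) (t : Finset β)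
    (a : α → ℕ) (b : β → ℕ) (ha : ∀ i ∈ s, 0 < a i) (hb : ∀ j ∈ t, 0 < b j)
    (h : ∏ i ∈ s, a i = ∏ j ∈ t, b j) :
    ∃ d : α → β → ℕ, (∀ i ∈ s, ∏ j ∈ t, d i j = a i) ∧ (∀ j ∈ t, ∏ i ∈ s, d i j = b j) := by
  induction t using Finset.induction_on generalizing a with
  | empty =>
    refine ⟨fun _ _ => 1, ?_, by simp⟩
    intro i hi
    simp only [Finset.prod_empty] at h ⊢
    exact (Nat.eq_one_of_dvd_one (h ▸ Finset.dvd_prod_of_mem a hi)).symm
  | insert j t hj ih =>
    rw [Finset.prod_insert hj] at h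
    obtain ⟨e, he1, he2⟩ := exists_factor_of_dvd_prod s a (b j) (h ▸ Dvd.intro _ rfl)
    have hepos : ∀ i ∈ s, 0 < e i := fun i hi => Nat.pos_of_dvd_of_pos (he2 i hi) (ha i hi)
    have h2 : ∏ i ∈ s, (a i / e i) = ∏ j ∈ t, b j := by
      have h3 : (∏ i ∈ s, e i) * ∏ i ∈ s, (a i / e i) = ∏ i ∈ s, a i := by
        rw [← Finset.prod_mul_distrib]
        apply Finset.prod_congr rfl
        intro i hi
        exact Nat.mul_div_cancel' (he2 i hi)
      rw [he1, h] at h3
      exact Nat.eq_of_mul_eq_mul_left (hb j (mem_insert_self _ _)) h3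
    obtain ⟨d, hd1, hd2⟩ := ih (fun i => a i / e i)
      (fun i hi => Nat.div_pos (Nat.le_of_dvd (ha i hi) (he2 i hi)) (hepos i hi))
      (fun j' hj' => hb j' (mem_insert_of_mem hj')) h2
    refine ⟨fun i j' => if j' = j then e i else d i j', ?_, ?_⟩
    · intro i hi
      rw [Finset.prod_insert hj]
      simp only [if_true]
      have : ∏ x ∈ t, (if x = j then e i else d i x) = ∏ x ∈ t, d i x := by
        apply Finset.prod_congr rfl
        intro x hx
        rw [if_neg (by rintro rfl; exact hj hx)]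
      rw [this, hd1 i hi]
      exact Nat.mul_div_cancel' (he2 i hi)
    · intro j' hj'
      rw [mem_insert] at hj'
      rcases hj' with h' | h'
      · simp only [h', if_true]
        exact he1
      · have hne : j' ≠ j := by rintro rfl; exact hj h'
        simp only [hne, if_false]
        exact hd2 j' h'

/-- Hall: a matrix with large rows and bounded columns has a permutation with large entries. -/
lemma hall_matrix {k : ℕ} (d : Fin k → Fin k → ℕ) (N z Y : ℝ) (hN : 1 ≤ N) (hz : 1 ≤ z)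
    (hY : 0 ≤ Y)
    (hrow : ∀ i, Y ≤ ((∏ j, d i j : ℕ) : ℝ)) (hcol : ∀ j, ((∏ i, d i j : ℕ) : ℝ) ≤ N)
    (hpos : ∀ i j, 0 < d i j)
    (hcmp : ∀ r : ℕ, 1 ≤ r → r ≤ k → N ^ (r-1) * z ^ (k^2) < Y ^ r) :
    ∃ π : Equiv.Perm (Fin k), ∀ i, z ≤ (d i (π i) : ℝ) := by
  classical
  have hall := (Finset.all_card_le_biUnion_card_iff_exists_injective
    (fun i : Fin k => univ.filter (fun j => z ≤ (d i j : ℝ)))).mp ?_
  · obtain ⟨f, hf, hf2⟩ := hall
    refine ⟨Equiv.ofBijective f (Finite.injective_iff_bijective.mp hf), fun i => ?_⟩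
    have := hf2 i
    rw [mem_filter] at this
    exact this.2
  intro I
  by_contra hcon
  push Not at hcon
  set J := I.biUnion (fun i : Fin k => univ.filter (fun j => z ≤ (d i j : ℝ))) with hJ
  have hIpos : 1 ≤ #I := by omega
  have hIk : #I ≤ k := by
    calc #I ≤ #(univ : Finset (Fin k)) := Finset.card_le_univ I
      _ = k := by simp
  have hsmall : ∀ i ∈ I, ∀ j ∉ J, (d i j : ℝ) ≤ z := by
    intro i hi j hj
    by_contra hc
    push Not at hc
    apply hj
    rw [hJ, mem_biUnion]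
    exact ⟨i, hi, by rw [mem_filter]; exact ⟨mem_univ _, hc.le⟩⟩
  -- product over rows in I
  have h1 : Y ^ #I ≤ ∏ i ∈ I, ((∏ j, d i j : ℕ) : ℝ) := by
    rw [← Finset.prod_const]
    exact Finset.prod_le_prod (fun _ _ => hY) (fun i _ => hrow i)
  have h2 : ∏ i ∈ I, ((∏ j, d i j : ℕ) : ℝ) ≤ N ^ (#I - 1) * z ^ (k^2) := by
    have e : ∀ i : Fin k, ((∏ j, d i j : ℕ) : ℝ) =
        (∏ j ∈ J, (d i j : ℝ)) * ∏ j ∈ Jᶜ, (d i j : ℝ) := by
      intro i
      push_cast
      exact (Finset.prod_mul_prod_compl J (fun j => (d i j : ℝ))).symm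
    simp_rw [e]
    rw [Finset.prod_mul_distrib, Finset.prod_comm]
    have h3 : ∏ j ∈ J, ∏ i ∈ I, (d i j : ℝ) ≤ N ^ (#I - 1) := by
      calc ∏ j ∈ J, ∏ i ∈ I, (d i j : ℝ) ≤ ∏ j ∈ J, N := by
            apply Finset.prod_le_prod (fun _ _ => Finset.prod_nonneg fun _ _ => by positivity)
            intro j _
            refine le_trans ?_ (hcol j)
            have h4 : ∏ i ∈ I, d i j ≤ ∏ i, d i j :=
              Finset.prod_le_prod_of_subset_of_one_le' (Finset.subset_univ I)
                (fun i _ _ => hpos i j)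
            exact_mod_cast h4
        _ = N ^ #J := Finset.prod_const _
        _ ≤ N ^ (#I - 1) := pow_le_pow_right₀ hN (by omega)
    have h5 : ∏ i ∈ I, ∏ j ∈ Jᶜ, (d i j : ℝ) ≤ z ^ (k^2) := by
      calc ∏ i ∈ I, ∏ j ∈ Jᶜ, (d i j : ℝ) ≤ ∏ i ∈ I, ∏ j ∈ Jᶜ, z := by
            apply Finset.prod_le_prod (fun _ _ => Finset.prod_nonneg fun _ _ => by positivity)
            intro i hi
            apply Finset.prod_le_prod (fun _ _ => by positivity)
            intro j hj
            exact hsmall i hi j (mem_compl.mp hj)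
        _ = z ^ (#Jᶜ * #I) := by rw [Finset.prod_const, Finset.prod_const, ← pow_mul]
        _ ≤ z ^ (k^2) := by
            apply pow_le_pow_right₀ hz
            have : #Jᶜ ≤ k := by
              calc #Jᶜ ≤ #(univ : Finset (Fin k)) := Finset.card_le_univ _
                _ = k := by simp
            nlinarith
    have h6 : 0 ≤ ∏ i ∈ I, ∏ j ∈ Jᶜ, (d i j : ℝ) :=
      Finset.prod_nonneg fun _ _ => Finset.prod_nonneg fun _ _ => by positivity
    exact mul_le_mul h3 h5 h6 (by positivity)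
  exact absurd (hcmp #I hIpos hIk) (by linarith)

end Pool.Agent.MP6396c4
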