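import Mathlib
import Pool.Agent.Lib.MP_6396c4_an.Base
import Pool.Agent.Lib.MP_6396c4_an.Refine

open Finset ArithmeticFunction

noncomputable section

namespace Pool.Agent.MP6396c4

/-- positive `k`-tuples with product at most `Y`. -/
def tup (k Y : ℕ) : Finset (Fin k → ℕ) :=
  (Fintype.piFinset (fun _ : Fin k => Icc 1 Y)).filter (fun f => ∏ i, f i ≤ Y)

lemma mem_tup {k Y : ℕ} {f : Fin k → ℕ} (hf : (∀ i, 1 ≤ f i)) (h : ∏ i, f i ≤ Y) : f ∈ tup k Y := by
  rw [tup, mem_filter, Fintype.mem_piFinset]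
  refine ⟨fun i => mem_Icc.mpr ⟨hf i, ?_⟩, h⟩
  refine le_trans ?_ h
  exact Finset.single_le_prod' (f := f) (fun j _ => hf j) (mem_univ i)

lemma tup_pos {k Y : ℕ} {f : Fin k → ℕ} (hf : f ∈ tup k Y) : ∀ i, 1 ≤ f i := by
  rw [tup, mem_filter, Fintype.mem_piFinset] at hf
  exact fun i => (mem_Icc.mp (hf.1 i)).1

lemma sum_inv_le (Y : ℕ) : ∑ a ∈ Icc 1 Y, (a : ℝ)⁻¹ ≤ 1 + Real.log Y := by
  have h := harmonic_le_one_add_log Y
  rw [harmonic_eq_sum_Icc] at h
  push_cast at h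
  exact h

lemma card_tup_le (k Y : ℕ) : (#(tup (k+1) Y) : ℝ) ≤ Y * (1 + Real.log Y) ^ k := by
  induction k generalizing Y with
  | zero =>
    simp only [pow_zero, mul_one]
    have : #(tup 1 Y) ≤ #(Icc 1 Y) := by
      apply Finset.card_le_card_of_injOn (fun f => f 0)
      · intro f hf
        rw [mem_coe, tup, mem_filter, Fintype.mem_piFinset] at hf
        exact hf.1 0
      · intro f _ g _ hfg
        ext i
        rw [Subsingleton.elim i 0]; exact hfg
    have h2 : (#(tup 1 Y) : ℝ) ≤ #(Icc 1 Y) := by exact_mod_cast this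
    simpa using h2
  | succ k ih =>
    have h1 : #(tup (k+1+1) Y) ≤ ∑ a ∈ Icc 1 Y, #(tup (k+1) (Y / a)) := by
      rw [← Finset.card_sigma]
      apply Finset.card_le_card_of_injOn
        (fun f => (⟨f 0, Fin.tail f⟩ : Σ _ : ℕ, (Fin (k+1) → ℕ)))
      · intro f hf
        rw [mem_coe] at hf
        have hpos := tup_pos hf
        rw [tup, mem_filter, Fintype.mem_piFinset] at hf
        rw [mem_coe, Finset.mem_sigma]
        refine ⟨hf.1 0, ?_⟩
        apply mem_tup (fun i => hpos _)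
        rw [Nat.le_div_iff_mul_le (hpos 0), mul_comm]
        have := hf.2
        rw [Fin.prod_univ_succ] at this
        exact this
      · intro f _ g _ hfg
        simp only [Sigma.mk.injEq, heq_eq_eq] at hfg
        rw [← Fin.cons_self_tail f, ← Fin.cons_self_tail g, hfg.1, hfg.2]
    have h2 : (#(tup (k+1+1) Y) : ℝ) ≤ ∑ a ∈ Icc 1 Y, (#(tup (k+1) (Y / a)) : ℝ) := by
      exact_mod_cast h1
    refine h2.trans ?_
    have hlY : 0 ≤ Real.log Y := Real.log_natCast_nonneg Y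
    have h3 : ∀ a ∈ Icc 1 Y, (#(tup (k+1) (Y / a)) : ℝ) ≤
        (Y * (1 + Real.log Y) ^ k) * (a : ℝ)⁻¹ := by
      intro a ha
      rw [mem_Icc] at ha
      refine (ih (Y / a)).trans ?_
      have h4 : ((Y / a : ℕ) : ℝ) ≤ Y * (a : ℝ)⁻¹ := by
        rw [← div_eq_mul_inv]; exact Nat.cast_div_le
      have hdiv : 1 ≤ Y / a := (Nat.one_le_div_iff (by omega)).mpr ha.2
      have h5 : Real.log ((Y / a : ℕ) : ℝ) ≤ Real.log Y := by
        apply Real.log_le_log (by exact_mod_cast hdiv)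
        exact_mod_cast Nat.div_le_self Y a
      have h6 : 0 ≤ Real.log ((Y / a : ℕ) : ℝ) := Real.log_natCast_nonneg _
      calc _ ≤ (Y * (a : ℝ)⁻¹) * (1 + Real.log Y) ^ k := by gcongr
        _ = _ := by ring
    refine (Finset.sum_le_sum h3).trans ?_
    rw [← Finset.mul_sum]
    calc _ ≤ (Y * (1 + Real.log Y) ^ k) * (1 + Real.log Y) := by
          gcongr
          exact sum_inv_le Y
      _ = _ := by ring

/-- solutions of `∏ n_i = ∏ n'_i` with all entries in `{n ≤ N : Ω(n) = m}`. -/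
def sols (k N m : ℕ) : Finset ((Fin k → ℕ) × (Fin k → ℕ)) :=
  ((Fintype.piFinset fun _ => om m N) ×ˢ (Fintype.piFinset fun _ => om m N)).filter
    (fun x => ∏ i, x.1 i = ∏ i, x.2 i)

lemma mem_sols {k N m : ℕ} {x : (Fin k → ℕ) × (Fin k → ℕ)} : x ∈ sols k N m ↔
    (∀ i, x.1 i ∈ om m N) ∧ (∀ i, x.2 i ∈ om m N) ∧ ∏ i, x.1 i = ∏ i, x.2 i := by
  rw [sols, mem_filter, mem_product, Fintype.mem_piFinset, Fintype.mem_piFinset, and_assoc]

/-- a refinement matrix for every solution. -/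
lemma exists_matrix {k N m : ℕ} {x : (Fin k → ℕ) × (Fin k → ℕ)} (hx : x ∈ sols k N m) :
    ∃ d : Fin k → Fin k → ℕ, (∀ i, ∏ j, d i j = x.1 i) ∧ (∀ j, ∏ i, d i j = x.2 j) := by
  rw [mem_sols] at hx
  obtain ⟨h1, h2, h3⟩ := hx
  obtain ⟨d, hd1, hd2⟩ := refinement univ univ x.1 x.2
    (fun i _ => by have := (mem_om.mp (h1 i)).1.1; omega)
    (fun i _ => by have := (mem_om.mp (h2 i)).1.1; omega) h3
  exact ⟨d, fun i => hd1 i (mem_univ _), fun j => hd2 j (mem_univ _)⟩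

lemma matrix_pos {k N m : ℕ} {x : (Fin k → ℕ) × (Fin k → ℕ)} (hx : x ∈ sols k N m)
    {d : Fin k → Fin k → ℕ} (hd : ∀ i, ∏ j, d i j = x.1 i) : ∀ i j, 0 < d i j := by
  intro i j
  rw [mem_sols] at hx
  have h1 : 0 < x.1 i := by have := (mem_om.mp (hx.1 i)).1.1; omega
  rw [← hd i] at h1
  exact Nat.pos_of_ne_zero fun h0 => by
    rw [Finset.prod_eq_zero (mem_univ j) h0] at h1
    exact lt_irrefl _ h1

/-- number of solutions with a small entry `x.1 i0 ≤ Y`. -/
lemma card_small (k N m Y : ℕ) (hY : Y ≤ N) (i0 : Fin (k+1)) :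
    (#((sols (k+1) N m).filter (fun x => x.1 i0 ≤ Y)) : ℝ) ≤
      Y * (N : ℝ) ^ k * (1 + Real.log N) ^ ((k+1) * k) := by
  classical
  have hch : ∀ x : (Fin (k+1) → ℕ) × (Fin (k+1) → ℕ), ∃ d : Fin (k+1) → Fin (k+1) → ℕ,
      x ∈ sols (k+1) N m → (∀ i, ∏ j, d i j = x.1 i) ∧ (∀ j, ∏ i, d i j = x.2 j) := by
    intro x
    by_cases hx : x ∈ sols (k+1) N m
    · obtain ⟨d, hd⟩ := exists_matrix hx
      exact ⟨d, fun _ => hd⟩
    · exact ⟨fun _ _ => 0, fun h => absurd h hx⟩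
  choose D hD using hch
  set Nf : Fin (k+1) → ℕ := fun i => if i = i0 then Y else N with hNf
  have h1 : #((sols (k+1) N m).filter (fun x => x.1 i0 ≤ Y)) ≤
      #(Fintype.piFinset (fun i : Fin (k+1) => tup (k+1) (Nf i))) := by
    apply Finset.card_le_card_of_injOn D
    · intro x hx
      rw [mem_coe, mem_filter] at hx
      obtain ⟨hx1, hx2⟩ := hx
      obtain ⟨hd1, hd2⟩ := hD x hx1
      rw [mem_coe, Fintype.mem_piFinset]
      intro i
      apply mem_tup (fun j => matrix_pos hx1 hd1 i j)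
      rw [hd1 i, hNf]
      simp only
      split_ifs with h
      · rw [h]; exact hx2
      · exact (mem_om.mp ((mem_sols.mp hx1).1 i)).1.2
    · intro x hx y hy hxy
      rw [mem_coe, mem_filter] at hx hy
      obtain ⟨hx1, hx2⟩ := hD x hx.1
      obtain ⟨hy1, hy2⟩ := hD y hy.1
      ext i
      · rw [← hx1 i, ← hy1 i, hxy]
      · rw [← hx2 i, ← hy2 i, hxy]
  have h2 : (#(Fintype.piFinset (fun i : Fin (k+1) => tup (k+1) (Nf i))) : ℝ) =
      ∏ i : Fin (k+1), (#(tup (k+1) (Nf i)) : ℝ) := by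
    rw [Fintype.card_piFinset, Nat.cast_prod]
  have h3 : (#((sols (k+1) N m).filter (fun x => x.1 i0 ≤ Y)) : ℝ) ≤
      #(Fintype.piFinset (fun i : Fin (k+1) => tup (k+1) (Nf i))) := by exact_mod_cast h1
  refine h3.trans ?_
  rw [h2, ← Finset.mul_prod_erase univ _ (mem_univ i0)]
  have hlN : 0 ≤ Real.log N := Real.log_natCast_nonneg N
  have h4 : (#(tup (k+1) (Nf i0)) : ℝ) ≤ Y * (1 + Real.log N) ^ k := by
    rw [hNf]; simp only [if_true]
    refine (card_tup_le k Y).trans ?_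
    rcases Nat.eq_zero_or_pos Y with h0 | h0
    · subst h0; simp
    · have : Real.log Y ≤ Real.log N :=
        Real.log_le_log (by exact_mod_cast h0) (by exact_mod_cast hY)
      have h5 : 0 ≤ Real.log Y := Real.log_natCast_nonneg _
      gcongr
  have h5 : ∏ i ∈ univ.erase i0, (#(tup (k+1) (Nf i)) : ℝ) ≤ (N * (1 + Real.log N) ^ k) ^ k := by
    calc ∏ i ∈ univ.erase i0, (#(tup (k+1) (Nf i)) : ℝ)
        ≤ ∏ i ∈ univ.erase i0, (N * (1 + Real.log N) ^ k : ℝ) := by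
          apply Finset.prod_le_prod (fun _ _ => by positivity)
          intro i hi
          rw [mem_erase] at hi
          rw [hNf]; simp only [hi.1, if_false]
          exact card_tup_le k N
      _ = _ := by
        rw [Finset.prod_const, Finset.card_erase_of_mem (mem_univ _), Finset.card_univ,
          Fintype.card_fin, Nat.add_sub_cancel]
  calc _ ≤ (Y * (1 + Real.log N) ^ k) * (N * (1 + Real.log N) ^ k) ^ k :=
        mul_le_mul h4 h5 (Finset.prod_nonneg fun _ _ => Nat.cast_nonneg _) (by positivity)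
    _ = Y * (N : ℝ) ^ k * ((1 + Real.log N) ^ k * ((1 + Real.log N) ^ k) ^ k) := by ring
    _ = _ := by rw [← pow_mul, ← pow_add]; congr 2; ring

lemma swap_mem_sols {k N m : ℕ} {x : (Fin k → ℕ) × (Fin k → ℕ)} (hx : x ∈ sols k N m) :
    x.swap ∈ sols k N m := by
  rw [mem_sols] at hx ⊢
  exact ⟨hx.2.1, hx.1, hx.2.2.symm⟩

/-- all solutions having some small entry. -/
lemma card_small_all (k N m Y : ℕ) (hY : Y ≤ N) :
    (#((sols (k+1) N m).filter (fun x => ∃ i, x.1 i ≤ Y ∨ x.2 i ≤ Y)) : ℝ) ≤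
      2 * (k+1) * (Y * (N : ℝ) ^ k * (1 + Real.log N) ^ ((k+1) * k)) := by
  classical
  have h1 : (sols (k+1) N m).filter (fun x => ∃ i, x.1 i ≤ Y ∨ x.2 i ≤ Y) ⊆
      univ.biUnion (fun i : Fin (k+1) => (sols (k+1) N m).filter (fun x => x.1 i ≤ Y)) ∪
      univ.biUnion (fun i : Fin (k+1) => (sols (k+1) N m).filter (fun x => x.2 i ≤ Y)) := by
    intro x hx
    rw [mem_filter] at hx
    obtain ⟨hx1, i, hi | hi⟩ := hx
    · rw [mem_union, mem_biUnion]; left; exact ⟨i, mem_univ _, mem_filter.mpr ⟨hx1, hi⟩⟩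
    · rw [mem_union, mem_biUnion, mem_biUnion]; right; exact ⟨i, mem_univ _, mem_filter.mpr ⟨hx1, hi⟩⟩
  have h2 : ∀ i : Fin (k+1), #((sols (k+1) N m).filter (fun x => x.2 i ≤ Y)) ≤
      #((sols (k+1) N m).filter (fun x => x.1 i ≤ Y)) := by
    intro i
    apply Finset.card_le_card_of_injOn Prod.swap
    · intro x hx
      rw [mem_coe, mem_filter] at hx ⊢
      exact ⟨swap_mem_sols hx.1, hx.2⟩
    · exact Prod.swap_injective.injOn
  set B := Y * (N : ℝ) ^ k * (1 + Real.log N) ^ ((k+1) * k) with hB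
  have h3 := Finset.card_le_card h1
  have h4 := h3.trans (Finset.card_union_le _ _)
  have h5 : #(univ.biUnion (fun i : Fin (k+1) => (sols (k+1) N m).filter (fun x => x.1 i ≤ Y))) ≤
      ∑ i : Fin (k+1), #((sols (k+1) N m).filter (fun x => x.1 i ≤ Y)) := Finset.card_biUnion_le
  have h6 : #(univ.biUnion (fun i : Fin (k+1) => (sols (k+1) N m).filter (fun x => x.2 i ≤ Y))) ≤
      ∑ i : Fin (k+1), #((sols (k+1) N m).filter (fun x => x.1 i ≤ Y)) :=
    Finset.card_biUnion_le.trans (Finset.sum_le_sum fun i _ => h2 i)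
  have h7 : (#((sols (k+1) N m).filter (fun x => ∃ i, x.1 i ≤ Y ∨ x.2 i ≤ Y)) : ℝ) ≤
      2 * ∑ i : Fin (k+1), (#((sols (k+1) N m).filter (fun x => x.1 i ≤ Y)) : ℝ) := by
    have : #((sols (k+1) N m).filter (fun x => ∃ i, x.1 i ≤ Y ∨ x.2 i ≤ Y)) ≤
      2 * ∑ i : Fin (k+1), #((sols (k+1) N m).filter (fun x => x.1 i ≤ Y)) := by omega
    exact_mod_cast this
  refine h7.trans ?_
  have h8 : ∑ i : Fin (k+1), (#((sols (k+1) N m).filter (fun x => x.1 i ≤ Y)) : ℝ) ≤
      ∑ i : Fin (k+1), B := Finset.sum_le_sum fun i _ => card_small k N m Y hY i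
  rw [Finset.sum_const, Finset.card_univ, Fintype.card_fin, nsmul_eq_mul] at h8
  push_cast at h8
  linarith

end Pool.Agent.MP6396c4
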