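import Mathlib
import Pool.Agent.Lib.MP_6396c4_an.Cfg
import Pool.Agent.Lib.MP_6396c4_an.Sols

open Finset ArithmeticFunction

noncomputable section

namespace Pool.Agent.MP6396c4

def zf (C1 : ℝ) (s : ℕ) : ℝ := Real.exp (Real.exp (s - C1))
def wf (s : ℕ) : ℝ := Real.exp (Real.exp s / 2)
def yf (H : ℝ) (s : ℕ) : ℝ := Real.exp ((H + 1) * Real.exp s)

def BB (C1 z0 : ℝ) (s n : ℕ) : Finset (Finset ℕ) :=
  (powersetCard n (prI z0 (zf C1 s))).filter (fun B => ∑ p ∈ B, Real.log p ≤ Real.exp s / 2)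

def RR (H : ℝ) (s : ℕ) : Finset ℕ := prI (Real.exp (Real.exp s)) (Real.exp (H * Real.exp s))

def xf {k : ℕ} (u u' : Fin (k+1) → ℕ) (r : Fin k → ℕ) (i : Fin k) : ℝ :=
  r i * u' i.castSucc / u i.castSucc

def QQ {k : ℕ} (u u' : Fin (k+1) → ℕ) (r : Fin k → ℕ) : Finset (Fin k → ℕ) :=
  Fintype.piFinset fun i => (prI (xf u u' r i) (4 * xf u u' r i)).erase (r i)

def Mf {k : ℕ} (u u' : Fin (k+1) → ℕ) (r q : Fin k → ℕ) (i : Fin (k+1)) : ℕ :=
  max (u i * cf k q r i) (u' i * cf k r q i)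

def VV {k : ℕ} (N m : ℕ) (y : ℝ) (lam : Fin (k+1) → ℕ) (u u' : Fin (k+1) → ℕ) (r q : Fin k → ℕ) :
    Finset (Fin (k+1) → ℕ) :=
  Fintype.piFinset fun i => rough y (N / Mf u u' r q i) (m - k - lam i)

abbrev CT (k : ℕ) : Type := Σ _ : ℕ, Σ _ : (Fin (k+1) → ℕ), Σ _ : Finset ℕ,
  Σ _ : (Fin (k+1) → ℕ) × (Fin (k+1) → ℕ), Σ _ : (Fin k → ℕ), Σ _ : (Fin k → ℕ), (Fin (k+1) → ℕ)

/-- the set of configurations -/
def cfgs (k N m : ℕ) (C1 H z0 : ℝ) (S : Finset ℕ) (Lm : ℕ → Finset (Fin (k+1) → ℕ)) :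
    Finset (CT k) :=
  S.sigma fun s => (Lm s).sigma fun lam => (BB C1 z0 s (∑ i, lam i)).sigma fun B =>
    (parts (k+1) lam B ×ˢ parts (k+1) lam B).sigma fun uu =>
      (Fintype.piFinset fun _ : Fin k => RR H s).sigma fun r =>
        (QQ uu.1 uu.2 r).sigma fun q => VV N m (yf H s) lam uu.1 uu.2 r q

lemma prod_le_exp (B : Finset ℕ) (hB : ∀ p ∈ B, p.Prime) {T : ℝ}
    (h : ∑ p ∈ B, Real.log p ≤ T) : ((∏ p ∈ B, p : ℕ) : ℝ) ≤ Real.exp T := by
  have h0 : (0:ℝ) < ((∏ p ∈ B, p : ℕ) : ℝ) := by exact_mod_cast prodP_pos B hB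
  rw [← Real.log_le_iff_le_exp h0]
  push_cast
  rw [Real.log_prod (fun p hp => by have := (hB p hp).pos; positivity)]
  exact h

lemma parts_facts {K : ℕ} {lam : Fin K → ℕ} {B : Finset ℕ} (hB : ∀ p ∈ B, p.Prime)
    {u : Fin K → ℕ} (hu : u ∈ parts K lam B) : (∀ i, 0 < u i) ∧
    (∀ i, u i ≤ ∏ p ∈ B, p) ∧ (∀ i, ∀ p : ℕ, p.Prime → p ∣ u i → p ∈ B) := by
  rw [mem_parts hB] at hu
  have hpos := prodP_pos B hB
  have hdvd : ∀ i, u i ∣ ∏ p ∈ B, p := by
    intro i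
    rw [← hu.1]
    exact Finset.dvd_prod_of_mem u (mem_univ i)
  refine ⟨fun i => Nat.pos_of_dvd_of_pos (hdvd i) hpos, fun i => Nat.le_of_dvd hpos (hdvd i), ?_⟩
  intro i p hp hpd
  obtain ⟨q, hq, hpq⟩ := (Prime.dvd_finsetProd_iff hp.prime _).mp (hpd.trans (hdvd i))
  rw [(Nat.prime_dvd_prime_iff_eq hp (hB q hq)).mp hpq]
  exact hq

/-- the pieces of a configuration form a good tuple -/
lemma cfg_good {k N m s : ℕ} {C1 H z0 : ℝ} (hz0 : 2 ≤ z0)
    (hs : 4 ≤ Real.exp (Real.exp s / 2))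
    {lam : Fin (k+1) → ℕ} {B : Finset ℕ} (hB : B ∈ BB C1 z0 s (∑ i, lam i))
    {u u' : Fin (k+1) → ℕ} (hu : u ∈ parts (k+1) lam B) (hu' : u' ∈ parts (k+1) lam B)
    {r : Fin k → ℕ} (hr : r ∈ Fintype.piFinset fun _ : Fin k => RR H s)
    {q : Fin k → ℕ} (hq : q ∈ QQ u u' r) {v : Fin (k+1) → ℕ}
    (hv : v ∈ VV N m (yf H s) lam u u' r q) :
    Good k (zf C1 s) (wf s) (yf H s) u u' r q v ∧
    (∀ i, Real.exp (Real.exp s / 2) ≤ xf u u' r i ∧
      xf u u' r i ≤ Real.exp ((H + 1/2) * Real.exp s)) := by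
  unfold BB at hB
  rw [mem_filter, mem_powersetCard] at hB
  obtain ⟨⟨hBs, hBc⟩, hBl⟩ := hB
  have hz0' : (0:ℝ) ≤ zf C1 s := (Real.exp_pos _).le
  have hBp : ∀ p ∈ B, p.Prime := fun p hp => ((mem_prI hz0').mp (hBs hp)).1
  obtain ⟨hu0, hule, hup⟩ := parts_facts hBp hu
  obtain ⟨hu0', hule', hup'⟩ := parts_facts hBp hu'
  have hE0 : 0 < Real.exp (s:ℝ) := Real.exp_pos _
  have hprod := prod_le_exp B hBp hBl
  have hul : ∀ i, (1:ℝ) ≤ u i ∧ (u i : ℝ) ≤ Real.exp (Real.exp s / 2) := fun i =>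
    ⟨by exact_mod_cast hu0 i, le_trans (by exact_mod_cast hule i) hprod⟩
  have hul' : ∀ i, (1:ℝ) ≤ u' i ∧ (u' i : ℝ) ≤ Real.exp (Real.exp s / 2) := fun i =>
    ⟨by exact_mod_cast hu0' i, le_trans (by exact_mod_cast hule' i) hprod⟩
  rw [Fintype.mem_piFinset] at hr
  have hr' : ∀ i, (r i).Prime ∧ Real.exp (Real.exp s) < r i ∧
      (r i : ℝ) ≤ Real.exp (H * Real.exp s) := fun i =>
    (mem_prI (Real.exp_pos _).le).mp (hr i)
  have hx : ∀ i, Real.exp (Real.exp s / 2) ≤ xf u u' r i ∧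
      xf u u' r i ≤ Real.exp ((H + 1/2) * Real.exp s) := by
    intro i
    have h1 := hul i.castSucc
    have h2 := hul' i.castSucc
    have h3 := hr' i
    have hr0 : (0:ℝ) < r i := by exact_mod_cast h3.1.pos
    unfold xf
    constructor
    · rw [le_div_iff₀ (by linarith)]
      calc Real.exp (Real.exp s / 2) * u i.castSucc
          ≤ Real.exp (Real.exp s / 2) * Real.exp (Real.exp s / 2) := by
            have := h1.2
            gcongr
        _ = Real.exp (Real.exp s) := by rw [← Real.exp_add]; congr 1; ring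
        _ ≤ r i := h3.2.1.le
        _ ≤ r i * u' i.castSucc := by nlinarith [h2.1]
    · rw [div_le_iff₀ (by linarith)]
      calc (r i : ℝ) * u' i.castSucc ≤ Real.exp (H * Real.exp s) * Real.exp (Real.exp s / 2) := by
            have := h2.2
            have := h3.2.2
            gcongr
        _ = Real.exp ((H + 1/2) * Real.exp s) := by rw [← Real.exp_add]; congr 1; ring
        _ ≤ Real.exp ((H + 1/2) * Real.exp s) * u i.castSucc := by
            have := h1.1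
            have h4 := Real.exp_pos ((H + 1/2) * Real.exp (s:ℝ))
            nlinarith
  refine ⟨?_, hx⟩
  unfold QQ at hq
  rw [Fintype.mem_piFinset] at hq
  have hq' : ∀ i, q i ≠ r i ∧ (q i).Prime ∧ xf u u' r i < q i ∧ (q i : ℝ) ≤ 4 * xf u u' r i := by
    intro i
    have h1 := hq i
    rw [mem_erase, mem_prI (by have := (hx i).1; have := Real.exp_pos (Real.exp (s:ℝ) / 2); linarith)] at h1
    exact h1
  unfold VV at hv
  rw [Fintype.mem_piFinset] at hv
  have hv' : ∀ i, (1 ≤ v i ∧ (v i : ℝ) ≤ N / Mf u u' r q i) ∧ Squarefree (v i) ∧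
      cardFactors (v i) = m - k - lam i ∧ ∀ p ∈ (v i).primeFactors, yf H s < p := by
    intro i
    exact (mem_rough (by positivity)).mp (hv i)
  have hw2 : wf s ≤ Real.exp (Real.exp s) := by
    unfold wf
    apply Real.exp_le_exp.mpr; linarith
  constructor
  · exact hu0
  · exact hu0'
  · intro i p hp hpd
    have h1 := (mem_prI hz0').mp (hBs (hup i p hp hpd))
    refine ⟨?_, h1.2.2⟩
    have : (2:ℝ) < p := by linarith [h1.2.1]
    exact_mod_cast this
  · intro i p hp hpd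
    have h1 := (mem_prI hz0').mp (hBs (hup' i p hp hpd))
    refine ⟨?_, h1.2.2⟩
    have : (2:ℝ) < p := by linarith [h1.2.1]
    exact_mod_cast this
  · intro i
    refine ⟨(hr' i).1, lt_of_le_of_lt hw2 (hr' i).2.1, (hr' i).2.2.trans ?_⟩
    unfold yf
    apply Real.exp_le_exp.mpr
    gcongr
    linarith
  · intro i
    refine ⟨(hq' i).2.1, lt_of_le_of_lt (hx i).1 (hq' i).2.2.1, (hq' i).2.2.2.trans ?_⟩
    calc 4 * xf u u' r i ≤ Real.exp (Real.exp s / 2) * Real.exp ((H + 1/2) * Real.exp s) := by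
          have := (hx i).2
          have h0 : 0 ≤ xf u u' r i := le_trans (Real.exp_pos _).le (hx i).1
          gcongr
      _ = yf H s := by unfold yf; rw [← Real.exp_add]; congr 1; ring
  · intro i h; exact (hq' i).1 h.symm
  · intro i; exact (hv' i).1.1
  · intro i p hp hpd
    exact (hv' i).2.2.2 p (Nat.mem_primeFactors.mpr ⟨hp, hpd, by have := (hv' i).1.1; omega⟩)

lemma cardFactors_cf {k : ℕ} (hk : 1 ≤ k) {q r : Fin k → ℕ} (hq : ∀ i, (q i).Prime)
    (hr : ∀ i, (r i).Prime) (i : Fin (k+1)) : cardFactors (cf k q r i) = k := by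
  induction i using Fin.lastCases with
  | last =>
    rw [cf_last]
    have h1 : ∀ s : Finset (Fin k), cardFactors (∏ i ∈ s, r i) = #s := by
      intro s
      classical
      induction s using Finset.induction_on with
      | empty => simp
      | insert a s ha ih =>
        rw [Finset.prod_insert ha, card_insert_of_notMem ha,
          cardFactors_mul (hr a).ne_zero (Finset.prod_ne_zero_iff.mpr fun i _ => (hr i).ne_zero),
          ih, cardFactors_apply_prime (hr a)]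
        ring
    rw [h1]; simp
  | cast i =>
    rw [cf_castSucc, cardFactors_mul (by positivity) (hq i).ne_zero,
      cardFactors_apply_prime_pow Nat.prime_two, cardFactors_apply_prime (hq i)]
    omega

/-- The configurations inject into the solutions. -/
theorem cfgs_le_sols {k N m : ℕ} (hk : 1 ≤ k) {C1 H z0 : ℝ} (hC1 : 1 ≤ C1) (hH : 1 ≤ H)
    (hz0 : 2 ≤ z0) (S : Finset ℕ) (Lm : ℕ → Finset (Fin (k+1) → ℕ))
    (hS : ∀ s ∈ S, 4 ≤ Real.exp (Real.exp s / 2)) (hz : ∀ s ∈ S, 2 ≤ zf C1 s)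
    (hsep : ∀ s ∈ S, ∀ s' ∈ S, s < s' → yf H s ≤ wf s')
    (hLm : ∀ s ∈ S, ∀ lam ∈ Lm s, ∀ i, lam i + k ≤ m) :
    #(cfgs k N m C1 H z0 S Lm) ≤ #(sols (k+1) N m) := by
  classical
  set Φ : CT k → (Fin (k+1) → ℕ) × (Fin (k+1) → ℕ) := fun c =>
    (fun i => c.2.2.2.1.1 i * cf k c.2.2.2.2.2.1 c.2.2.2.2.1 i * c.2.2.2.2.2.2 i,
     fun i => c.2.2.2.1.2 i * cf k c.2.2.2.2.1 c.2.2.2.2.2.1 i * c.2.2.2.2.2.2 i) with hΦ
  have hzw : ∀ s : ℕ, zf C1 s ≤ wf s := by
    intro s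
    unfold zf wf
    apply Real.exp_le_exp.mpr
    rw [Real.exp_sub]
    have h2 : (2:ℝ) ≤ Real.exp C1 := by
      have := Real.add_one_le_exp C1; linarith
    have := Real.exp_pos (s:ℝ)
    gcongr
  have hwy : ∀ s : ℕ, wf s ≤ yf H s := by
    intro s
    unfold yf wf
    apply Real.exp_le_exp.mpr
    have := Real.exp_pos (s:ℝ)
    nlinarith
  have hgood : ∀ c ∈ cfgs k N m C1 H z0 S Lm, Good k (zf C1 c.1) (wf c.1) (yf H c.1)
      c.2.2.2.1.1 c.2.2.2.1.2 c.2.2.2.2.1 c.2.2.2.2.2.1 c.2.2.2.2.2.2 := by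
    rintro ⟨s, lam, B, ⟨u, u'⟩, r, q, v⟩ hc
    unfold cfgs at hc
    simp only [mem_sigma, mem_product] at hc
    obtain ⟨hs, hlam, hB, ⟨hu, hu'⟩, hr, hq, hv⟩ := hc
    exact (cfg_good hz0 (hS s hs) hB hu hu' hr hq hv).1
  apply Finset.card_le_card_of_injOn Φ
  · rintro ⟨s, lam, B, ⟨u, u'⟩, r, q, v⟩ hc
    rw [mem_coe] at hc
    have hg := hgood _ hc
    unfold cfgs at hc
    simp only [mem_sigma, mem_product] at hc hg
    obtain ⟨hs, hlam, hB, ⟨hu, hu'⟩, hr, hq, hv⟩ := hc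
    have hBp : ∀ p ∈ B, p.Prime := by
      intro p hp
      unfold BB at hB
      rw [mem_filter, mem_powersetCard] at hB
      exact ((mem_prI (Real.exp_pos _).le).mp (hB.1.1 hp)).1
    rw [mem_parts hBp] at hu hu'
    unfold VV at hv
    rw [Fintype.mem_piFinset] at hv
    have hv' : ∀ i, (1 ≤ v i ∧ (v i : ℝ) ≤ N / Mf u u' r q i) ∧ Squarefree (v i) ∧
        cardFactors (v i) = m - k - lam i ∧ ∀ p ∈ (v i).primeFactors, yf H s < p := by
      intro i
      exact (mem_rough (by positivity)).mp (hv i)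
    have hMpos : ∀ i, 0 < Mf u u' r q i := by
      intro i
      exact lt_max_of_lt_left (Nat.mul_pos (hg.hu0 i) (hg.cf_pos i))
    have hle : ∀ i, Mf u u' r q i * v i ≤ N := by
      intro i
      have h1 := (hv' i).1.2
      rw [le_div_iff₀ (by exact_mod_cast hMpos i)] at h1
      have h2 : ((v i * Mf u u' r q i : ℕ) : ℝ) ≤ N := by push_cast; exact h1
      have h3 : v i * Mf u u' r q i ≤ N := by exact_mod_cast h2
      rw [mul_comm]; exact h3
    rw [mem_coe, mem_sols]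
    simp only [hΦ]
    have hΩ : ∀ i, lam i + k + (m - k - lam i) = m := by
      intro i
      have := hLm s hs lam hlam i
      omega
    refine ⟨fun i => ?_, fun i => ?_, ?_⟩
    · rw [mem_om]
      refine ⟨⟨?_, ?_⟩, ?_⟩
      · have := Nat.mul_pos (Nat.mul_pos (hg.hu0 i) (hg.cf_pos i)) (hg.hv0 i)
        omega
      · exact le_trans (Nat.mul_le_mul_right _ (le_max_left _ _)) (hle i)
      · rw [cardFactors_mul (Nat.mul_pos (hg.hu0 i) (hg.cf_pos i)).ne' (hg.hv0 i).ne',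
          cardFactors_mul (hg.hu0 i).ne' (hg.cf_pos i).ne', hu.2 i,
          cardFactors_cf hk (fun i => (hg.hq i).1) (fun i => (hg.hr i).1), (hv' i).2.2.1]
        exact hΩ i
    · rw [mem_om]
      refine ⟨⟨?_, ?_⟩, ?_⟩
      · have := Nat.mul_pos (Nat.mul_pos (hg.hu0' i) (hg.swap.cf_pos i)) (hg.hv0 i)
        omega
      · exact le_trans (Nat.mul_le_mul_right _ (le_max_right _ _)) (hle i)
      · rw [cardFactors_mul (Nat.mul_pos (hg.hu0' i) (hg.swap.cf_pos i)).ne' (hg.hv0 i).ne',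
          cardFactors_mul (hg.hu0' i).ne' (hg.swap.cf_pos i).ne', hu'.2 i,
          cardFactors_cf hk (fun i => (hg.hr i).1) (fun i => (hg.hq i).1), (hv' i).2.2.1]
        exact hΩ i
    · rw [Finset.prod_mul_distrib, Finset.prod_mul_distrib, Finset.prod_mul_distrib,
        Finset.prod_mul_distrib, hu.1, hu'.1, prod_cf, prod_cf]
      ring
  · rintro ⟨s, lam, B, ⟨u, u'⟩, r, q, v⟩ hc ⟨s1, lam1, B1, ⟨u1, u1'⟩, r1, q1, v1⟩ hc1 heq
    rw [mem_coe] at hc hc1
    have hg := hgood _ hc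
    have hg1 := hgood _ hc1
    unfold cfgs at hc hc1
    simp only [mem_sigma, mem_product] at hc hg hc1 hg1
    obtain ⟨hs, hlam, hB, ⟨hu, hu'⟩, hr, hq, hv⟩ := hc
    obtain ⟨hs1, hlam1, hB1, ⟨hu1, hu1'⟩, hr1, hq1, hv1⟩ := hc1
    simp only [hΦ, Prod.mk.injEq] at heq
    have hn : ∀ i, u i * cf k q r i * v i = u1 i * cf k q1 r1 i * v1 i := fun i => congrFun heq.1 i
    have hn' : ∀ i, u' i * cf k r q i * v i = u1' i * cf k r1 q1 i * v1 i :=
      fun i => congrFun heq.2 i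
    have hss : s = s1 := by
      rcases lt_trichotomy s s1 with h | h | h
      · exact (Good.cross hk (hz s hs) (hzw s) (hwy s) (hsep s hs s1 hs1 h) (hzw s1) hg hg1
          hn hn').elim
      · exact h
      · exact (Good.cross hk (hz s1 hs1) (hzw s1) (hwy s1) (hsep s1 hs1 s hs h) (hzw s) hg1 hg
          (fun i => (hn i).symm) (fun i => (hn' i).symm)).elim
    subst hss
    obtain ⟨e1, e2, e3⟩ := Good.inj_aux (hz s hs) (hzw s) (hwy s) hg hg1 hn
    obtain ⟨e4, e5, _⟩ := Good.inj_aux (hz s hs) (hzw s) (hwy s) hg.swap hg1.swap hn'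
    subst e1 e2 e3 e4 e5
    have hBp : ∀ p ∈ B, p.Prime := by
      intro p hp
      unfold BB at hB
      rw [mem_filter, mem_powersetCard] at hB
      exact ((mem_prI (Real.exp_pos _).le).mp (hB.1.1 hp)).1
    have hBp1 : ∀ p ∈ B1, p.Prime := by
      intro p hp
      unfold BB at hB1
      rw [mem_filter, mem_powersetCard] at hB1
      exact ((mem_prI (Real.exp_pos _).le).mp (hB1.1.1 hp)).1
    rw [mem_parts hBp] at hu
    rw [mem_parts hBp1] at hu1
    have hlam' : lam = lam1 := by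
      funext i
      rw [← hu.2 i, hu1.2 i]
    have hBB : B = B1 := prodP_inj hBp hBp1 (by rw [← hu.1, hu1.1])
    subst hlam' hBB
    rfl

end Pool.Agent.MP6396c4
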