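import Mathlib
import Pool.Agent.Lib.MP_6396c4_an.Cfg2

open Finset ArithmeticFunction

noncomputable section

namespace Pool.Agent.MP6396c4

/-- basic inequalities between the pieces -/
lemma Mf_bounds {k : ℕ} (_hk : 1 ≤ k) {u u' : Fin (k+1) → ℕ} {r q : Fin k → ℕ} {U : ℕ}
    (hu0 : ∀ i, 0 < u i) (hu0' : ∀ i, 0 < u' i) (hr : ∀ i, 0 < r i) (_hq0 : ∀ i, 0 < q i)
    (hU : ∏ i, u i = U) (hU' : ∏ i, u' i = U)
    (hq : ∀ i, xf u u' r i < q i ∧ (q i : ℝ) ≤ 4 * xf u u' r i) :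
    (∀ i : Fin k, (Mf u u' r q i.castSucc : ℝ) ≤ 2 ^ (k-1) * (u i.castSucc * q i)) ∧
    (Mf u u' r q (Fin.last k) : ℝ) ≤ 4 ^ k * (u (Fin.last k) * ∏ i, (r i : ℝ)) := by
  constructor
  · intro i
    unfold Mf
    rw [cf_castSucc, cf_castSucc]
    push_cast
    apply max_le
    · apply le_of_eq; ring
    · have h1 := (hq i).1
      have h2 : (0:ℝ) < u i.castSucc := by exact_mod_cast hu0 _
      unfold xf at h1
      rw [div_lt_iff₀ h2] at h1
      have h3 : (0:ℝ) < 2 ^ (k-1) := by positivity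
      nlinarith
  · unfold Mf
    rw [cf_last, cf_last]
    push_cast
    have hul : (0:ℝ) < u (Fin.last k) := by exact_mod_cast hu0 _
    have hR : (0:ℝ) < ∏ i, (r i : ℝ) := Finset.prod_pos fun i _ => by exact_mod_cast hr i
    apply max_le
    · have : (1:ℝ) ≤ 4 ^ k := one_le_pow₀ (by norm_num)
      nlinarith [mul_pos hul hR]
    · -- u'_last ∏ q ≤ 4^k u_last ∏ r
      have hP : (0:ℝ) < ∏ i : Fin k, (u i.castSucc : ℝ) :=
        Finset.prod_pos fun i _ => by exact_mod_cast hu0 _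
      have h1 : (∏ i, (q i : ℝ)) * ∏ i : Fin k, (u i.castSucc : ℝ) ≤
          4 ^ k * ((∏ i, (r i : ℝ)) * ∏ i : Fin k, (u' i.castSucc : ℝ)) := by
        rw [← Finset.prod_mul_distrib, ← Finset.prod_mul_distrib]
        have e : (4:ℝ) ^ k = ∏ _i : Fin k, (4:ℝ) := by
          rw [Finset.prod_const, card_univ, Fintype.card_fin]
        rw [e, ← Finset.prod_mul_distrib]
        apply Finset.prod_le_prod
        · intro i _; positivity
        · intro i _
          have h2 := (hq i).2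
          have h3 : (0:ℝ) < u i.castSucc := by exact_mod_cast hu0 _
          unfold xf at h2
          rw [mul_div_assoc', le_div_iff₀ h3] at h2
          linarith
      have hUr : (∏ i : Fin k, (u i.castSucc : ℝ)) * u (Fin.last k) = U := by
        rw [← hU, Fin.prod_univ_castSucc]; push_cast; rfl
      have hUr' : (∏ i : Fin k, (u' i.castSucc : ℝ)) * u' (Fin.last k) = U := by
        rw [← hU', Fin.prod_univ_castSucc]; push_cast; rfl
      have hul' : (0:ℝ) < u' (Fin.last k) := by exact_mod_cast hu0' _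
      have h2 : (u' (Fin.last k) * ∏ i, (q i : ℝ)) * ∏ i : Fin k, (u i.castSucc : ℝ) ≤
          (4 ^ k * (u (Fin.last k) * ∏ i, (r i : ℝ))) * ∏ i : Fin k, (u i.castSucc : ℝ) := by
        calc (u' (Fin.last k) * ∏ i, (q i : ℝ)) * ∏ i : Fin k, (u i.castSucc : ℝ)
            = u' (Fin.last k) * ((∏ i, (q i : ℝ)) * ∏ i : Fin k, (u i.castSucc : ℝ)) := by ring
          _ ≤ u' (Fin.last k) * (4 ^ k * ((∏ i, (r i : ℝ)) * ∏ i : Fin k, (u' i.castSucc : ℝ))) := by
              gcongr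
          _ = 4 ^ k * (∏ i, (r i : ℝ)) * ((∏ i : Fin k, (u' i.castSucc : ℝ)) * u' (Fin.last k)) := by
              ring
          _ = 4 ^ k * (∏ i, (r i : ℝ)) * ((∏ i : Fin k, (u i.castSucc : ℝ)) * u (Fin.last k)) := by
              rw [hUr, hUr']
          _ = _ := by ring
      exact le_of_mul_le_mul_right h2 hP

/-- product bound -/
lemma Mf_prod {k : ℕ} (hk : 1 ≤ k) {u u' : Fin (k+1) → ℕ} {r q : Fin k → ℕ} {U : ℕ}
    (hu0 : ∀ i, 0 < u i) (hu0' : ∀ i, 0 < u' i) (hr : ∀ i, 0 < r i) (hq0 : ∀ i, 0 < q i)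
    (hU : ∏ i, u i = U) (hU' : ∏ i, u' i = U)
    (hq : ∀ i, xf u u' r i < q i ∧ (q i : ℝ) ≤ 4 * xf u u' r i) :
    (1 / (2 ^ (k * (k-1)) * 4 ^ k)) * ((U:ℝ)⁻¹ * ((∏ i, (q i : ℝ)⁻¹) * ∏ i, (r i : ℝ)⁻¹)) ≤
      ∏ i, ((Mf u u' r q i : ℝ))⁻¹ := by
  obtain ⟨h1, h2⟩ := Mf_bounds hk hu0 hu0' hr hq0 hU hU' hq
  have hM0 : ∀ i, (0:ℝ) < Mf u u' r q i := by
    intro i
    have : 0 < Mf u u' r q i := by
      apply lt_max_of_lt_left
      apply Nat.mul_pos (hu0 i)
      induction i using Fin.lastCases with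
      | last => rw [cf_last]; exact Finset.prod_pos fun i _ => hr i
      | cast i => rw [cf_castSucc]; have := hq0 i; positivity
    exact_mod_cast this
  have hU0 : (0:ℝ) < U := by
    rw [← hU]; push_cast
    exact Finset.prod_pos fun i _ => by exact_mod_cast hu0 i
  have hR : (0:ℝ) < ∏ i, (r i : ℝ) := Finset.prod_pos fun i _ => by exact_mod_cast hr i
  have hQ : (0:ℝ) < ∏ i, (q i : ℝ) := Finset.prod_pos fun i _ => by exact_mod_cast hq0 i
  rw [Finset.prod_inv_distrib, Finset.prod_inv_distrib, Finset.prod_inv_distrib]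
  have hMp : (0:ℝ) < ∏ i, (Mf u u' r q i : ℝ) := Finset.prod_pos fun i _ => hM0 i
  have h3 : ∏ i, (Mf u u' r q i : ℝ) ≤ (2 ^ (k * (k-1)) * 4 ^ k) *
      (U * ((∏ i, (q i : ℝ)) * ∏ i, (r i : ℝ))) := by
    rw [Fin.prod_univ_castSucc]
    have hUr : (∏ i : Fin k, (u i.castSucc : ℝ)) * u (Fin.last k) = U := by
      rw [← hU, Fin.prod_univ_castSucc]; push_cast; rfl
    calc (∏ i : Fin k, (Mf u u' r q i.castSucc : ℝ)) * (Mf u u' r q (Fin.last k) : ℝ)
        ≤ (∏ i : Fin k, (2 ^ (k-1) * ((u i.castSucc : ℝ) * q i))) *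
          (4 ^ k * (u (Fin.last k) * ∏ i, (r i : ℝ))) := by
          apply mul_le_mul _ h2 (hM0 _).le (Finset.prod_nonneg fun i _ => by positivity)
          apply Finset.prod_le_prod
          · intro i _; exact (hM0 _).le
          · intro i _; exact h1 i
      _ = _ := by
          rw [Finset.prod_mul_distrib, Finset.prod_mul_distrib, Finset.prod_const, card_univ,
            Fintype.card_fin, ← pow_mul, mul_comm (k-1) k, ← hUr]
          ring
  rw [← mul_inv, ← mul_inv, one_div, ← mul_inv]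
  apply inv_anti₀ hMp h3

/-- size bound of a single `Mf` -/
lemma Mf_size {k : ℕ} (hk : 1 ≤ k) {u u' : Fin (k+1) → ℕ} {r q : Fin k → ℕ} {U : ℕ}
    (hu0 : ∀ i, 0 < u i) (hu0' : ∀ i, 0 < u' i) (hr : ∀ i, 0 < r i) (hq0 : ∀ i, 0 < q i)
    (hU : ∏ i, u i = U) (hU' : ∏ i, u' i = U)
    (hq : ∀ i, xf u u' r i < q i ∧ (q i : ℝ) ≤ 4 * xf u u' r i) {E H : ℝ} (hE : 0 ≤ E) (hH : 1 ≤ H)
    (hul : ∀ i, (u i : ℝ) ≤ Real.exp (E / 2)) (hrl : ∀ i, (r i : ℝ) ≤ Real.exp ((H + 1) * E))
    (hql : ∀ i, (q i : ℝ) ≤ Real.exp ((H + 1) * E)) (i : Fin (k+1)) :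
    Real.log (Mf u u' r q i) ≤ 2 * k + (k + 1) * (H + 1) * E := by
  obtain ⟨h1, h2⟩ := Mf_bounds hk hu0 hu0' hr hq0 hU hU' hq
  have hM0 : (0:ℝ) < Mf u u' r q i := by
    have : 0 < Mf u u' r q i := by
      apply lt_max_of_lt_left
      apply Nat.mul_pos (hu0 i)
      induction i using Fin.lastCases with
      | last => rw [cf_last]; exact Finset.prod_pos fun i _ => hr i
      | cast i => rw [cf_castSucc]; have := hq0 i; positivity
    exact_mod_cast this
  have hk1 : (1:ℝ) ≤ k := by exact_mod_cast hk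
  rw [Real.log_le_iff_le_exp hM0]
  have h4e : (4:ℝ) ≤ Real.exp 2 := by
    have : Real.exp 2 = Real.exp 1 * Real.exp 1 := by rw [← Real.exp_add]; norm_num
    have h := Real.exp_one_gt_d9
    rw [this]; nlinarith
  have h4 : (4:ℝ) ^ k ≤ Real.exp (2 * k) := by
    rw [mul_comm, Real.exp_nat_mul]
    gcongr
  have h5 : (2:ℝ) ^ (k-1) ≤ Real.exp (2 * k) := by
    refine le_trans ?_ h4
    calc (2:ℝ) ^ (k-1) ≤ 2 ^ k := pow_le_pow_right₀ (by norm_num) (by omega)
      _ ≤ 4 ^ k := by gcongr; norm_num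
  have hHE : 0 ≤ (H + 1) * E := by positivity
  induction i using Fin.lastCases with
  | last =>
    refine h2.trans ?_
    have h6 : ∏ i, (r i : ℝ) ≤ Real.exp (k * ((H + 1) * E)) := by
      calc ∏ i, (r i : ℝ) ≤ ∏ _i : Fin k, Real.exp ((H + 1) * E) := by
            apply Finset.prod_le_prod
            · intro i _; positivity
            · intro i _; exact hrl i
        _ = _ := by rw [Finset.prod_const, card_univ, Fintype.card_fin, ← Real.exp_nat_mul]
    calc (4:ℝ) ^ k * (u (Fin.last k) * ∏ i, (r i : ℝ))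
        ≤ Real.exp (2 * k) * (Real.exp (E / 2) * Real.exp (k * ((H + 1) * E))) := by
          have := hul (Fin.last k)
          have h7 : 0 ≤ ∏ i, (r i : ℝ) := Finset.prod_nonneg fun i _ => by positivity
          gcongr
      _ = Real.exp (2 * k + (E / 2 + k * ((H + 1) * E))) := by
          rw [← Real.exp_add, ← Real.exp_add]
      _ ≤ _ := by
          apply Real.exp_le_exp.mpr
          nlinarith
  | cast i =>
    refine (h1 i).trans ?_
    calc (2:ℝ) ^ (k-1) * (u i.castSucc * q i)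
        ≤ Real.exp (2 * k) * (Real.exp (E / 2) * Real.exp ((H + 1) * E)) := by
          have := hul i.castSucc
          have := hql i
          gcongr
      _ = Real.exp (2 * k + (E / 2 + (H + 1) * E)) := by
          rw [← Real.exp_add, ← Real.exp_add]
      _ ≤ _ := by
          apply Real.exp_le_exp.mpr
          nlinarith

end Pool.Agent.MP6396c4
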