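import Mathlib

open Finset

noncomputable section

namespace Pool.Agent.MP6396c4

variable {ι : Type*} [DecidableEq ι]

/-- elementary symmetric function of weights. -/
def es (w : ι → ℝ) (n : ℕ) (A : Finset ι) : ℝ := ∑ B ∈ powersetCard n A, ∏ p ∈ B, w p

/-- weighted length sums -/
def eg (w l : ι → ℝ) (n : ℕ) (A : Finset ι) : ℝ :=
  ∑ B ∈ powersetCard n A, (∏ p ∈ B, w p) * ∑ p ∈ B, l p

lemma powersetCard_succ_empty (n : ℕ) : powersetCard (n+1) (∅ : Finset ι) = ∅ :=
  Finset.powersetCard_eq_empty.mpr (by simp)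

lemma es_zero (w : ι → ℝ) (A : Finset ι) : es w 0 A = 1 := by simp [es]

lemma es_nonneg {w : ι → ℝ} (hw : ∀ i, 0 ≤ w i) (n : ℕ) (A : Finset ι) : 0 ≤ es w n A :=
  Finset.sum_nonneg fun _ _ => Finset.prod_nonneg fun i _ => hw i

lemma eg_nonneg {w l : ι → ℝ} (hw : ∀ i, 0 ≤ w i) (hl : ∀ i, 0 ≤ l i) (n : ℕ) (A : Finset ι) :
    0 ≤ eg w l n A :=
  Finset.sum_nonneg fun _ _ => mul_nonneg (Finset.prod_nonneg fun i _ => hw i)
    (Finset.sum_nonneg fun i _ => hl i)

lemma sum_powersetCard_insert (f : Finset ι → ℝ) (n : ℕ) (a : ι) (A : Finset ι) (ha : a ∉ A) :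
    ∑ B ∈ powersetCard (n+1) (insert a A), f B =
      ∑ B ∈ powersetCard (n+1) A, f B + ∑ B ∈ powersetCard n A, f (insert a B) := by
  rw [Finset.powersetCard_succ_insert ha, Finset.sum_union, Finset.sum_image]
  · intro x hx y hy hxy
    rw [mem_coe, mem_powersetCard] at hx hy
    have hax : a ∉ x := fun h => ha (hx.1 h)
    have hay : a ∉ y := fun h => ha (hy.1 h)
    rw [← Finset.erase_insert hax, ← Finset.erase_insert hay, hxy]
  · rw [Finset.disjoint_left]
    intro B hB hB2
    rw [mem_image] at hB2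
    obtain ⟨B', _, rfl⟩ := hB2
    rw [mem_powersetCard] at hB
    exact ha (hB.1 (mem_insert_self _ _))

lemma es_insert (w : ι → ℝ) (n : ℕ) (a : ι) (A : Finset ι) (ha : a ∉ A) :
    es w (n+1) (insert a A) = es w (n+1) A + w a * es w n A := by
  rw [es, sum_powersetCard_insert _ _ _ _ ha, es, es, Finset.mul_sum]
  congr 1
  apply Finset.sum_congr rfl
  intro B hB
  rw [mem_powersetCard] at hB
  rw [Finset.prod_insert (fun h => ha (hB.1 h))]

lemma eg_insert (w l : ι → ℝ) (n : ℕ) (a : ι) (A : Finset ι) (ha : a ∉ A) :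
    eg w l (n+1) (insert a A) = eg w l (n+1) A + w a * (eg w l n A + l a * es w n A) := by
  rw [eg, sum_powersetCard_insert _ _ _ _ ha, eg, eg, es, Finset.mul_sum, ← Finset.sum_add_distrib,
    Finset.mul_sum]
  congr 1
  apply Finset.sum_congr rfl
  intro B hB
  rw [mem_powersetCard] at hB
  have haB : a ∉ B := fun h => ha (hB.1 h)
  rw [Finset.prod_insert haB, Finset.sum_insert haB]
  ring

lemma pow_add_ge {S x : ℝ} (hS : 0 ≤ S) (hx : 0 ≤ x) (n : ℕ) :
    S ^ (n+1) + (n+1) * x * S ^ n ≤ (S + x) ^ (n+1) := by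
  induction n with
  | zero => simp
  | succ n ih =>
    have h1 : (S + x) ^ (n+1+1) = (S+x) ^ (n+1) * (S + x) := pow_succ _ _
    rw [h1]
    have h2 : (S ^ (n+1) + (n+1) * x * S ^ n) * (S + x) ≤ (S + x) ^ (n+1) * (S + x) := by gcongr
    refine le_trans ?_ h2
    have h3 : 0 ≤ (n+1) * x * S ^ n * x := by positivity
    push_cast
    have e : (S ^ (n+1) + (n+1) * x * S ^ n) * (S + x) = S ^ (n+1+1) + (n+1+1) * x * S ^ (n+1)
      + (n+1) * x * S ^ n * x := by ring
    rw [e]; linarith

lemma pow_add_le {S x : ℝ} (hS : 0 ≤ S) (hx : 0 ≤ x) (n : ℕ) :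
    (S + x) ^ (n+2) ≤ S ^ (n+2) + (n+2) * x * S ^ (n+1) +
      ((n+2) * (n+1) / 2) * x ^ 2 * (S + x) ^ n := by
  induction n with
  | zero => simp; nlinarith
  | succ n ih =>
    have h1 : (S + x) ^ (n+1+2) = (S+x) ^ (n+2) * (S + x) := by rw [← pow_succ]
    rw [h1]
    have h2 : (S+x) ^ (n+2) * (S + x) ≤ (S ^ (n+2) + (n+2) * x * S ^ (n+1) +
      ((n+2) * (n+1) / 2) * x ^ 2 * (S + x) ^ n) * (S + x) := by gcongr
    refine h2.trans ?_
    have h3 : S ^ (n+1) ≤ (S + x) ^ (n+1) := by gcongr; linarith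
    have h4 : ((n:ℝ)+2) * x ^ 2 * S ^ (n+1) ≤ ((n:ℝ)+2) * x ^ 2 * (S + x) ^ (n+1) := by gcongr
    push_cast
    have e1 : (S ^ (n+2) + (n+2) * x * S ^ (n+1) +
      ((n+2) * (n+1) / 2) * x ^ 2 * (S + x) ^ n) * (S + x) =
      S ^ (n+1+2) + ((n+1)+2) * x * S ^ (n+1+1) + ((n:ℝ)+2) * x ^ 2 * S ^ (n+1) +
      ((n+2) * (n+1) / 2) * x ^ 2 * (S + x) ^ (n+1) := by ring
    rw [e1]
    have e2 : ((((n:ℝ)+1)+2) * (((n:ℝ)+1)+1) / 2) * x ^ 2 * (S + x) ^ (n+1) =
      ((n:ℝ)+2) * x ^ 2 * (S + x) ^ (n+1) + ((n+2) * (n+1) / 2) * x ^ 2 * (S + x) ^ (n+1) := by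
      ring
    rw [e2]
    linarith

lemma es_upper {w : ι → ℝ} (hw : ∀ i, 0 ≤ w i) (A : Finset ι) :
    ∀ n, es w n A ≤ (∑ p ∈ A, w p) ^ n / n.factorial := by
  induction A using Finset.induction_on with
  | empty =>
    intro n
    rcases n with _ | n
    · simp [es]
    · simp [es, powersetCard_succ_empty]
  | insert a A ha ih =>
    intro n
    rcases n with _ | n
    · simp [es_zero]
    rw [es_insert w n a A ha, Finset.sum_insert ha]
    set S := ∑ p ∈ A, w p with hS
    have hS0 : 0 ≤ S := Finset.sum_nonneg fun i _ => hw i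
    have h1 := ih (n+1)
    have h2 := ih n
    have hfp : (0:ℝ) < (n+1).factorial := by exact_mod_cast Nat.factorial_pos _
    have hfp' : (0:ℝ) < n.factorial := by exact_mod_cast Nat.factorial_pos _
    have hf : ((n+1).factorial : ℝ) = (n+1) * n.factorial := by
      rw [Nat.factorial_succ]; push_cast; ring
    have h3 := pow_add_ge hS0 (hw a) n
    calc _ ≤ S ^ (n+1) / (n+1).factorial + w a * (S ^ n / n.factorial) := by
          have := hw a
          gcongr
      _ = (S ^ (n+1) + (n+1) * w a * S ^ n) / (n+1).factorial := by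
          rw [hf]; field_simp
      _ ≤ _ := by rw [add_comm (w a) S]; gcongr

lemma es_lower {w : ι → ℝ} (hw : ∀ i, 0 ≤ w i) (A : Finset ι) :
    (es w 1 A = ∑ p ∈ A, w p) ∧ ∀ n, (∑ p ∈ A, w p) ^ (n+2) / (n+2).factorial -
      (∑ p ∈ A, w p ^ 2) / 2 * ((∑ p ∈ A, w p) ^ n / n.factorial) ≤ es w (n+2) A := by
  induction A using Finset.induction_on with
  | empty =>
    refine ⟨by simp [es, Finset.powersetCard_one], fun n => ?_⟩
    simp [es, powersetCard_succ_empty]
  | insert a A ha ih =>
    obtain ⟨ih1, ih2⟩ := ih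
    have hone : es w 1 (insert a A) = ∑ p ∈ insert a A, w p := by
      rw [es_insert w 0 a A ha, es_zero, Finset.sum_insert ha, zero_add, ih1]; ring
    refine ⟨hone, fun n => ?_⟩
    rw [es_insert w (n+1) a A ha, Finset.sum_insert ha, Finset.sum_insert ha]
    set S := ∑ p ∈ A, w p with hS
    set P := ∑ p ∈ A, w p ^ 2 with hP
    set x := w a with hx
    have hS0 : 0 ≤ S := Finset.sum_nonneg fun i _ => hw i
    have hP0 : 0 ≤ P := Finset.sum_nonneg fun i _ => by positivity
    have hx0 : 0 ≤ x := hw a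
    have hfp : (0:ℝ) < (n+2).factorial := by exact_mod_cast Nat.factorial_pos _
    have hfp1 : (0:ℝ) < (n+1).factorial := by exact_mod_cast Nat.factorial_pos _
    have hfp0 : (0:ℝ) < n.factorial := by exact_mod_cast Nat.factorial_pos _
    have hf2 : ((n+2).factorial : ℝ) = (n+2) * ((n+1) * n.factorial) := by
      rw [Nat.factorial_succ, Nat.factorial_succ]; push_cast; ring
    have hf1 : ((n+1).factorial : ℝ) = (n+1) * n.factorial := by
      rw [Nat.factorial_succ]; push_cast; ring
    -- Taylor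
    have hT := pow_add_le hS0 hx0 n
    have hT' : (S + x) ^ (n+2) / (n+2).factorial ≤ S ^ (n+2) / (n+2).factorial +
        x * (S ^ (n+1) / (n+1).factorial) + x ^ 2 / 2 * ((S + x) ^ n / n.factorial) := by
      have e : S ^ (n+2) / (n+2).factorial +
        x * (S ^ (n+1) / (n+1).factorial) + x ^ 2 / 2 * ((S + x) ^ n / n.factorial) =
        (S ^ (n+2) + (n+2) * x * S ^ (n+1) +
          ((n+2) * (n+1) / 2) * x ^ 2 * (S + x) ^ n) / (n+2).factorial := by
        rw [hf2, hf1]; field_simp
      rw [e]; gcongr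
    have h1 := ih2 n
    rw [add_comm x S]
    rcases n with _ | n
    · -- n = 0
      have h2 : es w (0+1) A = S := ih1
      rw [h2]
      simp only [zero_add, pow_zero, Nat.factorial_zero, Nat.cast_one, div_one, mul_one, pow_one,
        Nat.factorial_one] at *
      nlinarith
    · have h2 := ih2 n
      have h3 := pow_add_ge hS0 hx0 n
      have h4 : S ^ (n+1) / (n+1).factorial + x * (S ^ n / n.factorial) ≤
          (S + x) ^ (n+1) / (n+1).factorial := by
        have hfq : (0:ℝ) < n.factorial := by exact_mod_cast Nat.factorial_pos _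
        have hfr : ((n+1).factorial : ℝ) = (n+1) * n.factorial := by
          rw [Nat.factorial_succ]; push_cast; ring
        have e : S ^ (n+1) / (n+1).factorial + x * (S ^ n / n.factorial) =
          (S ^ (n+1) + (n+1) * x * S ^ n) / (n+1).factorial := by
          rw [hfr]; field_simp
        rw [e]; gcongr
      have h5 := mul_le_mul_of_nonneg_left h4 (show 0 ≤ P / 2 by positivity)
      have h6 := mul_le_mul_of_nonneg_left h2 hx0
      have e1 : (n + 1 + 1) = n + 2 := rfl
      have e2 : (P + x ^ 2) / 2 * ((S + x) ^ (n+1) / (n+1).factorial) =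
        P / 2 * ((S + x) ^ (n+1) / (n+1).factorial) +
        x ^ 2 / 2 * ((S + x) ^ (n+1) / (n+1).factorial) := by ring
      rw [add_comm (x ^ 2) P, e2]
      have e3 : x * (S ^ (n+2) / (n+2).factorial - P / 2 * (S ^ n / n.factorial)) =
        x * (S ^ (n+2) / (n+2).factorial) - P / 2 * (x * (S ^ n / n.factorial)) := by ring
      rw [e3] at h6
      have e4 : P / 2 * (S ^ (n + 1) / ↑(n + 1).factorial + x * (S ^ n / ↑n.factorial)) =
        P / 2 * (S ^ (n + 1) / ↑(n + 1).factorial) + P / 2 * (x * (S ^ n / ↑n.factorial)) := by ring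
      rw [e4] at h5
      rw [show n + 1 + 1 = n + 2 from rfl] at *
      linarith

lemma eg_upper {w l : ι → ℝ} (hw : ∀ i, 0 ≤ w i) (hl : ∀ i, 0 ≤ l i) (A : Finset ι) :
    (eg w l 0 A = 0) ∧ ∀ n, eg w l (n+1) A ≤
      (∑ p ∈ A, w p * l p) * ((∑ p ∈ A, w p) ^ n / n.factorial) := by
  refine ⟨by simp [eg], ?_⟩
  induction A using Finset.induction_on with
  | empty =>
    intro n
    simp [eg, powersetCard_succ_empty]
  | insert a A ha ih =>
    intro n
    rw [eg_insert w l n a A ha, Finset.sum_insert ha, Finset.sum_insert ha]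
    set S := ∑ p ∈ A, w p with hS
    set Θ := ∑ p ∈ A, w p * l p with hΘ
    set x := w a with hx
    have hS0 : 0 ≤ S := Finset.sum_nonneg fun i _ => hw i
    have hΘ0 : 0 ≤ Θ := Finset.sum_nonneg fun i _ => mul_nonneg (hw i) (hl i)
    have hx0 : 0 ≤ x := hw a
    have hla := hl a
    have hu := es_upper hw A n
    have h1 := ih n
    have hmono : S ^ n / n.factorial ≤ (x + S) ^ n / n.factorial := by gcongr; linarith
    rcases n with _ | n
    · have h0 : eg w l 0 A = 0 := by simp [eg]
      rw [h0, es_zero]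
      simp only [zero_add, pow_zero, Nat.factorial_zero, Nat.cast_one, div_one, mul_one] at *
      linarith
    · have h2 := ih n
      have h3 := pow_add_ge hS0 hx0 n
      have hfq : (0:ℝ) < n.factorial := by exact_mod_cast Nat.factorial_pos _
      have hfq1 : (0:ℝ) < (n+1).factorial := by exact_mod_cast Nat.factorial_pos _
      have hfr : ((n+1).factorial : ℝ) = (n+1) * n.factorial := by
        rw [Nat.factorial_succ]; push_cast; ring
      have h4 : S ^ (n+1) / (n+1).factorial + x * (S ^ n / n.factorial) ≤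
          (x + S) ^ (n+1) / (n+1).factorial := by
        have e : S ^ (n+1) / (n+1).factorial + x * (S ^ n / n.factorial) =
          (S ^ (n+1) + (n+1) * x * S ^ n) / (n+1).factorial := by
          rw [hfr]; field_simp
        rw [e, add_comm x S]; gcongr
      have h5 := mul_le_mul_of_nonneg_left h4 hΘ0
      have h6 := mul_le_mul_of_nonneg_left h2 hx0
      have h7 : x * (l a * es w (n+1) A) ≤ x * l a * ((x + S) ^ (n+1) / (n+1).factorial) := by
        rw [mul_assoc]
        apply mul_le_mul_of_nonneg_left _ hx0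
        apply mul_le_mul_of_nonneg_left _ hla
        exact hu.trans hmono
      have e4 : Θ * (S ^ (n + 1) / ↑(n + 1).factorial + x * (S ^ n / ↑n.factorial)) =
        Θ * (S ^ (n + 1) / ↑(n + 1).factorial) + x * (Θ * (S ^ n / ↑n.factorial)) := by ring
      rw [e4] at h5
      have e5 : x * (eg w l (n+1) A + l a * es w (n+1) A) =
        x * eg w l (n+1) A + x * (l a * es w (n+1) A) := by ring
      rw [e5, add_mul]
      linarith

/-- main lower bound for restricted elementary symmetric sums. -/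
theorem es_good {w l : ι → ℝ} (hw : ∀ i, 0 ≤ w i) (hl : ∀ i, 0 ≤ l i) (A : Finset ι) (n : ℕ)
    {κ T : ℝ} (_hκ : 0 ≤ κ) (hT : 0 < T) (hS : 0 < ∑ p ∈ A, w p)
    (hn : (n : ℝ) ≤ κ * ∑ p ∈ A, w p) (hP : κ ^ 2 * ∑ p ∈ A, w p ^ 2 ≤ 1)
    (hΘ : 4 * κ * ∑ p ∈ A, w p * l p ≤ T) :
    (∑ p ∈ A, w p) ^ n / n.factorial / 4 ≤
      ∑ B ∈ (powersetCard n A).filter (fun B => ∑ p ∈ B, l p ≤ T), ∏ p ∈ B, w p := by
  set S := ∑ p ∈ A, w p with hSd
  set P := ∑ p ∈ A, w p ^ 2 with hPd
  set Θ := ∑ p ∈ A, w p * l p with hΘd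
  have hP0 : 0 ≤ P := Finset.sum_nonneg fun i _ => by positivity
  have hΘ0 : 0 ≤ Θ := Finset.sum_nonneg fun i _ => mul_nonneg (hw i) (hl i)
  have hW0 : 0 ≤ S ^ n / n.factorial := by positivity
  -- lower bound of es
  have h1 : S ^ n / n.factorial / 2 ≤ es w n A := by
    rcases n with _ | _ | n
    · simp [es_zero]; norm_num
    · have := (es_lower hw A).1
      simp only [zero_add] at *
      rw [this]
      simp
      linarith
    · have h2 := (es_lower hw A).2 n
      refine le_trans ?_ h2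
      have hf2 : ((n+2).factorial : ℝ) = (n+2) * ((n+1) * n.factorial) := by
        rw [Nat.factorial_succ, Nat.factorial_succ]; push_cast; ring
      have hfp0 : (0:ℝ) < n.factorial := by exact_mod_cast Nat.factorial_pos _
      have e : P / 2 * (S ^ n / n.factorial) =
          (S ^ (n+2) / (n+2).factorial) / 2 * (((n:ℝ)+2) * (n+1) * P / S ^ 2) := by
        rw [hf2]; field_simp; ring
      have h3 : ((n:ℝ)+2) * (n+1) * P / S ^ 2 ≤ 1 := by
        rw [div_le_one (by positivity)]
        push_cast at hn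
        have h4 : ((n:ℝ)+2) * (n+1) ≤ (κ * S) ^ 2 := by
          have : (0:ℝ) ≤ n := Nat.cast_nonneg n
          nlinarith
        calc ((n:ℝ)+2) * (n+1) * P ≤ (κ * S) ^ 2 * P := by gcongr
          _ = κ ^ 2 * P * S ^ 2 := by ring
          _ ≤ 1 * S ^ 2 := by gcongr
          _ = S ^ 2 := one_mul _
      have h5 : P / 2 * (S ^ n / n.factorial) ≤ (S ^ (n+2) / (n+2).factorial) / 2 := by
        rw [e]
        calc _ ≤ (S ^ (n+2) / (n+2).factorial) / 2 * 1 := by gcongr
          _ = _ := mul_one _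
      have e2 : n + 1 + 1 = n + 2 := rfl
      rw [e2] at *
      linarith
  -- upper bound of bad part
  have h2 : ∑ B ∈ (powersetCard n A).filter (fun B => ¬ ∑ p ∈ B, l p ≤ T), ∏ p ∈ B, w p ≤
      S ^ n / n.factorial / 4 := by
    have h3 : T * ∑ B ∈ (powersetCard n A).filter (fun B => ¬ ∑ p ∈ B, l p ≤ T), ∏ p ∈ B, w p ≤
        eg w l n A := by
      rw [Finset.mul_sum, eg]
      calc _ ≤ ∑ B ∈ (powersetCard n A).filter (fun B => ¬ ∑ p ∈ B, l p ≤ T),
            (∏ p ∈ B, w p) * ∑ p ∈ B, l p := by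
            apply Finset.sum_le_sum
            intro B hB
            rw [mem_filter] at hB
            rw [mul_comm]
            apply mul_le_mul_of_nonneg_left _ (Finset.prod_nonneg fun i _ => hw i)
            linarith [not_le.mp hB.2]
        _ ≤ _ := Finset.sum_le_sum_of_subset_of_nonneg (filter_subset _ _)
            (fun B _ _ => mul_nonneg (Finset.prod_nonneg fun i _ => hw i)
              (Finset.sum_nonneg fun i _ => hl i))
    rcases n with _ | n
    · have h0 : eg w l 0 A = 0 := by simp [eg]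
      rw [h0] at h3
      have : ∑ B ∈ (powersetCard 0 A).filter (fun B => ¬ ∑ p ∈ B, l p ≤ T), ∏ p ∈ B, w p ≤ 0 := by
        by_contra hc
        have := mul_pos hT (not_le.mp hc)
        linarith
      exact this.trans (by positivity)
    · have h4 := (eg_upper hw hl A).2 n
      have h5 := h3.trans h4
      have hf1 : ((n+1).factorial : ℝ) = (n+1) * n.factorial := by
        rw [Nat.factorial_succ]; push_cast; ring
      have hfp0 : (0:ℝ) < n.factorial := by exact_mod_cast Nat.factorial_pos _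
      have h6 : Θ * (S ^ n / n.factorial) ≤ T * (S ^ (n+1) / (n+1).factorial / 4) := by
        have e : T * (S ^ (n+1) / (n+1).factorial / 4) =
            (S ^ n / n.factorial) * (T * S / (4 * (n+1))) := by
          rw [hf1]; field_simp; ring
        rw [e, mul_comm]
        apply mul_le_mul_of_nonneg_left _ (by positivity)
        rw [le_div_iff₀ (by positivity)]
        push_cast at hn
        calc Θ * (4 * (n+1)) ≤ Θ * (4 * (κ * S)) := by gcongr
          _ = 4 * κ * Θ * S := by ring
          _ ≤ T * S := by gcongr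
      exact le_of_mul_le_mul_left (h5.trans h6) hT
  have h3 := Finset.sum_filter_add_sum_filter_not (powersetCard n A)
    (fun B => ∑ p ∈ B, l p ≤ T) (fun B => ∏ p ∈ B, w p)
  rw [es] at h1
  linarith

end Pool.Agent.MP6396c4
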