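import Mathlib

open Complex Filter Topology

noncomputable section

namespace Pool.Agent.MP6396c4

open ArithmeticFunction in
/-- the function `log ζ` as an L-series -/
def zlog (s : ℂ) : ℂ := LSeries (fun n : ℕ => (vonMangoldt n : ℂ) / (Real.log n : ℝ)) s

lemma exp_zlog {s : ℂ} (hs : 1 < s.re) : exp (zlog s) = riemannZeta s :=
  riemannZeta_eq_exp_LSeries hs

open ArithmeticFunction in
lemma abscissa_zlog : LSeries.abscissaOfAbsConv
    (fun n : ℕ => (vonMangoldt n : ℂ) / (Real.log n : ℝ)) ≤ 1 := by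
  apply LSeries.abscissaOfAbsConv_le_of_le_const
  refine ⟨1, fun n hn => ?_⟩
  rw [norm_div, norm_real, norm_real, Real.norm_eq_abs, Real.norm_eq_abs,
    abs_of_nonneg vonMangoldt_nonneg, abs_of_nonneg (Real.log_natCast_nonneg n)]
  rcases Nat.eq_or_lt_of_le (Nat.one_le_iff_ne_zero.mpr hn) with h | h
  · subst h; simp
  · rw [div_le_one (Real.log_pos (by exact_mod_cast h))]
    exact vonMangoldt_le_log

lemma continuousOn_zlog : ContinuousOn zlog {s : ℂ | 1 < s.re} := by
  intro s hs
  have h1 : LSeries.abscissaOfAbsConv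
    (fun n : ℕ => (ArithmeticFunction.vonMangoldt n : ℂ) / (Real.log n : ℝ)) < s.re :=
    lt_of_le_of_lt abscissa_zlog (by exact_mod_cast hs)
  exact ((LSeries_hasDerivAt h1).continuousAt).continuousWithinAt

open ArithmeticFunction in
lemma zlog_ofReal {x : ℝ} (_hx : 1 < x) :
    zlog (x : ℂ) = ((∑' n : ℕ, vonMangoldt n / (n ^ x * Real.log n) : ℝ) : ℂ) := by
  rw [zlog, LSeries_def₀ (by simp), Complex.ofReal_tsum]
  congr 1
  ext n
  push_cast
  rw [ofReal_cpow (by positivity)]
  simp [field]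

/-- near `s = 1`, `log ζ(s) = -log (s-1) + O(1)`. -/
theorem zlog_bound : ∃ ρ : ℝ, 0 < ρ ∧ ρ ≤ 1 ∧ ∀ s : ℂ, 1 < s.re → ‖s - 1‖ < ρ →
    ‖zlog s + Real.log ‖s - 1‖‖ ≤ 10 := by
  have h := riemannZeta_residue_one
  rw [Metric.tendsto_nhdsWithin_nhds] at h
  obtain ⟨ρ0, hρ0, h⟩ := h (1/2) (by norm_num)
  refine ⟨min ρ0 1, lt_min hρ0 one_pos, min_le_right _ _, ?_⟩
  set U : Set ℂ := {s : ℂ | 1 < s.re} ∩ Metric.ball 1 (min ρ0 1) with hU
  have hconv : Convex ℝ U := by
    apply Convex.inter _ (convex_ball _ _)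
    exact convex_halfSpace_re_gt 1
  have hpre : IsPreconnected U := hconv.isPreconnected
  -- the function D
  set D : ℂ → ℂ := fun s => zlog s + Complex.log (s - 1) with hD
  have hslit : ∀ s ∈ U, s - 1 ∈ slitPlane := by
    intro s hs
    left
    have := hs.1
    simp only [Set.mem_ofPred_eq] at this
    simp; exact this
  have hDc : ContinuousOn D U := by
    apply ContinuousOn.add
    · exact continuousOn_zlog.mono Set.inter_subset_left
    · apply ContinuousOn.clog (by fun_prop)
      exact hslit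
  have hne : ∀ s ∈ U, s - 1 ≠ 0 := fun s hs h0 => by
    have := hslit s hs
    rw [h0] at this
    simp at this
  have hexp : ∀ s ∈ U, ‖exp (D s) - 1‖ < 1/2 := by
    intro s hs
    have h1 : exp (D s) = (s - 1) * riemannZeta s := by
      rw [hD]; simp only
      rw [Complex.exp_add, exp_zlog hs.1, Complex.exp_log (hne s hs), mul_comm]
    rw [h1]
    have h2 : dist s 1 < ρ0 := lt_of_lt_of_le (Metric.mem_ball.mp hs.2) (min_le_left _ _)
    have := h (x := s) (by
      simp only [Set.mem_compl_iff, Set.mem_singleton_iff]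
      intro h0; exact hne s hs (by rw [h0]; simp)) h2
    rwa [dist_eq_norm] at this
  -- imaginary part never equals π modulo sign
  have him : ∀ s ∈ U, Real.cos (D s).im > 0 := by
    intro s hs
    have h1 := hexp s hs
    have h2 : (exp (D s)).re > 0 := by
      have h3 : |(exp (D s) - 1).re| ≤ ‖exp (D s) - 1‖ := Complex.abs_re_le_norm _
      have h4 : (exp (D s) - 1).re = (exp (D s)).re - 1 := by simp
      rw [h4] at h3
      have := abs_le.mp (h3.trans h1.le)
      linarith [this.1]
    rw [Complex.exp_re] at h2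
    exact (pos_iff_pos_of_mul_pos h2).mp (Real.exp_pos _)
  -- a real base point
  set x0 : ℝ := 1 + min ρ0 1 / 2 with hx0
  have hmin : 0 < min ρ0 1 := lt_min hρ0 one_pos
  have hx1 : 1 < x0 := by rw [hx0]; linarith
  have hx0U : (x0 : ℂ) ∈ U := by
    refine ⟨by simpa using hx1, ?_⟩
    rw [Metric.mem_ball, dist_eq_norm]
    have : (x0 : ℂ) - 1 = ((min ρ0 1 / 2 : ℝ) : ℂ) := by rw [hx0]; push_cast; ring
    rw [this, norm_real, Real.norm_eq_abs, abs_of_pos (by linarith)]
    linarith
  have hD0 : (D x0).im = 0 := by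
    rw [hD]; simp only
    have : (x0 : ℂ) - 1 = ((min ρ0 1 / 2 : ℝ) : ℂ) := by rw [hx0]; push_cast; ring
    rw [zlog_ofReal hx1, this, ← Complex.ofReal_log (by linarith), ← Complex.ofReal_add,
      Complex.ofReal_im]
  have himc : ContinuousOn (fun s => (D s).im) U := Complex.continuous_im.comp_continuousOn hDc
  have habs : ∀ s ∈ U, |(D s).im| < Real.pi / 2 := by
    intro s hs
    by_contra hcon
    push Not at hcon
    rcases le_or_gt 0 (D s).im with h0 | h0
    · rw [abs_of_nonneg h0] at hcon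
      have := hpre.intermediate_value hx0U hs himc
      have hmem : Real.pi / 2 ∈ Set.Icc (D x0).im (D s).im := ⟨by rw [hD0]; positivity, hcon⟩
      obtain ⟨t, ht, ht2⟩ := this hmem
      have h3 := him t ht
      simp only at ht2
      rw [ht2, Real.cos_pi_div_two] at h3
      exact lt_irrefl _ h3
    · rw [abs_of_neg h0] at hcon
      have := hpre.intermediate_value hs hx0U himc
      have hmem : -(Real.pi / 2) ∈ Set.Icc (D s).im (D x0).im :=
        ⟨by linarith, by rw [hD0]; linarith [Real.pi_pos]⟩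
      obtain ⟨t, ht, ht2⟩ := this hmem
      have h3 := him t ht
      simp only at ht2
      rw [ht2, Real.cos_neg, Real.cos_pi_div_two] at h3
      exact lt_irrefl _ h3
  intro s hs1 hs2
  have hs : s ∈ U := ⟨hs1, by rwa [Metric.mem_ball, dist_eq_norm]⟩
  have hre : |(D s).re| ≤ 1 := by
    have h1 := hexp s hs
    have h2 : ‖exp (D s)‖ = Real.exp (D s).re := Complex.norm_exp _
    have h3 : |‖exp (D s)‖ - ‖(1:ℂ)‖| ≤ ‖exp (D s) - 1‖ := abs_norm_sub_norm_le _ _
    rw [h2, norm_one] at h3
    have h4 := abs_le.mp (h3.trans h1.le)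
    have e1 : Real.exp 1 > 2.7 := lt_trans (by norm_num) Real.exp_one_gt_d9
    rw [abs_le]
    constructor
    · by_contra hc
      push Not at hc
      have : Real.exp (D s).re < Real.exp (-1) := Real.exp_lt_exp.mpr hc
      rw [Real.exp_neg] at this
      have h5 : (Real.exp 1)⁻¹ < 1/2 := by
        rw [inv_lt_comm₀ (by linarith) (by norm_num)]; linarith
      linarith [h4.1]
    · by_contra hc
      push Not at hc
      have : Real.exp 1 < Real.exp (D s).re := Real.exp_lt_exp.mpr hc
      linarith [h4.2]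
  have hlog : Complex.log (s - 1) = (Real.log ‖s - 1‖ : ℝ) + (Complex.arg (s-1)) * I := rfl
  have key : zlog s + Real.log ‖s - 1‖ = D s - (Complex.arg (s-1)) * I := by
    rw [hD]; simp only
    rw [hlog]; ring
  rw [key]
  have hDn : ‖D s‖ ≤ |(D s).re| + |(D s).im| := Complex.norm_le_abs_re_add_abs_im _
  have harg : ‖((Complex.arg (s-1) : ℝ) : ℂ) * I‖ ≤ Real.pi := by
    rw [norm_mul, norm_real, norm_I, mul_one, Real.norm_eq_abs]
    exact Complex.abs_arg_le_pi _
  calc _ ≤ ‖D s‖ + ‖((Complex.arg (s-1) : ℝ) : ℂ) * I‖ := norm_sub_le _ _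
    _ ≤ 10 := by linarith [habs s hs, Real.pi_lt_four]

end Pool.Agent.MP6396c4
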