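import Mathlib
import Pool.Agent.Lib.MP_6396c4_an.ZetaLog

open Complex Filter Topology

noncomputable section

namespace Pool.Agent.MP6396c4

open ArithmeticFunction in
/-- the completely multiplicative function `n ↦ z ^ Ω(n) n ^ (-s)`. -/
def fz (z s : ℂ) : ℕ →*₀ ℂ where
  toFun n := if n = 0 then 0 else z ^ (cardFactors n) * (n : ℂ) ^ (-s)
  map_zero' := by simp
  map_one' := by simp
  map_mul' m n := by
    rcases eq_or_ne m 0 with hm | hm
    · simp [hm]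
    rcases eq_or_ne n 0 with hn | hn
    · simp [hn]
    simp only [mul_eq_zero, hm, hn, or_self, if_false]
    rw [cardFactors_mul hm hn, pow_add]
    push_cast
    rw [natCast_mul_natCast_cpow]
    exact mul_mul_mul_comm _ _ _ _

lemma fz_apply {z s : ℂ} {n : ℕ} (hn : n ≠ 0) :
    fz z s n = z ^ (ArithmeticFunction.cardFactors n) * (n : ℂ) ^ (-s) := by
  simp [fz, hn]

lemma norm_fz_le {z s : ℂ} (hz : ‖z‖ ≤ 1) (_hs : 1 < s.re) (n : ℕ) :
    ‖fz z s n‖ ≤ (n : ℝ) ^ (-s.re) := by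
  rcases eq_or_ne n 0 with hn | hn
  · simp [hn, fz]; positivity
  rw [fz_apply hn, norm_mul, norm_pow, norm_natCast_cpow_of_pos (Nat.pos_of_ne_zero hn)]
  have : ‖z‖ ^ (ArithmeticFunction.cardFactors n) ≤ 1 := pow_le_one₀ (norm_nonneg _) hz
  rw [neg_re]
  calc _ ≤ 1 * (n : ℝ) ^ (-s.re) := by gcongr
    _ = _ := one_mul _

lemma summable_norm_fz {z s : ℂ} (hz : ‖z‖ ≤ 1) (hs : 1 < s.re) : Summable (‖fz z s ·‖) := by
  refine Summable.of_nonneg_of_le (fun _ => norm_nonneg _) (fun n => norm_fz_le hz hs n) ?_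
  exact Real.summable_nat_rpow.mpr (by linarith)

lemma fz_prime {z s : ℂ} (p : Nat.Primes) : fz z s p = z * (p : ℂ) ^ (-s) := by
  rw [fz_apply p.2.ne_zero, ArithmeticFunction.cardFactors_apply_prime p.2, pow_one]

lemma norm_prime_cpow_le {s : ℂ} (hs : 1 < s.re) (p : Nat.Primes) :
    ‖(p : ℂ) ^ (-s)‖ ≤ (p : ℝ)⁻¹ := by
  rw [norm_natCast_cpow_of_pos p.2.pos, neg_re, ← Real.rpow_neg_one]
  exact Real.rpow_le_rpow_of_exponent_le (by exact_mod_cast p.2.one_le) (by linarith)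

lemma summable_primes_inv_sq : Summable (fun p : Nat.Primes => ((p : ℝ)⁻¹) ^ 2) := by
  have h : Summable (fun n : ℕ => ((n : ℝ)⁻¹) ^ 2) := by
    simp [inv_pow]
  exact h.comp_injective Subtype.coe_injective

lemma summable_primes_cpow {s : ℂ} (hs : 1 < s.re) :
    Summable (fun p : Nat.Primes => (p : ℂ) ^ (-s)) := by
  have h : Summable (fun n : ℕ => (n : ℝ) ^ (-s.re)) := Real.summable_nat_rpow.mpr (by linarith)
  refine Summable.of_norm ?_
  refine (h.comp_injective (Subtype.coe_injective : Function.Injective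
    (fun p : Nat.Primes => (p : ℕ)))).congr (fun p => ?_)
  simp only [Function.comp]
  rw [norm_natCast_cpow_of_pos p.2.pos, neg_re]

/-- the prime zeta function -/
def pz (s : ℂ) : ℂ := ∑' p : Nat.Primes, (p : ℂ) ^ (-s)

lemma log_aux {w : ℂ} (hw : ‖w‖ ≤ 1/2) : ‖-Complex.log (1 - w) - w‖ ≤ ‖w‖ ^ 2 := by
  have h := Complex.norm_log_one_add_sub_self_le (z := -w) (by rw [norm_neg]; linarith)
  rw [norm_neg] at h
  have e : -Complex.log (1 - w) - w = -(Complex.log (1 + -w) - -w) := by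
    rw [sub_eq_add_neg 1 w, neg_sub]; abel
  rw [e, norm_neg]
  refine h.trans ?_
  have h2 : (1 - ‖w‖)⁻¹ ≤ 2 := by
    rw [inv_le_comm₀ (by linarith) (by norm_num)]; linarith
  nlinarith [sq_nonneg ‖w‖]

/-- constant: sum over primes of `p⁻²` -/
def pC : ℝ := ∑' p : Nat.Primes, ((p : ℝ)⁻¹) ^ 2

lemma pC_nonneg : 0 ≤ pC := tsum_nonneg fun _ => by positivity

lemma log_sum_approx {z s : ℂ} (hz : ‖z‖ ≤ 1) (hs : 1 < s.re) :
    ‖(∑' p : Nat.Primes, -Complex.log (1 - z * (p : ℂ) ^ (-s))) - z * pz s‖ ≤ pC := by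
  have hb : ∀ p : Nat.Primes, ‖z * (p : ℂ) ^ (-s)‖ ≤ (p : ℝ)⁻¹ := by
    intro p
    rw [norm_mul]
    calc _ ≤ 1 * (p : ℝ)⁻¹ := by
          gcongr
          exact norm_prime_cpow_le hs p
      _ = _ := one_mul _
  have hhalf : ∀ p : Nat.Primes, ((p : ℝ)⁻¹) ≤ 1/2 := by
    intro p
    rw [inv_le_comm₀ (by exact_mod_cast p.2.pos) (by norm_num)]
    have := p.2.two_le
    norm_num
    exact_mod_cast this
  have hd : ∀ p : Nat.Primes,
      ‖-Complex.log (1 - z * (p : ℂ) ^ (-s)) - z * (p : ℂ) ^ (-s)‖ ≤ ((p : ℝ)⁻¹) ^ 2 := by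
    intro p
    refine (log_aux ((hb p).trans (hhalf p))).trans ?_
    have := hb p
    gcongr
  have hs1 : Summable (fun p : Nat.Primes =>
      -Complex.log (1 - z * (p : ℂ) ^ (-s)) - z * (p : ℂ) ^ (-s)) :=
    Summable.of_norm_bounded summable_primes_inv_sq hd
  have hs2 : Summable (fun p : Nat.Primes => z * (p : ℂ) ^ (-s)) :=
    (summable_primes_cpow hs).mul_left z
  have hs3 : Summable (fun p : Nat.Primes => -Complex.log (1 - z * (p : ℂ) ^ (-s))) := by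
    have := hs1.add hs2
    exact this.congr (fun p => by simp)
  rw [pz, ← tsum_mul_left, ← hs3.tsum_sub hs2]
  exact tsum_of_norm_bounded summable_primes_inv_sq.hasSum hd

/-- near `s = 1`, the prime zeta function is `-log ‖s-1‖ + O(1)`. -/
theorem pz_bound : ∃ ρ C : ℝ, 0 < ρ ∧ ρ ≤ 1 ∧ 0 < C ∧ ∀ s : ℂ, 1 < s.re → ‖s - 1‖ < ρ →
    ‖pz s + Real.log ‖s - 1‖‖ ≤ C := by
  obtain ⟨ρ, hρ, hρ1, h⟩ := zlog_bound
  refine ⟨ρ, 10 + pC, hρ, hρ1, by linarith [pC_nonneg], fun s hs1 hs2 => ?_⟩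
  have h1 := h s hs1 hs2
  have h2 := log_sum_approx (z := 1) (s := s) (by simp) hs1
  have h3 : (∑' p : Nat.Primes, -Complex.log (1 - 1 * (p : ℂ) ^ (-s))) = zlog s := by
    have := DirichletCharacter.eulerProduct_log_eq_LSeries (1 : DirichletCharacter ℂ 1) hs1
    simp only [one_mul] at this ⊢
    have e : ∀ n : ℕ, (1 : DirichletCharacter ℂ 1) (n : ZMod 1) = 1 := fun n => by
      rw [MulChar.one_apply (isUnit_of_subsingleton _)]
    simp only [e, one_mul] at this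
    rw [this, zlog]
  rw [h3, one_mul] at h2
  calc ‖pz s + Real.log ‖s - 1‖‖ = ‖(zlog s + Real.log ‖s - 1‖) - (zlog s - pz s)‖ := by ring_nf
    _ ≤ _ := norm_sub_le _ _
    _ ≤ _ := by linarith

/-- the full sum of `fz z s`: norm is `≤ C exp (-(re z) log ‖s-1‖)`, and it is nonzero. -/
theorem tsum_fz_bound : ∃ ρ C : ℝ, 0 < ρ ∧ ρ ≤ 1 ∧ 0 < C ∧ ∀ z s : ℂ, ‖z‖ ≤ 1 → 1 < s.re →
    ‖s - 1‖ < ρ → (∑' n, fz z s n) ≠ 0 ∧
      ‖∑' n, fz z s n‖ ≤ Real.exp (-z.re * Real.log ‖s - 1‖ + C) := by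
  obtain ⟨ρ, C, hρ, hρ1, hC, h⟩ := pz_bound
  refine ⟨ρ, C + pC, hρ, hρ1, by linarith [pC_nonneg], fun z s hz hs1 hs2 => ?_⟩
  have he := EulerProduct.exp_tsum_primes_log_eq_tsum (summable_norm_fz hz hs1)
  have e2 : (fun p : Nat.Primes => -Complex.log (1 - fz z s p)) =
      fun p : Nat.Primes => -Complex.log (1 - z * (p : ℂ) ^ (-s)) := by
    ext p; rw [fz_prime]
  rw [e2] at he
  constructor
  · rw [← he]; exact Complex.exp_ne_zero _
  rw [← he, Complex.norm_exp]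
  apply Real.exp_le_exp.mpr
  set A := (∑' p : Nat.Primes, -Complex.log (1 - z * (p : ℂ) ^ (-s)))
  have h1 := log_sum_approx hz hs1
  have h2 := h s hs1 hs2
  have h3 : A.re = -z.re * Real.log ‖s - 1‖ + (A - z * pz s).re +
      (z * (pz s + Real.log ‖s - 1‖)).re := by
    simp only [sub_re, mul_re, add_re, ofReal_re, ofReal_im, add_im]
    ring
  have h4 : (A - z * pz s).re ≤ pC := (Complex.re_le_norm _).trans h1
  have h5 : (z * (pz s + Real.log ‖s - 1‖)).re ≤ C := by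
    refine (Complex.re_le_norm _).trans ?_
    rw [norm_mul]
    calc _ ≤ 1 * C := by gcongr
      _ = C := one_mul C
  rw [h3]; linarith

end Pool.Agent.MP6396c4
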