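import Mathlib
import Pool.Agent.Lib.MP_6396c4_an.EulerSum
import Pool.Agent.Lib.MP_6396c4_an.Base

open Finset

noncomputable section

namespace Pool.Agent.MP6396c4

/-- sum over a dyadic block of primes -/
lemma block_bound (F : Finset ℕ) (hF : ∀ p ∈ F, p.Prime) (i : ℕ)
    (hi : ∀ p ∈ F, Nat.log 2 p = i) : ∑ p ∈ F, (p : ℝ)⁻¹ ≤ 8 / (i + 1) := by
  rcases Nat.eq_zero_or_pos i with h0 | h0
  · subst h0
    have : F = ∅ := by
      rw [Finset.eq_empty_iff_forall_notMem]
      intro p hp
      have h1 := hi p hp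
      rw [Nat.log_eq_zero_iff] at h1
      have := (hF p hp).two_le
      omega
    rw [this]; simp
  have hlow : ∀ p ∈ F, 2 ^ i ≤ p := fun p hp => by
    rw [← hi p hp]; exact Nat.pow_log_le_self 2 (hF p hp).ne_zero
  have hup : ∀ p ∈ F, p ≤ 2 ^ (i+1) := fun p hp => by
    have := Nat.lt_pow_succ_log_self (b := 2) (by norm_num) p
    rw [hi p hp] at this
    exact this.le
  have hlogp : ∀ p ∈ F, (i : ℝ) * Real.log 2 ≤ Real.log p := by
    intro p hp
    rw [← Real.log_pow]
    apply Real.log_le_log (by positivity)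
    exact_mod_cast hlow p hp
  have hl2 : (0:ℝ) < Real.log 2 := Real.log_pos (by norm_num)
  have hipos : (0:ℝ) < i := by exact_mod_cast h0
  have h1 : (#F : ℝ) * (i * Real.log 2) ≤ Chebyshev.theta (2 ^ (i+1) : ℕ) := by
    rw [Chebyshev.theta_eq_sum_primesLE_log]
    calc (#F : ℝ) * (i * Real.log 2) = ∑ p ∈ F, (i * Real.log 2) := by simp
      _ ≤ ∑ p ∈ F, Real.log p := Finset.sum_le_sum hlogp
      _ ≤ _ := by
        apply Finset.sum_le_sum_of_subset_of_nonneg
        · intro p hp
          rw [Nat.mem_primesLE]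
          exact ⟨hup p hp, hF p hp⟩
        · intro p _ _
          exact Real.log_natCast_nonneg p
  have h2 := Chebyshev.theta_le_log4_mul_x (x := ((2 ^ (i+1) : ℕ) : ℝ)) (by positivity)
  have h4 : Real.log 4 = 2 * Real.log 2 := by
    rw [show (4:ℝ) = 2 ^ 2 by norm_num, Real.log_pow]; norm_num
  have h3 : (#F : ℝ) * i ≤ 4 * 2 ^ i := by
    have : (#F : ℝ) * (i * Real.log 2) ≤ 2 * Real.log 2 * (2 ^ (i+1)) := by
      have := h1.trans h2
      rw [h4] at this
      push_cast at this
      exact this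
    rw [pow_succ] at this
    have h5 : ((#F : ℝ) * i) * Real.log 2 ≤ (4 * 2 ^ i) * Real.log 2 := by linarith
    exact le_of_mul_le_mul_right h5 hl2
  have h6 : ∑ p ∈ F, (p : ℝ)⁻¹ ≤ #F * (2 ^ i : ℝ)⁻¹ := by
    calc ∑ p ∈ F, (p : ℝ)⁻¹ ≤ ∑ p ∈ F, (2 ^ i : ℝ)⁻¹ := by
          apply Finset.sum_le_sum
          intro p hp
          apply inv_anti₀ (by positivity)
          exact_mod_cast hlow p hp
      _ = _ := by simp
  refine h6.trans ?_
  rw [← div_eq_mul_inv, div_le_div_iff₀ (by positivity) (by positivity)]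
  have : (i : ℝ) + 1 ≤ 2 * i := by
    have : (1:ℝ) ≤ i := by exact_mod_cast h0
    linarith
  have hF0 : (0:ℝ) ≤ #F := by positivity
  nlinarith

/-- generic dyadic decomposition for sums over primes -/
lemma dyadic_bound (F : Finset ℕ) (hF : ∀ p ∈ F, p.Prime) (I J : ℕ) (f g : ℕ → ℝ)
    (hfg : ∀ p ∈ F, f p ≤ g (Nat.log 2 p)) (hg : ∀ i, 0 ≤ g i)
    (hIJ : ∀ p ∈ F, Nat.log 2 p ∈ Icc I J) :
    ∑ p ∈ F, f p * (p : ℝ)⁻¹ ≤ ∑ i ∈ Icc I J, g i * (8 / (i + 1)) := by
  rw [← Finset.sum_fiberwise_of_maps_to hIJ]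
  apply Finset.sum_le_sum
  intro i _
  calc ∑ p ∈ F with Nat.log 2 p = i, f p * (p : ℝ)⁻¹
      ≤ ∑ p ∈ F with Nat.log 2 p = i, g i * (p : ℝ)⁻¹ := by
        apply Finset.sum_le_sum
        intro p hp
        rw [mem_filter] at hp
        have := hfg p hp.1
        rw [hp.2] at this
        gcongr
    _ = g i * ∑ p ∈ F with Nat.log 2 p = i, (p : ℝ)⁻¹ := by rw [Finset.mul_sum]
    _ ≤ _ := by
        apply mul_le_mul_of_nonneg_left _ (hg i)
        apply block_bound
        · intro p hp; exact hF p (mem_filter.mp hp).1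
        · intro p hp; exact (mem_filter.mp hp).2

/-- `∑_{p ≤ N} log p / p ≤ C (1 + log N)`. -/
lemma sum_log_div (N : ℕ) (hN : 1 ≤ N) :
    ∑ p ∈ pr N, Real.log p * (p : ℝ)⁻¹ ≤ 16 * (1 + Real.log N) := by
  have hl2 : (0:ℝ) < Real.log 2 := Real.log_pos (by norm_num)
  have h := dyadic_bound (pr N) (fun p hp => (mem_pr.mp hp).1) 0 (Nat.log 2 N)
    (fun p => Real.log p) (fun i => (i + 1) * Real.log 2)
    (by
      intro p hp
      have hp0 := (mem_pr.mp hp).1
      have := Nat.lt_pow_succ_log_self (b := 2) (by norm_num) p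
      have h1 : Real.log p ≤ Real.log ((2:ℝ) ^ (Nat.log 2 p + 1)) := by
        apply Real.log_le_log (by exact_mod_cast hp0.pos)
        exact_mod_cast this.le
      rw [Real.log_pow] at h1
      push_cast at h1
      exact h1)
    (fun i => by positivity)
    (by
      intro p hp
      rw [mem_Icc]
      exact ⟨Nat.zero_le _, Nat.log_mono_right (mem_pr.mp hp).2⟩)
  refine h.trans ?_
  have h1 : ∑ i ∈ Icc 0 (Nat.log 2 N), ((i : ℝ) + 1) * Real.log 2 * (8 / (i + 1)) =
      8 * Real.log 2 * (Nat.log 2 N + 1) := by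
    rw [Finset.sum_congr rfl (g := fun _ => 8 * Real.log 2)]
    · simp; ring
    · intro i _
      field_simp
  rw [h1]
  have h2 : (Nat.log 2 N : ℝ) * Real.log 2 ≤ Real.log N := by
    rw [← Real.log_pow]
    apply Real.log_le_log (by positivity)
    exact_mod_cast Nat.pow_log_le_self 2 (by omega)
  have h3 : Real.log 2 ≤ 1 := by
    have := Real.log_two_lt_d9; linarith
  have h4 : 0 ≤ Real.log N := Real.log_natCast_nonneg N
  nlinarith

/-- real prime zeta -/
lemma rpz_bound : ∃ ρ C : ℝ, 0 < ρ ∧ ρ ≤ 1 ∧ 0 < C ∧ ∀ σ : ℝ, 0 < σ → σ < ρ →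
    Summable (fun n : ℕ => if n.Prime then (n : ℝ) ^ (-(1 + σ)) else 0) ∧
    |(∑' n : ℕ, if n.Prime then (n : ℝ) ^ (-(1 + σ)) else 0) + Real.log σ| ≤ C := by
  obtain ⟨ρ, C, hρ, hρ1, hC, h⟩ := pz_bound
  refine ⟨ρ, C, hρ, hρ1, hC, fun σ hσ hσρ => ?_⟩
  have hsum : Summable (fun n : ℕ => if n.Prime then (n : ℝ) ^ (-(1 + σ)) else 0) := by
    refine Summable.of_nonneg_of_le (fun n => ?_) (fun n => ?_)
      (Real.summable_nat_rpow.mpr (show -(1 + σ) < -1 by linarith))
    · split_ifs <;> positivity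
    · split_ifs
      · exact le_rfl
      · positivity
  refine ⟨hsum, ?_⟩
  have h1 := h ((1 + σ : ℝ) : ℂ) (by rw [Complex.ofReal_re]; linarith) (by
    have : ((1 + σ : ℝ) : ℂ) - 1 = (σ : ℂ) := by push_cast; ring
    rw [this, Complex.norm_real, Real.norm_eq_abs, abs_of_pos hσ]; exact hσρ)
  have e1 : ‖((1 + σ : ℝ) : ℂ) - 1‖ = σ := by
    have : ((1 + σ : ℝ) : ℂ) - 1 = (σ : ℂ) := by push_cast; ring
    rw [this, Complex.norm_real, Real.norm_eq_abs, abs_of_pos hσ]
  have e2 : pz ((1 + σ : ℝ) : ℂ) =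
      ((∑' n : ℕ, (if n.Prime then (n : ℝ) ^ (-(1 + σ)) else 0) : ℝ) : ℂ) := by
    rw [pz]
    have e3 : ∀ p : Nat.Primes, ((p : ℕ) : ℂ) ^ (-((1 + σ : ℝ) : ℂ)) =
        (((p : ℕ) : ℝ) ^ (-(1 + σ)) : ℝ) := by
      intro p
      rw [Complex.ofReal_cpow (by positivity)]
      push_cast
      rfl
    simp_rw [e3]
    rw [← Complex.ofReal_tsum]
    congr 1
    have := tsum_subtype {n : ℕ | n.Prime} (fun n : ℕ => (n : ℝ) ^ (-(1 + σ)))
    rw [show (∑' (a : Nat.Primes), ((a : ℕ) : ℝ) ^ (-(1 + σ))) =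
      ∑' (x : ↑{n : ℕ | n.Prime}), ((x : ℕ) : ℝ) ^ (-(1 + σ)) from rfl, this]
    apply tsum_congr
    intro n
    simp [Set.indicator]
  rw [e1, e2, ← Complex.ofReal_add, Complex.norm_real, Real.norm_eq_abs] at h1
  exact h1

/-- Mertens' second theorem, in the form `∑_{p ≤ N} 1/p = log (1 + log N) + O(1)`. -/
theorem mertens : ∃ C : ℝ, 0 < C ∧ ∀ N : ℕ, 1 ≤ N →
    ∑ p ∈ pr N, (p : ℝ)⁻¹ ≤ Real.log (1 + Real.log N) + C ∧
    Real.log (1 + Real.log N) - C ≤ ∑ p ∈ pr N, (p : ℝ)⁻¹ := by
  obtain ⟨ρ, C, hρ, hρ1, hC, h⟩ := rpz_bound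
  have hl2 : (0:ℝ) < Real.log 2 := Real.log_pos (by norm_num)
  refine ⟨C + |Real.log (ρ / 2)| + 16 + 64 / (ρ * Real.log 2), by positivity, fun N hN => ?_⟩
  have hlN : 0 ≤ Real.log N := Real.log_natCast_nonneg N
  set y : ℝ := 1 + Real.log N with hy
  have hy1 : 1 ≤ y := by rw [hy]; linarith
  set σ : ℝ := ρ / 2 / y with hσd
  have hσ : 0 < σ := by positivity
  have hσρ : σ < ρ := by
    rw [hσd, div_lt_iff₀ (by linarith)]
    nlinarith
  have hσ1 : σ ≤ 1 := by linarith
  obtain ⟨hsum, hb⟩ := h σ hσ hσρ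
  set g : ℕ → ℝ := fun n => if n.Prime then (n : ℝ) ^ (-(1 + σ)) else 0 with hg
  have hg0 : ∀ n, 0 ≤ g n := fun n => by
    simp only [hg]; split_ifs <;> positivity
  have hlogσ : -Real.log σ = Real.log y - Real.log (ρ / 2) := by
    rw [hσd, Real.log_div (by positivity) (by positivity)]; ring
  have hb' := abs_le.mp hb
  have habs := abs_le.mp (le_refl |Real.log (ρ / 2)|)
  have hposC : 0 ≤ 64 / (ρ * Real.log 2) := by positivity
  have hpow : ∀ p : ℕ, p.Prime → (p : ℝ) ^ (-(1 + σ)) = (p : ℝ)⁻¹ * (p : ℝ) ^ (-σ) := by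
    intro p hp
    have : (0:ℝ) < p := by exact_mod_cast hp.pos
    rw [neg_add, Real.rpow_add this, Real.rpow_neg_one]
  constructor
  · have h1 : ∑ p ∈ pr N, (p : ℝ)⁻¹ ≤ ∑ p ∈ pr N, (g p + σ * (Real.log p * (p : ℝ)⁻¹)) := by
      apply Finset.sum_le_sum
      intro p hp
      have hpp := (mem_pr.mp hp).1
      have hp0 : (0:ℝ) < p := by exact_mod_cast hpp.pos
      simp only [hg, hpp, if_true]
      rw [hpow p hpp]
      have h2 : (p : ℝ) ^ (-σ) ≥ 1 - σ * Real.log p := by
        rw [Real.rpow_def_of_pos hp0]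
        have := Real.add_one_le_exp (Real.log p * -σ)
        linarith
      have h3 : 0 < (p : ℝ)⁻¹ := by positivity
      nlinarith
    rw [Finset.sum_add_distrib, ← Finset.mul_sum] at h1
    have h2 : ∑ p ∈ pr N, g p ≤ ∑' n, g n := hsum.sum_le_tsum _ (fun n _ => hg0 n)
    have h3 := sum_log_div N hN
    have h4 : σ * ∑ p ∈ pr N, Real.log p * (p : ℝ)⁻¹ ≤ 16 := by
      calc _ ≤ σ * (16 * (1 + Real.log N)) := by gcongr
        _ = 16 * (ρ / 2) := by rw [hσd, ← hy]; field_simp
        _ ≤ 16 := by linarith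
    linarith [hb'.2, habs.1]
  · -- lower bound
    have key : ∑' n, g n ≤ ∑ p ∈ pr N, (p : ℝ)⁻¹ + 64 / (ρ * Real.log 2) := by
      apply hsum.tsum_le_of_sum_le
      intro s
      have e1 : ∑ n ∈ s, g n = ∑ n ∈ s.filter Nat.Prime, g n := by
        rw [Finset.sum_filter]
        apply Finset.sum_congr rfl
        intro n _
        simp only [hg]
        split_ifs <;> rfl
      rw [e1, ← Finset.sum_filter_add_sum_filter_not (s.filter Nat.Prime) (fun n => n ≤ N)]
      apply add_le_add
      · calc ∑ n ∈ (s.filter Nat.Prime).filter (fun n => n ≤ N), g n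
            ≤ ∑ n ∈ (s.filter Nat.Prime).filter (fun n => n ≤ N), (n : ℝ)⁻¹ := by
              apply Finset.sum_le_sum
              intro p hp
              rw [mem_filter, mem_filter] at hp
              simp only [hg, hp.1.2, if_true]
              rw [hpow p hp.1.2]
              have h1 : (p : ℝ) ^ (-σ) ≤ 1 :=
                Real.rpow_le_one_of_one_le_of_nonpos (by exact_mod_cast hp.1.2.one_le)
                  (by linarith)
              have h3 : 0 < (p : ℝ)⁻¹ := by
                have : (0:ℝ) < p := by exact_mod_cast hp.1.2.pos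
                positivity
              nlinarith
          _ ≤ _ := by
              apply Finset.sum_le_sum_of_subset_of_nonneg
              · intro p hp
                rw [mem_filter, mem_filter] at hp
                exact mem_pr.mpr ⟨hp.1.2, hp.2⟩
              · intro p _ _; positivity
      · set F := (s.filter Nat.Prime).filter (fun n => ¬ n ≤ N) with hF
        have hFp : ∀ p ∈ F, p.Prime := fun p hp => by
          rw [hF, mem_filter, mem_filter] at hp; exact hp.1.2
        have hFN : ∀ p ∈ F, N < p := fun p hp => by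
          rw [hF, mem_filter, mem_filter] at hp; omega
        set J := F.sup (Nat.log 2) with hJ
        set I := Nat.log 2 N with hI
        have h1 := dyadic_bound F hFp I J (fun p => (p : ℝ) ^ (-σ))
          (fun i => ((2 : ℝ) ^ (-σ)) ^ i)
          (by
            intro p hp
            have hpp := hFp p hp
            rw [← Real.rpow_natCast, ← Real.rpow_mul (by norm_num), mul_comm,
              Real.rpow_mul (by norm_num), Real.rpow_natCast]
            apply Real.rpow_le_rpow_of_nonpos (by positivity) _ (by linarith)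
            exact_mod_cast Nat.pow_log_le_self 2 hpp.ne_zero)
          (fun i => by positivity)
          (by
            intro p hp
            rw [mem_Icc]
            exact ⟨Nat.log_mono_right (hFN p hp).le, Finset.le_sup (f := Nat.log 2) hp⟩)
        have e2 : ∑ n ∈ F, g n = ∑ p ∈ F, (p : ℝ) ^ (-σ) * (p : ℝ)⁻¹ := by
          apply Finset.sum_congr rfl
          intro p hp
          simp only [hg, hFp p hp, if_true]
          rw [hpow p (hFp p hp), mul_comm]
        rw [e2]
        refine h1.trans ?_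
        set x : ℝ := σ * Real.log 2 with hx
        have hx0 : 0 < x := by positivity
        have hl2' : Real.log 2 ≤ 1 := by have := Real.log_two_lt_d9; linarith
        have hx1 : x ≤ 1 := by nlinarith
        set q : ℝ := (2 : ℝ) ^ (-σ) with hq
        have hqe : q = Real.exp (-x) := by
          rw [hq, Real.rpow_def_of_pos (by norm_num), hx]; ring_nf
        have hq0 : 0 < q := by rw [hqe]; exact Real.exp_pos _
        have hq1 : 1 - q ≥ x / 2 := by
          -- exp(-x) ≤ 1 - x + x^2/2... use exp(-x) ≤ 1/(1+x)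
          have h5 : Real.exp (-x) ≤ 1 / (1 + x) := by
            rw [Real.exp_neg, ← one_div]
            apply one_div_le_one_div_of_le (by linarith)
            linarith [Real.add_one_le_exp x]
          rw [hqe]
          have h6 : 1 / (1 + x) ≤ 1 - x / 2 := by
            rw [div_le_iff₀ (by linarith)]; nlinarith
          linarith
        have hq2 : q < 1 := by linarith
        have h7 : ∑ i ∈ Icc I J, q ^ i * (8 / ((i : ℝ) + 1)) ≤
            (8 / ((I : ℝ) + 1)) * ∑ i ∈ Icc I J, q ^ i := by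
          rw [Finset.mul_sum]
          apply Finset.sum_le_sum
          intro i hi
          rw [mem_Icc] at hi
          have : (8 : ℝ) / (i + 1) ≤ 8 / (I + 1) := by
            have : (I : ℝ) ≤ i := by exact_mod_cast hi.1
            gcongr
          have h8 : 0 ≤ q ^ i := by positivity
          nlinarith
        refine h7.trans ?_
        have h8 : ∑ i ∈ Icc I J, q ^ i ≤ (1 - q)⁻¹ := by
          calc ∑ i ∈ Icc I J, q ^ i ≤ ∑' i : ℕ, q ^ i :=
                (summable_geometric_of_lt_one hq0.le hq2).sum_le_tsum _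
                  (fun i _ => by positivity)
            _ = _ := tsum_geometric_of_lt_one hq0.le hq2
        have h9 : (1 - q)⁻¹ ≤ 2 / x := by
          rw [inv_le_comm₀ (by linarith) (by positivity), inv_div]; exact hq1
        have h10 : Real.log N ≤ ((I : ℝ) + 1) * Real.log 2 := by
          have := Nat.lt_pow_succ_log_self (b := 2) (by norm_num) N
          have h11 : Real.log N ≤ Real.log ((2:ℝ) ^ (I + 1)) := by
            apply Real.log_le_log (by exact_mod_cast hN)
            exact_mod_cast this.le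
          rw [Real.log_pow] at h11
          push_cast at h11
          exact h11
        have hI0 : (0:ℝ) ≤ I := by positivity
        have h12 : y ≤ 2 * ((I : ℝ) + 1) := by
          rw [hy]; nlinarith
        calc (8 / ((I : ℝ) + 1)) * ∑ i ∈ Icc I J, q ^ i ≤ (8 / ((I : ℝ) + 1)) * (2 / x) := by
              gcongr
              exact h8.trans h9
          _ ≤ (16 / y) * (2 / x) := by
              gcongr ?_ * _
              rw [div_le_div_iff₀ (by positivity) (by positivity)]
              linarith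
          _ = 64 / (ρ * Real.log 2) := by
              rw [hx, hσd]; field_simp; ring
    linarith [hb'.1, habs.2]

end Pool.Agent.MP6396c4
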