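import Mathlib
import Pool.Agent.Lib.MP_6396c4_an.Mertens

open Finset

noncomputable section

namespace Pool.Agent.MP6396c4

/-- Chebyshev upper bound. -/
lemma card_pr_le (N : ℕ) (hN : 1 ≤ N) : (#(pr N) : ℝ) ≤ 10 * (N / (1 + Real.log N)) := by
  rcases Nat.eq_or_lt_of_le hN with h1 | h1
  · subst h1
    have : pr 1 = ∅ := by
      rw [Finset.eq_empty_iff_forall_notMem]
      intro p hp
      have := mem_pr.mp hp
      have := this.1.two_le
      omega
    rw [this]; simp
  have hcard : #(pr N) = Nat.primeCounting N := by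
    rw [Nat.primeCounting, Nat.primeCounting', Nat.count_eq_card_filter_range]
    congr 1
    ext p
    rw [mem_pr, mem_filter, mem_range]
    constructor
    · rintro ⟨h, h2⟩; exact ⟨by omega, h⟩
    · rintro ⟨h, h2⟩; exact ⟨h2, by omega⟩
  have hx : (1:ℝ) < N := by exact_mod_cast h1
  have h := Chebyshev.pi_le_log4_mul_div hx
  rw [Nat.floor_natCast, ← hcard, Real.log_sqrt (by linarith)] at h
  have h4 : Real.log 4 = 2 * Real.log 2 := by
    rw [show (4:ℝ) = 2 ^ 2 by norm_num, Real.log_pow]; norm_num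
  obtain ⟨hl1, hl2⟩ := log_two_bounds
  have hlN : Real.log 2 ≤ Real.log N := Real.log_le_log (by norm_num) (by exact_mod_cast h1)
  set ℓ := Real.log N with hℓ
  have hsq : 1 + ℓ ≤ 2 * √N := by
    have h1 : ℓ = 2 * Real.log (√N) := by rw [Real.log_sqrt (by linarith)]; ring
    have h2 := Real.log_le_sub_one_of_pos (Real.sqrt_pos.mpr (show (0:ℝ) < N by linarith))
    linarith
  have e1 : Real.log 4 * N / (ℓ / 2) ≤ 7 * (N / (1 + ℓ)) := by
    rw [h4, div_le_iff₀ (by linarith)]
    have : (7:ℝ) * (N / (1 + ℓ)) * (ℓ / 2) = 3.5 * N * (ℓ / (1 + ℓ)) := by ring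
    rw [this]
    have h5 : 0.4 ≤ ℓ / (1 + ℓ) := by
      rw [le_div_iff₀ (by linarith)]; linarith
    have h6 : 2 * Real.log 2 * N ≤ 1.4 * N := by
      have : (0:ℝ) < N := by linarith
      nlinarith
    nlinarith
  have e2 : √(N:ℝ) ≤ 2 * (N / (1 + ℓ)) := by
    rw [mul_div_assoc', le_div_iff₀ (by linarith)]
    have h7 : √(N:ℝ) * √N = N := Real.mul_self_sqrt (by linarith)
    have h8 : 0 ≤ √(N:ℝ) := Real.sqrt_nonneg _
    nlinarith
  have h9 : 0 ≤ (N:ℝ) / (1 + ℓ) := by
    apply div_nonneg <;> linarith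
  linarith

/-- many primes in `(x, 4x]`. -/
lemma card_prI_ge {x : ℝ} (hx : 10 ^ 8 ≤ x) : x / (2 * Real.log x) ≤ #(prI x (4 * x)) := by
  obtain ⟨hl1, hl2⟩ := log_two_bounds
  have hx0 : (0:ℝ) < x := by linarith
  have hlx : 1 < Real.log x := by
    have h1 : Real.exp 1 < x := by
      have := Real.exp_one_lt_d9; linarith
    have := (Real.lt_log_iff_exp_lt hx0).mpr h1
    exact this
  have h1 := Chebyshev.theta_ge' (x := 4 * x) (by linarith)
  have h2 := Chebyshev.theta_le_log4_mul_x (x := x) hx0.le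
  have h4 : Real.log 4 = 2 * Real.log 2 := by
    rw [show (4:ℝ) = 2 ^ 2 by norm_num, Real.log_pow]; norm_num
  -- sum over the interval
  have h3 : Chebyshev.theta (4 * x) ≤ Chebyshev.theta x + ∑ p ∈ prI x (4 * x), Real.log p := by
    rw [Chebyshev.theta_eq_theta_coe_floor (4 * x), Chebyshev.theta_eq_theta_coe_floor x,
      Chebyshev.theta_eq_sum_primesLE_log, Chebyshev.theta_eq_sum_primesLE_log]
    have hdis : Disjoint (Nat.primesLE ⌊x⌋₊) (prI x (4 * x)) := by
      rw [Finset.disjoint_left]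
      intro p hp hp2
      rw [Nat.mem_primesLE, Nat.le_floor_iff hx0.le] at hp
      rw [mem_prI (by linarith)] at hp2
      linarith [hp.1, hp2.2.1]
    rw [← Finset.sum_union hdis]
    apply Finset.sum_le_sum_of_subset_of_nonneg
    · intro p hp
      rw [Nat.mem_primesLE, Nat.le_floor_iff (by linarith)] at hp
      rw [mem_union, Nat.mem_primesLE, mem_prI (by linarith), Nat.le_floor_iff hx0.le]
      rcases le_or_gt (p : ℝ) x with h | h
      · left; exact ⟨h, hp.2⟩
      · right; exact ⟨hp.2, h, hp.1⟩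
    · intro p _ _; exact Real.log_natCast_nonneg p
  have h5 : ∑ p ∈ prI x (4 * x), Real.log p ≤ #(prI x (4 * x)) * (2 * Real.log x) := by
    rw [← nsmul_eq_mul]
    apply Finset.sum_le_card_nsmul
    intro p hp
    rw [mem_prI (by linarith)] at hp
    calc Real.log p ≤ Real.log (x ^ 2) := by
          apply Real.log_le_log (by linarith [hp.2.1])
          nlinarith [hp.2.2]
      _ = 2 * Real.log x := by rw [Real.log_pow]; norm_num
  -- error terms
  have h6 : Real.log (4 * x + 2) + 2 * √(4 * x) * Real.log (4 * x) ≤ 0.28 * x := by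
    set w : ℝ := x ^ (1/4 : ℝ) with hw
    have hw0 : 0 < w := Real.rpow_pos_of_pos hx0 _
    have hw4 : w ^ 4 = x := by
      rw [hw, ← Real.rpow_natCast, ← Real.rpow_mul hx0.le]; norm_num
    have hwge : 100 ≤ w := by
      by_contra hc
      push Not at hc
      have : w ^ 4 < 100 ^ 4 := by gcongr
      rw [hw4] at this
      norm_num at this
      linarith
    have hlogw : Real.log x = 4 * Real.log w := by
      rw [← hw4, Real.log_pow]; norm_num
    have hlw : Real.log w ≤ w - 1 := Real.log_le_sub_one_of_pos hw0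
    have hl4x : Real.log (4 * x) ≤ 4 * w := by
      rw [Real.log_mul (by norm_num) hx0.ne', h4, hlogw]; linarith
    have hl4x2 : Real.log (4 * x + 2) ≤ 4 * w := by
      have : Real.log (4 * x + 2) ≤ Real.log (8 * x) := Real.log_le_log (by linarith) (by linarith)
      have e8 : Real.log 8 = 3 * Real.log 2 := by
        rw [show (8:ℝ) = 2 ^ 3 by norm_num, Real.log_pow]; norm_num
      rw [Real.log_mul (by norm_num) hx0.ne', e8, hlogw] at this
      linarith
    have hsq : √(4 * x) = 2 * w ^ 2 := by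
      rw [← hw4, show 4 * w ^ 4 = (2 * w ^ 2) ^ 2 by ring, Real.sqrt_sq (by positivity)]
    rw [hsq]
    have h7 : 2 * (2 * w ^ 2) * Real.log (4 * x) ≤ 2 * (2 * w ^ 2) * (4 * w) := by gcongr
    have h8 : 2 * (2 * w ^ 2) * (4 * w) + 4 * w ≤ 0.28 * w ^ 4 := by
      have h9 : 0 ≤ w ^ 3 := by positivity
      nlinarith [mul_nonneg h9 (sub_nonneg.mpr hwge), mul_nonneg hw0.le (sub_nonneg.mpr hwge)]
    rw [← hw4] at *
    linarith
  rw [div_le_iff₀ (by positivity)]
  rw [h4] at h2
  nlinarith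

/-- many primes in `(x, 4x]` different from a given number. -/
lemma card_prI_erase_ge {x : ℝ} (hx : 10 ^ 8 ≤ x) (q : ℕ) :
    x / (4 * Real.log x) ≤ #((prI x (4 * x)).erase q) := by
  have h := card_prI_ge hx
  have hx0 : (0:ℝ) < x := by linarith
  have hlx : 1 < Real.log x := by
    have h1 : Real.exp 1 < x := by
      have := Real.exp_one_lt_d9; linarith
    exact (Real.lt_log_iff_exp_lt hx0).mpr h1
  have h1 : (#(prI x (4 * x)) : ℝ) - 1 ≤ #((prI x (4 * x)).erase q) := by
    have := Finset.pred_card_le_card_erase (s := prI x (4 * x)) (a := q)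
    have h2 : #(prI x (4 * x)) ≤ #((prI x (4 * x)).erase q) + 1 := by omega
    have h3 : (#(prI x (4 * x)) : ℝ) ≤ #((prI x (4 * x)).erase q) + 1 := by exact_mod_cast h2
    linarith
  have h2 : 1 ≤ x / (4 * Real.log x) := by
    rw [le_div_iff₀ (by positivity)]
    have h3 : Real.log x ≤ 2 * (√x - 1) := by
      have e : Real.log x = 2 * Real.log (√x) := by rw [Real.log_sqrt hx0.le]; ring
      have := Real.log_le_sub_one_of_pos (Real.sqrt_pos.mpr hx0)
      linarith
    have h4 : 8 ≤ √x := by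
      apply Real.le_sqrt_of_sq_le; linarith
    have h5 : √x * √x = x := Real.mul_self_sqrt hx0.le
    nlinarith
  have h3 : x / (2 * Real.log x) = x / (4 * Real.log x) + x / (4 * Real.log x) := by
    field_simp; norm_num
  linarith

/-- Mertens for real intervals. -/
theorem mertens_interval : ∃ C : ℝ, 0 < C ∧ ∀ a b : ℝ, 1 ≤ a → a ≤ b →
    Real.log (1 + Real.log b) - Real.log (1 + Real.log a) - C ≤ ∑ p ∈ prI a b, (p : ℝ)⁻¹ ∧
    ∑ p ∈ prI a b, (p : ℝ)⁻¹ ≤
      Real.log (1 + Real.log b) - Real.log (1 + Real.log a) + C := by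
  obtain ⟨C, hC, h⟩ := mertens
  refine ⟨2 * C + 1, by linarith, fun a b ha hab => ?_⟩
  have hb : 1 ≤ b := ha.trans hab
  have hfl : ∀ y : ℝ, 1 ≤ y → 1 ≤ ⌊y⌋₊ := fun y hy => (Nat.one_le_floor_iff y).mpr hy
  -- comparison of floor
  have hcmp : ∀ y : ℝ, 1 ≤ y → Real.log (1 + Real.log y) - 1 ≤ Real.log (1 + Real.log (⌊y⌋₊ : ℝ)) ∧
      Real.log (1 + Real.log (⌊y⌋₊ : ℝ)) ≤ Real.log (1 + Real.log y) := by
    intro y hy
    have h1 := hfl y hy
    have h1' : (1:ℝ) ≤ ⌊y⌋₊ := by exact_mod_cast h1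
    have hly : 0 ≤ Real.log y := Real.log_nonneg hy
    have hlf : 0 ≤ Real.log (⌊y⌋₊ : ℝ) := Real.log_nonneg h1'
    have h2 : (⌊y⌋₊ : ℝ) ≤ y := Nat.floor_le (by linarith)
    have h3 : y ≤ 2 * ⌊y⌋₊ := by
      have := Nat.lt_floor_add_one y
      linarith
    constructor
    · have h4 : Real.log y ≤ Real.log 2 + Real.log (⌊y⌋₊ : ℝ) := by
        rw [← Real.log_mul (by norm_num) (by linarith)]
        exact Real.log_le_log (by linarith) h3
      have hl := log_two_bounds
      have h5 : 1 + Real.log y ≤ Real.exp 1 * (1 + Real.log (⌊y⌋₊ : ℝ)) := by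
        have := Real.exp_one_gt_d9
        nlinarith
      have h6 := Real.log_le_log (by linarith) h5
      rw [Real.log_mul (Real.exp_pos _).ne' (by linarith), Real.log_exp] at h6
      linarith
    · apply Real.log_le_log (by linarith)
      have := Real.log_le_log (by linarith) h2
      linarith
  have hsplit : ∑ p ∈ pr ⌊b⌋₊, (p : ℝ)⁻¹ =
      ∑ p ∈ pr ⌊a⌋₊, (p : ℝ)⁻¹ + ∑ p ∈ prI a b, (p : ℝ)⁻¹ := by
    rw [← Finset.sum_filter_add_sum_filter_not (pr ⌊b⌋₊) (fun p => a < (p : ℝ)), add_comm]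
    congr 1
    apply Finset.sum_congr _ (fun _ _ => rfl)
    ext p
    rw [mem_filter, mem_pr, mem_pr, Nat.le_floor_iff (by linarith), Nat.le_floor_iff (by linarith)]
    constructor
    · rintro ⟨⟨h1, h2⟩, h3⟩; exact ⟨h1, by linarith⟩
    · rintro ⟨h1, h2⟩; exact ⟨⟨h1, by linarith⟩, by linarith⟩
  have ha1 := h _ (hfl a ha)
  have hb1 := h _ (hfl b hb)
  have ha2 := hcmp a ha
  have hb2 := hcmp b hb
  constructor <;> linarith [ha1.1, ha1.2, hb1.1, hb1.2, ha2.1, ha2.2, hb2.1, hb2.2]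

end Pool.Agent.MP6396c4
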