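import Mathlib
import Pool.Agent.Lib.MP_6396c4_an.Cfg2
import Pool.Agent.Lib.MP_6396c4_an.PrimeCount
import Pool.Agent.Lib.MP_6396c4_an.Esym

open Finset ArithmeticFunction

noncomputable section

namespace Pool.Agent.MP6396c4

lemma BB_weight {κ : ℝ} (hκ : 1 ≤ κ) : ∃ C1 z0 C3 s0 : ℝ, 1 ≤ C1 ∧ 2 ≤ z0 ∧ 0 < C3 ∧ C3 + 1 ≤ s0 ∧
    ∀ s n : ℕ, s0 ≤ s → 2 ≤ zf C1 s ∧ ((n:ℝ) ≤ κ * (s - C3) →
      (s - C3) ^ n / n.factorial / 4 ≤ ∑ B ∈ BB C1 z0 s n, ((∏ p ∈ B, p : ℕ) : ℝ)⁻¹) := by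
  obtain ⟨C, hC, hM⟩ := mertens_interval
  set C1 := Real.log (256 * κ) with hC1
  have h256 : 1 ≤ C1 := by
    rw [hC1, Real.le_log_iff_exp_le (by linarith)]
    have := Real.exp_one_lt_d9; linarith
  set z0 := 16 * κ ^ 2 + 3 with hz0
  have hz03 : 3 ≤ z0 := by nlinarith
  have hlz0 : 1 ≤ Real.log z0 := by
    rw [Real.le_log_iff_exp_le (by linarith)]
    have := Real.exp_one_lt_d9; linarith
  have hl1z0 : 0 ≤ Real.log (1 + Real.log z0) := Real.log_nonneg (by linarith)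
  set C3 := C1 + Real.log (1 + Real.log z0) + C with hC3
  refine ⟨C1, z0, C3, C3 + 1 + C1 + Real.log (Real.log z0), h256, by linarith, by linarith, ?_, ?_⟩
  · have := Real.log_nonneg hlz0; linarith
  intro s n hs
  have hllz0 := Real.log_nonneg hlz0
  have hsC1 : C1 + Real.log (Real.log z0) ≤ s := by linarith
  have hzfl : Real.log (zf C1 s) = Real.exp (s - C1) := by unfold zf; rw [Real.log_exp]
  have hzf0 : 0 < zf C1 s := Real.exp_pos _
  have hz0zf : z0 ≤ zf C1 s := by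
    rw [← Real.log_le_log_iff (by linarith) hzf0, hzfl]
    rw [← Real.exp_log (show (0:ℝ) < Real.log z0 by linarith)]
    apply Real.exp_le_exp.mpr
    linarith
  refine ⟨by linarith, fun hn => ?_⟩
  set A := prI z0 (zf C1 s) with hA
  set wt : ℕ → ℝ := fun p => (p : ℝ)⁻¹ with hwt
  set lt : ℕ → ℝ := fun p => Real.log p with hlt
  set S := ∑ p ∈ A, wt p with hS
  have hSlow : (s:ℝ) - C3 ≤ S := by
    have h1 := (hM z0 (zf C1 s) (by linarith) hz0zf).1
    rw [hzfl] at h1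
    have h2 : (s:ℝ) - C1 ≤ Real.log (1 + Real.exp (s - C1)) := by
      rw [Real.le_log_iff_exp_le (by positivity)]; linarith
    rw [hS, hwt]; linarith
  have hs3 : 1 ≤ (s:ℝ) - C3 := by linarith
  have hS0 : 0 < S := by linarith
  have hΘ : 4 * κ * ∑ p ∈ A, wt p * lt p ≤ Real.exp s / 2 := by
    have h1 := sum_log_div ⌊zf C1 s⌋₊ ((Nat.one_le_floor_iff _).mpr (by linarith))
    have h2 : ∑ p ∈ A, wt p * lt p ≤ ∑ p ∈ pr ⌊zf C1 s⌋₊, Real.log p * (p : ℝ)⁻¹ := by
      have e : ∀ p : ℕ, wt p * lt p = Real.log p * (p : ℝ)⁻¹ := fun p => by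
        rw [hwt, hlt]; ring
      simp_rw [e]
      apply Finset.sum_le_sum_of_subset_of_nonneg (filter_subset _ _)
      intro p _ _
      have := Real.log_natCast_nonneg p
      positivity
    have h3 : Real.log (⌊zf C1 s⌋₊ : ℝ) ≤ Real.exp (s - C1) := by
      rw [← hzfl]
      apply Real.log_le_log
      · have : 1 ≤ ⌊zf C1 s⌋₊ := (Nat.one_le_floor_iff _).mpr (by linarith)
        exact_mod_cast this
      · exact Nat.floor_le hzf0.le
    have h4 : Real.exp ((s:ℝ) - C1) = Real.exp s / (256 * κ) := by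
      rw [Real.exp_sub, hC1, Real.exp_log (by positivity)]
    have h5 : 256 * κ ≤ Real.exp s := by
      rw [← Real.exp_log (show (0:ℝ) < 256 * κ by positivity), ← hC1]
      apply Real.exp_le_exp.mpr; linarith
    have h6 : ∑ p ∈ A, wt p * lt p ≤ 16 * (1 + Real.exp s / (256 * κ)) := by
      rw [← h4]; linarith
    calc 4 * κ * ∑ p ∈ A, wt p * lt p ≤ 4 * κ * (16 * (1 + Real.exp s / (256 * κ))) := by gcongr
      _ = 64 * κ + Real.exp s / 4 := by field_simp; ring
      _ ≤ _ := by linarith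
  have hP2 : κ ^ 2 * ∑ p ∈ A, wt p ^ 2 ≤ 1 := by
    have hfy : 1 ≤ ⌊z0⌋₊ := (Nat.one_le_floor_iff _).mpr (by linarith)
    have h1 := sum_inv_sq_tail ⌊z0⌋₊ ⌊zf C1 s⌋₊ hfy
    have h2 : ∑ p ∈ A, wt p ^ 2 ≤ ∑ b ∈ (Icc 1 ⌊zf C1 s⌋₊).filter (fun b => ⌊z0⌋₊ ≤ b),
        ((b : ℝ) ^ 2)⁻¹ := by
      have e : ∀ p : ℕ, wt p ^ 2 = ((p : ℝ) ^ 2)⁻¹ := fun p => by rw [hwt]; simp
      simp_rw [e]
      apply Finset.sum_le_sum_of_subset_of_nonneg
      · intro p hp
        rw [hA, mem_prI hzf0.le] at hp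
        rw [mem_filter, mem_Icc]
        exact ⟨⟨hp.1.one_le, Nat.le_floor hp.2.2⟩, Nat.floor_le_of_le hp.2.1.le⟩
      · intro p _ _; positivity
    have h3 : z0 ≤ 2 * (⌊z0⌋₊ : ℝ) := by
      have h9 := Nat.lt_floor_add_one z0
      have h10 : (1:ℝ) ≤ ⌊z0⌋₊ := by exact_mod_cast hfy
      linarith
    have h4 : 2 / (⌊z0⌋₊ : ℝ) ≤ 4 / z0 := by
      have h10 : (1:ℝ) ≤ ⌊z0⌋₊ := by exact_mod_cast hfy
      rw [div_le_div_iff₀ (by linarith) (by linarith)]
      linarith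
    calc κ ^ 2 * ∑ p ∈ A, wt p ^ 2 ≤ κ ^ 2 * (4 / z0) := by
          gcongr
          linarith
      _ = 4 * κ ^ 2 / z0 := by ring
      _ ≤ 1 := by rw [div_le_one (by linarith)]; nlinarith
  have hgood := es_good (w := wt) (l := lt) (fun i => by rw [hwt]; positivity)
    (fun i => by rw [hlt]; exact Real.log_natCast_nonneg i) A n (κ := κ) (T := Real.exp s / 2)
    (by linarith) (by positivity) hS0 (hn.trans (by gcongr)) hP2 hΘ
  have h7 : (s - C3) ^ n / n.factorial / 4 ≤ S ^ n / n.factorial / 4 := by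
    have : 0 ≤ (s:ℝ) - C3 := by linarith
    gcongr
  refine h7.trans (hgood.trans (le_of_eq ?_))
  unfold BB
  apply Finset.sum_congr rfl
  intro B _
  push_cast
  rw [hwt]
  simp only
  rw [Finset.prod_inv_distrib]

lemma RR_weight : ∃ H : ℝ, 1 ≤ H ∧ ∀ s : ℕ, 1 ≤ ∑ r ∈ RR H s, (r:ℝ)⁻¹ := by
  obtain ⟨C, hC, hM⟩ := mertens_interval
  set H := 2 * Real.exp (C + 1) with hH
  have hH1 : 1 ≤ H := by
    have := Real.add_one_le_exp (C + 1); linarith
  refine ⟨H, hH1, fun s => ?_⟩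
  set E := Real.exp (s:ℝ) with hE
  have hE1 : 1 ≤ E := Real.one_le_exp (Nat.cast_nonneg s)
  have h1 := (hM (Real.exp E) (Real.exp (H * E)) (Real.one_le_exp (by linarith))
    (Real.exp_le_exp.mpr (by nlinarith))).1
  rw [Real.log_exp, Real.log_exp] at h1
  have h2 : C + 1 ≤ Real.log (1 + H * E) - Real.log (1 + E) := by
    rw [← Real.log_div (by positivity) (by positivity), Real.le_log_iff_exp_le (by positivity),
      le_div_iff₀ (by positivity)]
    have : Real.exp (C + 1) = H / 2 := by rw [hH]; ring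
    rw [this]
    nlinarith
  unfold RR
  linarith

lemma QQ_weight {k : ℕ} {H : ℝ} (hH : 1 ≤ H) {s : ℕ} (hs : 10 ^ 8 ≤ Real.exp (Real.exp s / 2))
    {u u' : Fin (k+1) → ℕ} {r : Fin k → ℕ}
    (hx : ∀ i, Real.exp (Real.exp s / 2) ≤ xf u u' r i ∧
      xf u u' r i ≤ Real.exp ((H + 1/2) * Real.exp s)) :
    (1 / (16 * (H + 1/2)) / Real.exp s) ^ k ≤ ∑ q ∈ QQ u u' r, ∏ i, (q i : ℝ)⁻¹ := by
  unfold QQ
  rw [← Finset.prod_univ_sum (fun i => (prI (xf u u' r i) (4 * xf u u' r i)).erase (r i))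
    (fun _ q => (q:ℝ)⁻¹)]
  have hE := Real.exp_pos (s:ℝ)
  calc (1 / (16 * (H + 1/2)) / Real.exp s) ^ k =
      ∏ _i : Fin k, (1 / (16 * (H + 1/2)) / Real.exp s) := by
        rw [Finset.prod_const, card_univ, Fintype.card_fin]
    _ ≤ _ := by
      apply Finset.prod_le_prod
      · intro i _; positivity
      · intro i _
        set x := xf u u' r i with hxd
        have h1 := (hx i).1
        have h2 := (hx i).2
        have hx8 : 10 ^ 8 ≤ x := hs.trans h1
        have hx0 : (0:ℝ) < x := by linarith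
        have hlx : Real.log x ≤ (H + 1/2) * Real.exp s := by
          rw [Real.log_le_iff_le_exp hx0]; exact h2
        have hlx0 : 0 < Real.log x := Real.log_pos (by linarith)
        have h3 := card_prI_erase_ge hx8 (r i)
        have h4 : (#((prI x (4 * x)).erase (r i)) : ℝ) * (1 / (4 * x)) ≤
            ∑ q ∈ (prI x (4 * x)).erase (r i), (q:ℝ)⁻¹ := by
          rw [← nsmul_eq_mul, ← Finset.sum_const]
          apply Finset.sum_le_sum
          intro q hq
          rw [mem_erase, mem_prI (by positivity)] at hq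
          rw [one_div]
          have : (0:ℝ) < q := by linarith [hq.2.2.1]
          gcongr
          exact hq.2.2.2
        refine le_trans ?_ h4
        calc 1 / (16 * (H + 1/2)) / Real.exp s = 1 / (16 * ((H + 1/2) * Real.exp s)) := by
              field_simp
          _ ≤ 1 / (16 * Real.log x) := by gcongr
          _ = x / (4 * Real.log x) * (1 / (4 * x)) := by field_simp; norm_num
          _ ≤ _ := by gcongr

end Pool.Agent.MP6396c4
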