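import Mathlib
import Pool.Agent.Lib.MP_6396c4_an.PrimeCount
import Pool.Agent.Lib.MP_6396c4_an.Esym

open Finset ArithmeticFunction

noncomputable section

namespace Pool.Agent.MP6396c4

theorem rough_lower (κ : ℝ) (hκ : 1 ≤ κ) : ∃ c G y0 : ℝ, 0 < c ∧ 1 ≤ G ∧ 3 ≤ y0 ∧
    ∀ y x : ℝ, y0 ≤ y → 1 ≤ x → 1 ≤ Real.log x →
    G ≤ Real.log (Real.log x) - Real.log (Real.log y) →
    ∀ n : ℕ, (n : ℝ) ≤ κ * (Real.log (Real.log x) - Real.log (Real.log y)) →
    c * (x / Real.log x) * ((Real.log (Real.log x) - Real.log (Real.log y)) ^ n / n.factorial) ≤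
      #(rough y x (n+1)) := by
  obtain ⟨C, hC, hM⟩ := mertens_interval
  set K := 512 * κ + 4 with hK
  have hK0 : 516 ≤ K := by rw [hK]; linarith
  set C' := Real.log K + Real.log 2 + C with hC'
  have hlK : 0 < Real.log K := Real.log_pos (by linarith)
  obtain ⟨hl2, hl2'⟩ := log_two_bounds
  have hC'0 : 0 < C' := by linarith
  refine ⟨Real.exp (-(2 * C' * κ)) / 32, 2 * C' + Real.log (40 * K), 16 * κ ^ 2 + 3,
    by positivity, ?_, by have := sq_nonneg κ; linarith, ?_⟩
  · have : 1 ≤ Real.log (40 * K) := by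
      rw [Real.le_log_iff_exp_le (by linarith)]
      have := Real.exp_one_lt_d9
      linarith
    linarith
  intro y x hy hx1 hlx1 hG n hn
  set δ := Real.log (Real.log x) - Real.log (Real.log y) with hδ
  have hy3 : 3 ≤ y := by have := sq_nonneg κ; linarith
  have hly1 : 1 ≤ Real.log y := by
    rw [Real.le_log_iff_exp_le (by linarith)]
    have := Real.exp_one_lt_d9
    linarith
  have hx0 : 0 < x := by linarith
  have hlly : 0 ≤ Real.log (Real.log y) := Real.log_nonneg hly1
  have hl40 : 1 ≤ Real.log (40 * K) := by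
    rw [Real.le_log_iff_exp_le (by linarith)]
    have := Real.exp_one_lt_d9
    linarith
  -- log x is large
  have hlx : 40 * K * Real.log y ≤ Real.log x := by
    have h1 : Real.log (40 * K) + Real.log (Real.log y) ≤ Real.log (Real.log x) := by linarith
    rw [← Real.log_mul (by positivity) (by positivity)] at h1
    exact (Real.log_le_log_iff (by positivity) (by linarith)).mp h1
  have hlx2 : 40 * K ≤ Real.log x := (le_mul_of_one_le_right (by linarith) hly1).trans hlx
  -- w = x^(1/K)
  set w := Real.exp (Real.log x / K) with hw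
  have hlw : Real.log w = Real.log x / K := Real.log_exp _
  have hlw40 : 40 * Real.log y ≤ Real.log w := by
    rw [hlw, le_div_iff₀ (by linarith)]
    have e : 40 * Real.log y * K = 40 * K * Real.log y := by ring
    rw [e]; exact hlx
  have hw0 : 0 < w := Real.exp_pos _
  have hyw : y ≤ w := by
    rw [← Real.log_le_log_iff (by linarith) hw0]; linarith
  set A := prI y w with hA
  set wt : ℕ → ℝ := fun p => (p : ℝ)⁻¹ with hwt
  set lt : ℕ → ℝ := fun p => Real.log p with hlt
  set S := ∑ p ∈ A, wt p with hS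
  have hSlow : δ - C' ≤ S := by
    have h1 := (hM y w (by linarith) hyw).1
    have h2 : Real.log (1 + Real.log w) ≥ Real.log (Real.log x) - Real.log K := by
      rw [← Real.log_div (by linarith) (by linarith), ← hlw]
      apply Real.log_le_log (by linarith) (by linarith)
    have h3 : Real.log (1 + Real.log y) ≤ Real.log 2 + Real.log (Real.log y) := by
      rw [← Real.log_mul (by norm_num) (by linarith)]
      apply Real.log_le_log (by linarith) (by linarith)
    rw [hS, hwt]; linarith
  have hδ2 : 2 * C' ≤ δ := by linarith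
  have hδ0 : 0 < δ := by linarith
  have hS0 : 0 < S := by linarith
  have hSδ : δ ≤ 2 * S := by linarith
  have hΘ : ∑ p ∈ A, wt p * lt p ≤ 32 * Real.log w := by
    have h1 := sum_log_div ⌊w⌋₊ ((Nat.one_le_floor_iff _).mpr (by linarith))
    have h2 : ∑ p ∈ A, wt p * lt p ≤ ∑ p ∈ pr ⌊w⌋₊, Real.log p * (p : ℝ)⁻¹ := by
      have e : ∀ p : ℕ, wt p * lt p = Real.log p * (p : ℝ)⁻¹ := fun p => by
        rw [hwt, hlt]; ring
      simp_rw [e]
      apply Finset.sum_le_sum_of_subset_of_nonneg (filter_subset _ _)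
      intro p _ _
      have := Real.log_natCast_nonneg p
      positivity
    have h3 : Real.log (⌊w⌋₊ : ℝ) ≤ Real.log w := by
      apply Real.log_le_log
      · have : 1 ≤ ⌊w⌋₊ := (Nat.one_le_floor_iff _).mpr (by linarith)
        exact_mod_cast this
      · exact Nat.floor_le hw0.le
    linarith
  have hP2 : (2 * κ) ^ 2 * ∑ p ∈ A, wt p ^ 2 ≤ 1 := by
    have hfy : 1 ≤ ⌊y⌋₊ := (Nat.one_le_floor_iff _).mpr (by linarith)
    have h1 := sum_inv_sq_tail ⌊y⌋₊ ⌊w⌋₊ hfy
    have h2 : ∑ p ∈ A, wt p ^ 2 ≤ ∑ b ∈ (Icc 1 ⌊w⌋₊).filter (fun b => ⌊y⌋₊ ≤ b),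
        ((b : ℝ) ^ 2)⁻¹ := by
      have e : ∀ p : ℕ, wt p ^ 2 = ((p : ℝ) ^ 2)⁻¹ := fun p => by rw [hwt]; simp
      simp_rw [e]
      apply Finset.sum_le_sum_of_subset_of_nonneg
      · intro p hp
        rw [hA, mem_prI hw0.le] at hp
        rw [mem_filter, mem_Icc]
        exact ⟨⟨hp.1.one_le, Nat.le_floor hp.2.2⟩, Nat.floor_le_of_le hp.2.1.le⟩
      · intro p _ _; positivity
    have h3 : y ≤ 2 * (⌊y⌋₊ : ℝ) := by
      have h9 := Nat.lt_floor_add_one y
      have h10 : (1:ℝ) ≤ ⌊y⌋₊ := by exact_mod_cast hfy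
      linarith
    have h4 : 2 / (⌊y⌋₊ : ℝ) ≤ 4 / y := by
      have h10 : (1:ℝ) ≤ ⌊y⌋₊ := by exact_mod_cast hfy
      rw [div_le_div_iff₀ (by linarith) (by linarith)]
      linarith
    calc (2 * κ) ^ 2 * ∑ p ∈ A, wt p ^ 2 ≤ (2 * κ) ^ 2 * (4 / y) := by
          gcongr
          linarith
      _ = 16 * κ ^ 2 / y := by ring
      _ ≤ 1 := by rw [div_le_one (by linarith)]; linarith
  set T := Real.log x / 2 with hT
  have hgood := es_good (w := wt) (l := lt) (fun i => by rw [hwt]; positivity)
    (fun i => by rw [hlt]; exact Real.log_natCast_nonneg i) A n (κ := 2 * κ) (T := T)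
    (by linarith) (by linarith) hS0 (by
      refine hn.trans ?_
      rw [mul_comm 2 κ, mul_assoc]
      gcongr) hP2 (by
      have : 4 * (2 * κ) * ∑ p ∈ A, wt p * lt p ≤ 4 * (2 * κ) * (32 * (Real.log x / K)) := by
        rw [← hlw]; gcongr
      refine this.trans ?_
      rw [hT]
      have e : 4 * (2 * κ) * (32 * (Real.log x / K)) = (Real.log x / 2) * (512 * κ / K) := by ring
      rw [e]
      have h5 : 512 * κ / K ≤ 1 := by rw [div_le_one (by linarith)]; linarith
      have h6 : 0 ≤ Real.log x / 2 := by linarith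
      calc _ ≤ (Real.log x / 2) * 1 := by gcongr
        _ = _ := mul_one _)
  set 𝓑 := (powersetCard n A).filter (fun B => ∑ p ∈ B, lt p ≤ T) with h𝓑
  -- properties of B
  have hBprime : ∀ B ∈ 𝓑, ∀ p ∈ B, p.Prime ∧ y < p ∧ (p : ℝ) ≤ w := by
    intro B hB p hp
    rw [h𝓑, mem_filter, mem_powersetCard] at hB
    exact (mem_prI hw0.le).mp (hB.1.1 hp)
  have hBprod : ∀ B ∈ 𝓑, (0:ℝ) < ((∏ p ∈ B, p : ℕ) : ℝ) ∧
      ((∏ p ∈ B, p : ℕ) : ℝ) ≤ Real.exp T := by
    intro B hB
    have hpos : 0 < ∏ p ∈ B, p := prodP_pos B fun p hp => (hBprime B hB p hp).1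
    have hpos' : (0:ℝ) < ((∏ p ∈ B, p : ℕ) : ℝ) := by exact_mod_cast hpos
    refine ⟨hpos', ?_⟩
    rw [← Real.log_le_iff_le_exp hpos']
    rw [h𝓑, mem_filter] at hB
    push_cast
    rw [Real.log_prod]
    · exact hB.2
    · intro p hp
      have := ((mem_prI hw0.le).mp ((mem_powersetCard.mp hB.1).1 hp)).1.ne_zero
      exact_mod_cast this
  have hexpT : Real.exp T * Real.exp T = x := by
    rw [← Real.exp_add, hT, add_halves, Real.exp_log hx0]
  have hTbig : 10 ^ 9 ≤ Real.exp T := by
    have h1 : (40:ℝ) ≤ T := by rw [hT]; linarith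
    have h2 : Real.exp 40 ≤ Real.exp T := Real.exp_le_exp.mpr h1
    have h3 : (2.7:ℝ) ^ 40 ≤ Real.exp 40 := by
      have : Real.exp 40 = Real.exp 1 ^ 40 := by rw [← Real.exp_nat_mul]; norm_num
      rw [this]
      have := Real.exp_one_gt_d9
      gcongr
      linarith
    have h4 : (10:ℝ) ^ 9 ≤ 2.7 ^ 40 := by norm_num
    linarith
  have hwT : w ≤ Real.exp T / 4 := by
    have h1 : Real.log x / K ≤ T - 2 := by
      rw [hT]
      have : Real.log x / K ≤ Real.log x / 4 := by
        apply div_le_div_of_nonneg_left (by linarith) (by norm_num) (by linarith)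
      linarith
    have h2 : w ≤ Real.exp (T - 2) := Real.exp_le_exp.mpr h1
    rw [Real.exp_sub] at h2
    have h3 : (4:ℝ) ≤ Real.exp 2 := by
      have : Real.exp 2 = Real.exp 1 ^ 2 := by rw [← Real.exp_nat_mul]; norm_num
      rw [this]
      have := Real.exp_one_gt_d9
      calc (4:ℝ) = 2 ^ 2 := by norm_num
        _ ≤ Real.exp 1 ^ 2 := pow_le_pow_left₀ (by norm_num) (by linarith) 2
    refine h2.trans ?_
    apply div_le_div_of_nonneg_left (Real.exp_pos _).le (by norm_num) h3
  -- the counting injection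
  set Z : Finset (Σ _ : Finset ℕ, ℕ) := 𝓑.sigma (fun B =>
    prI (x / (4 * ((∏ p ∈ B, p : ℕ) : ℝ))) (4 * (x / (4 * ((∏ p ∈ B, p : ℕ) : ℝ))))) with hZ
  have hXB : ∀ B ∈ 𝓑, Real.exp T / 4 ≤ x / (4 * ((∏ p ∈ B, p : ℕ) : ℝ)) := by
    intro B hB
    obtain ⟨h1, h2⟩ := hBprod B hB
    rw [div_le_div_iff₀ (by norm_num) (by positivity)]
    have : Real.exp T * ((∏ p ∈ B, p : ℕ) : ℝ) ≤ Real.exp T * Real.exp T := by gcongr
    rw [hexpT] at this
    have e : Real.exp T * (4 * ((∏ p ∈ B, p : ℕ) : ℝ)) =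
      4 * (Real.exp T * ((∏ p ∈ B, p : ℕ) : ℝ)) := by ring
    rw [e]
    linarith
  have hcardZ : #Z ≤ #(rough y x (n+1)) := by
    apply Finset.card_le_card_of_injOn (fun z => (∏ p ∈ z.1, p) * z.2)
    · rintro ⟨B, P⟩ hz
      rw [mem_coe, hZ, Finset.mem_sigma] at hz
      obtain ⟨hB, hP⟩ := hz
      simp only at hB hP
      have h1 := hXB B hB
      obtain ⟨hb0, hbT⟩ := hBprod B hB
      have hXpos : 0 < x / (4 * ((∏ p ∈ B, p : ℕ) : ℝ)) := by positivity
      rw [mem_prI (by linarith)] at hP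
      obtain ⟨hPp, hP1, hP2⟩ := hP
      have hPw : w < P := by linarith
      have hPB : P ∉ B := fun h => by
        have := (hBprime B hB P h).2.2
        linarith
      have hBc : #B = n := by
        rw [h𝓑, mem_filter, mem_powersetCard] at hB; exact hB.1.2
      rw [mem_coe, mem_rough hx0.le]
      have hins : (∏ p ∈ B, p) * P = ∏ p ∈ insert P B, p := by
        rw [Finset.prod_insert hPB, mul_comm]
      have hpr : ∀ p ∈ insert P B, p.Prime := by
        intro p hp
        rw [mem_insert] at hp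
        rcases hp with rfl | hp
        · exact hPp
        · exact (hBprime B hB p hp).1
      simp only
      rw [hins]
      refine ⟨⟨prodP_pos _ hpr, ?_⟩, prodP_squarefree _ hpr, ?_, ?_⟩
      · rw [← hins]
        push_cast
        have e : 4 * (x / (4 * ((∏ p ∈ B, p : ℕ) : ℝ))) = x / ((∏ p ∈ B, p : ℕ) : ℝ) := by
          field_simp
        rw [e, le_div_iff₀ hb0] at hP2
        push_cast at hP2
        linarith
      · rw [prodP_cardFactors _ hpr, Finset.card_insert_of_notMem hPB, hBc]
      · intro p hp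
        rw [Nat.primeFactors_prod hpr, mem_insert] at hp
        rcases hp with rfl | hp
        · linarith
        · exact (hBprime B hB p hp).2.1
    · rintro ⟨B, P⟩ hz ⟨B', P'⟩ hz' heq
      rw [mem_coe, hZ, Finset.mem_sigma] at hz hz'
      obtain ⟨hB, hP⟩ := hz
      obtain ⟨hB', hP'⟩ := hz'
      simp only at hB hP hB' hP' heq
      have h1 := hXB B hB
      have h1' := hXB B' hB'
      obtain ⟨hb0, hbT⟩ := hBprod B hB
      obtain ⟨hb0', hbT'⟩ := hBprod B' hB'
      have hXpos : 0 < x / (4 * ((∏ p ∈ B, p : ℕ) : ℝ)) := by positivity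
      have hXpos' : 0 < x / (4 * ((∏ p ∈ B', p : ℕ) : ℝ)) := by positivity
      rw [mem_prI (by linarith)] at hP hP'
      have hPw : w < P := by linarith [hP.2.1]
      have hPw' : w < P' := by linarith [hP'.2.1]
      have hPB : P ∉ B := fun h => by
        have := (hBprime B hB P h).2.2
        linarith
      have hPB' : P' ∉ B' := fun h => by
        have := (hBprime B' hB' P' h).2.2
        linarith
      have hpr : ∀ p ∈ insert P B, p.Prime := by
        intro p hp
        rw [mem_insert] at hp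
        rcases hp with rfl | hp
        · exact hP.1
        · exact (hBprime B hB p hp).1
      have hpr' : ∀ p ∈ insert P' B', p.Prime := by
        intro p hp
        rw [mem_insert] at hp
        rcases hp with rfl | hp
        · exact hP'.1
        · exact (hBprime B' hB' p hp).1
      have hins : (∏ p ∈ B, p) * P = ∏ p ∈ insert P B, p := by
        rw [Finset.prod_insert hPB, mul_comm]
      have hins' : (∏ p ∈ B', p) * P' = ∏ p ∈ insert P' B', p := by
        rw [Finset.prod_insert hPB', mul_comm]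
      rw [hins, hins'] at heq
      have hset : insert P B = insert P' B' := by
        rw [← Nat.primeFactors_prod hpr, heq, Nat.primeFactors_prod hpr']
      have hPP : P = P' := by
        by_contra hne
        have : P ∈ insert P' B' := by rw [← hset]; exact mem_insert_self _ _
        rw [mem_insert] at this
        rcases this with h | h
        · exact hne h
        · have := (hBprime B' hB' P h).2.2
          linarith
      subst hPP
      have : B = B' := by
        rw [← Finset.erase_insert hPB, hset, Finset.erase_insert hPB']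
      rw [this]
  -- lower bound of the size of Z
  have hZlow : (x / (8 * Real.log x)) * ∑ B ∈ 𝓑, ∏ p ∈ B, wt p ≤ #Z := by
    rw [hZ, Finset.card_sigma, Finset.mul_sum]
    push_cast
    apply Finset.sum_le_sum
    intro B hB
    obtain ⟨hb0, hbT⟩ := hBprod B hB
    have h1 := hXB B hB
    set X := x / (4 * ((∏ p ∈ B, p : ℕ) : ℝ)) with hX
    have hX8 : 10 ^ 8 ≤ X := by linarith
    have h2 := card_prI_ge hX8
    have e1 : (∏ p ∈ B, wt p) = (((∏ p ∈ B, p : ℕ) : ℝ))⁻¹ := by
      rw [hwt]; push_cast; rw [Finset.prod_inv_distrib]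
    have hXx : X ≤ x := by
      rw [hX, div_le_iff₀ (by positivity)]
      have : (1:ℝ) ≤ ((∏ p ∈ B, p : ℕ) : ℝ) := by exact_mod_cast (by exact_mod_cast hb0)
      exact le_mul_of_one_le_right hx0.le (by linarith)
    have hlX : 0 < Real.log X := Real.log_pos (by linarith)
    have hlXx : Real.log X ≤ Real.log x := Real.log_le_log (by linarith) hXx
    have h3 : X / (2 * Real.log x) ≤ #(prI X (4 * X)) := by
      refine le_trans ?_ h2
      apply div_le_div_of_nonneg_left (by linarith) (by positivity) (by linarith)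
    have e2 : x / (8 * Real.log x) * ∏ p ∈ B, wt p = X / (2 * Real.log x) := by
      rw [e1, hX]; field_simp; norm_num
    rw [e2]
    have e3 : 4 * (x / (4 * ∏ p ∈ B, (p:ℝ))) = 4 * X := by rw [hX]; push_cast; rfl
    have e4 : x / (4 * ∏ p ∈ B, (p:ℝ)) = X := by rw [hX]; push_cast; rfl
    rw [e3, e4]
    exact h3
  have hfinal : Real.exp (-(2 * C' * κ)) * (δ ^ n / n.factorial) ≤ S ^ n / n.factorial := by
    rw [mul_div_assoc']
    gcongr
    have h1 : δ * Real.exp (-(2 * (C' / δ))) ≤ S := by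
      have h2 := one_sub_ge_exp (t := C' / δ) (by positivity) (by
        rw [div_le_iff₀ hδ0]; linarith)
      calc δ * Real.exp (-(2 * (C' / δ))) ≤ δ * (1 - C' / δ) := by gcongr
        _ = δ - C' := by field_simp
        _ ≤ S := hSlow
    calc Real.exp (-(2 * C' * κ)) * δ ^ n ≤ (Real.exp (-(2 * (C' / δ)))) ^ n * δ ^ n := by
          gcongr
          rw [← Real.exp_nat_mul]
          apply Real.exp_le_exp.mpr
          have : (n:ℝ) * (C' / δ) ≤ C' * κ := by
            calc (n:ℝ) * (C' / δ) ≤ (κ * δ) * (C' / δ) := by gcongr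
              _ = C' * κ := by field_simp
          linarith
      _ = (δ * Real.exp (-(2 * (C' / δ)))) ^ n := by rw [← mul_pow, mul_comm]
      _ ≤ S ^ n := by gcongr
  calc Real.exp (-(2 * C' * κ)) / 32 * (x / Real.log x) * (δ ^ n / n.factorial)
      = (x / (8 * Real.log x)) * ((Real.exp (-(2 * C' * κ)) * (δ ^ n / n.factorial)) / 4) := by
        field_simp; norm_num
    _ ≤ (x / (8 * Real.log x)) * (S ^ n / n.factorial / 4) := by gcongr
    _ ≤ (x / (8 * Real.log x)) * ∑ B ∈ 𝓑, ∏ p ∈ B, wt p := by gcongr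
    _ ≤ #Z := hZlow
    _ ≤ _ := by exact_mod_cast hcardZ

end Pool.Agent.MP6396c4
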