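import Mathlib
import Pool.Agent.Lib.MP_6396c4_an.CfgM
import Pool.Agent.Lib.MP_6396c4_an.CfgW
import Pool.Agent.Lib.MP_6396c4_an.Rough

open Finset ArithmeticFunction

noncomputable section

namespace Pool.Agent.MP6396c4

lemma card_cfgs (k N m : ℕ) (C1 H z0 : ℝ) (S : Finset ℕ) (Lm : ℕ → Finset (Fin (k+1) → ℕ)) :
    (#(cfgs k N m C1 H z0 S Lm) : ℝ) = ∑ s ∈ S, ∑ lam ∈ Lm s, ∑ B ∈ BB C1 z0 s (∑ i, lam i),
      ∑ uu ∈ parts (k+1) lam B ×ˢ parts (k+1) lam B,
        ∑ r ∈ Fintype.piFinset (fun _ : Fin k => RR H s), ∑ q ∈ QQ uu.1 uu.2 r,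
          (#(VV N m (yf H s) lam uu.1 uu.2 r q) : ℝ) := by
  unfold cfgs
  simp only [card_sigma, Nat.cast_sum]

lemma xf_bounds {k : ℕ} {u u' : Fin (k+1) → ℕ} {r : Fin k → ℕ} {E H : ℝ}
    (hu : ∀ i, (1:ℝ) ≤ u i ∧ (u i : ℝ) ≤ Real.exp (E / 2))
    (hu' : ∀ i, (1:ℝ) ≤ u' i ∧ (u' i : ℝ) ≤ Real.exp (E / 2))
    (hr : ∀ i, Real.exp E < r i ∧ (r i : ℝ) ≤ Real.exp (H * E)) (i : Fin k) :
    Real.exp (E / 2) ≤ xf u u' r i ∧ xf u u' r i ≤ Real.exp ((H + 1/2) * E) := by
  have h1 := hu i.castSucc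
  have h2 := hu' i.castSucc
  have h3 := hr i
  have hr0 : (0:ℝ) < r i := lt_trans (Real.exp_pos _) h3.1
  unfold xf
  constructor
  · rw [le_div_iff₀ (by linarith)]
    calc Real.exp (E / 2) * u i.castSucc
        ≤ Real.exp (E / 2) * Real.exp (E / 2) := by
          have := h1.2
          gcongr
      _ = Real.exp E := by rw [← Real.exp_add]; congr 1; ring
      _ ≤ r i := h3.1.le
      _ ≤ r i * u' i.castSucc := le_mul_of_one_le_right hr0.le h2.1
  · rw [div_le_iff₀ (by linarith)]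
    calc (r i : ℝ) * u' i.castSucc ≤ Real.exp (H * E) * Real.exp (E / 2) := by
          have := h2.2
          have := h3.2
          gcongr
      _ = Real.exp ((H + 1/2) * E) := by rw [← Real.exp_add]; congr 1; ring
      _ ≤ Real.exp ((H + 1/2) * E) * u i.castSucc :=
          le_mul_of_one_le_right (Real.exp_pos _).le h1.1

theorem count_lower (k : ℕ) (hk : 1 ≤ k) (κ : ℝ) (hκ : 1 ≤ κ) :
    ∃ c C2 C3 s0 L0 : ℝ, ∃ S0 : ℕ, 0 < c ∧ 0 < C2 ∧ 0 < C3 ∧ C3 + 1 ≤ s0 ∧ 3 ≤ L0 ∧
    5 * (C2 + 1) ≤ L0 ∧ 1 ≤ S0 ∧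
    ∀ (N m : ℕ) (S : Finset ℕ) (Lm : ℕ → Finset (Fin (k+1) → ℕ)),
      L0 ≤ Real.log (Real.log N) → k + 1 ≤ m →
      (∀ s ∈ S, s0 ≤ s ∧ (s:ℝ) ≤ 4 / 5 * Real.log (Real.log N)) →
      (∀ s ∈ S, ∀ s' ∈ S, s < s' → s + S0 ≤ s') →
      (∀ s ∈ S, ∀ lam ∈ Lm s, (∀ i, lam i + (k+1) ≤ m) ∧
        ((∑ i, lam i : ℕ) : ℝ) ≤ κ * (s - C3) ∧
        ∀ i, ((m - (k+1) - lam i : ℕ) : ℝ) ≤ κ * (Real.log (Real.log N) - s - C2)) →
      ∑ s ∈ S, ∑ lam ∈ Lm s, c * (N / Real.log N) ^ (k+1) * Real.exp (-(k * s)) *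
        Tm k (m - (k+1)) (s - C3) (Real.log (Real.log N) - s - C2) lam ≤ #(sols (k+1) N m) := by
  obtain ⟨C1, z0, C3, s1, hC1, hz0, hC3, hs1, hBB⟩ := BB_weight hκ
  obtain ⟨H, hH, hRR⟩ := RR_weight
  obtain ⟨cr, G, y0, hcr, hG, hy0, hrough⟩ := rough_lower κ hκ
  set cM : ℝ := 1 / (2 ^ (k * (k-1)) * 4 ^ k) with hcM
  have hcM0 : 0 < cM := by positivity
  set cQ : ℝ := 1 / (16 * (H + 1/2)) with hcQ
  have hcQ0 : 0 < cQ := by positivity
  set C2 : ℝ := 1 + Real.log (H + 1) with hC2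
  have hlH : 0 ≤ Real.log (H + 1) := Real.log_nonneg (by linarith)
  set A : ℝ := 2 * (2 * k + (k+1) * (H+1)) with hA
  have hk1 : (1:ℝ) ≤ k := by exact_mod_cast hk
  have hA1 : 4 ≤ A := by
    have h1 : ((1:ℝ) + 1) * (1 + 1) ≤ ((k:ℝ)+1) * (H+1) := by gcongr
    rw [hA]; linarith
  set S0 : ℕ := ⌈Real.log (2 * (H+1))⌉₊ + 1 with hS0
  set s0 : ℝ := s1 + Real.log (Real.log y0) + 5 with hs0
  have hly0 : 1 ≤ Real.log y0 := by
    rw [Real.le_log_iff_exp_le (by linarith)]
    have := Real.exp_one_lt_d9; linarith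
  have hlly0 : 0 ≤ Real.log (Real.log y0) := Real.log_nonneg hly0
  have hlA : 0 ≤ Real.log A := Real.log_nonneg (by linarith)
  refine ⟨cr ^ (k+1) * cM * cQ ^ k / 4, C2, C3, s0, 5 * (C2 + G) + 5 * Real.log A + 3, S0,
    by positivity, by linarith, hC3, by linarith, by linarith, by linarith, by omega, ?_⟩
  intro N m S Lm hL hm hS hsep hLm
  obtain ⟨hT1, hN2, _, _⟩ : 1 ≤ Real.log N ∧ 2 ≤ N ∧ True ∧ True := by
    have hL3 : 3 ≤ Real.log (Real.log N) := by linarith
    have hT0 : 0 < Real.log N := by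
      have : 0 ≤ Real.log (N:ℝ) := Real.log_natCast_nonneg N
      rcases this.eq_or_lt with h1 | h1
      · rw [← h1, Real.log_zero] at hL3; linarith
      · exact h1
    refine ⟨?_, ?_, trivial, trivial⟩
    · by_contra hc'
      push Not at hc'
      have := Real.log_nonpos hT0.le hc'.le
      linarith
    · by_contra hc
      have : N = 0 ∨ N = 1 := by omega
      rcases this with h1 | h1 <;> rw [h1] at hT0 <;> simp at hT0
  set T := Real.log N with hT
  set L := Real.log T with hLd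
  have hT0 : 0 < T := by linarith
  have hN0 : (0:ℝ) < N := by have : 0 < N := by omega
                             exact_mod_cast this
  have hTexp : Real.exp L = T := Real.exp_log hT0
  -- size facts for each s
  have hbig : ∀ s ∈ S, (10:ℝ) ^ 8 ≤ Real.exp (Real.exp s / 2) := by
    intro s hs
    have h1 := (hS s hs).1
    have h5 : (5:ℝ) ≤ s := by linarith
    have h2 : (148:ℝ) ≤ Real.exp s := by
      calc (148:ℝ) ≤ 2.718 ^ 5 := by norm_num
        _ ≤ (Real.exp 1) ^ 5 := by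
          have := Real.exp_one_gt_d9
          apply pow_le_pow_left₀ (by norm_num); linarith
        _ = Real.exp 5 := by rw [← Real.exp_nat_mul]; norm_num
        _ ≤ _ := Real.exp_le_exp.mpr h5
    calc (10:ℝ) ^ 8 ≤ 2.718 ^ 74 := by norm_num
      _ ≤ (Real.exp 1) ^ 74 := by
          have := Real.exp_one_gt_d9
          apply pow_le_pow_left₀ (by norm_num); linarith
      _ = Real.exp 74 := by rw [← Real.exp_nat_mul]; norm_num
      _ ≤ _ := Real.exp_le_exp.mpr (by linarith)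
  have hcount := cfgs_le_sols (N := N) (m := m) hk hC1 hH hz0 S Lm
    (fun s hs => le_trans (by norm_num) (hbig s hs))
    (fun s hs => (hBB s 0 (by have := (hS s hs).1; linarith)).1)
    (by
      intro s hs s' hs' hss
      have h1 := hsep s hs s' hs' hss
      unfold yf wf
      apply Real.exp_le_exp.mpr
      have h2 : Real.log (2 * (H+1)) ≤ S0 := by
        rw [hS0]; push_cast
        have := Nat.le_ceil (Real.log (2 * (H+1)))
        linarith
      have h3 : (s:ℝ) + S0 ≤ s' := by exact_mod_cast h1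
      have h4 : (2 * (H+1)) * Real.exp s ≤ Real.exp s' := by
        calc (2 * (H+1)) * Real.exp s = Real.exp (Real.log (2 * (H+1)) + s) := by
              rw [Real.exp_add, Real.exp_log (by linarith)]
          _ ≤ _ := Real.exp_le_exp.mpr (by linarith)
      linarith)
    (fun s hs lam hlam i => by have := (hLm s hs lam hlam).1 i; omega)
  refine le_trans ?_ (show (#(cfgs k N m C1 H z0 S Lm) : ℝ) ≤ #(sols (k+1) N m) by
    exact_mod_cast hcount)
  rw [card_cfgs]
  apply Finset.sum_le_sum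
  intro s hs
  apply Finset.sum_le_sum
  intro lam hlam
  obtain ⟨hlm, hln, hlκ⟩ := hLm s hs lam hlam
  obtain ⟨hss0, hssL⟩ := hS s hs
  set μ := m - (k+1) with hμ
  set n := ∑ i, lam i with hn
  set a := (s:ℝ) - C3 with ha
  set b := L - s - C2 with hb
  have ha1 : 1 ≤ a := by linarith
  have hbG : G ≤ b := by
    rw [hb]
    linarith
  have hb0 : 0 < b := by linarith
  have hEpos := Real.exp_pos (s:ℝ)
  set E := Real.exp (s:ℝ) with hE
  -- the value of W
  set W : ℝ := cr ^ (k+1) * (N / T) ^ (k+1) * ∏ i, (b ^ (μ - lam i) / (μ - lam i).factorial) with hW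
  have hW0 : 0 ≤ W := by
    have : 0 ≤ ∏ i, (b ^ (μ - lam i) / (μ - lam i).factorial) :=
      Finset.prod_nonneg fun i _ => by positivity
    positivity
  -- pointwise bound
  have hpt : ∀ B ∈ BB C1 z0 s n, ∀ uu ∈ parts (k+1) lam B ×ˢ parts (k+1) lam B,
      ∀ r ∈ Fintype.piFinset (fun _ : Fin k => RR H s), ∀ q ∈ QQ uu.1 uu.2 r,
      W * cM * (((∏ p ∈ B, p : ℕ) : ℝ)⁻¹ * ((∏ i, (q i : ℝ)⁻¹) * ∏ i, (r i : ℝ)⁻¹)) ≤
      (#(VV N m (yf H s) lam uu.1 uu.2 r q) : ℝ) := by
    rintro B hB ⟨u, u'⟩ huu r hr q hq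
    rw [mem_product] at huu
    obtain ⟨hu, hu'⟩ := huu
    simp only at hu hu' hq ⊢
    have hBmem := hB
    unfold BB at hBmem
    rw [mem_filter, mem_powersetCard] at hBmem
    obtain ⟨⟨hBs, hBc⟩, hBl⟩ := hBmem
    have hBp : ∀ p ∈ B, p.Prime := fun p hp => ((mem_prI (Real.exp_pos _).le).mp (hBs hp)).1
    obtain ⟨hu0, hule, _⟩ := parts_facts hBp hu
    obtain ⟨hu0', hule', _⟩ := parts_facts hBp hu'
    have hUU := (mem_parts hBp).mp hu
    have hUU' := (mem_parts hBp).mp hu'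
    have hprod := prod_le_exp B hBp hBl
    -- x bounds
    have hr' : ∀ i, (r i).Prime ∧ Real.exp E < r i ∧ (r i : ℝ) ≤ Real.exp (H * E) := fun i =>
      (mem_prI (Real.exp_pos _).le).mp ((Fintype.mem_piFinset.mp hr) i)
    have hx : ∀ i, Real.exp (E / 2) ≤ xf u u' r i ∧ xf u u' r i ≤ Real.exp ((H + 1/2) * E) :=
      xf_bounds (fun i => ⟨by exact_mod_cast hu0 i, le_trans (by exact_mod_cast hule i) hprod⟩)
        (fun i => ⟨by exact_mod_cast hu0' i, le_trans (by exact_mod_cast hule' i) hprod⟩)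
        (fun i => (hr' i).2)
    have hq' : ∀ i, q i ≠ r i ∧ (q i).Prime ∧ xf u u' r i < q i ∧ (q i : ℝ) ≤ 4 * xf u u' r i := by
      intro i
      unfold QQ at hq
      rw [Fintype.mem_piFinset] at hq
      have h1 := hq i
      rw [mem_erase, mem_prI (by have := (hx i).1; have := Real.exp_pos (E / 2); linarith)] at h1
      exact h1
    have hr0 : ∀ i, 0 < r i := fun i => (hr' i).1.pos
    have hq0 : ∀ i, 0 < q i := fun i => (hq' i).2.1.pos
    have hqx : ∀ i, xf u u' r i < q i ∧ (q i : ℝ) ≤ 4 * xf u u' r i :=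
      fun i => ⟨(hq' i).2.2.1, (hq' i).2.2.2⟩
    have hMp := Mf_prod hk hu0 hu0' hr0 hq0 hUU.1 hUU'.1 hqx
    have hMs := Mf_size hk hu0 hu0' hr0 hq0 hUU.1 hUU'.1 hqx (E := E) (H := H) hEpos.le hH
      (fun i => le_trans (by exact_mod_cast hule i) hprod)
      (fun i => (hr' i).2.2.trans (Real.exp_le_exp.mpr
        (mul_le_mul_of_nonneg_right (by linarith) hEpos.le)))
      (fun i => by
        refine (hqx i).2.trans ?_
        calc 4 * xf u u' r i ≤ Real.exp (E / 2) * Real.exp ((H + 1/2) * E) := by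
              have h1 := (hx i).2
              have h0 : 0 ≤ xf u u' r i := le_trans (Real.exp_pos _).le (hx i).1
              have h2 : (4:ℝ) ≤ Real.exp (E / 2) := le_trans (by norm_num) (hbig s hs)
              gcongr
          _ = Real.exp ((H + 1) * E) := by rw [← Real.exp_add]; congr 1; ring)
    have hM1 : ∀ i, (1:ℝ) ≤ Mf u u' r q i := by
      intro i
      have : 0 < Mf u u' r q i := by
        apply lt_max_of_lt_left
        apply Nat.mul_pos (hu0 i)
        induction i using Fin.lastCases with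
        | last => rw [cf_last]; exact Finset.prod_pos fun i _ => hr0 i
        | cast i => rw [cf_castSucc]; have := hq0 i; positivity
      exact_mod_cast this
    -- the rough counts
    have hrc : ∀ i, cr * ((N / Mf u u' r q i) / T) * (b ^ (μ - lam i) / (μ - lam i).factorial) ≤
        #(rough (yf H s) (N / Mf u u' r q i) (m - k - lam i)) := by
      intro i
      have hMi : (0:ℝ) < Mf u u' r q i := by linarith [hM1 i]
      set x := (N:ℝ) / Mf u u' r q i with hxd
      have hx0 : 0 < x := by positivity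
      have hlx : Real.log x = T - Real.log (Mf u u' r q i) := by
        rw [hxd, Real.log_div hN0.ne' hMi.ne']
      have hlM0 : 0 ≤ Real.log (Mf u u' r q i) := Real.log_nonneg (hM1 i)
      have hlxT : Real.log x ≤ T := by linarith
      have hE5 : 2 * (2 * k + (k+1) * (H+1) * E) ≤ T := by
        have h1 : 2 * (2 * k + (k+1) * (H+1) * E) ≤ A * E := by
          have hE1 : 1 ≤ E := Real.one_le_exp (Nat.cast_nonneg s)
          have h8 : (4:ℝ) * k ≤ 4 * k * E := le_mul_of_one_le_right (by positivity) hE1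
          have h9 : A * E = 4 * k * E + 2 * ((k+1) * (H+1) * E) := by rw [hA]; ring
          rw [h9]; linarith
        have h2 : A * E = Real.exp (Real.log A + s) := by
          rw [Real.exp_add, Real.exp_log (by linarith)]
        rw [← hTexp]
        refine h1.trans ?_
        rw [h2]
        apply Real.exp_le_exp.mpr
        linarith
      have hlx2 : T / 2 ≤ Real.log x := by
        have := hMs i
        linarith
      have hLL2 : Real.log (T / 2) = L - Real.log 2 := by
        rw [Real.log_div hT0.ne' (by norm_num)]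
      have hl2 := log_two_bounds
      have hllx : L - Real.log 2 ≤ Real.log (Real.log x) := by
        rw [← hLL2]
        apply Real.log_le_log (by linarith) hlx2
      have hlly : Real.log (Real.log (yf H s)) = s + Real.log (H + 1) := by
        unfold yf
        rw [Real.log_exp, Real.log_mul (by linarith) hEpos.ne', Real.log_exp]
        ring
      have hδ : b ≤ Real.log (Real.log x) - Real.log (Real.log (yf H s)) := by
        rw [hlly, hb, hC2]; linarith [hl2.2]
      have hT4 : 4 ≤ T := by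
        rw [← hTexp]
        have h1 := Real.add_one_le_exp L
        linarith
      have hyy : y0 ≤ yf H s := by
        unfold yf
        rw [← Real.exp_log (show (0:ℝ) < y0 by linarith)]
        apply Real.exp_le_exp.mpr
        have h1 : Real.log y0 ≤ E := by
          rw [← Real.exp_log (show (0:ℝ) < Real.log y0 by linarith)]
          apply Real.exp_le_exp.mpr
          linarith
        calc Real.log y0 ≤ E := h1
          _ = 1 * E := by ring
          _ ≤ (H + 1) * E := mul_le_mul_of_nonneg_right (by linarith) hEpos.le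
      have hidx : m - k - lam i = (μ - lam i) + 1 := by
        have := hlm i; omega
      rw [hidx]
      have h1 := hrough (yf H s) x hyy (by
          have : 0 ≤ Real.log x := by linarith
          by_contra hc
          push Not at hc
          have := Real.log_neg hx0 hc
          linarith) (by linarith) (hbG.trans hδ) (μ - lam i)
          ((hlκ i).trans (by gcongr))
      refine le_trans ?_ h1
      have hlx0 : 0 < Real.log x := by linarith
      gcongr
    -- combine
    unfold VV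
    rw [Fintype.card_piFinset]
    push_cast
    push_cast at hMp
    calc W * cM * ((∏ p ∈ B, (p : ℝ))⁻¹ * ((∏ i, (q i : ℝ)⁻¹) * ∏ i, (r i : ℝ)⁻¹))
        = W * (cM * ((∏ p ∈ B, (p : ℝ))⁻¹ * ((∏ i, (q i : ℝ)⁻¹) * ∏ i, (r i : ℝ)⁻¹))) := by ring
      _ ≤ W * ∏ i, ((Mf u u' r q i : ℝ))⁻¹ := by
          apply mul_le_mul_of_nonneg_left _ hW0
          exact hMp
      _ = ∏ i, (cr * ((N / Mf u u' r q i) / T) * (b ^ (μ - lam i) / (μ - lam i).factorial)) := by
          rw [Finset.prod_mul_distrib, Finset.prod_mul_distrib, hW]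
          have e1 : ∏ i : Fin (k+1), ((N:ℝ) / (Mf u u' r q i) / T) =
              (N / T) ^ (k+1) * ∏ i, ((Mf u u' r q i : ℝ))⁻¹ := by
            have e2 : (N / T) ^ (k+1) = ∏ _i : Fin (k+1), ((N:ℝ) / T) := by
              rw [Finset.prod_const, card_univ, Fintype.card_fin]
            rw [e2, ← Finset.prod_mul_distrib]
            apply Finset.prod_congr rfl
            intro i _
            field_simp
          rw [e1, Finset.prod_const, card_univ, Fintype.card_fin]
          ring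
      _ ≤ _ := by
          apply Finset.prod_le_prod
          · intro i _
            have := hM1 i
            positivity
          · intro i _; exact hrc i
  -- sum over everything
  have hsumq : ∀ B ∈ BB C1 z0 s n, ∀ uu ∈ parts (k+1) lam B ×ˢ parts (k+1) lam B,
      W * cM * (((∏ p ∈ B, p : ℕ) : ℝ)⁻¹ * (cQ / E) ^ k) ≤
      ∑ r ∈ Fintype.piFinset (fun _ : Fin k => RR H s), ∑ q ∈ QQ uu.1 uu.2 r,
      (#(VV N m (yf H s) lam uu.1 uu.2 r q) : ℝ) := by
    rintro B hB ⟨u, u'⟩ huu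
    have h1 : ∀ r ∈ Fintype.piFinset (fun _ : Fin k => RR H s),
        W * cM * (((∏ p ∈ B, p : ℕ) : ℝ)⁻¹ * (cQ / E) ^ k) * (∏ i, (r i : ℝ)⁻¹) ≤
        ∑ q ∈ QQ u u' r, (#(VV N m (yf H s) lam u u' r q) : ℝ) := by
      intro r hr
      have hBmem := hB
      unfold BB at hBmem
      rw [mem_filter, mem_powersetCard] at hBmem
      obtain ⟨⟨hBs, hBc⟩, hBl⟩ := hBmem
      have hBp : ∀ p ∈ B, p.Prime := fun p hp => ((mem_prI (Real.exp_pos _).le).mp (hBs hp)).1
      rw [mem_product] at huu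
      obtain ⟨hu0, hule, _⟩ := parts_facts hBp huu.1
      obtain ⟨hu0', hule', _⟩ := parts_facts hBp huu.2
      have hprod := prod_le_exp B hBp hBl
      have hr' : ∀ i, (r i).Prime ∧ Real.exp E < r i ∧ (r i : ℝ) ≤ Real.exp (H * E) := fun i =>
        (mem_prI (Real.exp_pos _).le).mp ((Fintype.mem_piFinset.mp hr) i)
      have hx : ∀ i, Real.exp (E / 2) ≤ xf u u' r i ∧ xf u u' r i ≤ Real.exp ((H + 1/2) * E) :=
        xf_bounds (fun i => ⟨by exact_mod_cast hu0 i, le_trans (by exact_mod_cast hule i) hprod⟩)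
          (fun i => ⟨by exact_mod_cast hu0' i, le_trans (by exact_mod_cast hule' i) hprod⟩)
          (fun i => (hr' i).2)
      have hQw := QQ_weight hH (hbig s hs) hx
      have hrp : 0 ≤ ∏ i, (r i : ℝ)⁻¹ := Finset.prod_nonneg fun i _ => by positivity
      calc W * cM * (((∏ p ∈ B, p : ℕ) : ℝ)⁻¹ * (cQ / E) ^ k) * (∏ i, (r i : ℝ)⁻¹)
          ≤ W * cM * (((∏ p ∈ B, p : ℕ) : ℝ)⁻¹ * ∑ q ∈ QQ u u' r, ∏ i, (q i : ℝ)⁻¹) *
            (∏ i, (r i : ℝ)⁻¹) := by
            gcongr
        _ = ∑ q ∈ QQ u u' r, W * cM * (((∏ p ∈ B, p : ℕ) : ℝ)⁻¹ *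
            ((∏ i, (q i : ℝ)⁻¹) * ∏ i, (r i : ℝ)⁻¹)) := by
            rw [Finset.mul_sum, Finset.mul_sum, Finset.sum_mul]
            apply Finset.sum_congr rfl
            intro q _
            ring
        _ ≤ _ := by
            apply Finset.sum_le_sum
            intro q hq
            exact hpt B hB (u, u') (mem_product.mpr huu) r hr q hq
    refine le_trans ?_ (Finset.sum_le_sum h1)
    rw [← Finset.mul_sum]
    have h2 : 1 ≤ ∑ r ∈ Fintype.piFinset (fun _ : Fin k => RR H s), ∏ i, (r i : ℝ)⁻¹ := by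
      rw [← Finset.prod_univ_sum (fun _ : Fin k => RR H s) (fun _ r => (r:ℝ)⁻¹)]
      rw [Finset.prod_const]
      exact one_le_pow₀ (hRR s)
    have h3 : 0 ≤ W * cM * (((∏ p ∈ B, p : ℕ) : ℝ)⁻¹ * (cQ / E) ^ k) := by positivity
    exact le_mul_of_one_le_right h3 h2
  have hsumB : ∀ B ∈ BB C1 z0 s n,
      W * cM * (cQ / E) ^ k * ((n.factorial : ℝ) / ∏ i, ((lam i).factorial : ℝ)) ^ 2 *
        (((∏ p ∈ B, p : ℕ) : ℝ)⁻¹) ≤
      ∑ uu ∈ parts (k+1) lam B ×ˢ parts (k+1) lam B,
      ∑ r ∈ Fintype.piFinset (fun _ : Fin k => RR H s), ∑ q ∈ QQ uu.1 uu.2 r,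
      (#(VV N m (yf H s) lam uu.1 uu.2 r q) : ℝ) := by
    intro B hB
    refine le_trans ?_ (Finset.sum_le_sum (hsumq B hB))
    rw [Finset.sum_const, card_product, nsmul_eq_mul]
    push_cast
    have hBmem := hB
    unfold BB at hBmem
    rw [mem_filter, mem_powersetCard] at hBmem
    obtain ⟨⟨hBs, hBc⟩, hBl⟩ := hBmem
    have hBp : ∀ p ∈ B, p.Prime := fun p hp => ((mem_prI (Real.exp_pos _).le).mp (hBs hp)).1
    have h1 := parts_card (k+1) lam B hBp hBc
    rw [hBc] at h1
    have h2 : (n.factorial : ℝ) / ∏ i, ((lam i).factorial : ℝ) ≤ #(parts (k+1) lam B) := by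
      rw [div_le_iff₀ (Finset.prod_pos fun i _ => by positivity)]
      exact_mod_cast h1
    have h3 : ((n.factorial : ℝ) / ∏ i, ((lam i).factorial : ℝ)) ^ 2 ≤
        (#(parts (k+1) lam B) : ℝ) * #(parts (k+1) lam B) := by
      rw [pow_two]
      have : 0 ≤ (n.factorial : ℝ) / ∏ i, ((lam i).factorial : ℝ) := by
        apply div_nonneg (by positivity)
        exact Finset.prod_nonneg fun i _ => by positivity
      gcongr
    have h4 : 0 ≤ W * cM * ((∏ p ∈ B, (p:ℝ))⁻¹ * (cQ / E) ^ k) := by positivity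
    calc W * cM * (cQ / E) ^ k * ((n.factorial : ℝ) / ∏ i, ((lam i).factorial : ℝ)) ^ 2 *
        (∏ p ∈ B, (p:ℝ))⁻¹ = (((n.factorial : ℝ) / ∏ i, ((lam i).factorial : ℝ)) ^ 2) *
          (W * cM * ((∏ p ∈ B, (p:ℝ))⁻¹ * (cQ / E) ^ k)) := by ring
      _ ≤ _ := by gcongr
  refine le_trans ?_ (Finset.sum_le_sum hsumB)
  rw [← Finset.mul_sum]
  have hBw := (hBB s n (by linarith)).2 hln
  have hX0 : 0 ≤ W * cM * (cQ / E) ^ k * ((n.factorial : ℝ) / ∏ i, ((lam i).factorial : ℝ)) ^ 2 := by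
    positivity
  calc cr ^ (k+1) * cM * cQ ^ k / 4 * (N / T) ^ (k+1) * Real.exp (-(k * s)) * Tm k μ a b lam
      = W * cM * (cQ / E) ^ k * ((n.factorial : ℝ) / ∏ i, ((lam i).factorial : ℝ)) ^ 2 *
        (a ^ n / n.factorial / 4) := by
        unfold Tm
        rw [hW, div_pow cQ E, hE, ← Real.exp_nat_mul, Real.exp_neg, ← hn]
        ring
    _ ≤ _ := by gcongr

end Pool.Agent.MP6396c4
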