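import Mathlib
import Pool.Agent.Lib.MP_6396c4_an.PrimeCount

open Finset ArithmeticFunction

noncomputable section

namespace Pool.Agent.MP6396c4

/-- squarefree numbers up to `N` with exactly `r` prime factors -/
def sqf (r N : ℕ) : Finset ℕ := (Icc 1 N).filter (fun n => Squarefree n ∧ cardFactors n = r)

lemma mem_sqf {r N n : ℕ} : n ∈ sqf r N ↔ (1 ≤ n ∧ n ≤ N) ∧ Squarefree n ∧ cardFactors n = r := by
  simp [sqf]

/-- the Hardy–Ramanujan double counting -/
lemma hr_step (r N : ℕ) :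
    r * #(sqf (r+1) N) ≤ ∑ p ∈ (pr N).filter (fun p => p ^ 2 ≤ N), #(sqf r (N / p)) := by
  -- pairs (n,p) with n in sqf (r+1) N, p | n, p^2 ≤ N
  set P := (pr N).filter (fun p => p ^ 2 ≤ N) with hP
  have h1 : ∀ n ∈ sqf (r+1) N, r ≤ #(P.filter (fun p => p ∣ n)) := by
    intro n hn
    rw [mem_sqf] at hn
    obtain ⟨⟨hn1, hnN⟩, hsq, hcard⟩ := hn
    have hpf : #(n.primeFactors) = r + 1 := by
      rw [← hcard, ← cardDistinctFactors_eq_cardFactors_iff_squarefree (by omega) |>.mpr hsq]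
      rfl
    -- at most one prime factor with square > N
    have h2 : #(n.primeFactors.filter (fun p => ¬ p ^ 2 ≤ N)) ≤ 1 := by
      rw [Finset.card_le_one]
      intro a ha b hb
      rw [mem_filter] at ha hb
      by_contra hne
      have hap := Nat.prime_of_mem_primeFactors ha.1
      have hbp := Nat.prime_of_mem_primeFactors hb.1
      have hab : a * b ∣ n := (Nat.Coprime.mul_dvd_of_dvd_of_dvd
        ((Nat.coprime_primes hap hbp).mpr hne) (Nat.dvd_of_mem_primeFactors ha.1)
        (Nat.dvd_of_mem_primeFactors hb.1))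
      have h3 : a * b ≤ N := (Nat.le_of_dvd (by omega) hab).trans hnN
      have h4 : (a * b) ^ 2 ≤ N ^ 2 := Nat.pow_le_pow_left h3 2
      have h5 : N < a ^ 2 := by have := ha.2; omega
      have h6 : N < b ^ 2 := by have := hb.2; omega
      nlinarith
    have h3 : n.primeFactors.filter (fun p => p ^ 2 ≤ N) ⊆ P.filter (fun p => p ∣ n) := by
      intro p hp
      rw [mem_filter] at hp
      rw [mem_filter, hP, mem_filter, mem_pr]
      have hd := Nat.dvd_of_mem_primeFactors hp.1
      exact ⟨⟨⟨Nat.prime_of_mem_primeFactors hp.1, (Nat.le_of_dvd (by omega) hd).trans hnN⟩,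
        hp.2⟩, hd⟩
    have h4 := Finset.card_filter_add_card_filter_not (s := n.primeFactors) (fun p => p ^ 2 ≤ N)
    have h5 := Finset.card_le_card h3
    omega
  calc r * #(sqf (r+1) N) = ∑ n ∈ sqf (r+1) N, r := by rw [Finset.sum_const, smul_eq_mul, mul_comm]
    _ ≤ ∑ n ∈ sqf (r+1) N, #(P.filter (fun p => p ∣ n)) := Finset.sum_le_sum h1
    _ = ∑ n ∈ sqf (r+1) N, ∑ p ∈ P, (if p ∣ n then 1 else 0) := by
        apply Finset.sum_congr rfl; intro n _; rw [Finset.card_filter]
    _ = ∑ p ∈ P, ∑ n ∈ sqf (r+1) N, (if p ∣ n then 1 else 0) := Finset.sum_comm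
    _ = ∑ p ∈ P, #((sqf (r+1) N).filter (fun n => p ∣ n)) := by
        apply Finset.sum_congr rfl; intro p _; rw [Finset.card_filter]
    _ ≤ _ := by
        apply Finset.sum_le_sum
        intro p hp
        have hpp : p.Prime := (mem_pr.mp (mem_filter.mp hp).1).1
        apply Finset.card_le_card_of_injOn (fun n => n / p)
        · intro n hn
          simp only [coe_filter, Set.mem_ofPred_eq] at hn
          rw [mem_coe, mem_sqf]
          rw [mem_sqf] at hn
          obtain ⟨⟨⟨hn1, hnN⟩, hsq, hcard⟩, hd⟩ := hn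
          obtain ⟨m, rfl⟩ := hd
          have hm : m ≠ 0 := by rintro rfl; simp at hn1
          have hdm : p * m / p = m := Nat.mul_div_cancel_left _ hpp.pos
          simp only [hdm]
          refine ⟨⟨by omega, ?_⟩, hsq.squarefree_of_dvd (Dvd.intro_left _ rfl), ?_⟩
          · rw [Nat.le_div_iff_mul_le hpp.pos, mul_comm]; exact hnN
          · rw [cardFactors_mul hpp.ne_zero hm, cardFactors_apply_prime hpp] at hcard
            omega
        · intro a ha b hb hab
          simp only [coe_filter, Set.mem_ofPred_eq] at ha hb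
          exact (Nat.div_left_inj ha.2 hb.2).mp hab

/-- `x / (1 + log x)` is monotone on `[1,∞)`. -/
lemma div_log_mono {x y : ℝ} (hx : 1 ≤ x) (hxy : x ≤ y) :
    x / (1 + Real.log x) ≤ y / (1 + Real.log y) := by
  have hlx := Real.log_nonneg hx
  have hly := Real.log_nonneg (hx.trans hxy)
  rw [div_le_div_iff₀ (by linarith) (by linarith)]
  have h1 : Real.log y = Real.log x + Real.log (y / x) := by
    rw [Real.log_div (by linarith) (by linarith)]; ring
  have h2 : Real.log (y / x) ≤ y / x - 1 :=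
    Real.log_le_sub_one_of_pos (div_pos (by linarith) (by linarith))
  have h3 : x * Real.log (y / x) ≤ y - x := by
    have := mul_le_mul_of_nonneg_left h2 (show 0 ≤ x by linarith)
    have e : x * (y / x - 1) = y - x := by field_simp
    linarith
  rw [h1]
  nlinarith

/-- key weighted Mertens sum -/
lemma hr_sum : ∃ D : ℝ, 0 < D ∧ ∀ N : ℕ, 1 ≤ N →
    ∑ p ∈ (pr N).filter (fun p => p ^ 2 ≤ N), ((p : ℝ) * (1 + Real.log (N / p)))⁻¹ ≤
      (1 + Real.log N)⁻¹ * (Real.log (1 + Real.log N) + D) := by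
  obtain ⟨C, hC, h⟩ := mertens
  refine ⟨C + 32, by linarith, fun N hN => ?_⟩
  have hlN : 0 ≤ Real.log N := Real.log_natCast_nonneg N
  set y := 1 + Real.log N with hy
  have hy1 : 1 ≤ y := by linarith
  have h1 : ∀ p ∈ (pr N).filter (fun p => p ^ 2 ≤ N), ((p : ℝ) * (1 + Real.log (N / p)))⁻¹ ≤
      y⁻¹ * ((p : ℝ)⁻¹ + 2 * y⁻¹ * (Real.log p * (p : ℝ)⁻¹)) := by
    intro p hp
    rw [mem_filter, mem_pr] at hp
    have hp0 : (0:ℝ) < p := by exact_mod_cast hp.1.1.pos
    have hN0 : (0:ℝ) < N := by exact_mod_cast hN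
    have hl : 2 * Real.log p ≤ Real.log N := by
      have : Real.log ((p:ℝ) ^ 2) ≤ Real.log N :=
        Real.log_le_log (by positivity) (by exact_mod_cast hp.2)
      rw [Real.log_pow] at this
      exact_mod_cast this
    have hlp : 0 ≤ Real.log p := Real.log_natCast_nonneg p
    rw [Real.log_div hN0.ne' hp0.ne', mul_inv]
    have h2 : (1 + (Real.log N - Real.log p))⁻¹ ≤ y⁻¹ * (1 + 2 * y⁻¹ * Real.log p) := by
      set l := Real.log p with hl'
      have e : 1 + (Real.log N - l) = y - l := by rw [hy]; ring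
      rw [e]
      have hyl : 0 < y - l := by linarith
      rw [inv_le_iff_one_le_mul₀ hyl]
      have : y⁻¹ * (1 + 2 * y⁻¹ * l) * (y - l) = 1 + (l / y) * (1 - 2 * l / y) := by
        field_simp; ring
      rw [this]
      have h3 : 2 * l / y ≤ 1 := by rw [div_le_one (by linarith)]; linarith
      have h4 : 0 ≤ l / y := by positivity
      nlinarith
    calc (p:ℝ)⁻¹ * (1 + (Real.log N - Real.log p))⁻¹
        ≤ (p:ℝ)⁻¹ * (y⁻¹ * (1 + 2 * y⁻¹ * Real.log p)) := by gcongr
      _ = _ := by ring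
  refine (Finset.sum_le_sum h1).trans ?_
  rw [← Finset.mul_sum, Finset.sum_add_distrib, ← Finset.mul_sum]
  have h2 : ∑ p ∈ (pr N).filter (fun p => p ^ 2 ≤ N), (p : ℝ)⁻¹ ≤ ∑ p ∈ pr N, (p : ℝ)⁻¹ :=
    Finset.sum_le_sum_of_subset_of_nonneg (filter_subset _ _) (fun p _ _ => by positivity)
  have h3 : ∑ p ∈ (pr N).filter (fun p => p ^ 2 ≤ N), Real.log p * (p : ℝ)⁻¹ ≤
      ∑ p ∈ pr N, Real.log p * (p : ℝ)⁻¹ :=
    Finset.sum_le_sum_of_subset_of_nonneg (filter_subset _ _) (fun p _ _ => by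
      have := Real.log_natCast_nonneg p
      positivity)
  have h4 := (h N hN).1
  have h5 := sum_log_div N hN
  have h6 : 2 * y⁻¹ * ∑ p ∈ (pr N).filter (fun p => p ^ 2 ≤ N), Real.log p * (p : ℝ)⁻¹ ≤ 32 := by
    calc _ ≤ 2 * y⁻¹ * (16 * y) := by
          have := h3.trans h5
          gcongr
      _ = 32 := by field_simp; norm_num
  have h7 : 0 < y⁻¹ := by positivity
  apply mul_le_mul_of_nonneg_left _ h7.le
  linarith

/-- Hardy–Ramanujan for squarefree numbers. -/
theorem hr_sqf : ∃ D : ℝ, 0 < D ∧ ∀ r N : ℕ, ∀ X : ℝ, 1 ≤ N → Real.log (1 + Real.log N) + D ≤ X →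
    (#(sqf (r+1) N) : ℝ) ≤ 10 * (N / (1 + Real.log N)) * (X ^ r / r.factorial) := by
  obtain ⟨D, hD, h⟩ := hr_sum
  refine ⟨D, hD, ?_⟩
  intro r
  induction r with
  | zero =>
    intro N X hN hX
    simp only [zero_add, pow_zero, Nat.factorial_zero, Nat.cast_one, div_one, mul_one]
    refine le_trans ?_ (card_pr_le N hN)
    exact_mod_cast Finset.card_le_card (fun n hn => by
      rw [mem_sqf] at hn
      rw [mem_pr]
      exact ⟨cardFactors_eq_one_iff_prime.mp hn.2.2, hn.1.2⟩)
  | succ r ih =>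
    intro N X hN hX
    have hlN : 0 ≤ Real.log N := Real.log_natCast_nonneg N
    have hX0 : 0 < X := by
      have : 0 ≤ Real.log (1 + Real.log N) := Real.log_nonneg (by linarith)
      linarith
    have h1 := hr_step (r+1) N
    have h2 : ((r + 1 : ℕ) : ℝ) * #(sqf (r+1+1) N) ≤
        ∑ p ∈ (pr N).filter (fun p => p ^ 2 ≤ N), (#(sqf (r+1) (N / p)) : ℝ) := by
      exact_mod_cast h1
    have h3 : ∀ p ∈ (pr N).filter (fun p => p ^ 2 ≤ N), (#(sqf (r+1) (N / p)) : ℝ) ≤
        10 * (X ^ r / r.factorial) * N * ((p : ℝ) * (1 + Real.log (N / p)))⁻¹ := by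
      intro p hp
      rw [mem_filter, mem_pr] at hp
      have hp0 : 0 < p := hp.1.1.pos
      have hq : 1 ≤ N / p := (Nat.one_le_div_iff hp0).mpr hp.1.2
      have hq' : (1:ℝ) ≤ ((N / p : ℕ) : ℝ) := by exact_mod_cast hq
      have hle : ((N / p : ℕ) : ℝ) ≤ (N : ℝ) / p := Nat.cast_div_le
      have hp0' : (0:ℝ) < p := by exact_mod_cast hp0
      have hp1' : (1:ℝ) ≤ p := by exact_mod_cast hp0
      have hle2 : ((N / p : ℕ) : ℝ) ≤ N := by
        exact_mod_cast Nat.div_le_self N p
      have := ih (N / p) X hq (by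
        refine le_trans ?_ hX
        gcongr)
      refine this.trans ?_
      have h4 := div_log_mono hq' hle
      have h5 : (N : ℝ) / p / (1 + Real.log (N / p)) = N * ((p : ℝ) * (1 + Real.log (N / p)))⁻¹ := by
        rw [div_div, div_eq_mul_inv]
      rw [h5] at h4
      have h6 : 0 ≤ X ^ r / r.factorial := by positivity
      calc _ ≤ 10 * (N * ((p : ℝ) * (1 + Real.log (N / p)))⁻¹) * (X ^ r / r.factorial) := by gcongr
        _ = _ := by ring
    have h4 := h2.trans (Finset.sum_le_sum h3)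
    rw [← Finset.mul_sum] at h4
    have h5 := h N hN
    have h6 : ((r + 1 : ℕ) : ℝ) * #(sqf (r+1+1) N) ≤
        10 * (X ^ r / r.factorial) * N * ((1 + Real.log N)⁻¹ * X) := by
      refine h4.trans ?_
      apply mul_le_mul_of_nonneg_left _ (by positivity)
      refine h5.trans ?_
      apply mul_le_mul_of_nonneg_left hX (by positivity)
    have h7 : (0:ℝ) < ((r+1 : ℕ) : ℝ) := by positivity
    have h8 : 10 * (X ^ r / r.factorial) * N * ((1 + Real.log N)⁻¹ * X) =
        ((r + 1 : ℕ) : ℝ) * (10 * (N / (1 + Real.log N)) * (X ^ (r+1) / (r+1).factorial)) := by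
      rw [Nat.factorial_succ]
      push_cast
      field_simp
      ring
    rw [h8] at h6
    exact le_of_mul_le_mul_left h6 h7

end Pool.Agent.MP6396c4
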