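import Mathlib
import Pool.Agent.Lib.MP_6396c4_an.HR

open Finset ArithmeticFunction

noncomputable section

namespace Pool.Agent.MP6396c4

/-- partial sums of nonnegative completely multiplicative functions. -/
lemma sum_le_euler (f : ℕ →* ℝ) (hf0 : ∀ n, 0 ≤ f n) (hf : ∀ p : ℕ, p.Prime → f p < 1) (N : ℕ) :
    ∑ n ∈ Icc 1 N, f n ≤ ∏ p ∈ pr N, (1 - f p)⁻¹ := by
  obtain ⟨h1, h2⟩ := EulerProduct.summable_and_hasSum_smoothNumbers_prod_primesBelow_geometric
    (f := f) (fun {p} hp => by rw [Real.norm_eq_abs, abs_of_nonneg (hf0 p)]; exact hf p hp) (N+1)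
  have h3 : (N+1).primesBelow = pr N := by
    ext p
    rw [Nat.mem_primesBelow, mem_pr]
    constructor
    · rintro ⟨h, h2⟩; exact ⟨h2, by omega⟩
    · rintro ⟨h, h2⟩; exact ⟨by omega, h⟩
  rw [h3] at h2
  rw [← h2.tsum_eq, tsum_subtype ((N+1).smoothNumbers) (fun n => f n)]
  have hsum : Summable ((((N+1).smoothNumbers).indicator (fun n => f n))) :=
    summable_subtype_iff_indicator.mp h2.summable
  calc ∑ n ∈ Icc 1 N, f n = ∑ n ∈ Icc 1 N, (((N+1).smoothNumbers).indicator (fun n => f n)) n := by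
        apply Finset.sum_congr rfl
        intro n hn
        rw [mem_Icc] at hn
        rw [Set.indicator_of_mem]
        rw [Nat.mem_smoothNumbers]
        refine ⟨by omega, fun p hp => ?_⟩
        have := Nat.le_of_mem_primeFactorsList hp
        omega
    _ ≤ _ := hsum.sum_le_tsum _ (fun n _ => Set.indicator_nonneg (fun n _ => hf0 n) n)

/-- the completely multiplicative function `c ^ Ω(n) / n ^ 2`. -/
def fc2 (c : ℝ) : ℕ →* ℝ where
  toFun n := if n = 0 then 0 else c ^ (cardFactors n) * ((n : ℝ) ^ 2)⁻¹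
  map_one' := by simp
  map_mul' m n := by
    rcases eq_or_ne m 0 with hm | hm
    · simp [hm]
    rcases eq_or_ne n 0 with hn | hn
    · simp [hn]
    simp only [mul_eq_zero, hm, hn, or_self, if_false]
    rw [cardFactors_mul hm hn, pow_add]
    push_cast
    rw [mul_pow, mul_inv]
    ring

lemma sum_inv_sq_pr (N : ℕ) : ∑ p ∈ pr N, ((p : ℝ) ^ 2)⁻¹ ≤ 1 := by
  have h : ∀ M : ℕ, ∑ n ∈ Icc 2 (M+1), ((n : ℝ) ^ 2)⁻¹ ≤ 1 - 1 / ((M : ℝ) + 1) := by
    intro M
    induction M with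
    | zero => simp
    | succ M ih =>
      rw [Finset.sum_Icc_succ_top (by omega)]
      have : (((M + 1 + 1 : ℕ) : ℝ) ^ 2)⁻¹ ≤ 1 / ((M : ℝ) + 1) - 1 / ((M:ℝ) + 1 + 1) := by
        push_cast
        rw [inv_le_iff_one_le_mul₀ (by positivity)]
        have e : (1 / ((M : ℝ) + 1) - 1 / ((M:ℝ) + 1 + 1)) * ((M:ℝ) + 1 + 1) ^ 2 =
          1 + 1 / ((M:ℝ) + 1) := by field_simp; ring
        rw [e]
        have : 0 ≤ 1 / ((M:ℝ) + 1) := by positivity
        linarith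
      push_cast at *
      linarith
  have h1 := h N
  have h2 : ∑ p ∈ pr N, ((p : ℝ) ^ 2)⁻¹ ≤ ∑ n ∈ Icc 2 (N+1), ((n : ℝ) ^ 2)⁻¹ := by
    apply Finset.sum_le_sum_of_subset_of_nonneg
    · intro p hp
      rw [mem_pr] at hp
      rw [mem_Icc]
      exact ⟨hp.1.two_le, by omega⟩
    · intro n _ _; positivity
  have h3 : 0 ≤ 1 / ((N : ℝ) + 1) := by positivity
  linarith

lemma sum_fc2_le {c : ℝ} (hc0 : 0 ≤ c) (hc : c < 4) (N : ℕ) :
    ∑ b ∈ Icc 1 N, c ^ (cardFactors b) * ((b : ℝ) ^ 2)⁻¹ ≤ Real.exp (4 * c / (4 - c)) := by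
  have h0 : ∀ n, 0 ≤ fc2 c n := fun n => by
    simp only [fc2, MonoidHom.coe_mk, OneHom.coe_mk]
    split_ifs <;> positivity
  have hp : ∀ p : ℕ, p.Prime → fc2 c p = c * ((p : ℝ) ^ 2)⁻¹ := fun p hp => by
    simp only [fc2, MonoidHom.coe_mk, OneHom.coe_mk, hp.ne_zero, if_false]
    rw [cardFactors_apply_prime hp, pow_one]
  have hp4 : ∀ p : ℕ, p.Prime → c * ((p : ℝ) ^ 2)⁻¹ ≤ c / 4 := fun p hp => by
    rw [div_eq_mul_inv]
    have : (2:ℝ) ≤ p := by exact_mod_cast hp.two_le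
    gcongr
    nlinarith
  have h1 := sum_le_euler (fc2 c) h0 (fun p hpp => by
    rw [hp p hpp]
    have := hp4 p hpp
    linarith) N
  have h2 : ∑ b ∈ Icc 1 N, c ^ (cardFactors b) * ((b : ℝ) ^ 2)⁻¹ = ∑ n ∈ Icc 1 N, fc2 c n := by
    apply Finset.sum_congr rfl
    intro n hn
    rw [mem_Icc] at hn
    simp only [fc2, MonoidHom.coe_mk, OneHom.coe_mk, show n ≠ 0 by omega, if_false]
  rw [h2]
  refine h1.trans ?_
  have h3 : ∀ p ∈ pr N, (1 - fc2 c p)⁻¹ ≤ Real.exp (4 * c / (4 - c) * ((p : ℝ) ^ 2)⁻¹) := by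
    intro p hpp
    have hpp := (mem_pr.mp hpp).1
    rw [hp p hpp]
    set x := c * ((p : ℝ) ^ 2)⁻¹ with hx
    have hx4 := hp4 p hpp
    have hx1 : 0 < 1 - x := by linarith
    have hx0 : 0 ≤ x := by positivity
    have e : (1 - x)⁻¹ = x / (1 - x) + 1 := by field_simp; ring
    rw [e]
    refine (Real.add_one_le_exp _).trans ?_
    apply Real.exp_le_exp.mpr
    have : x / (1 - x) ≤ x / (1 - c / 4) := by
      apply div_le_div_of_nonneg_left hx0 (by linarith) (by linarith)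
    refine this.trans (le_of_eq ?_)
    rw [hx]
    have : (4 - c) ≠ 0 := by linarith
    field_simp
  calc ∏ p ∈ pr N, (1 - fc2 c p)⁻¹ ≤ ∏ p ∈ pr N, Real.exp (4 * c / (4 - c) * ((p : ℝ) ^ 2)⁻¹) := by
        apply Finset.prod_le_prod
        · intro p hpp
          have hpp := (mem_pr.mp hpp).1
          rw [hp p hpp]
          have := hp4 p hpp
          apply inv_nonneg.mpr; linarith
        · exact h3
    _ = Real.exp (4 * c / (4 - c) * ∑ p ∈ pr N, ((p : ℝ) ^ 2)⁻¹) := by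
        rw [← Real.exp_sum, Finset.mul_sum]
    _ ≤ _ := by
        apply Real.exp_le_exp.mpr
        have h5 := sum_inv_sq_pr N
        have h6 : 0 ≤ 4 * c / (4 - c) := div_nonneg (by linarith) (by linarith)
        calc _ ≤ 4 * c / (4 - c) * 1 := by gcongr
          _ = _ := mul_one _


/-- decomposition `n = b² a`. -/
lemma card_om_le (m N : ℕ) : #(om m N) ≤
    ∑ b ∈ (Icc 1 N).filter (fun b => b ^ 2 ≤ N ∧ 2 * cardFactors b ≤ m),
      #(sqf (m - 2 * cardFactors b) (N / b ^ 2)) := by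
  classical
  rw [← Finset.card_sigma]
  have hdec : ∀ n : ℕ, ∃ ba : ℕ × ℕ, ba.1 ^ 2 * ba.2 = n ∧ Squarefree ba.2 := fun n => by
    obtain ⟨a, b, h1, h2⟩ := Nat.sq_mul_squarefree n
    exact ⟨(b, a), h1, h2⟩
  choose g hg1 hg2 using hdec
  apply Finset.card_le_card_of_injOn (fun n => (⟨(g n).1, (g n).2⟩ : Σ _ : ℕ, ℕ))
  · intro n hn
    rw [mem_coe, mem_om] at hn
    obtain ⟨⟨hn1, hnN⟩, hcard⟩ := hn
    have h1 := hg1 n
    have hb0 : (g n).1 ≠ 0 := by intro h0; rw [h0] at h1; simp at h1; omega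
    have ha0 : (g n).2 ≠ 0 := by intro h0; rw [h0] at h1; simp at h1; omega
    have hcf : 2 * cardFactors (g n).1 + cardFactors (g n).2 = m := by
      rw [← hcard, ← h1, cardFactors_mul (pow_ne_zero 2 hb0) ha0, cardFactors_pow]
      rw [h1]
    have hb2 : (g n).1 ^ 2 ≤ N := by
      calc (g n).1 ^ 2 ≤ (g n).1 ^ 2 * (g n).2 := Nat.le_mul_of_pos_right _ (by omega)
        _ = n := h1
        _ ≤ N := hnN
    rw [mem_coe, Finset.mem_sigma, mem_filter, mem_Icc, mem_sqf]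
    simp only
    refine ⟨⟨⟨by omega, ?_⟩, hb2, by omega⟩, ⟨by omega, ?_⟩, hg2 n, by omega⟩
    · calc (g n).1 ≤ (g n).1 ^ 2 := Nat.le_self_pow (by norm_num) _
        _ ≤ N := hb2
    · rw [Nat.le_div_iff_mul_le (by positivity), mul_comm, h1]
      exact hnN
  · intro x _ y _ hxy
    simp only [Sigma.mk.injEq, heq_eq_eq] at hxy
    rw [← hg1 x, ← hg1 y, hxy.1, hxy.2]

/-- Hardy–Ramanujan type upper bound for `Ω`. -/
theorem omega_upper : ∃ D : ℝ, 0 < D ∧ ∀ κ : ℝ, 1 ≤ κ → κ < 2 → ∃ C : ℝ, 0 < C ∧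
    ∀ n N : ℕ, ∀ X : ℝ, 1 ≤ N → Real.log (1 + Real.log N) + D ≤ X → (n : ℝ) ≤ κ * X →
    (#(om (n+1) N) : ℝ) ≤ C * (N / (1 + Real.log N)) * (X ^ n / n.factorial) +
      C * (N : ℝ) ^ (3/4 : ℝ) := by
  obtain ⟨D, hD, h⟩ := hr_sqf
  refine ⟨D, hD, fun κ hκ1 hκ2 => ?_⟩
  set E := Real.exp (4 * κ ^ 2 / (4 - κ ^ 2)) with hE
  have hE0 : 0 < E := Real.exp_pos _
  refine ⟨20 * E + 5, by positivity, fun n N X hN hX hn => ?_⟩
  have hlN : 0 ≤ Real.log N := Real.log_natCast_nonneg N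
  have hN1 : (1:ℝ) ≤ N := by exact_mod_cast hN
  have hX0 : 0 < X := by
    have : 0 ≤ Real.log (1 + Real.log N) := Real.log_nonneg (by linarith)
    linarith
  have h1 := card_om_le (n+1) N
  set B := (Icc 1 N).filter (fun b => b ^ 2 ≤ N ∧ 2 * cardFactors b ≤ n+1) with hB
  have h2 : (#(om (n+1) N) : ℝ) ≤ ∑ b ∈ B, (#(sqf (n + 1 - 2 * cardFactors b) (N / b ^ 2)) : ℝ) := by
    exact_mod_cast h1
  refine h2.trans ?_
  set A := (N : ℝ) / (1 + Real.log N) with hA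
  set W := X ^ n / (n.factorial : ℝ) with hW
  have hA0 : 0 ≤ A := by positivity
  have hW0 : 0 ≤ W := by positivity
  set Q := (N : ℝ) ^ (1/4 : ℝ) with hQ
  have hQ1 : 1 ≤ Q := Real.one_le_rpow hN1 (by norm_num)
  -- each term
  have h3 : ∀ b ∈ B, (#(sqf (n + 1 - 2 * cardFactors b) (N / b ^ 2)) : ℝ) ≤
      20 * A * W * ((κ ^ 2) ^ (cardFactors b) * ((b : ℝ) ^ 2)⁻¹) + (if (b : ℝ) ≤ Q then 1 else 0) +
      (if Q < (b : ℝ) then N * ((b : ℝ) ^ 2)⁻¹ else 0) := by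
    intro b hb
    rw [hB, mem_filter, mem_Icc] at hb
    obtain ⟨⟨hb1, hbN⟩, hb2, hb3⟩ := hb
    have hb0 : (0:ℝ) < b := by exact_mod_cast hb1
    have hM1 : 1 ≤ N / b ^ 2 := (Nat.one_le_div_iff (by positivity)).mpr hb2
    have hM1' : (1:ℝ) ≤ ((N / b ^ 2 : ℕ) : ℝ) := by exact_mod_cast hM1
    have hMle : ((N / b ^ 2 : ℕ) : ℝ) ≤ (N : ℝ) / b ^ 2 := by
      have := Nat.cast_div_le (α := ℝ) (m := N) (n := b ^ 2)
      push_cast at this
      exact this
    have hmain0 : 0 ≤ 20 * A * W * ((κ ^ 2) ^ (cardFactors b) * ((b : ℝ) ^ 2)⁻¹) := by positivity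
    rcases lt_or_ge Q (b : ℝ) with hQb | hQb
    · -- large b
      have : (#(sqf (n + 1 - 2 * cardFactors b) (N / b ^ 2)) : ℝ) ≤ N * ((b : ℝ) ^ 2)⁻¹ := by
        have h5 : #(sqf (n + 1 - 2 * cardFactors b) (N / b ^ 2)) ≤ N / b ^ 2 := by
          calc _ ≤ #(Icc 1 (N / b ^ 2)) := Finset.card_filter_le _ _
            _ = _ := by simp
        have h6 : (#(sqf (n + 1 - 2 * cardFactors b) (N / b ^ 2)) : ℝ) ≤
          ((N / b ^ 2 : ℕ) : ℝ) := by exact_mod_cast h5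
        rw [← div_eq_mul_inv]
        exact h6.trans hMle
      rw [if_neg (not_le.mpr hQb), if_pos hQb]
      linarith
    · rw [if_pos hQb, if_neg (not_lt.mpr hQb)]
      rcases Nat.lt_or_ge (2 * cardFactors b) (n+1) with h5 | h5
      · -- r ≥ 1
        have h6 : n + 1 - 2 * cardFactors b = (n - 2 * cardFactors b) + 1 := by omega
        rw [h6]
        have h7 := h (n - 2 * cardFactors b) (N / b ^ 2) X hM1 (by
          refine le_trans ?_ hX
          have : ((N / b ^ 2 : ℕ) : ℝ) ≤ N := by exact_mod_cast Nat.div_le_self _ _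
          gcongr)
        have h8 := div_log_mono hM1' hMle
        have h9 : (N : ℝ) / b ^ 2 / (1 + Real.log ((N : ℝ) / b ^ 2)) ≤
            2 * A * ((b : ℝ) ^ 2)⁻¹ := by
          have hlog : Real.log ((N : ℝ) / b ^ 2) ≥ Real.log N / 2 := by
            have h10 : (b : ℝ) ^ 4 ≤ N := by
              have h11 : (b : ℝ) ^ 4 ≤ Q ^ 4 := by gcongr
              have h12 : Q ^ 4 = (N : ℝ) := by
                rw [hQ, ← Real.rpow_natCast, ← Real.rpow_mul (by linarith)]; norm_num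
              linarith
            have h11 : 4 * Real.log b ≤ Real.log N := by
              have := Real.log_le_log (by positivity) h10
              rw [Real.log_pow] at this
              exact_mod_cast this
            rw [Real.log_div (by linarith) (by positivity), Real.log_pow]
            push_cast
            linarith
          have hpos : 0 < 1 + Real.log ((N : ℝ) / b ^ 2) := by linarith
          rw [hA, div_div, div_le_iff₀ (by positivity)]
          have e : 2 * ((N:ℝ) / (1 + Real.log N)) * ((b : ℝ) ^ 2)⁻¹ *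
              ((b : ℝ) ^ 2 * (1 + Real.log ((N : ℝ) / b ^ 2))) =
              N * (2 * (1 + Real.log ((N : ℝ) / b ^ 2)) / (1 + Real.log N)) := by
            field_simp
          rw [e]
          have h12 : 1 ≤ 2 * (1 + Real.log ((N : ℝ) / b ^ 2)) / (1 + Real.log N) := by
            rw [le_div_iff₀ (by linarith)]; linarith
          nlinarith
        have h10 := pow_div_fact_shift hX0 (n := n) (j := 2 * cardFactors b) (by omega) hn
        rw [pow_mul] at h10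
        calc _ ≤ 10 * (((N / b ^ 2 : ℕ) : ℝ) / (1 + Real.log ((N / b ^ 2 : ℕ) : ℝ))) *
              (X ^ (n - 2 * cardFactors b) / (n - 2 * cardFactors b).factorial) := h7
          _ ≤ 10 * (2 * A * ((b : ℝ) ^ 2)⁻¹) * ((κ ^ 2) ^ cardFactors b * W) := by
              gcongr
              exact h8.trans h9
          _ = 20 * A * W * ((κ ^ 2) ^ (cardFactors b) * ((b : ℝ) ^ 2)⁻¹) := by ring
          _ ≤ _ := by linarith
      · -- r = 0
        have h6 : n + 1 - 2 * cardFactors b = 0 := by omega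
        rw [h6]
        have h7 : sqf 0 (N / b ^ 2) ⊆ {1} := by
          intro a ha
          rw [mem_sqf] at ha
          rw [mem_singleton]
          have := ha.2.2
          rw [cardFactors_eq_zero_iff_eq_zero_or_one] at this
          omega
        have h8 : #(sqf 0 (N / b ^ 2)) ≤ 1 := by
          calc _ ≤ #({1} : Finset ℕ) := Finset.card_le_card h7
            _ = 1 := by simp
        have h9 : (#(sqf 0 (N / b ^ 2)) : ℝ) ≤ 1 := by exact_mod_cast h8
        linarith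
  refine (Finset.sum_le_sum h3).trans ?_
  rw [Finset.sum_add_distrib, Finset.sum_add_distrib, ← Finset.mul_sum]
  have h4 : ∑ b ∈ B, (κ ^ 2) ^ (cardFactors b) * ((b : ℝ) ^ 2)⁻¹ ≤ E := by
    calc _ ≤ ∑ b ∈ Icc 1 N, (κ ^ 2) ^ (cardFactors b) * ((b : ℝ) ^ 2)⁻¹ :=
          Finset.sum_le_sum_of_subset_of_nonneg (filter_subset _ _) (fun b _ _ => by positivity)
      _ ≤ E := sum_fc2_le (by positivity) (by nlinarith) N
  have hN0 : (0:ℝ) ≤ N := by linarith
  have hQN : N / Q = (N : ℝ) ^ (3/4 : ℝ) := by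
    rw [hQ]
    nth_rewrite 1 [← Real.rpow_one (N : ℝ)]
    rw [← Real.rpow_sub (by linarith)]
    norm_num
  have h5 : ∑ b ∈ B, (if (b : ℝ) ≤ Q then (1:ℝ) else 0) ≤ (N : ℝ) ^ (3/4 : ℝ) := by
    rw [Finset.sum_ite, Finset.sum_const_zero, add_zero, Finset.sum_const, nsmul_eq_mul, mul_one]
    have h6 : B.filter (fun b : ℕ => (b:ℝ) ≤ Q) ⊆ Icc 1 ⌊Q⌋₊ := by
      intro b hb
      rw [mem_filter, hB, mem_filter, mem_Icc] at hb
      rw [mem_Icc]
      exact ⟨hb.1.1.1, Nat.le_floor hb.2⟩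
    have h7 : (#(B.filter (fun b : ℕ => (b:ℝ) ≤ Q)) : ℝ) ≤ Q := by
      calc (#(B.filter (fun b : ℕ => (b:ℝ) ≤ Q)) : ℝ) ≤ #(Icc 1 ⌊Q⌋₊) := by
            exact_mod_cast Finset.card_le_card h6
        _ = ⌊Q⌋₊ := by simp
        _ ≤ Q := Nat.floor_le (by linarith)
    refine h7.trans ?_
    rw [hQ]
    exact Real.rpow_le_rpow_of_exponent_le hN1 (by norm_num)
  have h6 : ∑ b ∈ B, (if Q < (b : ℝ) then N * ((b : ℝ) ^ 2)⁻¹ else 0) ≤
      4 * (N : ℝ) ^ (3/4 : ℝ) := by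
    rw [← Finset.sum_filter, ← Finset.mul_sum]
    have h7 : ∑ b ∈ B.filter (fun b : ℕ => Q < (b:ℝ)), ((b : ℝ) ^ 2)⁻¹ ≤ 2 / (⌊Q⌋₊ : ℝ) := by
      refine le_trans ?_ (sum_inv_sq_tail ⌊Q⌋₊ N ((Nat.one_le_floor_iff _).mpr hQ1))
      apply Finset.sum_le_sum_of_subset_of_nonneg
      · intro b hb
        rw [mem_filter, hB, mem_filter] at hb
        rw [mem_filter]
        refine ⟨hb.1.1, ?_⟩
        exact Nat.floor_le_of_le hb.2.le
      · intro b _ _; positivity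
    have h8 : Q ≤ 2 * (⌊Q⌋₊ : ℝ) := by
      have h9 := Nat.lt_floor_add_one Q
      have h10 : (1:ℝ) ≤ ⌊Q⌋₊ := by exact_mod_cast (Nat.one_le_floor_iff _).mpr hQ1
      linarith
    have h11 : 2 / (⌊Q⌋₊ : ℝ) ≤ 4 / Q := by
      have h10 : (1:ℝ) ≤ ⌊Q⌋₊ := by exact_mod_cast (Nat.one_le_floor_iff _).mpr hQ1
      rw [div_le_div_iff₀ (by linarith) (by linarith)]
      linarith
    calc (N:ℝ) * ∑ b ∈ B.filter (fun b : ℕ => Q < (b:ℝ)), ((b : ℝ) ^ 2)⁻¹ ≤ N * (4 / Q) := by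
          gcongr
          exact h7.trans h11
      _ = 4 * (N / Q) := by ring
      _ = _ := by rw [hQN]
  have h7 : 20 * A * W * ∑ b ∈ B, (κ ^ 2) ^ (cardFactors b) * ((b : ℝ) ^ 2)⁻¹ ≤ 20 * A * W * E := by
    gcongr
  have h8 : 0 ≤ (N : ℝ) ^ (3/4 : ℝ) := by positivity
  have h9 : 0 ≤ A * W := by positivity
  have h10 : 0 ≤ E * (N : ℝ) ^ (3/4 : ℝ) := by positivity
  nlinarith

end Pool.Agent.MP6396c4
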