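import Mathlib
import Pool.Agent.Lib.MP_6396c4_an.OmegaUp
import Pool.Agent.Lib.MP_6396c4_an.Sols

open Finset ArithmeticFunction

noncomputable section

namespace Pool.Agent.MP6396c4

/-- admissible diagonal entries -/
def dset (N m : ℕ) (z : ℝ) (b c : ℕ) : Finset ℕ :=
  (Icc 1 N).filter (fun D => z ≤ (D : ℝ) ∧ cardFactors D + cardFactors b = m ∧
    cardFactors D + cardFactors c = m ∧ D * max b c ≤ N)

lemma card_big (k N m : ℕ) (z Y : ℝ) (hN : 1 ≤ N) (hz : 1 ≤ z) (hY : 0 ≤ Y)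
    (hcmp : ∀ r : ℕ, 1 ≤ r → r ≤ k → (N : ℝ) ^ (r-1) * z ^ (k^2) < Y ^ r) :
    #((sols k N m).filter (fun x => ∀ i, Y ≤ (x.1 i : ℝ))) ≤
      k.factorial * ∑ d ∈ offs k N, ∏ i, #(dset N m z (rowp d i) (colp d i)) := by
  classical
  have hch : ∀ x : (Fin k → ℕ) × (Fin k → ℕ), ∃ dp : (Fin k → Fin k → ℕ) × Equiv.Perm (Fin k),
      x ∈ (sols k N m).filter (fun x => ∀ i, Y ≤ (x.1 i : ℝ)) →
      (∀ i, ∏ j, dp.1 i j = x.1 i) ∧ (∀ j, ∏ i, dp.1 i j = x.2 j) ∧
        ∀ i, z ≤ (dp.1 i (dp.2 i) : ℝ) := by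
    intro x
    by_cases hx : x ∈ (sols k N m).filter (fun x => ∀ i, Y ≤ (x.1 i : ℝ))
    · rw [mem_filter] at hx
      obtain ⟨d, hd1, hd2⟩ := exists_matrix hx.1
      obtain ⟨π, hπ⟩ := hall_matrix d N z Y (by exact_mod_cast hN) hz hY
        (fun i => by rw [hd1 i]; exact hx.2 i)
        (fun j => by
          rw [hd2 j]
          exact_mod_cast (mem_om.mp ((mem_sols.mp hx.1).2.1 j)).1.2)
        (matrix_pos hx.1 hd1) hcmp
      exact ⟨(d, π), fun _ => ⟨hd1, hd2, hπ⟩⟩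
    · exact ⟨(fun _ _ => 0, 1), fun h => absurd h hx⟩
  choose F hF using hch
  set T : Finset (Equiv.Perm (Fin k) × (Σ _ : Fin k → Fin k → ℕ, Fin k → ℕ)) :=
    univ ×ˢ ((offs k N).sigma (fun d => Fintype.piFinset (fun i => dset N m z (rowp d i) (colp d i))))
    with hT
  have hcard : #T = k.factorial * ∑ d ∈ offs k N, ∏ i, #(dset N m z (rowp d i) (colp d i)) := by
    rw [hT, Finset.card_product, Finset.card_sigma, Finset.card_univ, Fintype.card_perm,
      Fintype.card_fin]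
    congr 1
    apply Finset.sum_congr rfl
    intro d _
    rw [Fintype.card_piFinset]
  rw [← hcard]
  -- the map
  set off : (Fin k → ℕ) × (Fin k → ℕ) → Fin k → Fin k → ℕ :=
    fun x i j => if i = j then 1 else (F x).1 i ((F x).2 j) with hoff
  set g : (Fin k → ℕ) × (Fin k → ℕ) → Fin k → ℕ := fun x i => (F x).1 i ((F x).2 i) with hg
  have hrow : ∀ x, ∀ i, g x i * rowp (off x) i = ∏ j, (F x).1 i j := by
    intro x i
    rw [← Equiv.prod_comp (F x).2 (fun j => (F x).1 i j), rowp,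
      ← Finset.mul_prod_erase univ _ (mem_univ i),
      ← Finset.mul_prod_erase univ (fun j => (F x).1 i ((F x).2 j)) (mem_univ i)]
    simp only [hoff, hg, if_true, one_mul]
    congr 1
    apply Finset.prod_congr rfl
    intro j hj
    rw [mem_erase] at hj
    rw [if_neg (fun h => hj.1 h.symm)]
  have hcol : ∀ x, ∀ i, g x i * colp (off x) i = ∏ j, (F x).1 j ((F x).2 i) := by
    intro x i
    rw [colp, ← Finset.mul_prod_erase univ _ (mem_univ i),
      ← Finset.mul_prod_erase univ (fun j => (F x).1 j ((F x).2 i)) (mem_univ i)]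
    simp only [hoff, hg, if_true, one_mul]
    congr 1
    apply Finset.prod_congr rfl
    intro j hj
    rw [mem_erase] at hj
    rw [if_neg hj.1]
  apply Finset.card_le_card_of_injOn (fun x => ((F x).2, ⟨off x, g x⟩))
  · intro x hx
    rw [mem_coe] at hx
    obtain ⟨hF1, hF2, hF3⟩ := hF x hx
    have hxs := (mem_filter.mp hx).1
    have hpos := matrix_pos hxs hF1
    have hxs' := mem_sols.mp hxs
    have hle : ∀ i j, (F x).1 i j ≤ N := by
      intro i j
      have h1 : (F x).1 i j ∣ x.1 i := by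
        rw [← hF1 i]; exact Finset.dvd_prod_of_mem _ (mem_univ j)
      have h2 := (mem_om.mp (hxs'.1 i)).1
      exact (Nat.le_of_dvd (by omega) h1).trans h2.2
    rw [mem_coe, hT, mem_product, Finset.mem_sigma]
    refine ⟨mem_univ _, ?_, ?_⟩
    · simp only
      rw [mem_offs]
      refine ⟨fun i j => ?_, fun i => by simp [hoff]⟩
      simp only [hoff]
      split_ifs
      · exact ⟨le_rfl, hN⟩
      · exact ⟨hpos _ _, hle _ _⟩
    · simp only
      rw [Fintype.mem_piFinset]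
      intro i
      have hr := hrow x i
      have hc := hcol x i
      rw [hF1 i] at hr
      rw [hF2 ((F x).2 i)] at hc
      have h1 := mem_om.mp (hxs'.1 i)
      have h2 := mem_om.mp (hxs'.2.1 ((F x).2 i))
      have hg0 : g x i ≠ 0 := (hpos _ _).ne'
      have hr0 : rowp (off x) i ≠ 0 := by intro h0; rw [h0, mul_zero] at hr; omega
      have hc0 : colp (off x) i ≠ 0 := by intro h0; rw [h0, mul_zero] at hc; omega
      rw [dset, mem_filter, mem_Icc]
      refine ⟨⟨hpos _ _, hle _ _⟩, hF3 i, ?_, ?_, ?_⟩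
      · rw [← cardFactors_mul hg0 hr0, hr]; exact h1.2
      · rw [← cardFactors_mul hg0 hc0, hc]; exact h2.2
      · rcases max_choice (rowp (off x) i) (colp (off x) i) with h | h
        · rw [h, hr]; exact h1.1.2
        · rw [h, hc]; exact h2.1.2
  · intro x hx y hy hxy
    rw [mem_coe] at hx hy
    obtain ⟨hx1, hx2, _⟩ := hF x hx
    obtain ⟨hy1, hy2, _⟩ := hF y hy
    simp only [Prod.mk.injEq, Sigma.mk.injEq, heq_eq_eq] at hxy
    obtain ⟨hπ, hoffe, hge⟩ := hxy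
    ext i
    · rw [← hx1 i, ← hrow x i, hge, hoffe, hrow y i, hy1 i]
    · have h1 := hcol x ((F x).2.symm i)
      have h2 := hcol y ((F x).2.symm i)
      rw [hge, hoffe, h2] at h1
      rw [Equiv.apply_symm_apply] at h1
      rw [← hπ, Equiv.apply_symm_apply] at h1
      rw [← hx2 i, ← hy2 i, ← h1]

/-- bound for the number of diagonal entries. -/
lemma card_dset : ∃ D C : ℝ, 0 < D ∧ 0 < C ∧ ∀ (N μ : ℕ) (X z c0 : ℝ) (b c : ℕ), 1 ≤ N →
    1 ≤ b → 1 ≤ c → Real.log (1 + Real.log N) + D ≤ X → (μ : ℝ) ≤ X → 1 < z → 0 < c0 → c0 ≤ 1 →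
    c0 * Real.log N ≤ Real.log z →
    (#(dset N (μ+1) z b c) : ℝ) ≤ C / c0 * (N / (1 + Real.log N)) *
      (phi X μ (cardFactors b) (cardFactors c) * ((max b c : ℕ) : ℝ)⁻¹) := by
  obtain ⟨D, hD, h⟩ := omega_upper
  obtain ⟨C, hC, hb⟩ := h 1 le_rfl (by norm_num)
  refine ⟨D, 5 * C, hD, by positivity, ?_⟩
  intro N μ X z c0 b c hN hb1 hc1 hX hμ hz hc0 hc01 hlz
  have hlN : 0 ≤ Real.log N := Real.log_natCast_nonneg N
  have hX0 : 0 < X := by
    have : 0 ≤ Real.log (1 + Real.log N) := Real.log_nonneg (by linarith)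
    linarith
  have hM1 : 1 ≤ max b c := le_max_of_le_left hb1
  have hM1' : (1:ℝ) ≤ ((max b c : ℕ) : ℝ) := by exact_mod_cast hM1
  rcases Finset.eq_empty_or_nonempty (dset N (μ+1) z b c) with he | ⟨D0, hD0⟩
  · rw [he]
    have := phi_nonneg hX0.le μ (cardFactors b) (cardFactors c)
    simp only [Finset.card_empty, Nat.cast_zero]
    positivity
  rw [dset, mem_filter, mem_Icc] at hD0
  obtain ⟨⟨hD01, hD0N⟩, hzD, hO1, hO2, hDmax⟩ := hD0
  have hab : cardFactors b = cardFactors c := by omega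
  have hOpos : 1 ≤ cardFactors D0 := by
    rw [Nat.one_le_iff_ne_zero]
    intro h0
    rw [cardFactors_eq_zero_iff_eq_zero_or_one] at h0
    have : D0 = 1 := by omega
    rw [this] at hzD
    norm_num at hzD
    linarith
  have haμ : cardFactors b ≤ μ := by omega
  have hphi : phi X μ (cardFactors b) (cardFactors c) =
      X ^ (μ - cardFactors b) / (μ - cardFactors b).factorial := by
    rw [phi, if_pos ⟨hab, haμ⟩]
  set n := μ - cardFactors b with hn
  set M := N / max b c with hM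
  have hD0M : D0 ≤ M := by
    rw [hM, Nat.le_div_iff_mul_le (by omega)]; exact hDmax
  have hM1'' : 1 ≤ M := hD01.trans hD0M
  have hMr : (1:ℝ) ≤ M := by exact_mod_cast hM1''
  have hzM : z ≤ M := hzD.trans (by exact_mod_cast hD0M)
  have hMle : (M : ℝ) ≤ (N : ℝ) / ((max b c : ℕ) : ℝ) := Nat.cast_div_le
  have hsub : dset N (μ+1) z b c ⊆ om (n+1) M := by
    intro D' hD'
    rw [dset, mem_filter, mem_Icc] at hD'
    rw [mem_om, hM, Nat.le_div_iff_mul_le (by omega)]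
    exact ⟨⟨hD'.1.1, hD'.2.2.2.2⟩, by omega⟩
  have hcard : (#(dset N (μ+1) z b c) : ℝ) ≤ #(om (n+1) M) := by
    exact_mod_cast Finset.card_le_card hsub
  have hMN : (M : ℝ) ≤ N := by exact_mod_cast Nat.div_le_self _ _
  have hnX : (n : ℝ) ≤ 1 * X := by
    rw [one_mul]
    refine le_trans ?_ hμ
    exact_mod_cast Nat.sub_le _ _
  have h1 := hb n M X hM1'' (by
    refine le_trans ?_ hX
    gcongr) hnX
  set W := X ^ n / (n.factorial : ℝ) with hW
  have hW1 : 1 ≤ W := by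
    have := pow_div_fact_shift hX0 (n := n) (j := n) le_rfl hnX
    simpa using this
  have hlM : 0 ≤ Real.log M := Real.log_nonneg hMr
  -- M^(3/4) ≤ 4 M/(1+log M)
  have h2 : (M : ℝ) ^ (3/4 : ℝ) ≤ 4 * (M / (1 + Real.log M)) := by
    set Q := (M : ℝ) ^ (1/4 : ℝ) with hQ
    have hQ0 : 0 < Q := Real.rpow_pos_of_pos (by linarith) _
    have e1 : (M : ℝ) ^ (3/4 : ℝ) * Q = M := by
      rw [hQ, ← Real.rpow_add (by linarith)]; norm_num
    have e2 : 1 + Real.log M ≤ 4 * Q := by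
      have h3 : Real.log M = 4 * Real.log Q := by
        rw [hQ, Real.log_rpow (by linarith)]; ring
      have := Real.log_le_sub_one_of_pos hQ0
      linarith
    rw [mul_div_assoc', le_div_iff₀ (by linarith)]
    have h4 : 0 ≤ (M : ℝ) ^ (3/4 : ℝ) := by positivity
    nlinarith
  have h3 : (#(om (n+1) M) : ℝ) ≤ 5 * C * (M / (1 + Real.log M)) * W := by
    have h5 : 0 ≤ (M : ℝ) / (1 + Real.log M) := by positivity
    have h4 : C * (M : ℝ) ^ (3/4 : ℝ) ≤ C * (4 * (M / (1 + Real.log M))) * W := by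
      calc C * (M : ℝ) ^ (3/4 : ℝ) ≤ C * (4 * (M / (1 + Real.log M))) * 1 := by
            rw [mul_one]; gcongr
        _ ≤ _ := by gcongr
    linarith
  have h4 := div_log_mono hMr hMle
  have hNM1 : 1 ≤ (N : ℝ) / ((max b c : ℕ) : ℝ) := hMr.trans hMle
  have h5 : (N : ℝ) / ((max b c : ℕ) : ℝ) / (1 + Real.log ((N : ℝ) / ((max b c : ℕ) : ℝ))) ≤
      (1 / c0) * (N / (1 + Real.log N)) * ((max b c : ℕ) : ℝ)⁻¹ := by
    have h6 : c0 * (1 + Real.log N) ≤ 1 + Real.log ((N : ℝ) / ((max b c : ℕ) : ℝ)) := by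
      have h7 : Real.log z ≤ Real.log ((N : ℝ) / ((max b c : ℕ) : ℝ)) :=
        Real.log_le_log (by linarith) (hzM.trans hMle)
      nlinarith
    have e : (1 / c0) * (N / (1 + Real.log N)) * ((max b c : ℕ) : ℝ)⁻¹ =
        (N : ℝ) / ((max b c : ℕ) : ℝ) / (c0 * (1 + Real.log N)) := by
      field_simp
    rw [e]
    apply div_le_div_of_nonneg_left (by linarith) (by positivity) h6
  rw [hphi]
  calc (#(dset N (μ+1) z b c) : ℝ) ≤ 5 * C * (M / (1 + Real.log M)) * W := hcard.trans h3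
    _ ≤ 5 * C * ((1 / c0) * (N / (1 + Real.log N)) * ((max b c : ℕ) : ℝ)⁻¹) * W := by
        have := h4.trans h5
        gcongr
    _ = _ := by ring

/-- combination: upper bound for the number of solutions. -/
theorem upper_count (k : ℕ) : ∃ D C : ℝ, 0 < D ∧ 0 < C ∧ ∀ (N μ : ℕ) (X : ℝ), 2 ≤ N →
    Real.log (1 + Real.log N) + D ≤ X → (μ : ℝ) ≤ X →
    (#(sols (k+1) N (μ+1)) : ℝ) ≤
      C * ((N : ℝ) ^ ((k:ℝ) + 1 - 1 / (2 * (k+1))) * (1 + Real.log N) ^ ((k+1) * k)) +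
      C * (N / (1 + Real.log N)) ^ (k+1) * ZZ (k+1) N X μ := by
  obtain ⟨D, C, hD, hC, h⟩ := card_dset
  set K : ℝ := (k:ℝ) + 1 with hK
  have hK1 : 1 ≤ K := by rw [hK]; have : (0:ℝ) ≤ k := Nat.cast_nonneg k; linarith
  set c0 : ℝ := 1 / (4 * K ^ 2) with hc0
  have hc0pos : 0 < c0 := by positivity
  have hc01 : c0 ≤ 1 := by
    rw [hc0, div_le_one (by positivity)]; nlinarith
  refine ⟨D, 2 * K + (k+1).factorial * (C / c0) ^ (k+1), hD, by positivity, ?_⟩
  intro N μ X hN hX hμ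
  have hN0 : (0:ℝ) < N := by exact_mod_cast (by omega : 0 < N)
  have hN1 : (1:ℝ) < N := by exact_mod_cast (by omega : 1 < N)
  have hlN : 0 < Real.log N := Real.log_pos hN1
  set Y : ℝ := (N:ℝ) ^ (1 - 1 / (2 * K)) with hY
  set z : ℝ := (N:ℝ) ^ c0 with hz
  have hz1 : 1 < z := Real.one_lt_rpow hN1 hc0pos
  have hY0 : 0 ≤ Y := by positivity
  have hYN : Y ≤ N := by
    calc Y ≤ (N:ℝ) ^ (1:ℝ) := by
          rw [hY]
          apply Real.rpow_le_rpow_of_exponent_le hN1.le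
          have : 0 < 1 / (2 * K) := by positivity
          linarith
      _ = N := Real.rpow_one _
  have hX0 : 0 < X := by
    have : 0 ≤ Real.log (1 + Real.log N) := Real.log_nonneg (by linarith)
    linarith
  have hcmp : ∀ r : ℕ, 1 ≤ r → r ≤ k + 1 → (N : ℝ) ^ (r-1) * z ^ ((k+1)^2) < Y ^ r := by
    intro r hr1 hrk
    have hr1' : (1:ℝ) ≤ r := by exact_mod_cast hr1
    have hrk' : (r:ℝ) ≤ K := by rw [hK]; exact_mod_cast hrk
    rw [hz, hY, ← Real.rpow_natCast, ← Real.rpow_natCast, ← Real.rpow_natCast,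
      ← Real.rpow_mul hN0.le, ← Real.rpow_mul hN0.le, ← Real.rpow_add hN0]
    apply Real.rpow_lt_rpow_of_exponent_lt hN1
    have e1 : ((r - 1 : ℕ) : ℝ) = (r:ℝ) - 1 := by push_cast [Nat.cast_sub hr1]; ring
    have e2 : c0 * (((k+1)^2 : ℕ) : ℝ) = 1/4 := by
      rw [hc0, hK]; push_cast; field_simp
    rw [e1, e2]
    have e3 : (1 - 1 / (2 * K)) * (r:ℝ) ≥ r - 1/2 := by
      have : (r:ℝ) / (2 * K) ≤ 1/2 := by
        rw [div_le_iff₀ (by positivity)]; linarith
      have e4 : (1 - 1 / (2 * K)) * (r:ℝ) = r - r / (2 * K) := by ring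
      rw [e4]; linarith
    linarith
  -- split
  have hsplit : sols (k+1) N (μ+1) ⊆
      (sols (k+1) N (μ+1)).filter (fun x => ∃ i, x.1 i ≤ ⌊Y⌋₊ ∨ x.2 i ≤ ⌊Y⌋₊) ∪
      (sols (k+1) N (μ+1)).filter (fun x => ∀ i, Y ≤ (x.1 i : ℝ)) := by
    intro x hx
    rw [mem_union, mem_filter, mem_filter]
    by_cases hc : ∃ i, x.1 i ≤ ⌊Y⌋₊ ∨ x.2 i ≤ ⌊Y⌋₊
    · left; exact ⟨hx, hc⟩
    · right
      push Not at hc
      refine ⟨hx, fun i => ?_⟩
      have := Nat.lt_of_floor_lt (hc i).1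
      exact this.le
  have h1 : (#(sols (k+1) N (μ+1)) : ℝ) ≤
      #((sols (k+1) N (μ+1)).filter (fun x => ∃ i, x.1 i ≤ ⌊Y⌋₊ ∨ x.2 i ≤ ⌊Y⌋₊)) +
      #((sols (k+1) N (μ+1)).filter (fun x => ∀ i, Y ≤ (x.1 i : ℝ))) := by
    have := (Finset.card_le_card hsplit).trans (Finset.card_union_le _ _)
    exact_mod_cast this
  have h2 := card_small_all k N (μ+1) ⌊Y⌋₊ (by
    have := Nat.floor_le hY0
    exact_mod_cast this.trans hYN)
  have h3 := card_big (k+1) N (μ+1) z Y (by omega) hz1.le hY0 hcmp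
  have h3' : (#((sols (k+1) N (μ+1)).filter (fun x => ∀ i, Y ≤ (x.1 i : ℝ))) : ℝ) ≤
      (k+1).factorial * ∑ d ∈ offs (k+1) N, ∏ i, (#(dset N (μ+1) z (rowp d i) (colp d i)) : ℝ) := by
    exact_mod_cast h3
  set W := (N : ℝ) / (1 + Real.log N) with hW
  have hW0 : 0 ≤ W := by positivity
  have h4 : ∑ d ∈ offs (k+1) N, ∏ i, (#(dset N (μ+1) z (rowp d i) (colp d i)) : ℝ) ≤
      (C / c0) ^ (k+1) * W ^ (k+1) * ZZ (k+1) N X μ := by
    rw [ZZ, Finset.mul_sum]
    apply Finset.sum_le_sum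
    intro d hd
    rw [mem_offs] at hd
    have hpos : ∀ i, 1 ≤ rowp d i ∧ 1 ≤ colp d i := fun i =>
      ⟨Finset.one_le_prod' fun j _ => (hd.1 i j).1, Finset.one_le_prod' fun j _ => (hd.1 j i).1⟩
    have e : ∀ a : Fin (k+1) → ℝ, (C / c0) ^ (k+1) * W ^ (k+1) * ∏ i : Fin (k+1), a i =
        ∏ i : Fin (k+1), (C / c0 * W * a i) := by
      intro a
      rw [Finset.prod_mul_distrib, Finset.prod_const, Finset.card_univ, Fintype.card_fin, mul_pow]
    rw [e]
    apply Finset.prod_le_prod (fun _ _ => by positivity)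
    intro i _
    exact h N μ X z c0 (rowp d i) (colp d i) (by omega) (hpos i).1 (hpos i).2 hX hμ hz1 hc0pos hc01
      (by rw [hz, Real.log_rpow hN0])
  have hZ0 : 0 ≤ ZZ (k+1) N X μ := by
    rw [ZZ]
    apply Finset.sum_nonneg
    intro d _
    apply Finset.prod_nonneg
    intro i _
    have := phi_nonneg hX0.le μ (cardFactors (rowp d i)) (cardFactors (colp d i))
    positivity
  have h5 : (#((sols (k+1) N (μ+1)).filter (fun x => ∀ i, Y ≤ (x.1 i : ℝ))) : ℝ) ≤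
      (k+1).factorial * ((C / c0) ^ (k+1) * W ^ (k+1) * ZZ (k+1) N X μ) := by
    refine h3'.trans ?_
    gcongr
  have h6 : 2 * ((k:ℝ)+1) * ((⌊Y⌋₊ : ℝ) * (N : ℝ) ^ k * (1 + Real.log N) ^ ((k+1) * k)) ≤
      2 * K * ((N : ℝ) ^ (K - 1 / (2 * K)) * (1 + Real.log N) ^ ((k+1) * k)) := by
    have e : (N : ℝ) ^ (K - 1 / (2 * K)) = Y * (N:ℝ) ^ k := by
      rw [hY, ← Real.rpow_natCast (N:ℝ) k, ← Real.rpow_add hN0]
      congr 1
      rw [hK]; ring
    rw [e]
    have := Nat.floor_le hY0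
    gcongr
  set T1 := (N : ℝ) ^ (K - 1 / (2 * K)) * (1 + Real.log N) ^ ((k+1) * k) with hT1
  have hT10 : 0 ≤ T1 := by positivity
  have h7 : 0 ≤ W ^ (k+1) * ZZ (k+1) N X μ := by positivity
  have h8 : 0 ≤ ((k+1).factorial : ℝ) * (C / c0) ^ (k+1) * T1 := by positivity
  have h9 : 0 ≤ 2 * K * (W ^ (k+1) * ZZ (k+1) N X μ) := by positivity
  calc (#(sols (k+1) N (μ+1)) : ℝ) ≤ 2 * K * T1 +
        (k+1).factorial * ((C / c0) ^ (k+1) * W ^ (k+1) * ZZ (k+1) N X μ) := by linarith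
    _ ≤ _ := by nlinarith

end Pool.Agent.MP6396c4
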