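import Mathlib
import Pool.Agent.Lib.MP_6396c4_an.Base

open Finset

noncomputable section

namespace Pool.Agent.MP6396c4

/-- truncated exponential -/
def Etr (M' : ℕ) (w : ℂ) : ℂ := ∑ n ∈ range M', w ^ n / (n.factorial : ℂ)

/-- uniform bound for truncated exponentials. -/
lemma Etr_bound (X : ℝ) (μ : ℕ) : ∃ M' : ℕ, μ < M' ∧ ∀ w : ℂ, ‖w‖ ≤ X →
    ‖Etr M' w‖ ≤ 2 * Real.exp w.re := by
  have h1 : ∀ᶠ n : ℕ in Filter.atTop, X ^ n / (n.factorial : ℝ) < Real.exp (-X) / 2 :=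
    (FloorSemiring.tendsto_pow_div_factorial_atTop X).eventually_lt_const (by positivity)
  have h2 : ∀ᶠ n : ℕ in Filter.atTop, μ < n := Filter.eventually_gt_atTop μ
  have h3 : ∀ᶠ n : ℕ in Filter.atTop, 2 * X ≤ n := by
    filter_upwards [Filter.eventually_ge_atTop ⌈2 * X⌉₊] with n hn
    exact (Nat.le_ceil _).trans (by exact_mod_cast hn)
  obtain ⟨n, hn1, hn2, hn3⟩ := (h1.and (h2.and h3)).exists
  refine ⟨n, hn2, fun w hw => ?_⟩
  have h4 := Complex.exp_bound' (x := w) (n := n) (by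
    rw [div_le_iff₀ (by positivity)]
    push_cast
    linarith)
  have h5 : ‖w‖ ^ n / (n.factorial : ℝ) * 2 ≤ Real.exp (-X) := by
    have : ‖w‖ ^ n / (n.factorial : ℝ) ≤ X ^ n / (n.factorial : ℝ) := by gcongr
    linarith
  have h6 : Real.exp (-X) ≤ Real.exp w.re := by
    apply Real.exp_le_exp.mpr
    have := (abs_le.mp (Complex.abs_re_le_norm w)).1
    linarith
  have h7 : ‖Etr n w‖ ≤ ‖Complex.exp w‖ + ‖Complex.exp w - Etr n w‖ := by
    calc ‖Etr n w‖ = ‖Complex.exp w - (Complex.exp w - Etr n w)‖ := by rw [sub_sub_cancel]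
      _ ≤ _ := norm_sub_le _ _
  rw [Complex.norm_exp] at h7
  have h8 : ‖Complex.exp w - Etr n w‖ ≤ Real.exp w.re := (h4.trans h5).trans h6
  linarith

lemma zmod_sum (M : ℕ) [NeZero M] (n m : ℕ) (hn : n < M) (hm : m < M) :
    ∑ x : ZMod M, ZMod.stdAddChar (x * ((n : ZMod M) - (m : ZMod M))) = if n = m then (M : ℂ) else 0 := by
  rw [AddChar.sum_mulShift _ (ZMod.isPrimitive_stdAddChar M), ZMod.card]
  have : ((n : ZMod M) - (m : ZMod M) = 0) ↔ n = m := by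
    rw [sub_eq_zero, ZMod.natCast_eq_natCast_iff', Nat.mod_eq_of_lt hn, Nat.mod_eq_of_lt hm]
  simp only [this]
  split_ifs <;> simp

lemma phi_extract (M M' μ Amax : ℕ) [NeZero M] (hM : M' + Amax + μ < M) (hμ : μ < M') (X r : ℝ)
    (a a' : ℕ) (ha : a ≤ Amax) (ha' : a' ≤ Amax) :
    ((phi X μ a a' * (M ^ 2 * r ^ (2 * μ)) : ℝ) : ℂ) =
      ∑ x : ZMod M, ∑ y : ZMod M, Etr M' ((r ^ 2 * X : ℝ) * ZMod.stdAddChar (x - y)) *
        ZMod.stdAddChar (-((μ : ZMod M) * (x - y))) *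
        ((r * ZMod.stdAddChar x) ^ a * (r * ZMod.stdAddChar (-y)) ^ a') := by
  have hterm : ∀ x y : ZMod M, Etr M' ((r ^ 2 * X : ℝ) * ZMod.stdAddChar (x - y)) *
        ZMod.stdAddChar (-((μ : ZMod M) * (x - y))) *
        ((r * ZMod.stdAddChar x) ^ a * (r * ZMod.stdAddChar (-y)) ^ a') =
      ∑ n ∈ range M', ((r ^ 2 * X : ℝ) : ℂ) ^ n / (n.factorial : ℂ) * (r : ℂ) ^ (a + a') *
        (ZMod.stdAddChar (x * (((n + a : ℕ) : ZMod M) - (μ : ZMod M))) *
          ZMod.stdAddChar (-(y * (((n + a' : ℕ) : ZMod M) - (μ : ZMod M))))) := by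
    intro x y
    rw [Etr, Finset.sum_mul, Finset.sum_mul]
    apply Finset.sum_congr rfl
    intro n _
    have e1 : (ZMod.stdAddChar (x - y) : ℂ) ^ n = ZMod.stdAddChar ((n : ZMod M) * (x - y)) := by
      rw [← AddChar.map_nsmul_eq_pow, nsmul_eq_mul]
    have e2 : (ZMod.stdAddChar x : ℂ) ^ a = ZMod.stdAddChar ((a : ZMod M) * x) := by
      rw [← AddChar.map_nsmul_eq_pow, nsmul_eq_mul]
    have e3 : (ZMod.stdAddChar (-y) : ℂ) ^ a' = ZMod.stdAddChar ((a' : ZMod M) * (-y)) := by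
      rw [← AddChar.map_nsmul_eq_pow, nsmul_eq_mul]
    have e4 : ZMod.stdAddChar (x * (((n + a : ℕ) : ZMod M) - (μ : ZMod M))) *
          ZMod.stdAddChar (-(y * (((n + a' : ℕ) : ZMod M) - (μ : ZMod M)))) =
        (ZMod.stdAddChar ((n : ZMod M) * (x - y)) : ℂ) *
          ZMod.stdAddChar (-((μ : ZMod M) * (x - y))) *
          (ZMod.stdAddChar ((a : ZMod M) * x) * ZMod.stdAddChar ((a' : ZMod M) * (-y))) := by
      rw [← AddChar.map_add_eq_mul, ← AddChar.map_add_eq_mul, ← AddChar.map_add_eq_mul,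
        ← AddChar.map_add_eq_mul]
      congr 1
      push_cast
      ring
    rw [e4, mul_pow, mul_pow, mul_pow, e1, e2, e3, pow_add]
    ring
  simp_rw [hterm]
  have hswap : ∑ x : ZMod M, ∑ y : ZMod M, ∑ n ∈ range M',
      ((r ^ 2 * X : ℝ) : ℂ) ^ n / (n.factorial : ℂ) * (r : ℂ) ^ (a + a') *
        (ZMod.stdAddChar (x * (((n + a : ℕ) : ZMod M) - (μ : ZMod M))) *
          ZMod.stdAddChar (-(y * (((n + a' : ℕ) : ZMod M) - (μ : ZMod M))))) =
      ∑ n ∈ range M', ((r ^ 2 * X : ℝ) : ℂ) ^ n / (n.factorial : ℂ) * (r : ℂ) ^ (a + a') *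
        ((∑ x : ZMod M, ZMod.stdAddChar (x * (((n + a : ℕ) : ZMod M) - (μ : ZMod M)))) *
          ∑ y : ZMod M, ZMod.stdAddChar (-(y * (((n + a' : ℕ) : ZMod M) - (μ : ZMod M))))) := by
    calc _ = ∑ x : ZMod M, ∑ n ∈ range M', ∑ y : ZMod M,
        ((r ^ 2 * X : ℝ) : ℂ) ^ n / (n.factorial : ℂ) * (r : ℂ) ^ (a + a') *
        (ZMod.stdAddChar (x * (((n + a : ℕ) : ZMod M) - (μ : ZMod M))) *
          ZMod.stdAddChar (-(y * (((n + a' : ℕ) : ZMod M) - (μ : ZMod M))))) := by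
          apply Finset.sum_congr rfl
          intro x _
          rw [Finset.sum_comm]
      _ = ∑ n ∈ range M', ∑ x : ZMod M, ∑ y : ZMod M,
        ((r ^ 2 * X : ℝ) : ℂ) ^ n / (n.factorial : ℂ) * (r : ℂ) ^ (a + a') *
        (ZMod.stdAddChar (x * (((n + a : ℕ) : ZMod M) - (μ : ZMod M))) *
          ZMod.stdAddChar (-(y * (((n + a' : ℕ) : ZMod M) - (μ : ZMod M))))) := by
          rw [Finset.sum_comm]
      _ = _ := by
          apply Finset.sum_congr rfl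
          intro n _
          rw [Finset.sum_mul_sum, Finset.mul_sum]
          apply Finset.sum_congr rfl
          intro x _
          rw [Finset.mul_sum]
  rw [hswap]
  have hy : ∀ n ∈ range M', ∑ y : ZMod M,
      (ZMod.stdAddChar (-(y * (((n + a' : ℕ) : ZMod M) - (μ : ZMod M)))) : ℂ) =
      if n + a' = μ then (M : ℂ) else 0 := by
    intro n hn
    rw [mem_range] at hn
    rw [← zmod_sum M (n + a') μ (by omega) (by omega)]
    have := Equiv.sum_comp (Equiv.neg (ZMod M))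
      (fun y => (ZMod.stdAddChar (y * (((n + a' : ℕ) : ZMod M) - (μ : ZMod M))) : ℂ))
    rw [← this]
    apply Finset.sum_congr rfl
    intro y _
    rw [Equiv.neg_apply, neg_mul]
  have hx : ∀ n ∈ range M', ∑ x : ZMod M,
      (ZMod.stdAddChar (x * (((n + a : ℕ) : ZMod M) - (μ : ZMod M))) : ℂ) =
      if n + a = μ then (M : ℂ) else 0 := by
    intro n hn
    rw [mem_range] at hn
    exact zmod_sum M (n + a) μ (by omega) (by omega)
  rw [Finset.sum_congr rfl (fun n hn => by rw [hx n hn, hy n hn])]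
  unfold phi
  split_ifs with hc
  · obtain ⟨hc1, hc2⟩ := hc
    subst hc1
    rw [Finset.sum_eq_single (μ - a)]
    · have h1 : μ - a + a = μ := by omega
      simp only [h1, if_true]
      push_cast
      have h2 : (r : ℂ) ^ (2 * μ) = (r : ℂ) ^ (2 * (μ - a)) * (r : ℂ) ^ (a + a) := by
        rw [← pow_add]; congr 1; omega
      rw [h2, mul_pow, ← pow_mul]
      ring
    · intro n _ hne
      have : ¬ (n + a = μ) := by omega
      simp [this]
    · intro h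
      exfalso; apply h; rw [mem_range]; omega
  · rw [Finset.sum_eq_zero]
    · simp
    · intro n hn
      by_cases h1 : n + a = μ
      · have h2 : ¬ (n + a' = μ) := by
          intro h2; apply hc; omega
        simp [h2]
      · simp [h1]

/-- abstract extraction inequality. -/
lemma extract {δ : Type*} (O : Finset δ) (K : ℕ) (w : δ → ℂ) (a a' : δ → Fin K → ℕ)
    (M M' μ Amax : ℕ) [NeZero M] (hM : M' + Amax + μ < M) (hμ : μ < M') (X r : ℝ)
    (ha : ∀ d ∈ O, ∀ i, a d i ≤ Amax) (ha' : ∀ d ∈ O, ∀ i, a' d i ≤ Amax) (hr : 0 < r) :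
    ‖∑ d ∈ O, w d * ∏ i, (phi X μ (a d i) (a' d i) : ℂ)‖ * ((M : ℝ) ^ 2 * r ^ (2 * μ)) ^ K ≤
      ∑ x : Fin K → ZMod M, ∑ y : Fin K → ZMod M,
        (∏ i, ‖Etr M' ((r ^ 2 * X : ℝ) * ZMod.stdAddChar (x i - y i))‖) *
        ‖∑ d ∈ O, w d * ∏ i, ((r * ZMod.stdAddChar (x i)) ^ (a d i) *
          (r * ZMod.stdAddChar (-(y i))) ^ (a' d i) : ℂ)‖ := by
  have hpos : 0 ≤ ((M : ℝ) ^ 2 * r ^ (2 * μ)) ^ K := by positivity
  have h1 : ‖∑ d ∈ O, w d * ∏ i, (phi X μ (a d i) (a' d i) : ℂ)‖ *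
      ((M : ℝ) ^ 2 * r ^ (2 * μ)) ^ K =
      ‖∑ d ∈ O, w d * ∏ i, ((phi X μ (a d i) (a' d i) * (M ^ 2 * r ^ (2 * μ)) : ℝ) : ℂ)‖ := by
    have h2 : ∑ d ∈ O, w d * ∏ i, ((phi X μ (a d i) (a' d i) * (M ^ 2 * r ^ (2 * μ)) : ℝ) : ℂ) =
        (∑ d ∈ O, w d * ∏ i, (phi X μ (a d i) (a' d i) : ℂ)) *
          ((((M : ℝ) ^ 2 * r ^ (2 * μ)) ^ K : ℝ) : ℂ) := by
      rw [Finset.sum_mul]
      apply Finset.sum_congr rfl
      intro d _
      rw [mul_assoc]
      congr 1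
      have : ∀ i : Fin K, ((phi X μ (a d i) (a' d i) * (M ^ 2 * r ^ (2 * μ)) : ℝ) : ℂ) =
          (phi X μ (a d i) (a' d i) : ℂ) * ((M : ℂ) ^ 2 * (r : ℂ) ^ (2 * μ)) := by
        intro i; push_cast; ring
      rw [Finset.prod_congr rfl (fun i _ => this i), Finset.prod_mul_distrib, Finset.prod_const,
        Finset.card_univ, Fintype.card_fin]
      push_cast
      ring
    rw [h2, norm_mul, Complex.norm_real, Real.norm_eq_abs, abs_of_nonneg hpos]
  rw [h1]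
  have h3 : ∀ d ∈ O, ∏ i, ((phi X μ (a d i) (a' d i) * (M ^ 2 * r ^ (2 * μ)) : ℝ) : ℂ) =
      ∑ x : Fin K → ZMod M, ∑ y : Fin K → ZMod M, ∏ i,
        (Etr M' ((r ^ 2 * X : ℝ) * ZMod.stdAddChar (x i - y i)) *
        ZMod.stdAddChar (-((μ : ZMod M) * (x i - y i))) *
        ((r * ZMod.stdAddChar (x i)) ^ (a d i) * (r * ZMod.stdAddChar (-(y i))) ^ (a' d i))) := by
    intro d hd
    rw [Finset.prod_congr rfl (fun i _ => phi_extract M M' μ Amax hM hμ X r (a d i) (a' d i)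
      (ha d hd i) (ha' d hd i))]
    rw [Finset.prod_univ_sum, Fintype.piFinset_univ]
    apply Finset.sum_congr rfl
    intro x _
    rw [Finset.prod_univ_sum, Fintype.piFinset_univ]
  rw [Finset.sum_congr rfl (fun d hd => by rw [h3 d hd])]
  have h4 : ∑ d ∈ O, w d * ∑ x : Fin K → ZMod M, ∑ y : Fin K → ZMod M, ∏ i,
        (Etr M' ((r ^ 2 * X : ℝ) * ZMod.stdAddChar (x i - y i)) *
        ZMod.stdAddChar (-((μ : ZMod M) * (x i - y i))) *
        ((r * ZMod.stdAddChar (x i)) ^ (a d i) * (r * ZMod.stdAddChar (-(y i))) ^ (a' d i))) =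
      ∑ x : Fin K → ZMod M, ∑ y : Fin K → ZMod M,
        (∏ i, (Etr M' ((r ^ 2 * X : ℝ) * ZMod.stdAddChar (x i - y i)) *
          ZMod.stdAddChar (-((μ : ZMod M) * (x i - y i))))) *
        ∑ d ∈ O, w d * ∏ i, ((r * ZMod.stdAddChar (x i)) ^ (a d i) *
          (r * ZMod.stdAddChar (-(y i))) ^ (a' d i) : ℂ) := by
    simp_rw [Finset.mul_sum]
    rw [Finset.sum_comm]
    apply Finset.sum_congr rfl
    intro x _
    rw [Finset.sum_comm]
    apply Finset.sum_congr rfl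
    intro y _
    apply Finset.sum_congr rfl
    intro d _
    rw [Finset.prod_mul_distrib]
    ring
  rw [h4]
  refine (norm_sum_le _ _).trans (Finset.sum_le_sum fun x _ => ?_)
  refine (norm_sum_le _ _).trans (Finset.sum_le_sum fun y _ => ?_)
  rw [norm_mul, norm_prod]
  apply mul_le_mul_of_nonneg_right _ (norm_nonneg _)
  apply Finset.prod_le_prod (fun _ _ => norm_nonneg _)
  intro i _
  rw [norm_mul]
  have : ‖(ZMod.stdAddChar (-((μ : ZMod M) * (x i - y i))) : ℂ)‖ = 1 := by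
    rw [ZMod.stdAddChar_apply, Circle.norm_coe]
  rw [this, mul_one]

end Pool.Agent.MP6396c4
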