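import Mathlib
import Pool.Agent.Lib.MP_6396c4_an.Rough
import Pool.Agent.Lib.MP_6396c4_an.Sols

open Finset ArithmeticFunction

noncomputable section

namespace Pool.Agent.MP6396c4

lemma three_pow_le {n : ℕ} (hn : n ≠ 0) (hodd : ¬ 2 ∣ n) : 3 ^ (cardFactors n) ≤ n := by
  rw [cardFactors_apply]
  conv_rhs => rw [← Nat.prod_primeFactorsList hn]
  apply List.pow_card_le_prod
  intro p hp
  have h1 := Nat.prime_of_mem_primeFactorsList hp
  have h2 := Nat.dvd_of_mem_primeFactorsList hp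
  have h3 : p ≠ 2 := by rintro rfl; exact hodd h2
  have := h1.two_le
  omega

lemma odd_part {n : ℕ} (hn : n ≠ 0) : ∃ a n' : ℕ, n = 2 ^ a * n' ∧ ¬ 2 ∣ n' ∧ n' ≠ 0 ∧
    cardFactors n = a + cardFactors n' := by
  obtain ⟨a, n', h1, h2⟩ := Nat.exists_eq_pow_mul_and_not_dvd hn 2 (by norm_num)
  have h3 : n' ≠ 0 := by rintro rfl; simp at h1
  refine ⟨a, n', h2, h1, h3, ?_⟩
  rw [h2, cardFactors_mul (by positivity) h3, cardFactors_apply_prime_pow Nat.prime_two]

lemma om_bdd (C : ℝ) : ∃ B0 : ℕ, ∀ N m : ℕ, (N:ℝ) ≤ C * 2 ^ m → #(om m N) ≤ B0 := by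
  classical
  obtain ⟨b0, hb0⟩ : ∃ b0 : ℕ, C < (3/2 : ℝ) ^ b0 := pow_unbounded_of_one_lt C (by norm_num)
  refine ⟨#(Icc 1 ⌊C * 2 ^ b0⌋₊), fun N m hN => ?_⟩
  -- the odd part
  have hch : ∀ n : ℕ, n ≠ 0 → ∃ a n' : ℕ, n = 2 ^ a * n' ∧ ¬ 2 ∣ n' ∧ n' ≠ 0 ∧
    cardFactors n = a + cardFactors n' := fun n hn => odd_part hn
  choose! a o h1 h2 h3 h4 using hch
  apply Finset.card_le_card_of_injOn o
  · intro n hn
    rw [mem_coe, mem_om] at hn
    obtain ⟨⟨hn1, hnN⟩, hΩ⟩ := hn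
    have hn0 : n ≠ 0 := by omega
    have e1 := h1 n hn0
    have e4 := h4 n hn0
    have e3 := three_pow_le (h3 n hn0) (h2 n hn0)
    set b := cardFactors (o n) with hb
    have hm : m = a n + b := by rw [← hΩ, e4]
    have hC : (2:ℝ) ^ (a n) * o n ≤ C * 2 ^ (a n + b) := by
      have h5 : (n:ℝ) = 2 ^ (a n) * o n := by exact_mod_cast e1
      rw [← h5, ← hm]
      exact le_trans (by exact_mod_cast hnN) hN
    have hC2 : (o n : ℝ) ≤ C * 2 ^ b := by
      rw [pow_add] at hC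
      have h6 : (0:ℝ) < 2 ^ (a n) := by positivity
      have h7 : (2:ℝ) ^ (a n) * o n ≤ 2 ^ (a n) * (C * 2 ^ b) := by
        refine hC.trans (le_of_eq ?_); ring
      exact le_of_mul_le_mul_left h7 h6
    have hb3 : (3:ℝ) ^ b ≤ C * 2 ^ b := le_trans (by exact_mod_cast e3) hC2
    have hb4 : (3/2 : ℝ) ^ b ≤ C := by
      rw [div_pow, div_le_iff₀ (by positivity)]; exact hb3
    have hbb : b ≤ b0 := by
      by_contra hc
      push Not at hc
      have : (3/2 : ℝ) ^ b0 ≤ (3/2 : ℝ) ^ b := pow_le_pow_right₀ (by norm_num) hc.le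
      linarith
    have hC0 : 0 ≤ C := by
      have : (0:ℝ) < 3 ^ b := by positivity
      have h8 : (0:ℝ) < 2 ^ b := by positivity
      by_contra hc
      push Not at hc
      nlinarith
    rw [mem_coe, mem_Icc]
    refine ⟨Nat.one_le_iff_ne_zero.mpr (h3 n hn0), ?_⟩
    apply Nat.le_floor
    refine hC2.trans ?_
    have : (2:ℝ) ^ b ≤ 2 ^ b0 := pow_le_pow_right₀ (by norm_num) hbb
    gcongr
  · intro n hn n' hn' hnn
    rw [mem_coe, mem_om] at hn hn'
    have hn0 : n ≠ 0 := by have := hn.1.1; omega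
    have hn0' : n' ≠ 0 := by have := hn'.1.1; omega
    have e4 := h4 n hn0
    have e4' := h4 n' hn0'
    rw [hn.2] at e4
    rw [hn'.2] at e4'
    rw [← hnn] at e4'
    have ha : a n = a n' := by omega
    rw [h1 n hn0, h1 n' hn0', ha, hnn]

lemma sols_le (k N m : ℕ) : #(sols k N m) ≤ #(om m N) ^ (2 * k) := by
  classical
  unfold sols
  refine (Finset.card_filter_le _ _).trans ?_
  rw [card_product, Fintype.card_piFinset]
  simp only [prod_const, card_univ, Fintype.card_fin]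
  rw [two_mul, pow_add]

lemma om_pos {N m : ℕ} (h : 2 ^ m ≤ N) : 1 ≤ #(om m N) := by
  rw [Nat.one_le_iff_ne_zero, ← Nat.pos_iff_ne_zero, Finset.card_pos]
  refine ⟨2 ^ m, ?_⟩
  rw [mem_om, cardFactors_apply_prime_pow Nat.prime_two]
  exact ⟨⟨Nat.one_le_two_pow, h⟩, rfl⟩

lemma om_le (m N : ℕ) : #(om m N) ≤ N := by
  unfold om
  refine (Finset.card_filter_le _ _).trans ?_
  simp

lemma rough_sub_om {y : ℝ} {N r : ℕ} : rough y N r ⊆ om r N := by
  intro v hv
  rw [mem_rough (Nat.cast_nonneg N)] at hv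
  rw [mem_om]
  exact ⟨⟨hv.1.1, by exact_mod_cast hv.1.2⟩, hv.2.2.1⟩

lemma pow_div_fact_ge_one {X : ℝ} {μ : ℕ} (h : (μ:ℝ) ≤ X) : 1 ≤ X ^ μ / μ.factorial := by
  rw [le_div_iff₀ (by positivity), one_mul]
  have h1 : (μ.factorial : ℝ) ≤ (μ:ℝ) ^ μ := by exact_mod_cast Nat.factorial_le_pow μ
  refine h1.trans ?_
  gcongr

lemma pi_lower (D : ℝ) (hD : 0 < D) : ∃ c L0 : ℝ, 0 < c ∧ 3 ≤ L0 ∧ ∀ N μ : ℕ,
    L0 ≤ Real.log (Real.log N) → (μ:ℝ) ≤ Real.log (Real.log N) →
    c * (N / (1 + Real.log N)) * ((Real.log (1 + Real.log N) + D) ^ μ / μ.factorial) ≤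
      #(om (μ+1) N) := by
  obtain ⟨c, G, y0, hc, hG, hy0, h⟩ := rough_lower 2 (by norm_num)
  have hly0 : 1 ≤ Real.log y0 := by
    rw [Real.le_log_iff_exp_le (by linarith)]
    have := Real.exp_one_lt_d9; linarith
  set d0 := Real.log (Real.log y0) with hd0
  have hd00 : 0 ≤ d0 := Real.log_nonneg hly0
  refine ⟨c * Real.exp (-(2 * (d0 + 1 + D))), 2 * (d0 + 1 + D) + G + 3, by positivity,
    by linarith, ?_⟩
  intro N μ hL hμ
  set T := Real.log N with hT
  set L := Real.log T with hLd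
  have hL3 : 3 ≤ L := by linarith
  have hT0 : 0 < T := by
    by_contra hc'
    push Not at hc'
    have hTn : T = 0 ∨ T < 0 := by
      rcases hc'.lt_or_eq with h1 | h1
      · right; exact h1
      · left; exact h1
    rcases hTn with h1 | h1
    · rw [hLd, h1, Real.log_zero] at hL3; linarith
    · have : 0 ≤ T := Real.log_natCast_nonneg N
      linarith
  have hT1 : 1 ≤ T := by
    by_contra hc'
    push Not at hc'
    have := Real.log_nonpos hT0.le hc'.le
    linarith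
  have hN1 : (1:ℝ) ≤ N := by
    have : 0 < N := by
      rcases Nat.eq_zero_or_pos N with h1 | h1
      · rw [hT, h1] at hT0; simp at hT0
      · exact h1
    exact_mod_cast this
  have h1 := h y0 N le_rfl hN1 hT1 (by linarith) μ (by linarith)
  have h2 : (#(rough y0 N (μ+1)) : ℝ) ≤ #(om (μ+1) N) := by
    exact_mod_cast Finset.card_le_card rough_sub_om
  refine le_trans ?_ (h1.trans h2)
  set X := Real.log (1 + T) + D with hX
  have hXL : X ≤ L + 1 + D := by
    have h3 : Real.log (1 + T) ≤ Real.log (2 * T) := by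
      apply Real.log_le_log (by linarith); linarith
    rw [Real.log_mul (by norm_num) hT0.ne'] at h3
    obtain ⟨_, h4⟩ := log_two_bounds
    linarith
  have hLX : L ≤ X := by
    have h3 : L ≤ Real.log (1 + T) := by
      apply Real.log_le_log hT0; linarith
    linarith
  have hX0 : 0 < X := by linarith
  have ht0 : 0 ≤ (d0 + 1 + D) / X := by positivity
  have ht1 : (d0 + 1 + D) / X ≤ 1 / 2 := by
    rw [div_le_iff₀ hX0]; linarith
  have h3 := one_sub_ge_exp ht0 ht1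
  have h4 : X * Real.exp (-(2 * ((d0 + 1 + D) / X))) ≤ L - d0 := by
    have h5 : X * (1 - (d0 + 1 + D) / X) = X - (d0 + 1 + D) := by field_simp
    have h6 : X * Real.exp (-(2 * ((d0 + 1 + D) / X))) ≤ X * (1 - (d0 + 1 + D) / X) := by gcongr
    linarith
  have h5 : Real.exp (-(2 * (d0 + 1 + D))) * X ^ μ ≤ (L - d0) ^ μ := by
    calc Real.exp (-(2 * (d0 + 1 + D))) * X ^ μ
        ≤ Real.exp (μ * (-(2 * ((d0 + 1 + D) / X)))) * X ^ μ := by
          have h6 : -(2 * (d0 + 1 + D)) ≤ μ * (-(2 * ((d0 + 1 + D) / X))) := by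
            have h7 : μ * ((d0 + 1 + D) / X) ≤ d0 + 1 + D := by
              rw [mul_div_assoc', div_le_iff₀ hX0]
              nlinarith
            linarith
          gcongr
      _ = (X * Real.exp (-(2 * ((d0 + 1 + D) / X)))) ^ μ := by
          rw [mul_pow, ← Real.exp_nat_mul, mul_comm]
      _ ≤ _ := by gcongr
  calc c * Real.exp (-(2 * (d0 + 1 + D))) * (N / (1 + T)) * (X ^ μ / μ.factorial)
      = c * (N / (1 + T)) * ((Real.exp (-(2 * (d0 + 1 + D))) * X ^ μ) / μ.factorial) := by ring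
    _ ≤ c * (N / T) * ((L - d0) ^ μ / μ.factorial) := by
        have h6 : (N:ℝ) / (1 + T) ≤ N / T := by
          gcongr; linarith
        gcongr

end Pool.Agent.MP6396c4
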