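import Mathlib
import Pool.Agent.Lib.MP_6396c4_an.OmB
import Pool.Agent.Lib.MP_6396c4_an.OmegaUp

open Finset ArithmeticFunction

noncomputable section

namespace Pool.Agent.MP6396c4

open Classical in
/-- completely multiplicative: `2^Ω(n)/n` on odd numbers with all prime factors `≤ Z`. -/
def ffar (Z : ℝ) : ℕ →* ℝ where
  toFun n := if n ≠ 0 ∧ ∀ p : ℕ, p.Prime → p ∣ n → 2 < p ∧ (p:ℝ) ≤ Z then
    2 ^ (cardFactors n) * ((n : ℝ))⁻¹ else 0
  map_one' := by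
    have : (1:ℕ) ≠ 0 ∧ ∀ p : ℕ, p.Prime → p ∣ 1 → 2 < p ∧ (p:ℝ) ≤ Z :=
      ⟨one_ne_zero, fun p hp h => absurd (Nat.dvd_one.mp h) hp.one_lt.ne'⟩
    rw [if_pos this]; simp
  map_mul' m n := by
    by_cases hm : m ≠ 0 ∧ ∀ p : ℕ, p.Prime → p ∣ m → 2 < p ∧ (p:ℝ) ≤ Z
    · by_cases hn : n ≠ 0 ∧ ∀ p : ℕ, p.Prime → p ∣ n → 2 < p ∧ (p:ℝ) ≤ Z
      · have hmn : m * n ≠ 0 ∧ ∀ p : ℕ, p.Prime → p ∣ m * n → 2 < p ∧ (p:ℝ) ≤ Z := by
          refine ⟨Nat.mul_ne_zero hm.1 hn.1, fun p hp h => ?_⟩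
          rcases (Nat.Prime.dvd_mul hp).mp h with h | h
          · exact hm.2 p hp h
          · exact hn.2 p hp h
        rw [if_pos hm, if_pos hn, if_pos hmn, cardFactors_mul hm.1 hn.1, pow_add]
        push_cast
        rw [mul_inv]
        ring
      · have hmn : ¬ (m * n ≠ 0 ∧ ∀ p : ℕ, p.Prime → p ∣ m * n → 2 < p ∧ (p:ℝ) ≤ Z) := by
          rintro ⟨h1, h2⟩
          exact hn ⟨right_ne_zero_of_mul h1, fun p hp h => h2 p hp (h.mul_left m)⟩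
        rw [if_neg hn, if_neg hmn, mul_zero]
    · have hmn : ¬ (m * n ≠ 0 ∧ ∀ p : ℕ, p.Prime → p ∣ m * n → 2 < p ∧ (p:ℝ) ≤ Z) := by
        rintro ⟨h1, h2⟩
        exact hm ⟨left_ne_zero_of_mul h1, fun p hp h => h2 p hp (h.mul_right n)⟩
      rw [if_neg hm, if_neg hmn, zero_mul]

open Classical in
lemma ffar_apply (Z : ℝ) (n : ℕ) : ffar Z n =
    if n ≠ 0 ∧ ∀ q : ℕ, q.Prime → q ∣ n → 2 < q ∧ (q:ℝ) ≤ Z then
      2 ^ (cardFactors n) * ((n : ℝ))⁻¹ else 0 := rfl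

lemma ffar_nonneg (Z : ℝ) (n : ℕ) : 0 ≤ ffar Z n := by
  rw [ffar_apply]
  split_ifs <;> positivity

lemma ffar_prime_le {Z : ℝ} {p : ℕ} (hp : p.Prime) : 0 ≤ ffar Z p ∧ ffar Z p ≤ 2 * (p:ℝ)⁻¹ ∧
    ffar Z p ≤ 2/3 ∧ (Z < p → ffar Z p = 0) := by
  rw [ffar_apply]
  have hp0 : (0:ℝ) < p := by exact_mod_cast hp.pos
  split_ifs with h
  · have h1 := h.2 p hp dvd_rfl
    rw [cardFactors_apply_prime hp, pow_one]
    have h3 : (3:ℝ) ≤ p := by exact_mod_cast h1.1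
    refine ⟨by positivity, le_rfl, ?_, fun hZ => absurd h1.2 (not_le.mpr hZ)⟩
    rw [← div_eq_mul_inv, div_le_div_iff₀ hp0 (by norm_num)]; linarith
  · exact ⟨le_rfl, by positivity, by norm_num, fun _ => rfl⟩

lemma one_sub_inv_le {x : ℝ} (_h0 : 0 ≤ x) (h1 : x ≤ 2/3) :
    (1 - x)⁻¹ ≤ Real.exp (x + 3 * x ^ 2) := by
  have hx1 : 0 < 1 - x := by linarith
  have e : (1 - x)⁻¹ = x / (1 - x) + 1 := by field_simp; ring
  rw [e]
  refine (Real.add_one_le_exp _).trans ?_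
  apply Real.exp_le_exp.mpr
  rw [div_le_iff₀ hx1]
  nlinarith [sq_nonneg x]

/-- `∑ f ≤ C (1 + log Z)²`. -/
lemma sum_ffar : ∃ C : ℝ, 0 < C ∧ ∀ (Z : ℝ) (N : ℕ), 1 ≤ Z →
    ∑ n ∈ Icc 1 N, ffar Z n ≤ C * (1 + Real.log Z) ^ 2 := by
  obtain ⟨C, hC, hM⟩ := mertens
  refine ⟨Real.exp (2 * C + 12), by positivity, fun Z N hZ => ?_⟩
  have h0 : ∀ n, 0 ≤ ffar Z n := ffar_nonneg Z
  have h1 := sum_le_euler (ffar Z) h0 (fun p hp => by
    have := (ffar_prime_le (Z := Z) hp).2.2.1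
    linarith) N
  refine h1.trans ?_
  have h2 : ∏ p ∈ pr N, (1 - ffar Z p)⁻¹ ≤ ∏ p ∈ pr N,
      Real.exp (ffar Z p + 12 * ((p:ℝ) ^ 2)⁻¹) := by
    apply Finset.prod_le_prod
    · intro p hp
      have := (ffar_prime_le (Z := Z) (mem_pr.mp hp).1).2.2.1
      apply inv_nonneg.mpr; linarith
    · intro p hp
      obtain ⟨g0, g1, g2, _⟩ := ffar_prime_le (Z := Z) (mem_pr.mp hp).1
      refine (one_sub_inv_le g0 g2).trans ?_
      apply Real.exp_le_exp.mpr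
      have : 3 * (ffar Z p) ^ 2 ≤ 12 * ((p:ℝ) ^ 2)⁻¹ := by
        calc 3 * (ffar Z p) ^ 2 ≤ 3 * (2 * (p:ℝ)⁻¹) ^ 2 := by gcongr
          _ = _ := by rw [mul_pow, inv_pow]; ring
      linarith
  refine h2.trans ?_
  rw [← Real.exp_sum, Finset.sum_add_distrib, ← Finset.mul_sum]
  have h3 := sum_inv_sq_pr N
  have hfl : 1 ≤ ⌊Z⌋₊ := (Nat.one_le_floor_iff _).mpr hZ
  have h4 : ∑ p ∈ pr N, ffar Z p ≤ 2 * ∑ p ∈ pr ⌊Z⌋₊, (p:ℝ)⁻¹ := by
    rw [Finset.mul_sum]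
    calc ∑ p ∈ pr N, ffar Z p ≤ ∑ p ∈ pr N ∩ pr ⌊Z⌋₊, ffar Z p := by
          rw [← Finset.sum_subset (Finset.inter_subset_left (s₁ := pr N) (s₂ := pr ⌊Z⌋₊))]
          intro p hp hp'
          rw [mem_inter, not_and] at hp'
          have hpp := (mem_pr.mp hp).1
          have h5 : p ∉ pr ⌊Z⌋₊ := hp' hp
          rw [mem_pr, not_and] at h5
          have h6 := h5 hpp
          push Not at h6
          exact (ffar_prime_le hpp).2.2.2 ((Nat.floor_lt (by linarith)).mp h6)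
      _ ≤ ∑ p ∈ pr N ∩ pr ⌊Z⌋₊, 2 * (p:ℝ)⁻¹ := by
          apply Finset.sum_le_sum
          intro p hp
          exact (ffar_prime_le (mem_pr.mp (mem_inter.mp hp).1).1).2.1
      _ ≤ _ := by
          apply Finset.sum_le_sum_of_subset_of_nonneg Finset.inter_subset_right
          intro p _ _; positivity
  have h5 := (hM ⌊Z⌋₊ hfl)
  have h6 : ∑ p ∈ pr ⌊Z⌋₊, (p:ℝ)⁻¹ ≤ Real.log (1 + Real.log Z) + C := by
    have h7 : ∑ p ∈ pr ⌊Z⌋₊, (p:ℝ)⁻¹ ≤ Real.log (1 + Real.log ⌊Z⌋₊) + C := by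
      exact h5.1
    refine h7.trans ?_
    have h8 : Real.log (⌊Z⌋₊ : ℝ) ≤ Real.log Z :=
      Real.log_le_log (by exact_mod_cast hfl) (Nat.floor_le (by linarith))
    have h9 : 0 ≤ Real.log (⌊Z⌋₊ : ℝ) := Real.log_natCast_nonneg _
    have h10 : Real.log (1 + Real.log (⌊Z⌋₊:ℝ)) ≤ Real.log (1 + Real.log Z) := by
      apply Real.log_le_log (by linarith); linarith
    linarith
  have hlZ : 0 ≤ Real.log Z := Real.log_nonneg hZ
  calc Real.exp (∑ p ∈ pr N, ffar Z p + 12 * ∑ p ∈ pr N, ((p:ℝ) ^ 2)⁻¹)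
      ≤ Real.exp (2 * (Real.log (1 + Real.log Z) + C) + 12 * 1) := by
        apply Real.exp_le_exp.mpr
        gcongr
        exact h4.trans (by gcongr)
    _ = Real.exp (2 * C + 12) * Real.exp (((2:ℕ):ℝ) * Real.log (1 + Real.log Z)) := by
        rw [← Real.exp_add]; congr 1; push_cast; ring
    _ = _ := by rw [Real.exp_nat_mul, Real.exp_log (by linarith)]

/-- upper bound for `π_m(N)` in terms of `M = N / 2^m` -/
theorem far_upper : ∃ C : ℝ, 0 < C ∧ ∀ (N m : ℕ), (1:ℝ) ≤ N / 2 ^ m →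
    (#(om m N) : ℝ) ≤ C * ((N:ℝ) / 2 ^ m) * (1 + Real.log (2 * (N / 2 ^ m))) ^ 2 := by
  classical
  obtain ⟨C, hC, hsum⟩ := sum_ffar
  refine ⟨C, hC, fun N m hM1 => ?_⟩
  set M := (N:ℝ) / 2 ^ m with hM
  have hM0 : 0 < M := by linarith
  have hch : ∀ n : ℕ, n ≠ 0 → ∃ a n' : ℕ, n = 2 ^ a * n' ∧ ¬ 2 ∣ n' ∧ n' ≠ 0 ∧
    cardFactors n = a + cardFactors n' := fun n hn => odd_part hn
  choose! a o h1 h2 h3 h4 using hch
  have hinj : Set.InjOn o (om m N : Set ℕ) := by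
    intro n hn n' hn' hnn
    rw [mem_coe, mem_om] at hn hn'
    have hn0 : n ≠ 0 := by have := hn.1.1; omega
    have hn0' : n' ≠ 0 := by have := hn'.1.1; omega
    have e4 := h4 n hn0
    have e4' := h4 n' hn0'
    rw [hn.2] at e4
    rw [hn'.2] at e4'
    rw [← hnn] at e4'
    have ha : a n = a n' := by omega
    rw [h1 n hn0, h1 n' hn0', ha, hnn]
  have hle : ∀ n ∈ om m N, 1 ≤ M * ffar (2 * M) (o n) ∧ o n ∈ Icc 1 N := by
    intro n hn
    rw [mem_om] at hn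
    obtain ⟨⟨hn1, hnN⟩, hΩ⟩ := hn
    have hn0 : n ≠ 0 := by omega
    have e1 := h1 n hn0
    have e4 := h4 n hn0
    set b := cardFactors (o n) with hb
    have hm : m = a n + b := by rw [← hΩ, e4]
    have ho0 : (0:ℝ) < o n := by exact_mod_cast Nat.pos_of_ne_zero (h3 n hn0)
    -- o ≤ M 2^b
    have hoM : (o n : ℝ) ≤ M * 2 ^ b := by
      have h5 : (n:ℝ) = 2 ^ (a n) * o n := by exact_mod_cast e1
      have h6 : (2:ℝ) ^ (a n) * o n ≤ N := by rw [← h5]; exact_mod_cast hnN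
      have h7 : (N:ℝ) = M * 2 ^ m := by rw [hM]; field_simp
      rw [h7, hm, pow_add] at h6
      have h8 : (0:ℝ) < 2 ^ (a n) := by positivity
      have h9 : (2:ℝ) ^ (a n) * o n ≤ 2 ^ (a n) * (M * 2 ^ b) := by
        refine h6.trans (le_of_eq ?_); ring
      exact le_of_mul_le_mul_left h9 h8
    have hcond : o n ≠ 0 ∧ ∀ p : ℕ, p.Prime → p ∣ o n → 2 < p ∧ (p:ℝ) ≤ 2 * M := by
      refine ⟨h3 n hn0, fun p hp hpd => ?_⟩
      have hp2 : 2 < p := by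
        have : p ≠ 2 := by rintro rfl; exact h2 n hn0 hpd
        have := hp.two_le
        omega
      refine ⟨hp2, ?_⟩
      obtain ⟨w, hw⟩ := hpd
      have hw0 : w ≠ 0 := by rintro rfl; rw [mul_zero] at hw; exact h3 n hn0 hw
      have hwodd : ¬ 2 ∣ w := fun h => h2 n hn0 (by rw [hw]; exact h.mul_left p)
      have hb1 : b = 1 + cardFactors w := by
        rw [hb, hw, cardFactors_mul hp.ne_zero hw0, cardFactors_apply_prime hp]
      have h5 := three_pow_le hw0 hwodd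
      have h6 : (2:ℝ) ^ (cardFactors w) ≤ w := by
        calc (2:ℝ) ^ (cardFactors w) ≤ 3 ^ (cardFactors w) := by gcongr; norm_num
          _ ≤ w := by exact_mod_cast h5
      have h7 : (o n : ℝ) = p * w := by exact_mod_cast hw
      rw [h7, hb1, pow_add, pow_one] at hoM
      have hw0' : (0:ℝ) < w := by exact_mod_cast Nat.pos_of_ne_zero hw0
      have h8 : (p:ℝ) * w ≤ (2 * M) * w := by
        calc (p:ℝ) * w ≤ M * (2 * 2 ^ (cardFactors w)) := hoM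
          _ = (2 * M) * 2 ^ (cardFactors w) := by ring
          _ ≤ _ := by gcongr
      exact le_of_mul_le_mul_right h8 hw0'
    constructor
    · have hval : ffar (2 * M) (o n) = 2 ^ (cardFactors (o n)) * ((o n : ℝ))⁻¹ := by
        rw [ffar_apply, if_pos hcond]
      rw [hval, ← hb, ← mul_assoc, ← div_eq_mul_inv, one_le_div ho0]
      exact hoM
    · rw [mem_Icc]
      refine ⟨Nat.one_le_iff_ne_zero.mpr (h3 n hn0), le_trans ?_ hnN⟩
      calc o n ≤ 2 ^ a n * o n := Nat.le_mul_of_pos_left (o n) (Nat.two_pow_pos (a n))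
        _ = n := e1.symm
  have hf0 : ∀ n, 0 ≤ ffar (2 * M) n := ffar_nonneg _
  calc (#(om m N) : ℝ) = ∑ _n ∈ om m N, (1:ℝ) := by simp
    _ ≤ ∑ n ∈ om m N, M * ffar (2 * M) (o n) := Finset.sum_le_sum fun n hn => (hle n hn).1
    _ = ∑ w ∈ (om m N).image o, M * ffar (2 * M) w := by
        rw [Finset.sum_image hinj]
    _ ≤ ∑ w ∈ Icc 1 N, M * ffar (2 * M) w := by
        apply Finset.sum_le_sum_of_subset_of_nonneg
        · intro w hw
          rw [mem_image] at hw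
          obtain ⟨n, hn, rfl⟩ := hw
          exact (hle n hn).2
        · intro w _ _
          exact mul_nonneg hM0.le (hf0 w)
    _ = M * ∑ w ∈ Icc 1 N, ffar (2 * M) w := by rw [Finset.mul_sum]
    _ ≤ M * (C * (1 + Real.log (2 * M)) ^ 2) := by
        have := hsum (2 * M) N (by linarith)
        gcongr
    _ = _ := by ring

end Pool.Agent.MP6396c4
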