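import Mathlib
import Pool.Agent.Lib.MP_6396c4_an.Base

open Finset

noncomputable section

namespace Pool.Agent.MP6396c4

lemma inv_sqrt_pow_le {x y : ℝ} (hx : 0 < x) (h : x ≤ y) (k : ℕ) :
    (√y)⁻¹ ^ k ≤ (√x)⁻¹ ^ k := by
  have h1 : 0 < √x := Real.sqrt_pos.mpr hx
  have h2 : √x ≤ √y := Real.sqrt_le_sqrt h
  gcongr

/-- the elementary inequalities for one scale `s` -/
lemma scale_facts {k : ℕ} (hk1 : (1:ℝ) ≤ k) {K c1 C2 C3 C4 s0 L μ Y P : ℝ} (hK : K = (k:ℝ) + 1)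
    (hc1 : 0 < c1) (hC2 : 0 < C2) (hC3 : 0 < C3) (hC4 : C4 = K * C3 + C2) (hs0 : 1 ≤ s0)
    (hL3 : 3 ≤ L) (hLC2 : 10 * C2 ≤ L) (hLC4 : 2 * C4 ≤ L) (hL40 : 40 * K ≤ c1 * L)
    (hL64 : 6400 * K ^ 3 ≤ c1 ^ 2 * L) (hμlo : c1 * L / 2 ≤ μ) (hμhi : μ ≤ 2 * L) {s : ℕ}
    (hs1 : s0 + 2 * C3 + 16 / c1 ≤ s) (hs2 : (s:ℝ) ≤ 4 / 5 * L)
    (hY : Y = K * ((s:ℝ) - C3) + (L - s - C2)) (hP : P = μ * (K * ((s:ℝ) - C3)) / Y) :
    (s:ℝ) / 2 ≤ s - C3 ∧ L / 10 ≤ L - s - C2 ∧ L / 2 ≤ Y ∧ Y ≤ K * L ∧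
      4 ≤ P ∧ P + √P + 1 ≤ μ ∧ P ≤ 4 * K * ((s:ℝ) - C3) ∧
      μ - P ≤ 4 * (L - s - C2) ∧ 1 ≤ (s:ℝ) := by
  have hLpos : 0 < L := by linarith
  have hK2 : 2 ≤ K := by linarith
  have h16 : 0 < 16 / c1 := by positivity
  have hC40 : 0 < C4 := by rw [hC4]; positivity
  have hμ0 : 0 < μ := by
    have : 0 < c1 * L / 2 := by positivity
    linarith
  have hs16 : 16 / c1 ≤ s := by linarith
  have hs1' : 1 ≤ (s:ℝ) := by linarith
  have ha : (s:ℝ) / 2 ≤ s - C3 := by linarith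
  have hb : L / 10 ≤ L - s - C2 := by linarith
  have hYe : Y = L + k * s - C4 := by rw [hY, hC4, hK]; ring
  have hks : 0 ≤ (k:ℝ) * s := by positivity
  have hY1 : L / 2 ≤ Y := by rw [hYe]; linarith
  have hY2 : Y ≤ K * L := by
    rw [hYe, hK]
    have : (k:ℝ) * s ≤ k * L := by
      have : (s:ℝ) ≤ L := by linarith
      gcongr
    linarith
  have hY0 : 0 < Y := by linarith
  have ha0 : 0 < (s:ℝ) - C3 := by linarith
  have hb0 : 0 < L - s - C2 := by linarith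
  have hP4 : 4 ≤ P := by
    rw [hP]
    rw [le_div_iff₀ hY0]
    rw [div_le_iff₀ hc1] at hs16
    calc 4 * Y ≤ 4 * (K * L) := by gcongr
      _ = K * L / 4 * 16 := by ring
      _ ≤ K * L / 4 * (s * c1) := by gcongr
      _ = (c1 * L / 2) * (K * (s / 2)) := by ring
      _ ≤ μ * (K * ((s:ℝ) - C3)) := by gcongr
  have hPhi : P ≤ 4 * K * ((s:ℝ) - C3) := by
    rw [hP]
    rw [div_le_iff₀ hY0]
    have h1 : 0 ≤ K * ((s:ℝ) - C3) := by positivity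
    have h2 : (μ:ℝ) ≤ 4 * Y := by linarith
    calc μ * (K * ((s:ℝ) - C3)) ≤ (4 * Y) * (K * ((s:ℝ) - C3)) := by gcongr
      _ = _ := by ring
  have hμP : μ - P = μ * (L - s - C2) / Y := by
    rw [hP]
    rw [eq_div_iff hY0.ne', sub_mul, div_mul_cancel₀ _ hY0.ne']
    rw [hY]; ring
  have hμP1 : μ - P ≤ 4 * (L - s - C2) := by
    rw [hμP, div_le_iff₀ hY0]
    have h2 : (μ:ℝ) ≤ 4 * Y := by linarith
    calc μ * (L - s - C2) ≤ (4 * Y) * (L - s - C2) := by gcongr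
      _ = _ := by ring
  have hμP2 : c1 * L / (20 * K) ≤ μ - P := by
    rw [hμP, div_le_div_iff₀ (by positivity) hY0]
    calc c1 * L * Y ≤ c1 * L * (K * L) := by gcongr
      _ = (c1 * L / 2) * (L / 10) * (20 * K) := by ring
      _ ≤ μ * (L - s - C2) * (20 * K) := by gcongr
  have hsq : √P ≤ c1 * L / (40 * K) := by
    rw [Real.sqrt_le_left (by positivity), div_pow, le_div_iff₀ (by positivity)]
    have h1 : P ≤ 4 * K * L := by
      refine hPhi.trans ?_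
      have : (s:ℝ) - C3 ≤ L := by linarith
      gcongr
    calc P * (40 * K) ^ 2 ≤ (4 * K * L) * (40 * K) ^ 2 := by gcongr
      _ = (6400 * K ^ 3) * L := by ring
      _ ≤ (c1 ^ 2 * L) * L := by gcongr
      _ = _ := by ring
  have h1le : 1 ≤ c1 * L / (40 * K) := by
    rw [le_div_iff₀ (by positivity)]; linarith
  refine ⟨ha, hb, hY1, hY2, hP4, ?_, hPhi, hμP1, hs1'⟩
  have : c1 * L / (20 * K) = 2 * (c1 * L / (40 * K)) := by field_simp; ring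
  linarith

/-- the lower bound of one scale in terms of `(L + ks)^μ` -/
lemma scale_low {k μ s : ℕ} {K C2 C3 C4 L Y P c0 Sg : ℝ} (hK2 : 2 ≤ K) (hC3 : 0 < C3)
    (hC40 : 0 < C4) (hL3 : 3 ≤ L) (hLC4 : 2 * C4 ≤ L) (hμhi : (μ:ℝ) ≤ 2 * L)
    (hb : L / 10 ≤ L - s - C2) (hY1 : L / 2 ≤ Y) (hY2 : Y ≤ K * L) (hYe : Y = L + k * s - C4)
    (hP4 : 4 ≤ P) (hPhi : P ≤ 4 * K * ((s:ℝ) - C3)) (hs1' : 1 ≤ (s:ℝ))
    (hc0 : c0 = Real.exp (-(2 * K)) * (√2)⁻¹ ^ (k+1) * (√(4 * K))⁻¹ ^ k *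
      (Real.exp (-(4 * C4)) * (Real.exp (-(2 + 10 * K)) / 3)) ^ (k+1))
    (hTm : Real.exp (-(2 * K)) * (√2)⁻¹ ^ (k+1) * (√P)⁻¹ ^ k *
      (Y ^ μ / μ.factorial * (Real.exp (-(2 + Y / (L - s - C2))) / 3)) ^ (k+1) ≤ Sg) :
    c0 * ((√(s:ℝ))⁻¹ ^ k * ((L + k * s) ^ μ / μ.factorial) ^ (k+1)) ≤ Sg := by
  have hLpos : 0 < L := by linarith
  have hb0 : 0 < L - s - C2 := by linarith
  have hY0 : 0 < Y := by linarith
  -- comparison of Y^μ and (L+ks)^μ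
  have hks : 0 ≤ (k:ℝ) * s := by positivity
  have hpow : Real.exp (-(4 * C4)) * (L + k * s) ^ μ ≤ Y ^ μ := by
    set Z := L + (k:ℝ) * s with hZ
    have hZ0 : 0 < Z := by linarith
    have ht1 : C4 / Z ≤ 1 / 2 := by rw [div_le_iff₀ hZ0]; linarith
    have h3 := one_sub_ge_exp (show 0 ≤ C4 / Z by positivity) ht1
    have h4 : Z * Real.exp (-(2 * (C4 / Z))) ≤ Y := by
      have h5 : Z * (1 - C4 / Z) = Y := by rw [hYe]; field_simp
      rw [← h5]; gcongr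
    calc Real.exp (-(4 * C4)) * Z ^ μ ≤ Real.exp (μ * (-(2 * (C4 / Z)))) * Z ^ μ := by
          have h6 : -(4 * C4) ≤ μ * (-(2 * (C4 / Z))) := by
            have h7 : μ * (C4 / Z) ≤ 2 * C4 := by
              rw [mul_div_assoc', div_le_iff₀ hZ0]
              have h8 : (μ:ℝ) ≤ 2 * Z := by linarith
              calc μ * C4 ≤ (2 * Z) * C4 := by gcongr
                _ = _ := by ring
            linarith
          gcongr
      _ = (Z * Real.exp (-(2 * (C4 / Z)))) ^ μ := by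
          rw [mul_pow, ← Real.exp_nat_mul, mul_comm]
      _ ≤ _ := by gcongr
  have hexp : Real.exp (-(2 + 10 * K)) ≤ Real.exp (-(2 + Y / (L - s - C2))) := by
    apply Real.exp_le_exp.mpr
    have : Y / (L - s - C2) ≤ 10 * K := by
      rw [div_le_iff₀ hb0]
      calc Y ≤ K * L := hY2
        _ = 10 * K * (L / 10) := by ring
        _ ≤ _ := by gcongr
    linarith
  have hsqP : (√(4 * K))⁻¹ ^ k * (√(s:ℝ))⁻¹ ^ k ≤ (√P)⁻¹ ^ k := by
    rw [← mul_pow, ← mul_inv, ← Real.sqrt_mul (by positivity)]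
    apply inv_sqrt_pow_le (by linarith)
    refine hPhi.trans ?_
    have : (s:ℝ) - C3 ≤ s := by linarith
    gcongr
  have hlow : c0 * ((√(s:ℝ))⁻¹ ^ k * ((L + k * s) ^ μ / μ.factorial) ^ (k+1)) ≤
      Sg := by
    refine le_trans ?_ hTm
    calc c0 * ((√(s:ℝ))⁻¹ ^ k * ((L + k * s) ^ μ / μ.factorial) ^ (k+1))
        = Real.exp (-(2 * K)) * (√2)⁻¹ ^ (k+1) * ((√(4 * K))⁻¹ ^ k * (√(s:ℝ))⁻¹ ^ k) *
          ((Real.exp (-(4 * C4)) * (L + k * s) ^ μ) / μ.factorial *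
            (Real.exp (-(2 + 10 * K)) / 3)) ^ (k+1) := by
          rw [hc0]
          have e1 : (Real.exp (-(4 * C4)) * (L + k * s) ^ μ) / μ.factorial *
            (Real.exp (-(2 + 10 * K)) / 3) = (Real.exp (-(4 * C4)) * (Real.exp (-(2 + 10 * K)) / 3)) *
            ((L + k * s) ^ μ / μ.factorial) := by ring
          rw [e1, mul_pow _ ((L + k * s) ^ μ / μ.factorial)]
          ring
      _ ≤ Real.exp (-(2 * K)) * (√2)⁻¹ ^ (k+1) * (√P)⁻¹ ^ k *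
          (Y ^ μ / μ.factorial * (Real.exp (-(2 + Y / (L - s - C2))) / 3)) ^ (k+1) := by
          have h9 : 0 ≤ L + (k:ℝ) * s := by positivity
          gcongr
  exact hlow

end Pool.Agent.MP6396c4
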