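import Mathlib
import Pool.Agent.Lib.MP_6396c4_an.Base

open Finset

noncomputable section

namespace Pool.Agent.MP6396c4

lemma stirling_up {n : ℕ} (hn : 1 ≤ n) : (n.factorial : ℝ) ≤
    Real.exp 1 * √n * ((n:ℝ) / Real.exp 1) ^ n := by
  obtain ⟨m, rfl⟩ : ∃ m, n = m + 1 := ⟨n - 1, by omega⟩
  have := stirling_upper m
  push_cast
  exact this

lemma stirling_low (n : ℕ) : √n * ((n:ℝ) / Real.exp 1) ^ n ≤ n.factorial := by
  refine le_trans ?_ (Stirling.le_factorial_stirling n)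
  have h : √(n:ℝ) ≤ √(2 * Real.pi * n) := by
    apply Real.sqrt_le_sqrt
    have : (1:ℝ) ≤ 2 * Real.pi := by have := Real.pi_gt_three; linarith
    have hn : (0:ℝ) ≤ n := Nat.cast_nonneg n
    nlinarith
  gcongr

/-- general multinomial lower bound -/
lemma multinom_lower {r : ℕ} (a : Fin r → ℕ) (ha : ∀ i, 1 ≤ a i) (p : Fin r → ℝ)
    (hp : ∀ i, 0 < p i) (hn : 1 ≤ ∑ i, a i) :
    √(∑ i, a i : ℕ) * (∏ i, (Real.exp 1 * √(a i))⁻¹) *
      Real.exp (-(∑ i, (a i : ℝ) ^ 2 / (((∑ j, a j : ℕ) : ℝ) * p i) - ((∑ j, a j : ℕ) : ℝ))) ≤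
    (∑ i, a i).factorial * ∏ i, ((p i) ^ (a i) / (a i).factorial) := by
  set n := ∑ i, a i with hnd
  have hn0 : (0:ℝ) < n := by exact_mod_cast hn
  have hE := Real.exp_pos (1:ℝ)
  have h1 := stirling_low n
  have h2 : ∀ i, (Real.exp 1 * √(a i))⁻¹ * ((n:ℝ) / Real.exp 1) ^ (-(a i : ℤ)) *
      Real.exp (-((a i : ℝ) ^ 2 / (n * p i) - a i)) ≤ (p i) ^ (a i) / (a i).factorial := by
    intro i
    have hai : (0:ℝ) < a i := by exact_mod_cast ha i
    have h3 := stirling_up (ha i)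
    have hpi := hp i
    rw [zpow_neg, zpow_natCast]
    have h4 : Real.exp (-((a i : ℝ) ^ 2 / (n * p i) - a i)) ≤ (n * p i / a i) ^ (a i) := by
      have h5 : Real.log ((a i : ℝ) / (n * p i)) ≤ (a i : ℝ) / (n * p i) - 1 :=
        Real.log_le_sub_one_of_pos (by positivity)
      have h6 : (n * p i / a i) ^ (a i) = Real.exp (-(a i * Real.log ((a i : ℝ) / (n * p i)))) := by
        rw [← mul_neg, Real.exp_nat_mul, ← Real.log_inv, inv_div, Real.exp_log (by positivity)]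
      rw [h6]
      apply Real.exp_le_exp.mpr
      have h7 : (a i : ℝ) * Real.log ((a i : ℝ) / (n * p i)) ≤
          a i * ((a i : ℝ) / (n * p i) - 1) := by gcongr
      have h8 : (a i : ℝ) * ((a i : ℝ) / (n * p i) - 1) = (a i : ℝ) ^ 2 / (n * p i) - a i := by ring
      linarith
    have h5 : (p i) ^ (a i) / (Real.exp 1 * √(a i) * ((a i : ℝ) / Real.exp 1) ^ (a i)) ≤
        (p i) ^ (a i) / (a i).factorial := by
      gcongr
    refine le_trans ?_ h5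
    have h6 : (p i) ^ (a i) / (Real.exp 1 * √(a i) * ((a i : ℝ) / Real.exp 1) ^ (a i)) =
        (Real.exp 1 * √(a i))⁻¹ * (((n:ℝ) / Real.exp 1) ^ (a i))⁻¹ * (n * p i / a i) ^ (a i) := by
      have hsq : 0 < √(a i : ℝ) := Real.sqrt_pos.mpr hai
      rw [div_pow, div_pow, div_pow, mul_pow]
      field_simp
    rw [h6]
    gcongr
  have h3 : ∏ i, ((Real.exp 1 * √(a i))⁻¹ * ((n:ℝ) / Real.exp 1) ^ (-(a i : ℤ)) *
      Real.exp (-((a i : ℝ) ^ 2 / (n * p i) - a i))) ≤ ∏ i, ((p i) ^ (a i) / (a i).factorial) := by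
    apply Finset.prod_le_prod
    · intro i _; positivity
    · intro i _; exact h2 i
  rw [Finset.prod_mul_distrib, Finset.prod_mul_distrib] at h3
  have h4 : ∏ i, ((n:ℝ) / Real.exp 1) ^ (-(a i : ℤ)) = (((n:ℝ) / Real.exp 1) ^ n)⁻¹ := by
    simp only [zpow_neg, zpow_natCast]
    rw [Finset.prod_inv_distrib, Finset.prod_pow_eq_pow_sum]
  have h5 : ∏ i, Real.exp (-((a i : ℝ) ^ 2 / (n * p i) - a i)) =
      Real.exp (-(∑ i, (a i : ℝ) ^ 2 / (n * p i) - n)) := by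
    rw [← Real.exp_sum]
    congr 1
    rw [Finset.sum_neg_distrib, Finset.sum_sub_distrib, hnd]
    push_cast
    rfl
  rw [h4, h5] at h3
  have hpw : 0 < ((n:ℝ) / Real.exp 1) ^ n := by positivity
  calc √n * (∏ i, (Real.exp 1 * √(a i))⁻¹) * Real.exp (-(∑ i, (a i : ℝ) ^ 2 / (n * p i) - n))
      = (√n * ((n:ℝ) / Real.exp 1) ^ n) * ((∏ i, (Real.exp 1 * √(a i))⁻¹) *
        (((n:ℝ) / Real.exp 1) ^ n)⁻¹ * Real.exp (-(∑ i, (a i : ℝ) ^ 2 / (n * p i) - n))) := by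
        field_simp
    _ ≤ n.factorial * ((∏ i, (Real.exp 1 * √(a i))⁻¹) *
        (((n:ℝ) / Real.exp 1) ^ n)⁻¹ * Real.exp (-(∑ i, (a i : ℝ) ^ 2 / (n * p i) - n))) := by
        have : 0 ≤ ∏ i, (Real.exp 1 * √(a i))⁻¹ := Finset.prod_nonneg fun i _ => by positivity
        gcongr
    _ ≤ _ := by gcongr

end Pool.Agent.MP6396c4
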