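import Mathlib
import Pool.Agent.Lib.MP_6396c4_an.Stir

open Finset

noncomputable section

namespace Pool.Agent.MP6396c4

/-- the window -/
def win (P : ℝ) : Finset ℕ := Icc ⌈P⌉₊ ⌊P + √P⌋₊

lemma mem_win {P : ℝ} (hP : 0 ≤ P) {l : ℕ} : l ∈ win P ↔ P ≤ l ∧ (l:ℝ) ≤ P + √P := by
  unfold win
  rw [mem_Icc, Nat.ceil_le, Nat.le_floor_iff (by positivity)]

lemma card_win {P : ℝ} (hP : 4 ≤ P) : √P / 2 ≤ #(win P) := by
  unfold win
  rw [Nat.card_Icc]
  have h1 : (2:ℝ) ≤ √P := by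
    rw [show (2:ℝ) = √(2 ^ 2) by rw [Real.sqrt_sq (by norm_num)]]
    apply Real.sqrt_le_sqrt; linarith
  have h2 := Nat.lt_floor_add_one (P + √P)
  have h3 := Nat.ceil_lt_add_one (show 0 ≤ P by linarith)
  have h4 : ((⌊P + √P⌋₊ + 1 : ℕ) : ℝ) ≤ ((⌊P + √P⌋₊ + 1 - ⌈P⌉₊ : ℕ) : ℝ) + ⌈P⌉₊ := by
    exact_mod_cast le_tsub_add
  push_cast at h4
  linarith

lemma binom_term {μ l : ℕ} {x b P : ℝ} (hx : 0 < x) (hb : 0 < b)
    (hP : P = μ * x / (x + b)) (hP4 : 4 ≤ P) (hPμ : P + √P + 1 ≤ μ) (hl : l ∈ win P) :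
    (x + b) ^ μ / μ.factorial * (Real.exp (-(2 + (x + b) / b)) / √(2 * P)) ≤
      x ^ l / l.factorial * (b ^ (μ - l) / (μ - l).factorial) := by
  rw [mem_win (by linarith)] at hl
  obtain ⟨hl1, hl2⟩ := hl
  have hY : 0 < x + b := by linarith
  set Y := x + b with hYd
  have hP0 : 0 < P := by linarith
  have hsP : √P ^ 2 = P := Real.sq_sqrt hP0.le
  have hsP0 : 0 < √P := Real.sqrt_pos.mpr hP0
  have hsPP : √P ≤ P := by nlinarith [Real.one_le_sqrt.mpr (show (1:ℝ) ≤ P by linarith)]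
  have hlμ' : (l:ℝ) + 1 ≤ μ := by linarith
  have hlμ : l + 1 ≤ μ := by exact_mod_cast hlμ'
  have hl4 : (1:ℝ) ≤ l := by linarith
  have hl1' : 1 ≤ l := by exact_mod_cast hl4
  have hμ0 : (0:ℝ) < μ := by linarith
  have key := multinom_lower (r := 2) ![l, μ - l] (by
      intro i; fin_cases i
      · exact hl1'
      · simp; omega) ![x / Y, b / Y] (by
      intro i; fin_cases i
      · simp; positivity
      · simp; positivity) (by simp; omega)
  simp only [Fin.sum_univ_two, Fin.prod_univ_two, Matrix.cons_val_zero, Matrix.cons_val_one] at key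
  have e1 : l + (μ - l) = μ := by omega
  rw [e1] at key
  have e2 : ((μ - l : ℕ) : ℝ) = μ - l := by rw [Nat.cast_sub (by omega)]
  have hexpo : (l:ℝ) ^ 2 / (μ * (x / Y)) + ((μ - l : ℕ) : ℝ) ^ 2 / (μ * (b / Y)) - μ ≤ Y / b := by
    rw [e2]
    have hPx : x = P * Y / μ := by rw [hP]; field_simp
    have h1 : (l:ℝ) ^ 2 / (μ * (x / Y)) + ((μ:ℝ) - l) ^ 2 / (μ * (b / Y)) - μ =
        (l - P) ^ 2 / P * (Y / b) := by
      have hbY : b = Y - x := by rw [hYd]; ring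
      have hbpos : 0 < Y - x := by rw [← hbY]; exact hb
      rw [hP]
      rw [hbY]
      field_simp
      ring
    rw [h1]
    have h2 : ((l:ℝ) - P) ^ 2 / P ≤ 1 := by
      rw [div_le_one hP0]
      nlinarith
    have h3 : 0 ≤ Y / b := by positivity
    nlinarith
  have hfac : (μ.factorial : ℝ) * ((x / Y) ^ l / l.factorial * ((b / Y) ^ (μ - l) / (μ - l).factorial)) =
      μ.factorial / Y ^ μ * (x ^ l / l.factorial * (b ^ (μ - l) / (μ - l).factorial)) := by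
    have : Y ^ μ = Y ^ l * Y ^ (μ - l) := by rw [← pow_add, e1]
    rw [this, div_pow, div_pow]
    field_simp
  rw [hfac] at key
  have hlow : Real.exp (-(2 + Y / b)) / √(2 * P) ≤ √μ * ((Real.exp 1 * √l)⁻¹ *
      (Real.exp 1 * √(μ - l : ℕ))⁻¹) * Real.exp (-((l:ℝ) ^ 2 / (μ * (x / Y)) +
      ((μ - l : ℕ) : ℝ) ^ 2 / (μ * (b / Y)) - μ)) := by
    have h1 : Real.exp (-(Y / b)) ≤ Real.exp (-((l:ℝ) ^ 2 / (μ * (x / Y)) +
      ((μ - l : ℕ) : ℝ) ^ 2 / (μ * (b / Y)) - μ)) := by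
      apply Real.exp_le_exp.mpr; linarith
    have h2 : (√(2 * P))⁻¹ ≤ (√l)⁻¹ := by
      have : 0 < √(l:ℝ) := Real.sqrt_pos.mpr (by linarith)
      apply inv_anti₀ this
      apply Real.sqrt_le_sqrt; linarith
    have h3 : 1 ≤ √μ * (√(μ - l : ℕ))⁻¹ := by
      have h4 : (0:ℝ) < ((μ - l : ℕ) : ℝ) := by rw [e2]; linarith
      have h5 : 0 < √((μ - l : ℕ) : ℝ) := Real.sqrt_pos.mpr h4
      rw [← div_eq_mul_inv, one_le_div h5]
      apply Real.sqrt_le_sqrt
      rw [e2]; linarith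
    have h6 : Real.exp (-(2 + Y / b)) = (Real.exp 1)⁻¹ * (Real.exp 1)⁻¹ * Real.exp (-(Y / b)) := by
      rw [← Real.exp_neg, ← Real.exp_add, ← Real.exp_add]; congr 1; ring
    have h7 := Real.exp_pos (1:ℝ)
    calc Real.exp (-(2 + Y / b)) / √(2 * P)
        = (Real.exp 1)⁻¹ * (Real.exp 1)⁻¹ * Real.exp (-(Y / b)) * (√(2 * P))⁻¹ * 1 := by
          rw [h6]; ring
      _ ≤ (Real.exp 1)⁻¹ * (Real.exp 1)⁻¹ * Real.exp (-((l:ℝ) ^ 2 / (μ * (x / Y)) +
      ((μ - l : ℕ) : ℝ) ^ 2 / (μ * (b / Y)) - μ)) * (√l)⁻¹ * (√μ * (√(μ - l : ℕ))⁻¹) := by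
          gcongr
      _ = _ := by rw [mul_inv, mul_inv]; ring
  have h8 := hlow.trans key
  have hYμ : 0 < Y ^ μ / μ.factorial := by positivity
  calc Y ^ μ / μ.factorial * (Real.exp (-(2 + Y / b)) / √(2 * P))
      ≤ Y ^ μ / μ.factorial * (μ.factorial / Y ^ μ *
        (x ^ l / l.factorial * (b ^ (μ - l) / (μ - l).factorial))) := by gcongr
    _ = _ := by field_simp

lemma binom_sum {μ : ℕ} {x b P : ℝ} (hx : 0 < x) (hb : 0 < b)
    (hP : P = μ * x / (x + b)) (hP4 : 4 ≤ P) (hPμ : P + √P + 1 ≤ μ) :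
    (x + b) ^ μ / μ.factorial * (Real.exp (-(2 + (x + b) / b)) / 3) ≤
      ∑ l ∈ win P, x ^ l / l.factorial * (b ^ (μ - l) / (μ - l).factorial) := by
  have hP0 : 0 < P := by linarith
  have hsP0 : 0 < √P := Real.sqrt_pos.mpr hP0
  calc (x + b) ^ μ / μ.factorial * (Real.exp (-(2 + (x + b) / b)) / 3)
      ≤ (√P / 2) * ((x + b) ^ μ / μ.factorial * (Real.exp (-(2 + (x + b) / b)) / √(2 * P))) := by
        rw [Real.sqrt_mul (by norm_num)]
        have h1 : √2 ≤ 3 / 2 := by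
          rw [Real.sqrt_le_left (by norm_num)]; norm_num
        have h2 : 0 < √(2:ℝ) := by positivity
        have h3 : (√P / 2) * ((x + b) ^ μ / μ.factorial * (Real.exp (-(2 + (x + b) / b)) /
            (√2 * √P))) = (x + b) ^ μ / μ.factorial * (Real.exp (-(2 + (x + b) / b)) / (2 * √2)) := by
          field_simp
        rw [h3]
        have h4 : 2 * √(2:ℝ) ≤ 3 := by linarith
        gcongr
    _ ≤ #(win P) * ((x + b) ^ μ / μ.factorial * (Real.exp (-(2 + (x + b) / b)) / √(2 * P))) := by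
        have := card_win hP4
        gcongr
    _ = ∑ _l ∈ win P, (x + b) ^ μ / μ.factorial * (Real.exp (-(2 + (x + b) / b)) / √(2 * P)) := by
        rw [Finset.sum_const, nsmul_eq_mul]
    _ ≤ _ := Finset.sum_le_sum fun l hl => binom_term hx hb hP hP4 hPμ hl

lemma multi_term {k : ℕ} {P : ℝ} (hP4 : 4 ≤ P) {lam : Fin (k+1) → ℕ} (hlam : ∀ i, lam i ∈ win P) :
    Real.exp (-(2 * (k+1))) * (√2)⁻¹ ^ (k+1) * (√P)⁻¹ ^ k * ((k:ℝ)+1) ^ (∑ i, lam i) ≤
      (∑ i, lam i).factorial / ∏ i, ((lam i).factorial : ℝ) := by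
  have hP0 : 0 < P := by linarith
  have hsP : √P ^ 2 = P := Real.sq_sqrt hP0.le
  have hsP0 : 0 < √P := Real.sqrt_pos.mpr hP0
  have hsPP : √P ≤ P := by nlinarith [Real.one_le_sqrt.mpr (show (1:ℝ) ≤ P by linarith)]
  have hl : ∀ i, P ≤ lam i ∧ (lam i : ℝ) ≤ P + √P := fun i => (mem_win (by linarith)).mp (hlam i)
  have hl1 : ∀ i, 1 ≤ lam i := by
    intro i
    have : (1:ℝ) ≤ lam i := by linarith [(hl i).1]
    exact_mod_cast this
  set n := ∑ i, lam i with hn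
  have hK : (0:ℝ) < (k:ℝ) + 1 := by positivity
  have hnK : ((k:ℝ)+1) * P ≤ n := by
    rw [hn]; push_cast
    calc ((k:ℝ)+1) * P = ∑ _i : Fin (k+1), P := by simp
      _ ≤ _ := Finset.sum_le_sum fun i _ => (hl i).1
  have hnP : P ≤ n := by nlinarith [(Nat.cast_nonneg k : (0:ℝ) ≤ k)]
  have hn0 : (0:ℝ) < n := by linarith
  have hn1 : 1 ≤ n := by
    have : (1:ℝ) ≤ n := by linarith
    exact_mod_cast this
  have key := multinom_lower lam hl1 (fun _ => 1 / ((k:ℝ)+1)) (fun _ => by positivity) hn1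
  rw [← hn] at key
  have hexpo : ∑ i, (lam i : ℝ) ^ 2 / ((n:ℝ) * (1 / ((k:ℝ)+1))) - n ≤ (k:ℝ) + 1 := by
    have e1 : ∑ i, (lam i : ℝ) ^ 2 / ((n:ℝ) * (1 / ((k:ℝ)+1))) =
        ((k:ℝ)+1) / n * ∑ i, (lam i : ℝ) ^ 2 := by
      rw [Finset.mul_sum]
      apply Finset.sum_congr rfl
      intro i _
      field_simp
    rw [e1, sub_le_iff_le_add, div_mul_eq_mul_div, div_le_iff₀ hn0]
    -- (k+1) Σ lam² ≤ (k+1 + n) n
    have e2 : ∑ i, (lam i : ℝ) ^ 2 = ∑ i, ((lam i : ℝ) - P) ^ 2 + 2 * P * n - (k+1) * P ^ 2 := by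
      have : ∀ i, (lam i : ℝ) ^ 2 = ((lam i : ℝ) - P) ^ 2 + 2 * P * lam i - P ^ 2 := by
        intro i; ring
      simp_rw [this]
      rw [Finset.sum_sub_distrib, Finset.sum_add_distrib, ← Finset.mul_sum, hn]
      push_cast
      simp
    have e3 : ∑ i, ((lam i : ℝ) - P) ^ 2 ≤ (k+1) * P := by
      calc ∑ i, ((lam i : ℝ) - P) ^ 2 ≤ ∑ _i : Fin (k+1), P := by
            apply Finset.sum_le_sum
            intro i _
            have := hl i
            nlinarith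
        _ = _ := by simp
    rw [e2]
    have h1 : ((k:ℝ)+1) * (∑ i, ((lam i : ℝ) - P) ^ 2) ≤ (k+1) * ((k+1) * P) := by gcongr
    have h2 : ((k:ℝ)+1) * ((k+1) * P) ≤ (k+1) * n := by gcongr
    nlinarith [sq_nonneg ((n:ℝ) - (k+1) * P)]
  have hlow : Real.exp (-(2 * (k+1))) * (√2)⁻¹ ^ (k+1) * (√P)⁻¹ ^ k ≤
      √(n:ℝ) * (∏ i, (Real.exp 1 * √(lam i))⁻¹) *
      Real.exp (-(∑ i, (lam i : ℝ) ^ 2 / ((n:ℝ) * (1 / ((k:ℝ)+1))) - n)) := by
    have h1 : Real.exp (-((k:ℝ)+1)) ≤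
        Real.exp (-(∑ i, (lam i : ℝ) ^ 2 / ((n:ℝ) * (1 / ((k:ℝ)+1))) - n)) := by
      apply Real.exp_le_exp.mpr; linarith
    have h2 : √P ≤ √(n:ℝ) := Real.sqrt_le_sqrt hnP
    have h3 : (Real.exp 1 * (√2 * √P))⁻¹ ^ (k+1) ≤ ∏ i, (Real.exp 1 * √(lam i))⁻¹ := by
      calc (Real.exp 1 * (√2 * √P))⁻¹ ^ (k+1) = ∏ _i : Fin (k+1), (Real.exp 1 * (√2 * √P))⁻¹ := by
            rw [Finset.prod_const, card_univ, Fintype.card_fin]
        _ ≤ _ := by
            apply Finset.prod_le_prod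
            · intro i _; positivity
            · intro i _
              have h4 : (0:ℝ) < lam i := by linarith [(hl i).1]
              have h5 : 0 < √(lam i : ℝ) := Real.sqrt_pos.mpr h4
              have h6 : √(lam i : ℝ) ≤ √2 * √P := by
                rw [← Real.sqrt_mul (by norm_num)]
                apply Real.sqrt_le_sqrt
                linarith [(hl i).2]
              apply inv_anti₀ (by positivity)
              gcongr
    have e1 : Real.exp (-(2 * ((k:ℝ)+1))) = Real.exp (-((k:ℝ)+1)) * (Real.exp 1)⁻¹ ^ (k+1) := by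
      rw [← Real.exp_neg, ← Real.exp_nat_mul, ← Real.exp_add]; congr 1; push_cast; ring
    calc Real.exp (-(2 * (k+1))) * (√2)⁻¹ ^ (k+1) * (√P)⁻¹ ^ k
        = √P * (Real.exp 1 * (√2 * √P))⁻¹ ^ (k+1) * Real.exp (-((k:ℝ)+1)) := by
          rw [e1, mul_inv, mul_inv, mul_pow, mul_pow, pow_succ (√P)⁻¹]
          field_simp
      _ ≤ _ := by gcongr
  have h9 := hlow.trans key
  have hfac : (n.factorial : ℝ) * ∏ i, ((1 / ((k:ℝ)+1)) ^ (lam i) / (lam i).factorial) =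
      (n.factorial / ∏ i, ((lam i).factorial : ℝ)) / ((k:ℝ)+1) ^ n := by
    rw [Finset.prod_div_distrib, Finset.prod_pow_eq_pow_sum, ← hn, div_pow, one_pow]
    field_simp
  rw [hfac, le_div_iff₀ (by positivity)] at h9
  exact h9

/-- lower bound for the sum of the weights over the window -/
theorem Tm_sum {k μ : ℕ} {a b P : ℝ} (ha : 0 < a) (hb : 0 < b)
    (hP : P = μ * ((k+1) * a) / ((k+1) * a + b)) (hP4 : 4 ≤ P) (hPμ : P + √P + 1 ≤ μ) :
    Real.exp (-(2 * (k+1))) * (√2)⁻¹ ^ (k+1) * (√P)⁻¹ ^ k *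
      (((k+1) * a + b) ^ μ / μ.factorial *
        (Real.exp (-(2 + ((k+1) * a + b) / b)) / 3)) ^ (k+1) ≤
    ∑ lam ∈ Fintype.piFinset (fun _ : Fin (k+1) => win P), Tm k μ a b lam := by
  have hx : 0 < ((k:ℝ)+1) * a := by positivity
  set x := ((k:ℝ)+1) * a with hxd
  have h1 := binom_sum hx hb hP hP4 hPμ
  set c := Real.exp (-(2 * ((k:ℝ)+1))) * (√2)⁻¹ ^ (k+1) * (√P)⁻¹ ^ k with hc
  have hc0 : 0 ≤ c := by positivity
  have hb1 : 0 ≤ (x + b) ^ μ / μ.factorial * (Real.exp (-(2 + (x + b) / b)) / 3) := by positivity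
  calc c * ((x + b) ^ μ / μ.factorial * (Real.exp (-(2 + (x + b) / b)) / 3)) ^ (k+1)
      ≤ c * (∑ l ∈ win P, x ^ l / l.factorial * (b ^ (μ - l) / (μ - l).factorial)) ^ (k+1) := by
        gcongr
    _ = c * ∑ lam ∈ Fintype.piFinset (fun _ : Fin (k+1) => win P),
        ∏ i, (x ^ (lam i) / (lam i).factorial * (b ^ (μ - lam i) / (μ - lam i).factorial)) := by
        rw [← Finset.prod_univ_sum (fun _ : Fin (k+1) => win P)
          (fun _ l => x ^ l / (l.factorial : ℝ) * (b ^ (μ - l) / ((μ - l).factorial : ℝ))),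
          Finset.prod_const, card_univ, Fintype.card_fin]
    _ ≤ _ := by
        rw [Finset.mul_sum]
        apply Finset.sum_le_sum
        intro lam hlam
        rw [Fintype.mem_piFinset] at hlam
        have h2 := multi_term hP4 hlam
        unfold Tm
        set n := ∑ i, lam i with hn
        have e1 : ∏ i, (x ^ (lam i) / (lam i).factorial * (b ^ (μ - lam i) / (μ - lam i).factorial))
            = ((k:ℝ)+1) ^ n * (a ^ n * (∏ i, ((lam i).factorial : ℝ))⁻¹) *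
              ∏ i, (b ^ (μ - lam i) / (μ - lam i).factorial) := by
          rw [Finset.prod_mul_distrib, Finset.prod_div_distrib, Finset.prod_pow_eq_pow_sum, ← hn,
            hxd, mul_pow]
          ring
        rw [e1]
        have hprod0 : 0 ≤ ∏ i, (b ^ (μ - lam i) / ((μ - lam i).factorial : ℝ)) :=
          Finset.prod_nonneg fun i _ => by positivity
        have hfp : (0:ℝ) < ∏ i, ((lam i).factorial : ℝ) := Finset.prod_pos fun i _ => by positivity
        have hnf : (0:ℝ) < n.factorial := by positivity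
        calc c * (((k:ℝ)+1) ^ n * (a ^ n * (∏ i, ((lam i).factorial : ℝ))⁻¹) *
              ∏ i, (b ^ (μ - lam i) / (μ - lam i).factorial))
            = (c * ((k:ℝ)+1) ^ n) * ((a ^ n * (∏ i, ((lam i).factorial : ℝ))⁻¹) *
              ∏ i, (b ^ (μ - lam i) / (μ - lam i).factorial)) := by ring
          _ ≤ (n.factorial / ∏ i, ((lam i).factorial : ℝ)) *
              ((a ^ n * (∏ i, ((lam i).factorial : ℝ))⁻¹) *
              ∏ i, (b ^ (μ - lam i) / (μ - lam i).factorial)) := by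
              gcongr
          _ = _ := by field_simp

end Pool.Agent.MP6396c4
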