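import Mathlib
import Pool.Agent.Lib.MP_6396c4_an.TmSum
import Pool.Agent.Lib.MP_6396c4_an.CountLow
import Pool.Agent.Lib.MP_6396c4_an.LBfacts

open Finset

noncomputable section

namespace Pool.Agent.MP6396c4

theorem lb_abs (k : ℕ) (hk : 1 ≤ k) {c1 : ℝ} (hc1 : 0 < c1) :
    ∃ c s0 L0 : ℝ, ∃ S0 : ℕ, 0 < c ∧ 1 ≤ s0 ∧ 3 ≤ L0 ∧ 1 ≤ S0 ∧
    ∀ (N m : ℕ) (S : Finset ℕ), L0 ≤ Real.log (Real.log N) →
      c1 * Real.log (Real.log N) ≤ m → (m:ℝ) ≤ 2 * Real.log (Real.log N) →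
      (∀ s ∈ S, s0 ≤ s ∧ (s:ℝ) ≤ 4 / 5 * Real.log (Real.log N)) →
      (∀ s ∈ S, ∀ s' ∈ S, s < s' → s + S0 ≤ s') →
      ∑ s ∈ S, c * (N / Real.log N) ^ (k+1) * (Real.exp (-(k * s)) * ((√(s:ℝ))⁻¹ ^ k *
        ((Real.log (Real.log N) + k * s) ^ (m - (k+1)) / (m - (k+1)).factorial) ^ (k+1))) ≤
        #(sols (k+1) N m) := by
  have hk1 : (1:ℝ) ≤ k := by exact_mod_cast hk
  set K : ℝ := (k:ℝ) + 1 with hK
  have hK2 : 2 ≤ K := by linarith
  obtain ⟨c', C2, C3, s0', L0', S0, hc', hC2, hC3, hs0', hL0', hL0'', hS0, hcount⟩ :=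
    count_lower k hk (8 * K ^ 2) (by
      have : 1 ≤ K ^ 2 := one_le_pow₀ (by linarith)
      linarith)
  set C4 := K * C3 + C2 with hC4
  have hC40 : 0 < C4 := by positivity
  set c0 : ℝ := Real.exp (-(2 * K)) * (√2)⁻¹ ^ (k+1) * (√(4 * K))⁻¹ ^ k *
    (Real.exp (-(4 * C4)) * (Real.exp (-(2 + 10 * K)) / 3)) ^ (k+1) with hc0
  have hc0p : 0 < c0 := by positivity
  set L0 : ℝ := L0' + 10 * C2 + 2 * C4 + 2 * K / c1 + 40 * K / c1 + 6400 * K ^ 3 / c1 ^ 2 with hL0d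
  refine ⟨c' * c0, s0' + 2 * C3 + 16 / c1, L0, S0, by positivity, ?_, ?_, hS0, ?_⟩
  · have : 0 < 16 / c1 := by positivity
    linarith
  · have h1 : 0 < 2 * K / c1 := by positivity
    have h2 : 0 < 40 * K / c1 := by positivity
    have h3 : 0 < 6400 * K ^ 3 / c1 ^ 2 := by positivity
    rw [hL0d]; linarith
  intro N m S hL hmlo hmhi hS hsep
  set L := Real.log (Real.log N) with hLd
  have h2K : 0 < 2 * K / c1 := by positivity
  have h40K : 0 < 40 * K / c1 := by positivity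
  have h6400 : 0 < 6400 * K ^ 3 / c1 ^ 2 := by positivity
  have h16 : 0 < 16 / c1 := by positivity
  have hLL0 : L0' ≤ L := by rw [hL0d] at hL; linarith
  have hL3 : 3 ≤ L := by linarith
  have hLpos : 0 < L := by linarith
  have hLC2 : 10 * C2 ≤ L := by rw [hL0d] at hL; linarith
  have hLC4 : 2 * C4 ≤ L := by rw [hL0d] at hL; linarith
  have hLK : 2 * K ≤ c1 * L := by
    have : 2 * K / c1 ≤ L := by rw [hL0d] at hL; linarith
    rw [div_le_iff₀ hc1] at this; linarith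
  have hL40 : 40 * K ≤ c1 * L := by
    have : 40 * K / c1 ≤ L := by rw [hL0d] at hL; linarith
    rw [div_le_iff₀ hc1] at this; linarith
  have hL64 : 6400 * K ^ 3 ≤ c1 ^ 2 * L := by
    have : 6400 * K ^ 3 / c1 ^ 2 ≤ L := by rw [hL0d] at hL; linarith
    rw [div_le_iff₀ (by positivity)] at this; linarith
  have hmK : k + 1 ≤ m := by
    have : ((k + 1 : ℕ) : ℝ) ≤ m := by push_cast; linarith
    exact_mod_cast this
  set μ := m - (k+1) with hμ
  have hμm : (μ:ℝ) = m - K := by rw [hμ, Nat.cast_sub hmK, hK]; push_cast; ring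
  have hμlo : c1 * L / 2 ≤ μ := by rw [hμm]; linarith
  have hμhi : (μ:ℝ) ≤ 2 * L := by rw [hμm]; linarith
  have hμ0 : (0:ℝ) < μ := by
    have : 0 < c1 * L / 2 := by positivity
    linarith
  -- the window for each s
  set Y : ℕ → ℝ := fun s => K * ((s:ℝ) - C3) + (L - s - C2) with hY
  set P : ℕ → ℝ := fun s => μ * (K * ((s:ℝ) - C3)) / Y s with hP
  set Lm : ℕ → Finset (Fin (k+1) → ℕ) := fun s => Fintype.piFinset (fun _ => win (P s)) with hLm
  -- facts for s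
  have hfacts : ∀ s ∈ S, (s:ℝ) / 2 ≤ s - C3 ∧ L / 10 ≤ L - s - C2 ∧ L / 2 ≤ Y s ∧ Y s ≤ K * L ∧
      4 ≤ P s ∧ P s + √(P s) + 1 ≤ μ ∧ P s ≤ 4 * K * ((s:ℝ) - C3) ∧
      μ - P s ≤ 4 * (L - s - C2) ∧ 1 ≤ (s:ℝ) := by
    intro s hs
    exact scale_facts hk1 hK hc1 hC2 hC3 hC4 (by linarith) hL3 hLC2 hLC4 hL40 hL64 hμlo hμhi
      (hS s hs).1 (hS s hs).2 rfl rfl
  have h := hcount N m S Lm hLL0 hmK (fun s hs => ⟨by
      have := (hS s hs).1
      linarith, (hS s hs).2⟩) hsep (by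
    intro s hs lam hlam
    obtain ⟨ha, hb, hY1, hY2, hP4, hPμ, hPhi, hμP1, hs1'⟩ := hfacts s hs
    simp only [hLm] at hlam
    rw [Fintype.mem_piFinset] at hlam
    have hl : ∀ i, P s ≤ lam i ∧ (lam i : ℝ) ≤ P s + √(P s) :=
      fun i => (mem_win (by linarith)).mp (hlam i)
    have hlμ : ∀ i, lam i ≤ μ := by
      intro i
      have : (lam i : ℝ) ≤ μ := by linarith [(hl i).2]
      exact_mod_cast this
    refine ⟨fun i => by have := hlμ i; omega, ?_, ?_⟩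
    · push_cast
      have hsq : √(P s) ≤ P s := Real.sqrt_le_self_iff.mpr (Or.inr (by linarith))
      calc ∑ i, (lam i : ℝ) ≤ ∑ _i : Fin (k+1), 2 * P s :=
            Finset.sum_le_sum fun i _ => by linarith [(hl i).2]
        _ = K * (2 * P s) := by simp [hK]
        _ ≤ K * (2 * (4 * K * ((s:ℝ) - C3))) := by gcongr
        _ = _ := by ring
    · intro i
      rw [Nat.cast_sub (hlμ i)]
      have h1 := (hl i).1
      have h2 : 0 < L - s - C2 := by linarith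
      have h3 : 4 ≤ 8 * K ^ 2 := by
        have : 1 ≤ K ^ 2 := one_le_pow₀ (by linarith)
        linarith
      calc (μ:ℝ) - lam i ≤ 4 * (L - s - C2) := by linarith
        _ ≤ _ := by gcongr)
  refine le_trans ?_ h
  apply Finset.sum_le_sum
  intro s hs
  obtain ⟨ha, hb, hY1, hY2, hP4, hPμ, hPhi, hμP1, hs1'⟩ := hfacts s hs
  have ha0 : 0 < (s:ℝ) - C3 := by linarith
  have hb0 : 0 < L - s - C2 := by linarith
  have hY0 : 0 < Y s := by linarith
  have hYe : Y s = L + k * s - C4 := by simp only [hY]; rw [hC4, hK]; ring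
  have hTm := Tm_sum (k := k) (μ := μ) (a := (s:ℝ) - C3) (b := L - s - C2) (P := P s) ha0 hb0
    (by simp only [hP, hY]; rfl) hP4 hPμ
  rw [← Finset.mul_sum]
  have hN0 : 0 ≤ (N:ℝ) / Real.log N := by
    have := Real.log_natCast_nonneg N
    positivity
  have hY' : ((k:ℝ)+1) * ((s:ℝ) - C3) + (L - s - C2) = Y s := by simp only [hY]; rfl
  rw [hY'] at hTm
  have hlow := scale_low hK2 hC3 hC40 hL3 hLC4 hμhi hb hY1 hY2 hYe hP4 hPhi hs1' hc0 hTm
  calc c' * c0 * (N / Real.log N) ^ (k+1) * (Real.exp (-(k * s)) * ((√(s:ℝ))⁻¹ ^ k *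
        ((L + k * s) ^ μ / μ.factorial) ^ (k+1)))
      = (c' * (N / Real.log N) ^ (k+1) * Real.exp (-(k * s))) * (c0 * ((√(s:ℝ))⁻¹ ^ k *
        ((L + k * s) ^ μ / μ.factorial) ^ (k+1))) := by ring
    _ ≤ _ := by gcongr

end Pool.Agent.MP6396c4
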