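import Mathlib
import Pool.Agent.Lib.MP_6396c4_an.LBfacts
import Pool.Agent.Lib.MP_6396c4_an.Stir
import Pool.Agent.Lib.MP_6396c4_an.Sols

open Finset ArithmeticFunction

noncomputable section

namespace Pool.Agent.MP6396c4

lemma sols_scale {K N N' m m1 : ℕ} (hm : m1 ≤ m) (hN : 2 ^ (m - m1) * N' ≤ N) :
    #(sols K N' m1) ≤ #(sols K N m) := by
  classical
  set d := m - m1 with hd
  apply Finset.card_le_card_of_injOn
    (fun x => ((fun i => 2 ^ d * x.1 i, fun i => 2 ^ d * x.2 i) : (Fin K → ℕ) × (Fin K → ℕ)))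
  · intro x hx
    rw [mem_coe, mem_sols] at hx
    obtain ⟨h1, h2, h3⟩ := hx
    rw [mem_coe, mem_sols]
    have hstep : ∀ n : ℕ, n ∈ om m1 N' → 2 ^ d * n ∈ om m N := by
      intro n hn
      rw [mem_om] at hn ⊢
      obtain ⟨⟨hn1, hn2⟩, hn3⟩ := hn
      refine ⟨⟨?_, ?_⟩, ?_⟩
      · exact Nat.one_le_iff_ne_zero.mpr (Nat.mul_ne_zero (by positivity) (by omega))
      · exact le_trans (Nat.mul_le_mul_left _ hn2) hN
      · rw [cardFactors_mul (by positivity) (by omega), cardFactors_apply_prime_pow Nat.prime_two,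
          hn3]
        omega
    refine ⟨fun i => hstep _ (h1 i), fun i => hstep _ (h2 i), ?_⟩
    simp only
    rw [Finset.prod_mul_distrib, Finset.prod_mul_distrib, h3]
  · rintro ⟨x, y⟩ _ ⟨x', y'⟩ _ h
    simp only [Prod.mk.injEq] at h
    have hp : 0 < 2 ^ d := by positivity
    have e1 : x = x' := by
      funext i
      exact Nat.eq_of_mul_eq_mul_left hp (congrFun h.1 i)
    have e2 : y = y' := by
      funext i
      exact Nat.eq_of_mul_eq_mul_left hp (congrFun h.2 i)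
    rw [e1, e2]

/-- the numerical heart of the far region -/
lemma far_num {k μ : ℕ} (hk : 2 ≤ k) {Lp Z : ℝ} (hLp : 60 * k ≤ Lp) (hμ1 : 1 ≤ μ)
    (hμ : (μ:ℝ) ≤ 19/10 * Lp) (hZ : (1 + 4/5 * k) * Lp - k ≤ Z) :
    Real.exp (2 * μ) / (Real.exp 1 * √μ) ≤ 2 ^ μ * (Z ^ μ / μ.factorial) := by
  have hk2 : (2:ℝ) ≤ k := by exact_mod_cast hk
  have hμ0 : (0:ℝ) < μ := by exact_mod_cast hμ1
  have hLp0 : 0 < Lp := by linarith
  have hE := Real.exp_one_lt_d9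
  have hE0 := Real.exp_pos (1:ℝ)
  have hmain : Real.exp 1 * μ ≤ 2 * Z := by
    have h1 : Real.exp 1 * μ ≤ 2.7182818286 * (19/10 * Lp) := by gcongr
    have h2 : k * 120 ≤ k * Lp := by
      have : (120:ℝ) ≤ Lp := by linarith
      gcongr
    have h3 : 2 * Lp ≤ k * Lp := by gcongr
    linarith
  have hZ0 : 0 < Z := by
    have : 0 < Real.exp 1 * μ := by positivity
    linarith
  have h1 := stirling_up hμ1
  have h2 : Z ^ μ / (Real.exp 1 * √μ * ((μ:ℝ) / Real.exp 1) ^ μ) ≤ Z ^ μ / μ.factorial := by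
    gcongr
  refine le_trans ?_ (mul_le_mul_of_nonneg_left h2 (by positivity))
  have h3 : Real.exp (2 * μ) * ((μ:ℝ) / Real.exp 1) ^ μ ≤ 2 ^ μ * Z ^ μ := by
    have e1 : Real.exp (2 * μ) = (Real.exp 1 * Real.exp 1) ^ μ := by
      rw [← Real.exp_add, ← Real.exp_nat_mul]; congr 1; ring
    rw [e1, ← mul_pow, ← mul_pow]
    apply pow_le_pow_left₀ (by positivity)
    calc Real.exp 1 * Real.exp 1 * (μ / Real.exp 1) = Real.exp 1 * μ := by field_simp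
      _ ≤ _ := hmain
  have hsq : 0 < √(μ:ℝ) := Real.sqrt_pos.mpr hμ0
  calc Real.exp (2 * μ) / (Real.exp 1 * √μ)
      = (Real.exp (2 * μ) * ((μ:ℝ) / Real.exp 1) ^ μ) /
        (Real.exp 1 * √μ * ((μ:ℝ) / Real.exp 1) ^ μ) := by field_simp
    _ ≤ (2 ^ μ * Z ^ μ) / (Real.exp 1 * √μ * ((μ:ℝ) / Real.exp 1) ^ μ) := by gcongr
    _ = _ := by ring

/-- one factor in the far region -/
lemma far_br {μ m1 N' : ℕ} {W C' M T' Lp Z : ℝ} (hC' : 0 < C') (hM0 : 0 < M) (hT'0 : 0 < T')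
    (hT'e : T' = Real.exp Lp) (hZ0 : 0 < Z) (hμm : μ ≤ m1) (hWle : W ≤ 9 * C' * M * T' ^ 2)
    (hN'lo : M * 2 ^ m1 / 2 ≤ N') (hThi : Real.log N' ≤ 2 * T') (hT0'' : 0 < Real.log (N':ℝ))
    (hnum : Real.exp (2 * μ) / (Real.exp 1 * √μ) ≤ 2 ^ μ * (Z ^ μ / μ.factorial)) :
    W * (1 / (36 * C')) * Real.exp (-(3 * Lp)) * (Real.exp (2 * μ) / (Real.exp 1 * √μ)) ≤
      N' / Real.log N' * (Z ^ μ / μ.factorial) := by
  have e1 : Real.exp (-(3 * Lp)) = (T' ^ 3)⁻¹ := by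
    rw [hT'e, ← Real.exp_nat_mul, ← Real.exp_neg]; congr 1
  have h3 : M * 2 ^ m1 / (4 * T') ≤ N' / Real.log N' := by
    calc M * 2 ^ m1 / (4 * T') = (M * 2 ^ m1 / 2) / (2 * T') := by field_simp; ring
      _ ≤ N' / (2 * T') := by gcongr
      _ ≤ _ := by gcongr
  have h4 : (2:ℝ) ^ μ ≤ 2 ^ m1 := pow_le_pow_right₀ (by norm_num) hμm
  have h5 : W * (1 / (36 * C')) * (T' ^ 3)⁻¹ ≤ M / (4 * T') := by
    calc W * (1 / (36 * C')) * (T' ^ 3)⁻¹ ≤ (9 * C' * M * T' ^ 2) * (1 / (36 * C')) * (T' ^ 3)⁻¹ := by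
          gcongr
      _ = _ := by field_simp; norm_num
  rw [e1]
  calc W * (1 / (36 * C')) * (T' ^ 3)⁻¹ * (Real.exp (2 * μ) / (Real.exp 1 * √μ))
      ≤ M / (4 * T') * (2 ^ μ * (Z ^ μ / μ.factorial)) := by gcongr
    _ ≤ M / (4 * T') * (2 ^ m1 * (Z ^ μ / μ.factorial)) := by gcongr
    _ = M * 2 ^ m1 / (4 * T') * (Z ^ μ / μ.factorial) := by ring
    _ ≤ _ := by gcongr

/-- the final chain in the far region -/
lemma far_chain {k μ m1 s1 : ℕ} {c c'' C' W Lp Z R : ℝ} (hc : 0 < c) (hC' : 0 < C')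
    (hc'' : c'' = c * (1 / (36 * C')) ^ (k+1) * Real.exp (-(2 * ((k:ℝ)+1) * (k+2))) *
      (Real.exp 1)⁻¹ ^ (k+1)) (hW0 : 0 ≤ W) (hLp0 : 0 < Lp) (hμr : (μ:ℝ) = m1 - (k+1))
    (hμ1r : (1:ℝ) ≤ μ) (hm1hi : (m1:ℝ) ≤ 19/10 * Lp) (hm1lo : 19/10 * Lp - 1 < m1)
    (hs1hi : (s1:ℝ) ≤ 4/5 * Lp) (hs1pos : (0:ℝ) < s1) (h2Lp1 : 1 ≤ 2 * Lp) (_hZ0 : 0 < Z)
    (hbr : W * (1 / (36 * C')) * Real.exp (-(3 * Lp)) * (Real.exp (2 * μ) / (Real.exp 1 * √μ)) ≤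
      R * (Z ^ μ / μ.factorial)) :
    c'' * Real.exp (4/5 * Lp) / (2 * Lp) ^ (k+1) * W ^ (k+1) ≤
      c * R ^ (k+1) * (Real.exp (-(k * s1)) * ((√(s1:ℝ))⁻¹ ^ k *
        (Z ^ μ / μ.factorial) ^ (k+1))) := by
  have hsq2 : 0 < √(2 * Lp) := Real.sqrt_pos.mpr (by linarith)
  have hsqμ : √(μ:ℝ) ≤ √(2 * Lp) := by
    apply Real.sqrt_le_sqrt; rw [hμr]; linarith
  have hsqμ0 : 0 < √(μ:ℝ) := Real.sqrt_pos.mpr (by linarith)
  have hsqs : (√(2 * Lp))⁻¹ ^ (k+1) ≤ (√(s1:ℝ))⁻¹ ^ k := by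
    have h3 : (√(2 * Lp))⁻¹ ≤ 1 := by
      apply inv_le_one_of_one_le₀
      rw [Real.one_le_sqrt]; exact h2Lp1
    calc (√(2 * Lp))⁻¹ ^ (k+1) ≤ (√(2 * Lp))⁻¹ ^ k :=
          pow_le_pow_of_le_one (by positivity) h3 (by omega)
      _ ≤ _ := inv_sqrt_pow_le hs1pos (by linarith) k
  have h2Lp : 0 < 2 * Lp := by linarith
  have hkey : Real.exp (4/5 * Lp) * Real.exp (-(2 * ((k:ℝ)+1) * (k+2))) ≤
      Real.exp (-(3 * Lp)) ^ (k+1) * Real.exp (2 * μ) ^ (k+1) * Real.exp (-(k * s1)) := by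
    rw [← Real.exp_nat_mul, ← Real.exp_nat_mul, ← Real.exp_add, ← Real.exp_add, ← Real.exp_add]
    apply Real.exp_le_exp.mpr
    push_cast
    rw [hμr]
    have h3 : (k:ℝ) * s1 ≤ k * (4/5 * Lp) := by gcongr
    have h4 : ((k:ℝ)+1) * (2 * (19/10 * Lp - 1 - (k+1))) ≤ ((k:ℝ)+1) * (2 * (m1 - (k+1))) := by
      gcongr
    have h5 : ((k:ℝ)+1) * (2 * (19/10 * Lp - 1 - (k+1))) =
      19/5 * ((k:ℝ)+1) * Lp - 2 * ((k:ℝ)+1) * (k+2) := by ring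
    have h6 : ((k:ℝ)+1) * -(3 * Lp) = -3 * ((k:ℝ)+1) * Lp := by ring
    have h7 : (k:ℝ) * (4/5 * Lp) = 4/5 * ((k:ℝ)+1) * Lp - 4/5 * Lp := by ring
    linarith
  have e2 : ((2 * Lp) ^ (k+1))⁻¹ = (√(2 * Lp))⁻¹ ^ (k+1) * (√(2 * Lp))⁻¹ ^ (k+1) := by
    rw [← mul_pow, ← mul_inv, Real.mul_self_sqrt h2Lp.le, inv_pow]
  have hbase : 0 ≤ W * (1 / (36 * C')) * Real.exp (-(3 * Lp)) *
      (Real.exp (2 * μ) / (Real.exp 1 * √μ)) := by positivity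
  calc c'' * Real.exp (4/5 * Lp) / (2 * Lp) ^ (k+1) * W ^ (k+1)
      = c * (1 / (36 * C')) ^ (k+1) * (Real.exp 1)⁻¹ ^ (k+1) *
        (Real.exp (4/5 * Lp) * Real.exp (-(2 * ((k:ℝ)+1) * (k+2)))) *
        ((√(2 * Lp))⁻¹ ^ (k+1) * (√(2 * Lp))⁻¹ ^ (k+1)) * W ^ (k+1) := by
        rw [hc'', ← e2]; ring
    _ ≤ c * (1 / (36 * C')) ^ (k+1) * (Real.exp 1)⁻¹ ^ (k+1) *
        (Real.exp (-(3 * Lp)) ^ (k+1) * Real.exp (2 * μ) ^ (k+1) * Real.exp (-(k * s1))) *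
        ((√(μ:ℝ))⁻¹ ^ (k+1) * (√(s1:ℝ))⁻¹ ^ k) * W ^ (k+1) := by
        gcongr
    _ = c * (W * (1 / (36 * C')) * Real.exp (-(3 * Lp)) *
        (Real.exp (2 * μ) / (Real.exp 1 * √μ))) ^ (k+1) * (Real.exp (-(k * s1)) *
        (√(s1:ℝ))⁻¹ ^ k) := by
        rw [div_eq_mul_inv (Real.exp (2 * (μ:ℝ))), mul_inv, mul_pow, mul_pow, mul_pow, mul_pow,
          mul_pow]
        ring
    _ ≤ c * (R * (Z ^ μ / μ.factorial)) ^ (k+1) * (Real.exp (-(k * s1)) *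
        (√(s1:ℝ))⁻¹ ^ k) := by
        gcongr
    _ = _ := by rw [mul_pow]; ring

end Pool.Agent.MP6396c4
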