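import Mathlib
import Pool.Agent.Lib.MP_6396c4_an.FarUp
import Pool.Agent.Lib.MP_6396c4_an.LBfarA
import Pool.Agent.Lib.MP_6396c4_an.LBabs

open Finset ArithmeticFunction

noncomputable section

namespace Pool.Agent.MP6396c4

theorem region_far (k : ℕ) (hk : 2 ≤ k) (B : ℝ) : ∃ C : ℝ, 1 ≤ C ∧ ∀ N m : ℕ,
    C * 2 ^ m ≤ (N:ℝ) → 19/10 * Real.log (Real.log N) < m →
    B * (#(om m N) : ℝ) ^ (k+1) < #(sols (k+1) N m) := by
  obtain ⟨c, s0, L0, S0, hc, hs0, hL0, hS0, h⟩ := lb_abs k (by omega) (c1 := 1) one_pos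
  obtain ⟨C', hC', hfar⟩ := far_upper
  have hk2 : (2:ℝ) ≤ k := by exact_mod_cast hk
  set c'' : ℝ := c * (1 / (36 * C')) ^ (k+1) * Real.exp (-(2 * ((k:ℝ)+1) * (k+2))) *
    (Real.exp 1)⁻¹ ^ (k+1) with hc''
  have hc''0 : 0 < c'' := by positivity
  obtain ⟨x0, hx0⟩ : ∃ x0 : ℝ, ∀ x : ℝ, x0 ≤ x →
      (|B| + 1) * (2 * x) ^ (k+1) ≤ c'' * Real.exp (4/5 * x) := by
    have h1 := (isLittleO_pow_exp_pos_mul_atTop (k+1) (b := 4/5) (by norm_num)).bound
      (c := c'' / ((|B| + 1) * 2 ^ (k+1))) (by positivity)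
    obtain ⟨x0, hx0⟩ := Filter.eventually_atTop.mp (h1.and (Filter.eventually_ge_atTop 0))
    refine ⟨x0, fun x hx => ?_⟩
    obtain ⟨h2, h3⟩ := hx0 x hx
    rw [Real.norm_of_nonneg (by positivity), Real.norm_of_nonneg (Real.exp_pos _).le,
      div_mul_eq_mul_div, le_div_iff₀ (by positivity)] at h2
    calc (|B| + 1) * (2 * x) ^ (k+1) = x ^ (k+1) * ((|B| + 1) * 2 ^ (k+1)) := by
          rw [mul_pow]; ring
      _ ≤ _ := h2
  set Λ0 : ℝ := max (max x0 (60 * k)) (max (5/4 * (s0 + 1)) (max L0 (k + 5))) with hΛ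
  refine ⟨Real.exp (Real.exp Λ0), Real.one_le_exp (Real.exp_pos _).le, ?_⟩
  intro N m hN hm
  have h2m : (0:ℝ) < 2 ^ m := by positivity
  obtain ⟨M, hMdef⟩ : ∃ M : ℝ, M = (N:ℝ) / 2 ^ m := ⟨_, rfl⟩
  have hMC : Real.exp (Real.exp Λ0) ≤ M := by rw [hMdef, le_div_iff₀ h2m]; exact hN
  have hM0 : 0 < M := lt_of_lt_of_le (Real.exp_pos _) hMC
  have hN0 : (0:ℝ) < N := by
    have : (N:ℝ) = M * 2 ^ m := by rw [hMdef]; field_simp
    rw [this]; positivity
  obtain ⟨T', hT'⟩ : ∃ T' : ℝ, T' = Real.log M := ⟨_, rfl⟩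
  have hT'lo : Real.exp Λ0 ≤ T' := by rw [hT', Real.le_log_iff_exp_le hM0]; exact hMC
  have hT'0 : 0 < T' := lt_of_lt_of_le (Real.exp_pos _) hT'lo
  obtain ⟨Lp, hLp⟩ : ∃ Lp : ℝ, Lp = Real.log T' := ⟨_, rfl⟩
  have hLplo : Λ0 ≤ Lp := by rw [hLp, Real.le_log_iff_exp_le hT'0]; exact hT'lo
  have hT'e : T' = Real.exp Lp := by rw [hLp, Real.exp_log hT'0]
  have hLpx0 : x0 ≤ Lp := le_trans (le_trans (le_max_left _ _) (le_max_left _ _)) hLplo
  have hLp60 : 60 * k ≤ Lp := le_trans (le_trans (le_max_right _ _) (le_max_left _ _)) hLplo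
  have hLps0 : 5/4 * (s0 + 1) ≤ Lp :=
    le_trans (le_trans (le_max_left _ _) (le_max_right _ _)) hLplo
  have hLpL0 : L0 ≤ Lp :=
    le_trans (le_trans (le_trans (le_max_left _ _) (le_max_right _ _)) (le_max_right _ _)) hLplo
  have hLpk : (k:ℝ) + 5 ≤ Lp :=
    le_trans (le_trans (le_trans (le_max_right _ _) (le_max_right _ _)) (le_max_right _ _)) hLplo
  have hLp0 : 0 < Lp := by linarith
  have hT'2 : 2 * Lp ≤ T' := by
    rw [hT'e]
    have h3 := Real.quadratic_le_exp_of_nonneg hLp0.le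
    have h4 : 2 * Lp ≤ Lp * Lp := by
      have : 2 ≤ Lp := by linarith
      gcongr
    have h5 : Lp ^ 2 / 2 = Lp * Lp / 2 := by ring
    linarith
  -- comparison with N
  have hMN : M ≤ N := by
    rw [hMdef, div_le_iff₀ h2m]
    have : (1:ℝ) ≤ 2 ^ m := one_le_pow₀ (by norm_num)
    exact le_mul_of_one_le_right hN0.le this
  have hTT' : T' ≤ Real.log N := by rw [hT']; exact Real.log_le_log hM0 hMN
  have hLL' : Lp ≤ Real.log (Real.log N) := by rw [hLp]; exact Real.log_le_log hT'0 hTT'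
  obtain ⟨m1, hm1⟩ : ∃ m1 : ℕ, m1 = ⌊19/10 * Lp⌋₊ := ⟨_, rfl⟩
  have hm1hi : (m1:ℝ) ≤ 19/10 * Lp := by rw [hm1]; exact Nat.floor_le (by positivity)
  have hm1lo : 19/10 * Lp - 1 < m1 := by
    rw [hm1]; have := Nat.lt_floor_add_one (19/10 * Lp); linarith
  have hm1m : m1 ≤ m := by
    have : (m1:ℝ) ≤ m := by linarith
    exact_mod_cast this
  have hm11 : (1:ℝ) ≤ m1 := by linarith
  have hm11' : 1 ≤ m1 := by exact_mod_cast hm11
  obtain ⟨N', hN'⟩ : ∃ N' : ℕ, N' = N / 2 ^ (m - m1) := ⟨_, rfl⟩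
  have hNd : 2 ^ (m - m1) * N' ≤ N := by rw [hN']; exact Nat.mul_div_le _ _
  have hNd2 : (N:ℝ) / 2 ^ (m - m1) = M * 2 ^ m1 := by
    have : (2:ℝ) ^ m = 2 ^ (m - m1) * 2 ^ m1 := by rw [← pow_add]; congr 1; omega
    rw [hMdef, this]; field_simp
  have hN'hi : (N':ℝ) ≤ M * 2 ^ m1 := by
    rw [← hNd2, le_div_iff₀ (by positivity)]
    have : ((N' * 2 ^ (m - m1) : ℕ) : ℝ) ≤ N := by
      exact_mod_cast (by rw [mul_comm]; exact hNd)
    push_cast at this; exact this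
  have hN'lo' : M * 2 ^ m1 < N' + 1 := by
    rw [← hNd2, div_lt_iff₀ (by positivity)]
    have h1 : N < (N' + 1) * 2 ^ (m - m1) := by
      rw [hN']
      exact (Nat.div_lt_iff_lt_mul (by positivity)).mp (Nat.lt_succ_self _)
    exact_mod_cast h1
  have h2m1 : (2:ℝ) ≤ 2 ^ m1 := by
    calc (2:ℝ) = 2 ^ 1 := by norm_num
      _ ≤ _ := pow_le_pow_right₀ (by norm_num) hm11'
  have hM2 : 2 ≤ M := by
    refine le_trans ?_ hMC
    have h1 := Real.add_one_le_exp Λ0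
    have h2 := Real.add_one_le_exp (Real.exp Λ0)
    have h3 : (5:ℝ) ≤ Λ0 := by
      have : (k:ℝ) + 5 ≤ Λ0 := by
        rw [hΛ]
        exact le_trans (le_trans (le_max_right _ _) (le_max_right _ _)) (le_max_right _ _)
      linarith
    linarith
  have hN'lo : M * 2 ^ m1 / 2 ≤ N' := by
    have h1 : 2 * 2 ≤ M * 2 ^ m1 := by gcongr
    linarith
  have hMN' : M ≤ N' := by
    refine le_trans ?_ hN'lo
    have h1 : M * 2 ≤ M * 2 ^ m1 := by gcongr
    linarith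
  have hN'0 : (0:ℝ) < N' := by linarith
  have hTlo : T' ≤ Real.log N' := by rw [hT']; exact Real.log_le_log hM0 hMN'
  have hThi : Real.log N' ≤ 2 * T' := by
    have h1 : Real.log N' ≤ Real.log (M * 2 ^ m1) := Real.log_le_log hN'0 hN'hi
    rw [Real.log_mul hM0.ne' (by positivity), Real.log_pow, ← hT'] at h1
    have h2 := log_two_bounds
    have h3 : (m1:ℝ) * Real.log 2 ≤ (19/10 * Lp) * 0.7 := by
      have : 0 ≤ Real.log (2:ℝ) := by linarith
      gcongr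
      linarith
    linarith
  have hT0'' : 0 < Real.log (N':ℝ) := by linarith
  obtain ⟨L2, hL2⟩ : ∃ L2 : ℝ, L2 = Real.log (Real.log N') := ⟨_, rfl⟩
  have hL2lo : Lp ≤ L2 := by rw [hL2, hLp]; exact Real.log_le_log hT'0 hTlo
  have hL2hi : L2 ≤ Lp + 1 := by
    have h1 : L2 ≤ Real.log (2 * T') := by rw [hL2]; exact Real.log_le_log hT0'' hThi
    rw [Real.log_mul (by norm_num) hT'0.ne', ← hLp] at h1
    have h2 := log_two_bounds
    linarith
  obtain ⟨s1, hs1⟩ : ∃ s1 : ℕ, s1 = ⌊4/5 * Lp⌋₊ := ⟨_, rfl⟩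
  have hs1hi : (s1:ℝ) ≤ 4/5 * Lp := by rw [hs1]; exact Nat.floor_le (by positivity)
  have hs1lo : 4/5 * Lp - 1 < s1 := by
    rw [hs1]; have := Nat.lt_floor_add_one (4/5 * Lp); linarith
  have hs1pos : (0:ℝ) < s1 := by linarith
  have h1 := h N' m1 {s1} (by rw [← hL2]; linarith) (by rw [← hL2]; linarith)
    (by rw [← hL2]; linarith) (by
      intro s hs
      rw [mem_singleton] at hs
      rw [hs, ← hL2]
      constructor <;> linarith) (by
      intro s hs s' hs' hss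
      rw [mem_singleton] at hs hs'
      omega)
  rw [Finset.sum_singleton, ← hL2] at h1
  have h2 : (#(sols (k+1) N' m1) : ℝ) ≤ #(sols (k+1) N m) := by
    exact_mod_cast sols_scale hm1m hNd
  refine lt_of_lt_of_le ?_ (h1.trans h2)
  have hkm1 : k + 1 ≤ m1 := by
    have : ((k + 1 : ℕ) : ℝ) ≤ m1 := by push_cast; linarith
    exact_mod_cast this
  obtain ⟨μ, hμ⟩ : ∃ μ : ℕ, μ = m1 - (k+1) := ⟨_, rfl⟩
  have hμr : (μ:ℝ) = m1 - (k+1) := by rw [hμ, Nat.cast_sub hkm1]; push_cast; ring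
  have hμ1r : (1:ℝ) ≤ μ := by rw [hμr]; linarith
  have hμ1 : 1 ≤ μ := by exact_mod_cast hμ1r
  rw [← hμ]
  have hnum := far_num (Z := L2 + k * s1) hk hLp60 hμ1 (by rw [hμr]; linarith) (by
    have : (k:ℝ) * (4/5 * Lp - 1) ≤ k * s1 := by gcongr
    linarith)
  -- upper bound for the number of elements
  obtain ⟨W, hW⟩ : ∃ W : ℝ, W = (#(om m N) : ℝ) := ⟨_, rfl⟩
  have hW0 : 0 ≤ W := by rw [hW]; exact Nat.cast_nonneg _
  have hWle : W ≤ 9 * C' * M * T' ^ 2 := by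
    have h3 := hfar N m (by rw [← hMdef]; linarith)
    rw [← hMdef, ← hW] at h3
    refine h3.trans ?_
    have h4 : 1 + Real.log (2 * M) ≤ 3 * T' := by
      rw [Real.log_mul (by norm_num) hM0.ne', ← hT']
      have h5 := log_two_bounds
      linarith
    have h5 : 0 ≤ 1 + Real.log (2 * M) := by
      have := Real.log_nonneg (show 1 ≤ 2 * M by linarith)
      linarith
    calc C' * M * (1 + Real.log (2 * M)) ^ 2 ≤ C' * M * (3 * T') ^ 2 := by gcongr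
      _ = _ := by ring
  have hWpos : 0 < W := by
    rw [hW]
    have : 2 ^ m ≤ N := by
      have h3 : (2:ℝ) ^ m ≤ N := by
        have h4 : (N:ℝ) = M * 2 ^ m := by rw [hMdef]; field_simp
        rw [h4]; exact le_mul_of_one_le_left (by positivity) (by linarith)
      exact_mod_cast h3
    exact Nat.cast_pos.mpr (om_pos this)
  have hZ00 : 0 < L2 + (k:ℝ) * s1 := by
    have h3 : 0 < L2 := by linarith
    positivity
  obtain ⟨Z, hZ⟩ : ∃ Z : ℝ, Z = L2 + (k:ℝ) * s1 := ⟨_, rfl⟩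
  rw [← hZ] at hnum hZ00 ⊢
  have hZ0 : 0 < Z := hZ00
  have hbr := far_br hC' hM0 hT'0 hT'e hZ0 (show μ ≤ m1 by omega) hWle hN'lo hThi hT0'' hnum
  have hgrow := hx0 Lp hLpx0
  have h2Lp : 0 < 2 * Lp := by linarith
  have hX := far_chain (R := N' / Real.log N') hc hC' hc'' hW0 hLp0 hμr hμ1r hm1hi hm1lo hs1hi
    hs1pos (by linarith) hZ0 hbr
  refine lt_of_lt_of_le ?_ hX
  rw [← hW]
  have hWk : 0 < W ^ (k+1) := by positivity
  have h8 : |B| + 1 ≤ c'' * Real.exp (4/5 * Lp) / (2 * Lp) ^ (k+1) := by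
    rw [le_div_iff₀ (by positivity)]; exact hgrow
  have h9 : B < |B| + 1 := by linarith [le_abs_self B]
  calc B * W ^ (k+1) < (|B| + 1) * W ^ (k+1) := by gcongr
    _ ≤ _ := by gcongr

end Pool.Agent.MP6396c4
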