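import Mathlib
import Pool.Agent.Lib.MP_6396c4_an.OmegaUp

open Finset ArithmeticFunction

noncomputable section

namespace Pool.Agent.MP6396c4

/-- upper bound for `π_m(N)`, `m ≤ 1.9 log log N` -/
lemma pi_upper {c1 : ℝ} (hc1 : 0 < c1) (k : ℕ) : ∃ C L0 : ℝ, 0 < C ∧ 3 ≤ L0 ∧ ∀ N m : ℕ,
    L0 ≤ Real.log (Real.log N) → c1 * Real.log (Real.log N) ≤ m →
    (m:ℝ) ≤ 19/10 * Real.log (Real.log N) → k + 1 ≤ m →
    (#(om m N) : ℝ) ≤ C * (N / Real.log N) *
      (Real.log (Real.log N) ^ (m - (k+1)) / (m - (k+1)).factorial) := by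
  obtain ⟨D, hD, hup⟩ := omega_upper
  obtain ⟨C1, hC1, hup⟩ := hup (19/10) (by norm_num) (by norm_num)
  obtain ⟨C3, hC3, hexp⟩ := pow_le_exp_mul 3 (b := 1/4) (by norm_num)
  set A : ℝ := C1 + C1 * (C3 * Real.exp (2 * D)) with hA
  have hA0 : 0 < A := by positivity
  refine ⟨A * Real.exp (2 * (D + 1)) * (2 / c1) ^ k, 3 + 2 * (k+1) / c1, by positivity, ?_, ?_⟩
  · have : 0 ≤ 2 * ((k:ℝ)+1) / c1 := by positivity
    linarith
  intro N m hL hmlo hmhi hkm
  have h2c : 0 ≤ 2 * ((k:ℝ)+1) / c1 := by positivity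
  obtain ⟨hT1, hN2, hLX, hXL⟩ := LL_facts (L0 := 3) le_rfl (by linarith : (3:ℝ) ≤ _)
  set T := Real.log N with hT
  set L := Real.log T with hLd
  have hT0 : 0 < T := by linarith
  have hL0 : 0 < L := by linarith
  have hN0 : (0:ℝ) < N := by have : 0 < N := by omega
                             exact_mod_cast this
  set X := Real.log (1 + T) + D with hX
  have hLX' : L ≤ X := by linarith
  have hX0 : 0 < X := by linarith
  obtain ⟨n, hn⟩ : ∃ n, m = n + 1 := ⟨m - 1, by omega⟩
  have hnm : (n:ℝ) + 1 = m := by rw [hn]; push_cast; ring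
  have h1 := hup n N X (by omega) le_rfl (by
    have : (19/10 : ℝ) * L ≤ 19/10 * X := by gcongr
    linarith)
  rw [← hn] at h1
  -- second term
  have hXn : Real.exp (-(2 * X)) ≤ X ^ n / n.factorial := by
    have hn2 : (n:ℝ) ≤ 2 * X := by linarith
    have h2 : (n.factorial : ℝ) ≤ (n:ℝ) ^ n := by exact_mod_cast Nat.factorial_le_pow n
    rw [le_div_iff₀ (by positivity)]
    have h3 : (n.factorial : ℝ) ≤ (2 * X) ^ n := h2.trans (by gcongr)
    have h4 : (2:ℝ) ^ n ≤ Real.exp (2 * X) := by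
      calc (2:ℝ) ^ n ≤ (Real.exp 1) ^ n := by
            have := Real.exp_one_gt_d9
            gcongr; linarith
        _ = Real.exp n := by rw [← Real.exp_nat_mul, mul_one]
        _ ≤ _ := Real.exp_le_exp.mpr hn2
    have h5 : 0 < X ^ n := by positivity
    calc Real.exp (-(2 * X)) * n.factorial ≤ Real.exp (-(2 * X)) * (2 * X) ^ n := by gcongr
      _ = Real.exp (-(2 * X)) * 2 ^ n * X ^ n := by rw [mul_pow]; ring
      _ ≤ Real.exp (-(2 * X)) * Real.exp (2 * X) * X ^ n := by gcongr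
      _ = X ^ n := by rw [← Real.exp_add]; simp
  have h34 : (N:ℝ) ^ (3/4 : ℝ) ≤ C3 * Real.exp (2 * D) * (N / (1 + T)) * Real.exp (-(2 * X)) := by
    have e1 : (N:ℝ) ^ (3/4 : ℝ) = N * Real.exp (-(1/4 * T)) := by
      rw [show (3/4 : ℝ) = 1 - 1/4 by norm_num, Real.rpow_sub hN0, Real.rpow_one,
        Real.rpow_def_of_pos hN0, Real.exp_neg, div_eq_mul_inv, ← hT, mul_comm T]
    have e2 : Real.exp (-(2 * X)) = Real.exp (-(2 * D)) * ((1 + T) ^ 2)⁻¹ := by
      have : -(2 * X) = -(2 * D) + -(2 * Real.log (1 + T)) := by rw [hX]; ring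
      rw [this, Real.exp_add, Real.exp_neg (2 * Real.log (1 + T))]
      congr 2
      rw [show (2:ℝ) * Real.log (1 + T) = ((2:ℕ):ℝ) * Real.log (1 + T) by norm_num,
        Real.exp_nat_mul, Real.exp_log (by linarith)]
    have e3 := hexp T hT0.le
    have e4 : Real.exp (-(1/4 * T)) ≤ C3 * ((1 + T) ^ 3)⁻¹ := by
      rw [Real.exp_neg, ← div_eq_mul_inv, inv_eq_one_div, div_le_div_iff₀ (Real.exp_pos _)
        (by positivity)]
      linarith
    rw [e1, e2]
    calc (N:ℝ) * Real.exp (-(1/4 * T)) ≤ N * (C3 * ((1 + T) ^ 3)⁻¹) := by gcongr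
      _ = C3 * (Real.exp (2 * D) * Real.exp (-(2 * D))) * (N / (1 + T)) * ((1 + T) ^ 2)⁻¹ := by
          rw [← Real.exp_add]
          simp only [add_neg_cancel, Real.exp_zero, mul_one]
          field_simp
      _ = _ := by ring
  have hP0 : 0 < X ^ n / n.factorial := by positivity
  have hM0 : 0 < (N:ℝ) / (1 + T) := by positivity
  have h6 : (#(om m N) : ℝ) ≤ A * (N / (1 + T)) * (X ^ n / n.factorial) := by
    have h7 : C1 * (N:ℝ) ^ (3/4 : ℝ) ≤ C1 * (C3 * Real.exp (2 * D) * (N / (1 + T)) *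
        (X ^ n / n.factorial)) := by
      apply mul_le_mul_of_nonneg_left _ hC1.le
      refine h34.trans ?_
      gcongr
    have h8 : A * (N / (1 + T)) * (X ^ n / n.factorial) = C1 * (N / (1 + T)) * (X ^ n / n.factorial)
        + C1 * (C3 * Real.exp (2 * D) * (N / (1 + T)) * (X ^ n / n.factorial)) := by
      rw [hA]; ring
    linarith
  -- replace X by L
  have h7 : X ^ n ≤ Real.exp (2 * (D + 1)) * L ^ n := by
    have h8 : X ≤ L * Real.exp ((D + 1) / L) := by
      have h9 := Real.add_one_le_exp ((D + 1) / L)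
      have h10 : L * ((D + 1) / L + 1) = L + 1 + D := by field_simp; ring
      calc X ≤ L + 1 + D := by linarith
        _ = L * ((D + 1) / L + 1) := h10.symm
        _ ≤ _ := by gcongr
    calc X ^ n ≤ (L * Real.exp ((D + 1) / L)) ^ n := by gcongr
      _ = Real.exp (n * ((D + 1) / L)) * L ^ n := by
          rw [mul_pow, ← Real.exp_nat_mul, mul_comm]
      _ ≤ _ := by
          have : n * ((D + 1) / L) ≤ 2 * (D + 1) := by
            rw [mul_div_assoc', div_le_iff₀ hL0]
            have : (n:ℝ) ≤ 2 * L := by linarith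
            have h11 : 0 ≤ D + 1 := by linarith
            calc n * (D + 1) ≤ (2 * L) * (D + 1) := by gcongr
              _ = _ := by ring
          gcongr
  -- shift the index
  set μ := m - (k+1) with hμ
  have hnμ : n = μ + k := by omega
  have h8 : L ^ n / n.factorial ≤ (2 / c1) ^ k * (L ^ μ / μ.factorial) := by
    have h9 : μ.factorial * (μ + 1) ^ k ≤ n.factorial := by
      rw [hnμ]; exact Nat.factorial_mul_pow_le_factorial
    have h9' : (μ.factorial : ℝ) * ((μ:ℝ) + 1) ^ k ≤ n.factorial := by exact_mod_cast h9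
    have hμlo : c1 * L / 2 ≤ (μ:ℝ) + 1 := by
      have e1 : (μ:ℝ) = m - (k+1) := by rw [hμ, Nat.cast_sub hkm]; push_cast; ring
      have e2 : 2 * ((k:ℝ)+1) ≤ c1 * L := by
        have : 2 * ((k:ℝ)+1) / c1 ≤ L := by linarith
        rw [div_le_iff₀ hc1] at this; linarith
      rw [e1]; linarith
    have hμ0 : 0 < (μ:ℝ) + 1 := by positivity
    calc L ^ n / n.factorial ≤ L ^ n / (μ.factorial * ((μ:ℝ) + 1) ^ k) := by gcongr
      _ = (L / (μ + 1)) ^ k * (L ^ μ / μ.factorial) := by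
          rw [hnμ, pow_add, div_pow]; field_simp
      _ ≤ _ := by
          have : L / ((μ:ℝ) + 1) ≤ 2 / c1 := by
            rw [div_le_div_iff₀ hμ0 hc1]; linarith
          gcongr
  calc (#(om m N) : ℝ) ≤ A * (N / (1 + T)) * (X ^ n / n.factorial) := h6
    _ ≤ A * (N / T) * ((Real.exp (2 * (D + 1)) * L ^ n) / n.factorial) := by
        have : (N:ℝ) / (1 + T) ≤ N / T := by gcongr; linarith
        gcongr
    _ = A * (N / T) * Real.exp (2 * (D + 1)) * (L ^ n / n.factorial) := by ring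
    _ ≤ A * (N / T) * Real.exp (2 * (D + 1)) * ((2 / c1) ^ k * (L ^ μ / μ.factorial)) := by
        gcongr
    _ = _ := by ring

end Pool.Agent.MP6396c4
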