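import Mathlib
import Pool.Agent.Lib.MP_6396c4_an.PiUp
import Pool.Agent.Lib.MP_6396c4_an.LBabs
import Pool.Agent.Lib.MP_6396c4_an.OmB

open Finset ArithmeticFunction

noncomputable section

namespace Pool.Agent.MP6396c4

theorem lb_ratio (k : ℕ) (hk : 1 ≤ k) {c1 : ℝ} (hc1 : 0 < c1) :
    ∃ c s0 L0 : ℝ, ∃ S0 : ℕ, 0 < c ∧ 1 ≤ s0 ∧ 3 ≤ L0 ∧ 1 ≤ S0 ∧
    ∀ (N m : ℕ) (S : Finset ℕ), L0 ≤ Real.log (Real.log N) →
      c1 * Real.log (Real.log N) ≤ m → (m:ℝ) ≤ 19/10 * Real.log (Real.log N) →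
      (∀ s ∈ S, s0 ≤ s ∧ (s:ℝ) ≤ 4 / 5 * Real.log (Real.log N)) →
      (∀ s ∈ S, ∀ s' ∈ S, s < s' → s + S0 ≤ s') →
      c * (#(om m N) : ℝ) ^ (k+1) * ∑ s ∈ S, Real.exp (-(k * s)) * ((√(s:ℝ))⁻¹ ^ k *
        (1 + k * s / Real.log (Real.log N)) ^ ((m - (k+1)) * (k+1))) ≤ #(sols (k+1) N m) := by
  obtain ⟨c, s0, L0, S0, hc, hs0, hL0, hS0, h⟩ := lb_abs k hk hc1
  obtain ⟨C, L1, hC, hL1, hπ⟩ := pi_upper hc1 k
  refine ⟨c / C ^ (k+1), s0, L0 + L1 + ((k:ℝ)+1) / c1, S0, by positivity, hs0, ?_, hS0, ?_⟩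
  · have : 0 ≤ ((k:ℝ)+1) / c1 := by positivity
    linarith
  intro N m S hL hmlo hmhi hS hsep
  set L := Real.log (Real.log N) with hLd
  have hkc : 0 ≤ ((k:ℝ)+1) / c1 := by positivity
  have hL3 : 3 ≤ L := by linarith
  have hLpos : 0 < L := by linarith
  have hkm : k + 1 ≤ m := by
    have h1 : ((k:ℝ)+1) / c1 ≤ L := by linarith
    rw [div_le_iff₀ hc1] at h1
    have : ((k + 1 : ℕ) : ℝ) ≤ m := by push_cast; linarith
    exact_mod_cast this
  have h1 := h N m S (by linarith) hmlo (by linarith) hS hsep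
  have h2 := hπ N m (by linarith) hmlo hmhi hkm
  refine le_trans ?_ h1
  set μ := m - (k+1) with hμ
  set M := (N:ℝ) / Real.log N with hM
  have hM0 : 0 ≤ M := by
    have := Real.log_natCast_nonneg N
    positivity
  have h3 : (#(om m N) : ℝ) ^ (k+1) ≤ C ^ (k+1) * (M * (L ^ μ / μ.factorial)) ^ (k+1) := by
    rw [← mul_pow]
    have : (#(om m N) : ℝ) ≤ C * (M * (L ^ μ / μ.factorial)) := by
      rw [← mul_assoc]; exact h2
    gcongr
  rw [Finset.mul_sum]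
  apply Finset.sum_le_sum
  intro s hs
  have e1 : ((L + k * s) ^ μ / μ.factorial) ^ (k+1) =
      (L ^ μ / μ.factorial) ^ (k+1) * (1 + k * s / L) ^ (μ * (k+1)) := by
    have e2 : L + k * s = L * (1 + k * s / L) := by field_simp
    rw [e2, mul_pow, div_pow, mul_pow, div_pow, pow_mul (1 + k * s / L)]
    ring
  rw [e1]
  have hpos : 0 ≤ Real.exp (-(k * s)) * ((√(s:ℝ))⁻¹ ^ k * (1 + k * s / L) ^ (μ * (k+1))) := by
    have : 0 ≤ 1 + k * s / L := by positivity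
    positivity
  calc c / C ^ (k+1) * (#(om m N) : ℝ) ^ (k+1) * (Real.exp (-(k * s)) * ((√(s:ℝ))⁻¹ ^ k *
        (1 + k * s / L) ^ (μ * (k+1))))
      ≤ c / C ^ (k+1) * (C ^ (k+1) * (M * (L ^ μ / μ.factorial)) ^ (k+1)) *
        (Real.exp (-(k * s)) * ((√(s:ℝ))⁻¹ ^ k * (1 + k * s / L) ^ (μ * (k+1)))) := by
        gcongr
    _ = c * M ^ (k+1) * (Real.exp (-(k * s)) * ((√(s:ℝ))⁻¹ ^ k *
        ((L ^ μ / μ.factorial) ^ (k+1) * (1 + k * s / L) ^ (μ * (k+1))))) := by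
        rw [mul_pow]
        field_simp

/-- lower bound of one term: `log (1+u) ≥ u - u²/2`. -/
lemma pow_ge_exp {u : ℝ} (hu : 0 ≤ u) (n : ℕ) : Real.exp (n * (u - u ^ 2 / 2)) ≤ (1 + u) ^ n := by
  have h1 : u - u ^ 2 / 2 ≤ Real.log (1 + u) := by
    rcases le_or_gt u 2 with h2 | h2
    · have h3 := Real.le_log_one_add_of_nonneg hu
      refine le_trans ?_ h3
      rw [le_div_iff₀ (by linarith)]
      have e : (u - u ^ 2 / 2) * (u + 2) = 2 * u - u ^ 3 / 2 := by ring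
      rw [e]
      have := pow_nonneg hu 3
      linarith
    · have h3 : 0 ≤ Real.log (1 + u) := Real.log_nonneg (by linarith)
      have h4 : 2 * u ≤ u * u := mul_le_mul_of_nonneg_right h2.le hu
      rw [pow_two]
      linarith
  calc Real.exp (n * (u - u ^ 2 / 2)) ≤ Real.exp (n * Real.log (1 + u)) := by
        apply Real.exp_le_exp.mpr; gcongr
    _ = _ := by rw [Real.exp_nat_mul, Real.exp_log (by linarith)]

lemma two_pow_le_N {N m : ℕ} (hL : 3 ≤ Real.log (Real.log N))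
    (hm : (m:ℝ) ≤ 2 * Real.log (Real.log N)) : 2 ^ m ≤ N := by
  obtain ⟨hT1, hN2, _, _⟩ := LL_facts le_rfl hL
  have hN0 : (0:ℝ) < N := by have : 0 < N := by omega
                             exact_mod_cast this
  have hT0 : 0 < Real.log (N:ℝ) := by linarith
  have h7 : Real.log N = Real.exp (Real.log (Real.log N)) := (Real.exp_log hT0).symm
  set L := Real.log (Real.log N) with hLd
  have h8 := Real.quadratic_le_exp_of_nonneg (show 0 ≤ L by linarith)
  have h9 := log_two_bounds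
  have h10 : 2 * L ≤ Real.log N := by
    rw [h7]
    have h11 := sq_nonneg (L - 1)
    have e : (L - 1) ^ 2 = L ^ 2 - 2 * L + 1 := by ring
    linarith
  have hN : (2:ℝ) ^ m ≤ N := by
    rw [← Real.log_le_log_iff (by positivity) hN0, Real.log_pow]
    calc m * Real.log 2 ≤ (2 * L) * 1 := by
          have : 0 < Real.log (2:ℝ) := by linarith
          have h11 : Real.log (2:ℝ) ≤ 1 := by linarith
          gcongr
      _ ≤ _ := by linarith
  exact_mod_cast hN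

end Pool.Agent.MP6396c4
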