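import Mathlib

open Finset

noncomputable section

namespace Pool.Agent.MP6396c4

lemma log_one_add_le {u : ℝ} (hu : 0 ≤ u) : Real.log (1 + u) ≤ u - u ^ 2 / (2 * (1 + u)) := by
  have h1 : 0 < 1 + u := by linarith
  have h2 : 0 ≤ Real.log (1 + u) := Real.log_nonneg (by linarith)
  have h3 := Real.self_le_sinh_iff.mpr h2
  rw [Real.sinh_log h1] at h3
  refine h3.trans (le_of_eq ?_)
  field_simp
  ring

lemma zeta32 : ∃ S : ℝ, 0 < S ∧ ∀ n : ℕ, ∑ j ∈ range n, (√(1 + (j:ℝ)))⁻¹ ^ 3 ≤ S := by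
  have hs : Summable (fun j : ℕ => (√(1 + (j:ℝ)))⁻¹ ^ 3) := by
    have h1 : Summable (fun j : ℕ => 1 / ((j:ℝ)) ^ (3/2 : ℝ)) :=
      Real.summable_one_div_nat_rpow.mpr (by norm_num)
    have h2 := (summable_nat_add_iff 1).mpr h1
    refine h2.congr ?_
    intro j
    push_cast
    have hj : (0:ℝ) ≤ 1 + j := by positivity
    rw [Real.sqrt_eq_rpow, inv_pow, ← Real.rpow_natCast, ← Real.rpow_mul hj,
      one_div, add_comm (j:ℝ) 1]
    norm_num
  refine ⟨∑' j : ℕ, (√(1 + (j:ℝ)))⁻¹ ^ 3 + 1, ?_, ?_⟩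
  · have : 0 ≤ ∑' j : ℕ, (√(1 + (j:ℝ)))⁻¹ ^ 3 := tsum_nonneg fun j => by positivity
    linarith
  · intro n
    have := hs.sum_le_tsum (range n) (fun j _ => by positivity)
    linarith

lemma geom_bound {a : ℝ} (ha : 0 < a) (n : ℕ) :
    ∑ j ∈ range n, Real.exp (-(a * j)) ≤ 1 + 1 / a := by
  have e : ∀ j : ℕ, Real.exp (-(a * j)) = (Real.exp (-a)) ^ j := by
    intro j; rw [← Real.exp_nat_mul]; congr 1; ring
  simp_rw [e]
  have h1 : Real.exp (-a) < 1 := by rw [Real.exp_lt_one_iff]; linarith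
  have h0 : 0 ≤ Real.exp (-a) := (Real.exp_pos _).le
  have h2 : ∑ j ∈ range n, (Real.exp (-a)) ^ j ≤ (1 - Real.exp (-a))⁻¹ := by
    rw [← tsum_geometric_of_lt_one h0 h1]
    exact (summable_geometric_of_lt_one h0 h1).sum_le_tsum _ (fun j _ => by positivity)
  refine h2.trans ?_
  have h3 : a / (1 + a) ≤ 1 - Real.exp (-a) := by
    have h4 : Real.exp (-a) ≤ 1 / (1 + a) := by
      rw [Real.exp_neg, ← one_div]
      apply one_div_le_one_div_of_le (by linarith)
      have := Real.add_one_le_exp a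
      linarith
    have : a / (1 + a) = 1 - 1 / (1 + a) := by field_simp; ring
    linarith
  rw [inv_le_comm₀ (by linarith) (by positivity)]
  refine le_trans (le_of_eq ?_) h3
  field_simp
  ring

lemma exp_abs_sum {b : ℝ} (hb : 0 < b) (x : ℝ) (n : ℕ) :
    ∑ j ∈ range n, Real.exp (-(b * |(j:ℝ) - x|)) ≤ 2 * (1 + 1 / b) := by
  classical
  rw [← Finset.sum_filter_add_sum_filter_not (range n) (fun j : ℕ => x ≤ j)]
  have h1 : ∑ j ∈ (range n).filter (fun j : ℕ => x ≤ j), Real.exp (-(b * |(j:ℝ) - x|)) ≤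
      1 + 1 / b := by
    calc ∑ j ∈ (range n).filter (fun j : ℕ => x ≤ j), Real.exp (-(b * |(j:ℝ) - x|))
        ≤ ∑ j ∈ (range n).filter (fun j : ℕ => x ≤ j), Real.exp (-(b * ((j - ⌈x⌉₊ : ℕ) : ℝ))) := by
          apply Finset.sum_le_sum
          intro j hj
          rw [mem_filter] at hj
          apply Real.exp_le_exp.mpr
          rw [neg_le_neg_iff]
          have h2 : ⌈x⌉₊ ≤ j := Nat.ceil_le.mpr hj.2
          rw [Nat.cast_sub h2, abs_of_nonneg (by linarith [hj.2])]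
          have h3 : x ≤ ⌈x⌉₊ := Nat.le_ceil x
          gcongr
      _ = ∑ i ∈ ((range n).filter (fun j : ℕ => x ≤ j)).image (fun j => j - ⌈x⌉₊),
            Real.exp (-(b * (i:ℝ))) := by
          rw [Finset.sum_image]
          intro i hi j hj hij
          rw [coe_filter, Set.mem_ofPred_eq] at hi hj
          have h2 : ⌈x⌉₊ ≤ i := Nat.ceil_le.mpr hi.2
          have h3 : ⌈x⌉₊ ≤ j := Nat.ceil_le.mpr hj.2
          simp only at hij
          omega
      _ ≤ ∑ i ∈ range n, Real.exp (-(b * (i:ℝ))) := by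
          apply Finset.sum_le_sum_of_subset_of_nonneg
          · intro i hi
            rw [mem_image] at hi
            obtain ⟨j, hj, rfl⟩ := hi
            rw [mem_filter, mem_range] at hj
            rw [mem_range]; omega
          · intro i _ _; positivity
      _ ≤ _ := geom_bound hb n
  have h2 : ∑ j ∈ (range n).filter (fun j : ℕ => ¬ x ≤ j), Real.exp (-(b * |(j:ℝ) - x|)) ≤
      1 + 1 / b := by
    calc ∑ j ∈ (range n).filter (fun j : ℕ => ¬ x ≤ j), Real.exp (-(b * |(j:ℝ) - x|))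
        ≤ ∑ j ∈ (range n).filter (fun j : ℕ => ¬ x ≤ j), Real.exp (-(b * ((⌊x⌋₊ - j : ℕ) : ℝ))) := by
          apply Finset.sum_le_sum
          intro j hj
          rw [mem_filter, not_le] at hj
          apply Real.exp_le_exp.mpr
          rw [neg_le_neg_iff]
          have hx : 0 ≤ x := le_trans (Nat.cast_nonneg j) hj.2.le
          have h2 : j ≤ ⌊x⌋₊ := Nat.le_floor hj.2.le
          rw [Nat.cast_sub h2, abs_of_nonpos (by linarith [hj.2])]
          have h3 : (⌊x⌋₊ : ℝ) ≤ x := Nat.floor_le hx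
          apply mul_le_mul_of_nonneg_left _ hb.le
          linarith
      _ = ∑ i ∈ ((range n).filter (fun j : ℕ => ¬ x ≤ j)).image (fun j => ⌊x⌋₊ - j),
            Real.exp (-(b * (i:ℝ))) := by
          rw [Finset.sum_image]
          intro i hi j hj hij
          rw [coe_filter, Set.mem_ofPred_eq, not_le] at hi hj
          have h2 : i ≤ ⌊x⌋₊ := Nat.le_floor hi.2.le
          have h3 : j ≤ ⌊x⌋₊ := Nat.le_floor hj.2.le
          simp only at hij
          omega
      _ ≤ ∑ i ∈ range (⌊x⌋₊ + 1), Real.exp (-(b * (i:ℝ))) := by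
          apply Finset.sum_le_sum_of_subset_of_nonneg
          · intro i hi
            rw [mem_image] at hi
            obtain ⟨j, hj, rfl⟩ := hi
            rw [mem_range]; omega
          · intro i _ _; positivity
      _ ≤ _ := geom_bound hb _
  linarith

lemma gauss_sum {α : ℝ} (hα : 0 < α) (hα1 : α ≤ 1) (x : ℝ) (n : ℕ) :
    ∑ j ∈ range n, Real.exp (-(α * ((j:ℝ) - x) ^ 2)) ≤ 9 / √α := by
  have hs : 0 < √α := Real.sqrt_pos.mpr hα
  have hs1 : √α ≤ 1 := by rw [Real.sqrt_le_left (by norm_num)]; linarith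
  calc ∑ j ∈ range n, Real.exp (-(α * ((j:ℝ) - x) ^ 2))
      ≤ ∑ j ∈ range n, Real.exp 1 * Real.exp (-((2 * √α) * |(j:ℝ) - x|)) := by
        apply Finset.sum_le_sum
        intro j _
        rw [← Real.exp_add]
        apply Real.exp_le_exp.mpr
        have h1 : ((j:ℝ) - x) ^ 2 = |(j:ℝ) - x| ^ 2 := (sq_abs _).symm
        have h2 : α = √α ^ 2 := (Real.sq_sqrt hα.le).symm
        rw [h1]
        nlinarith [sq_nonneg (√α * |(j:ℝ) - x| - 1)]
    _ = Real.exp 1 * ∑ j ∈ range n, Real.exp (-((2 * √α) * |(j:ℝ) - x|)) := by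
        rw [Finset.mul_sum]
    _ ≤ Real.exp 1 * (2 * (1 + 1 / (2 * √α))) := by
        have := exp_abs_sum (b := 2 * √α) (by positivity) x n
        gcongr
    _ ≤ 3 * (3 / √α) := by
        have h1 : 2 * (1 + 1 / (2 * √α)) ≤ 3 / √α := by
          rw [le_div_iff₀ hs]
          field_simp
          nlinarith
        have h2 : Real.exp 1 ≤ 3 := by have := Real.exp_one_lt_d9; linarith
        have h3 : 0 < 3 / √α := by positivity
        calc Real.exp 1 * (2 * (1 + 1 / (2 * √α))) ≤ 3 * (2 * (1 + 1 / (2 * √α))) := by gcongr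
          _ ≤ _ := by gcongr
    _ = _ := by ring

/-- the scalar sum -/
def JJ (k μ : ℕ) (X : ℝ) (n : ℕ) : ℝ :=
  ∑ j ∈ range n, Real.exp (-(k * j : ℝ)) * ((1 + k * j / X) ^ (μ * (k+1)) *
    (√(1 + (μ+1) / X * j))⁻¹ ^ k)

lemma JJ_small {k μ : ℕ} (hk : 1 ≤ k) {X δ : ℝ} (hX : 0 < X) (hδ : 0 < δ)
    (hμ : (μ:ℝ) * (k+1) ≤ (1 - δ) * X) (n : ℕ) : JJ k μ X n ≤ 1 + 1 / δ := by
  have hk1 : (1:ℝ) ≤ k := by exact_mod_cast hk
  unfold JJ
  refine le_trans (Finset.sum_le_sum fun j _ => ?_) (geom_bound hδ n)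
  have hj : (0:ℝ) ≤ j := Nat.cast_nonneg j
  have h1 : (√(1 + (μ+1) / X * j))⁻¹ ^ k ≤ 1 := by
    apply pow_le_one₀ (by positivity)
    apply inv_le_one_of_one_le₀
    rw [Real.one_le_sqrt]
    have : 0 ≤ ((μ:ℝ)+1) / X * j := by positivity
    linarith
  have h2 : (1 + k * j / X) ^ (μ * (k+1)) ≤ Real.exp ((1 - δ) * (k * j)) := by
    have h3 : 1 + k * j / X ≤ Real.exp (k * j / X) := by
      have := Real.add_one_le_exp (k * j / X); linarith
    calc (1 + k * j / X) ^ (μ * (k+1)) ≤ (Real.exp (k * j / X)) ^ (μ * (k+1)) := by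
          apply pow_le_pow_left₀ (by positivity) h3
      _ = Real.exp ((μ * (k+1)) * (k * j / X)) := by
          rw [← Real.exp_nat_mul]; push_cast; ring_nf
      _ ≤ _ := by
          apply Real.exp_le_exp.mpr
          calc (μ * (k+1)) * (k * j / X) ≤ ((1 - δ) * X) * (k * j / X) := by gcongr
            _ = _ := by field_simp
  calc Real.exp (-(k * j : ℝ)) * ((1 + k * j / X) ^ (μ * (k+1)) *
    (√(1 + (μ+1) / X * j))⁻¹ ^ k) ≤ Real.exp (-(k * j : ℝ)) * (Real.exp ((1 - δ) * (k * j)) * 1) := by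
        gcongr
    _ = Real.exp (-(δ * (k * j))) := by
        rw [mul_one, ← Real.exp_add]; congr 1; ring
    _ ≤ _ := by
        apply Real.exp_le_exp.mpr
        have : δ * j ≤ δ * (k * j) := by
          apply mul_le_mul_of_nonneg_left _ hδ.le
          nlinarith
        linarith

lemma JJ_term {k μ j : ℕ} {X Δ : ℝ} (hX : 0 < X) (hΔ : 0 ≤ Δ) (hμ : (μ:ℝ) * (k+1) ≤ X + Δ) :
    Real.exp (-(k * j : ℝ)) * (1 + k * j / X) ^ (μ * (k+1)) ≤
      Real.exp (Δ * (k * j / X) - X * (k * j / X) ^ 2 / (2 * (1 + k * j / X))) := by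
  set u := (k:ℝ) * j / X with hu
  have hu0 : 0 ≤ u := by positivity
  have hkj : (k:ℝ) * j = X * u := by rw [hu]; field_simp
  have h1 : (1 + u) ^ (μ * (k+1)) = Real.exp ((μ * (k+1)) * Real.log (1 + u)) := by
    have e : ((μ:ℝ) * (k+1)) = ((μ * (k+1) : ℕ) : ℝ) := by push_cast; ring
    rw [e, Real.exp_nat_mul, Real.exp_log (by positivity)]
  rw [h1, ← Real.exp_add]
  apply Real.exp_le_exp.mpr
  have h2 := log_one_add_le hu0
  have h3 : 0 ≤ Real.log (1 + u) := Real.log_nonneg (by linarith)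
  have h4 : Real.log (1 + u) ≤ u := by
    have := Real.log_le_sub_one_of_pos (x := 1 + u) (by linarith)
    linarith
  rw [hkj]
  have h5 : (μ * (k+1)) * Real.log (1 + u) ≤ (X + Δ) * Real.log (1 + u) := by gcongr
  have h6 : X * Real.log (1 + u) ≤ X * (u - u ^ 2 / (2 * (1 + u))) := by gcongr
  have h7 : Δ * Real.log (1 + u) ≤ Δ * u := by gcongr
  have h8 : X * (u - u ^ 2 / (2 * (1 + u))) = X * u - X * u ^ 2 / (2 * (1 + u)) := by ring
  linarith

end Pool.Agent.MP6396c4
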