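import Mathlib
import Pool.Agent.Lib.MP_6396c4_an.ScalUB

open Finset

noncomputable section

namespace Pool.Agent.MP6396c4

/-- the threshold excess -/
def Qf (k : ℕ) (C L : ℝ) : ℝ :=
  ((k:ℝ) - 2) * Real.log L + k * Real.log (Real.log L) + C

def Df (k : ℕ) (C L : ℝ) : ℝ := √(L / 2 * Qf k C L)

lemma delta_facts (k : ℕ) (hk : 3 ≤ k) (C : ℝ) (hC : 0 < C) (A1 : ℝ) (hA1 : 0 < A1) :
    ∃ L0 A : ℝ, 3 ≤ L0 ∧ 1 ≤ A ∧ ∀ L : ℝ, L0 ≤ L →
      0 < Df k C L ∧ Df k C L ^ 2 = L / 2 * Qf k C L ∧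
      Df k C L ≤ A * Real.exp ((Real.log L + Real.log (Real.log L)) / 2) ∧
      Real.exp ((Real.log L + Real.log (Real.log L)) / 2) ≤ 2 * Df k C L ∧
      A1 * Df k C L ^ 3 ≤ 2 * L ^ 2 ∧
      (8 + 7 * k) * Real.log (Real.log L) ≤ Real.log L ∧ 0 ≤ Real.log (Real.log L) := by
  set A : ℝ := 2 * k + C with hA
  have hk3 : (3:ℝ) ≤ k := by exact_mod_cast hk
  have hA1' : 1 ≤ A := by rw [hA]; linarith
  have e1 : ∀ᶠ L : ℝ in Filter.atTop, 3 ≤ L := Filter.eventually_ge_atTop 3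
  have hlog : Filter.Tendsto Real.log Filter.atTop Filter.atTop := Real.tendsto_log_atTop
  have e2 : ∀ᶠ x : ℝ in Filter.atTop, (8 + 7 * k) * Real.log x ≤ x := by
    have h := Real.isLittleO_log_id_atTop.bound (c := 1 / (8 + 7 * k)) (by positivity)
    filter_upwards [h, Filter.eventually_ge_atTop 1] with x hx hx1
    rw [Real.norm_of_nonneg (Real.log_nonneg hx1), id, Real.norm_of_nonneg (by linarith),
      one_div, inv_mul_eq_div, le_div_iff₀ (by positivity)] at hx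
    linarith
  have e3 := hlog.eventually e2
  have e4 : ∀ᶠ L : ℝ in Filter.atTop, A1 ^ 2 * A ^ 6 * Real.log L ^ 3 ≤ L := by
    have h := (Real.isLittleO_pow_log_id_atTop (n := 3)).bound (c := 1 / (A1 ^ 2 * A ^ 6))
      (by positivity)
    filter_upwards [h, Filter.eventually_ge_atTop 1] with x hx hx1
    rw [Real.norm_of_nonneg (by have := Real.log_nonneg hx1; positivity), id,
      Real.norm_of_nonneg (by linarith),
      one_div, inv_mul_eq_div, le_div_iff₀ (by positivity)] at hx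
    linarith
  obtain ⟨L0, hL0⟩ := Filter.eventually_atTop.mp (e1.and (e3.and e4))
  refine ⟨max L0 3, A, le_max_right _ _, hA1', ?_⟩
  intro L hL
  obtain ⟨h1, h2, h3⟩ := hL0 L (le_trans (le_max_left _ _) hL)
  have hLpos : 0 < L := by linarith
  have hℓ1 : 1 ≤ Real.log L := by
    rw [Real.le_log_iff_exp_le hLpos]
    have := Real.exp_one_lt_d9; linarith
  have hℓ0 : 0 < Real.log L := by linarith
  have hm0 : 0 ≤ Real.log (Real.log L) := Real.log_nonneg hℓ1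
  have hm1 : Real.log (Real.log L) ≤ Real.log L := by
    have := Real.log_le_sub_one_of_pos hℓ0; linarith
  set a := Real.log L with ha
  set b := Real.log a with hb
  have hQ1 : a ≤ Qf k C L := by
    unfold Qf
    rw [← ha, ← hb]
    have : 1 * a ≤ ((k:ℝ) - 2) * a := by
      apply mul_le_mul_of_nonneg_right _ hℓ0.le; linarith
    have h4 : 0 ≤ (k:ℝ) * b := by positivity
    linarith
  have hQ2 : Qf k C L ≤ A * a := by
    unfold Qf
    rw [← ha, ← hb, hA]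
    have h4 : (k:ℝ) * b ≤ k * a := by gcongr
    have h5 : C ≤ C * a := le_mul_of_one_le_right hC.le hℓ1
    have e1 : (2 * (k:ℝ) + C) * a = k * a + k * a + C * a := by ring
    have e2 : ((k:ℝ) - 2) * a = k * a - 2 * a := by ring
    rw [e1, e2]
    linarith
  have hQ0 : 0 < Qf k C L := by linarith
  have hD2 : Df k C L ^ 2 = L / 2 * Qf k C L := by
    unfold Df
    exact Real.sq_sqrt (by positivity)
  have hD0 : 0 < Df k C L := Real.sqrt_pos.mpr (by positivity)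
  have hLa : Real.exp ((a + b) / 2) ^ 2 = L * a := by
    rw [← Real.exp_nat_mul]
    have : ((2:ℕ):ℝ) * ((a + b) / 2) = a + b := by push_cast; ring
    rw [this, Real.exp_add, ha, Real.exp_log hLpos, hb, Real.exp_log hℓ0]
  have hA0 : 0 < A := by linarith
  have hup : Df k C L ≤ A * Real.exp ((a + b) / 2) := by
    apply (pow_le_pow_iff_left₀ hD0.le (by positivity) two_ne_zero).mp
    rw [mul_pow, hLa, hD2]
    have h4 : L / 2 * Qf k C L ≤ L / 2 * (A * a) := by gcongr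
    have h5 : L / 2 * (A * a) ≤ A ^ 2 * (L * a) := by
      have h6 : 0 ≤ L * a := by positivity
      have e : L / 2 * (A * a) = A / 2 * (L * a) := by ring
      rw [e]
      apply mul_le_mul_of_nonneg_right _ h6
      have : A * 1 ≤ A * A := mul_le_mul_of_nonneg_left hA1' hA0.le
      rw [pow_two]; linarith
    linarith
  refine ⟨hD0, hD2, hup, ?_, ?_, h2, hm0⟩
  · apply (pow_le_pow_iff_left₀ (by positivity) (by positivity) two_ne_zero).mp
    rw [mul_pow, hLa, hD2]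
    calc L * a ≤ L * Qf k C L := mul_le_mul_of_nonneg_left hQ1 hLpos.le
      _ ≤ L * Qf k C L + L * Qf k C L := by linarith [mul_pos hLpos hQ0]
      _ = 2 ^ 2 * (L / 2 * Qf k C L) := by ring
  · apply (pow_le_pow_iff_left₀ (by positivity) (by positivity) two_ne_zero).mp
    have h4 : (A1 * Df k C L ^ 3) ^ 2 = A1 ^ 2 * (Df k C L ^ 2) ^ 3 := by ring
    rw [h4, hD2]
    have h5 : L / 2 * Qf k C L ≤ A ^ 2 * (L * a) := by
      have h6 : L / 2 * Qf k C L ≤ L / 2 * (A * a) := by gcongr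
      have h7 : L / 2 * (A * a) ≤ A ^ 2 * (L * a) := by
        have h6 : 0 ≤ L * a := by positivity
        have e : L / 2 * (A * a) = A / 2 * (L * a) := by ring
        rw [e]
        apply mul_le_mul_of_nonneg_right _ h6
        have : A * 1 ≤ A * A := mul_le_mul_of_nonneg_left hA1' hA0.le
        rw [pow_two]; linarith
      linarith
    calc A1 ^ 2 * (L / 2 * Qf k C L) ^ 3 ≤ A1 ^ 2 * (A ^ 2 * (L * a)) ^ 3 := by
          have : 0 ≤ L / 2 * Qf k C L := by positivity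
          gcongr
      _ = (A1 ^ 2 * A ^ 6 * a ^ 3) * L ^ 3 := by ring
      _ ≤ L * L ^ 3 := by gcongr
      _ = L ^ 4 := by ring
      _ ≤ 4 * L ^ 4 := by linarith [pow_pos hLpos 4]
      _ = (2 * L ^ 2) ^ 2 := by ring

lemma sqrt_inv_le {y z : ℝ} (hy : 0 < y) (_hz : 0 ≤ z) (h : 1 ≤ z * y) : (√y)⁻¹ ≤ √z := by
  rw [← Real.sqrt_inv]
  apply Real.sqrt_le_sqrt
  rw [inv_eq_one_div, div_le_iff₀ hy]
  exact h

lemma g_bound (k : ℕ) (hk : 3 ≤ k) {X Δ : ℝ} (hX : 0 < X) (hΔ : 0 < Δ)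
    (hΔ3 : (4 * (k+1)) ^ 3 * Δ ^ 3 ≤ 2 * X ^ 2) (j : ℕ) (hj : (j:ℝ) ≤ X) :
    (√(1 + (j:ℝ)))⁻¹ ^ k *
      Real.exp (Δ * (k * j / X) - X * (k * j / X) ^ 2 / (2 * (1 + k * j / X))) ≤
    3 * (√(1 + (j:ℝ)))⁻¹ ^ 3 +
      (if (j:ℝ) ≤ Δ then (√(k * Δ / X)) ^ k * Real.exp (1 + 3 * Δ ^ 2 / (8 * X)) else 0) +
      (√(2 * k / Δ)) ^ k * Real.exp (1 + Δ ^ 2 / (2 * X)) *
        Real.exp (-(k ^ 2 / (2 * X) * ((j:ℝ) - Δ / k) ^ 2)) := by
  have hk3 : (3:ℝ) ≤ k := by exact_mod_cast hk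
  have hk0 : (0:ℝ) < k := by linarith
  have hj0 : (0:ℝ) ≤ j := Nat.cast_nonneg j
  set u := (k:ℝ) * j / X with hu
  have hu0 : 0 ≤ u := by positivity
  have hXu : X * u = k * j := by rw [hu]; field_simp
  have hw1 : (√(1 + (j:ℝ)))⁻¹ ≤ 1 := by
    apply inv_le_one_of_one_le₀
    rw [Real.one_le_sqrt]; linarith
  have hw0 : 0 ≤ (√(1 + (j:ℝ)))⁻¹ := by positivity
  have hw3 : (√(1 + (j:ℝ)))⁻¹ ^ k ≤ (√(1 + (j:ℝ)))⁻¹ ^ 3 := pow_le_pow_of_le_one hw0 hw1 hk
  have hT1 : 0 ≤ 3 * (√(1 + (j:ℝ)))⁻¹ ^ 3 := by positivity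
  have hT2 : 0 ≤ (if (j:ℝ) ≤ Δ then (√(k * Δ / X)) ^ k * Real.exp (1 + 3 * Δ ^ 2 / (8 * X)) else 0) := by
    split_ifs <;> positivity
  have hT3 : 0 ≤ (√(2 * k / Δ)) ^ k * Real.exp (1 + Δ ^ 2 / (2 * X)) *
        Real.exp (-(k ^ 2 / (2 * X) * ((j:ℝ) - Δ / k) ^ 2)) := by positivity
  by_cases hA : Δ * u ≤ 1
  · have h1 : Real.exp (Δ * u - X * u ^ 2 / (2 * (1 + u))) ≤ 3 := by
      have h2 : 0 ≤ X * u ^ 2 / (2 * (1 + u)) := by positivity
      calc _ ≤ Real.exp 1 := Real.exp_le_exp.mpr (by linarith)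
        _ ≤ 3 := by have := Real.exp_one_lt_d9; linarith
    have h2 : (√(1 + (j:ℝ)))⁻¹ ^ k * Real.exp (Δ * u - X * u ^ 2 / (2 * (1 + u))) ≤
        (√(1 + (j:ℝ)))⁻¹ ^ 3 * 3 := by gcongr
    linarith
  push Not at hA
  by_cases hD : 4 * (k+1) * Δ < X * u
  · have huk : 1 + u ≤ k + 1 := by
      have : u ≤ k := by
        rw [hu, div_le_iff₀ hX]; gcongr
      linarith
    have h2 : Real.exp (Δ * u - X * u ^ 2 / (2 * (1 + u))) ≤ 1 := by
      rw [Real.exp_le_one_iff]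
      have h3 : Δ * u ≤ X * u ^ 2 / (2 * (1 + u)) := by
        rw [le_div_iff₀ (by positivity)]
        have h4 : Δ * u * (2 * (1 + u)) ≤ Δ * u * (2 * (k + 1)) := by gcongr
        have h5 : Δ * u * (2 * (k + 1)) ≤ X * u ^ 2 := by
          have h6 : 0 ≤ u * (X * u - 4 * (k+1) * Δ) := by
            apply mul_nonneg hu0; linarith
          have h7 : 0 ≤ u * ((k+1) * Δ) := by positivity
          have e1 : u * (X * u - 4 * (k+1) * Δ) = X * u ^ 2 - 4 * (u * ((k+1) * Δ)) := by ring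
          have e2 : Δ * u * (2 * (k + 1)) = 2 * (u * ((k+1) * Δ)) := by ring
          rw [e1] at h6
          rw [e2]
          linarith
        linarith
      linarith
    have h3 : (√(1 + (j:ℝ)))⁻¹ ^ k * Real.exp (Δ * u - X * u ^ 2 / (2 * (1 + u))) ≤
        (√(1 + (j:ℝ)))⁻¹ ^ 3 * 1 := by gcongr
    linarith
  push Not at hD
  have hcub : X * u ^ 3 / 2 ≤ 1 := by
    have h1 : (X * u) ^ 3 ≤ (4 * (k+1) * Δ) ^ 3 := by gcongr
    have h2 : (X * u ^ 3) * X ^ 2 ≤ 2 * X ^ 2 := by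
      calc (X * u ^ 3) * X ^ 2 = (X * u) ^ 3 := by ring
        _ ≤ _ := h1
        _ = (4 * (k+1)) ^ 3 * Δ ^ 3 := by ring
        _ ≤ _ := hΔ3
    have h3 : X * u ^ 3 ≤ 2 := by
      exact le_of_mul_le_mul_right h2 (by positivity)
    linarith
  have hexp : Δ * u - X * u ^ 2 / (2 * (1 + u)) ≤ Δ * u - X * u ^ 2 / 2 + 1 := by
    have h1 : X * u ^ 2 / 2 - X * u ^ 3 / 2 ≤ X * u ^ 2 / (2 * (1 + u)) := by
      rw [le_div_iff₀ (by positivity)]
      have : (X * u ^ 2 / 2 - X * u ^ 3 / 2) * (2 * (1 + u)) = X * u ^ 2 - X * u ^ 4 := by ring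
      rw [this]
      have : 0 ≤ X * u ^ 4 := by positivity
      linarith
    linarith
  by_cases hB : u ≤ Δ / (2 * X)
  · have hjΔ : (j:ℝ) ≤ Δ := by
      rw [le_div_iff₀ (by positivity)] at hB
      have h1 : 3 * (j:ℝ) ≤ k * j := by gcongr
      have h2 : X * u * 2 ≤ Δ := by linarith
      rw [hXu] at h2
      linarith
    rw [if_pos hjΔ]
    have h1 : Δ * u - X * u ^ 2 / 2 ≤ 3 * Δ ^ 2 / (8 * X) := by
      rw [le_div_iff₀ (by positivity)] at hB ⊢
      have h2 : 0 ≤ (Δ - u * (2 * X)) * (3 * Δ - u * (2 * X)) := by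
        apply mul_nonneg <;> linarith
      have e : (Δ - u * (2 * X)) * (3 * Δ - u * (2 * X)) =
        3 * Δ ^ 2 - (Δ * u - X * u ^ 2 / 2) * (8 * X) := by ring
      rw [e] at h2
      linarith
    have h2 : (√(1 + (j:ℝ)))⁻¹ ≤ √(k * Δ / X) := by
      apply sqrt_inv_le (by positivity) (by positivity)
      have h3 : k * Δ / X * (1 + j) = k * Δ / X + Δ * u := by
        rw [hu]; ring
      rw [h3]
      have : 0 ≤ k * Δ / X := by positivity
      linarith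
    have h3 : (√(1 + (j:ℝ)))⁻¹ ^ k * Real.exp (Δ * u - X * u ^ 2 / (2 * (1 + u))) ≤
        (√(k * Δ / X)) ^ k * Real.exp (1 + 3 * Δ ^ 2 / (8 * X)) := by
      have h4 : Real.exp (Δ * u - X * u ^ 2 / (2 * (1 + u))) ≤
          Real.exp (1 + 3 * Δ ^ 2 / (8 * X)) := Real.exp_le_exp.mpr (by linarith)
      gcongr
    linarith
  · push Not at hB
    rw [div_lt_iff₀ (by positivity)] at hB
    have h2 : (√(1 + (j:ℝ)))⁻¹ ≤ √(2 * k / Δ) := by
      apply sqrt_inv_le (by positivity) (by positivity)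
      rw [div_mul_eq_mul_div, le_div_iff₀ hΔ]
      have : X * u * 2 = 2 * k * j := by rw [hXu]; ring
      have e : 2 * (k:ℝ) * (1 + j) = 2 * k * j + 2 * k := by ring
      have e2 : u * (2 * X) = X * u * 2 := by ring
      rw [e, one_mul]
      linarith
    have h3 : Δ * u - X * u ^ 2 / 2 = Δ ^ 2 / (2 * X) - k ^ 2 / (2 * X) * ((j:ℝ) - Δ / k) ^ 2 := by
      rw [hu]; field_simp; ring
    have h4 : (√(1 + (j:ℝ)))⁻¹ ^ k * Real.exp (Δ * u - X * u ^ 2 / (2 * (1 + u))) ≤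
        (√(2 * k / Δ)) ^ k * (Real.exp (1 + Δ ^ 2 / (2 * X)) *
        Real.exp (-(k ^ 2 / (2 * X) * ((j:ℝ) - Δ / k) ^ 2))) := by
      rw [← Real.exp_add]
      have h5 : Real.exp (Δ * u - X * u ^ 2 / (2 * (1 + u))) ≤
          Real.exp (1 + Δ ^ 2 / (2 * X) + -(k ^ 2 / (2 * X) * ((j:ℝ) - Δ / k) ^ 2)) := by
        apply Real.exp_le_exp.mpr; linarith
      gcongr
    rw [← mul_assoc] at h4
    linarith

theorem JJ_bound (k : ℕ) (hk : 3 ≤ k) (C : ℝ) (hC : 0 < C) : ∃ B L0 : ℝ, 0 < B ∧ 3 ≤ L0 ∧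
    ∀ (L X : ℝ) (μ n : ℕ), L0 ≤ L → L ≤ X → X ≤ 2 * L → (n:ℝ) ≤ X + 1 →
      (μ:ℝ) * (k+1) ≤ X + Df k C L → JJ k μ X n ≤ B := by
  obtain ⟨L1, A, hL1, hA1, hfacts⟩ := delta_facts k hk C hC ((4 * (k+1)) ^ 3) (by positivity)
  obtain ⟨S0, hS0, hS⟩ := zeta32
  have hk3 : (3:ℝ) ≤ k := by exact_mod_cast hk
  have hk0 : (0:ℝ) < k := by linarith
  have hA0 : 0 < A := by linarith
  set W := (√(2 * ((k:ℝ)+1))) ^ k with hW
  have hW0 : 0 < W := by positivity
  set B3 := 2 * A * (√(k * A)) ^ k * Real.exp (1 + 3 * C / 16) with hB3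
  set B4 := (√(4 * k)) ^ k * Real.exp (1 + C / 4) * 18 with hB4
  refine ⟨3 + W * (3 * S0 + B3 + B4), max L1 (k ^ 2), by positivity,
    le_max_of_le_left hL1, ?_⟩
  intro L X μ n hL hLX hX2 hn hμ
  have hLL1 : L1 ≤ L := le_trans (le_max_left _ _) hL
  have hLk : (k:ℝ) ^ 2 ≤ L := le_trans (le_max_right _ _) hL
  obtain ⟨hD0, hD2, hDup, hDlo, hD3, hℓ, hm0⟩ := hfacts L hLL1
  set Δ := Df k C L with hΔ
  have hL0 : 0 < L := by linarith
  have hX0 : 0 < X := by linarith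
  have hQdef : Qf k C L = ((k:ℝ) - 2) * Real.log L + k * Real.log (Real.log L) + C := rfl
  set a := Real.log L with ha
  set b := Real.log a with hb
  have hB30 : 0 < B3 := by positivity
  have hB40 : 0 < B4 := by positivity
  by_cases hcase : (μ:ℝ) * (k+1) ≤ (1 - 1/2) * X
  · have h1 := JJ_small (by omega : 1 ≤ k) hX0 (by norm_num : (0:ℝ) < 1/2) hcase n
    have h2 : 0 ≤ W * (3 * S0 + B3 + B4) := by positivity
    norm_num at h1
    linarith
  push Not at hcase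
  have hL0a : L = Real.exp a := by rw [ha, Real.exp_log hL0]
  have hterm : ∀ j ∈ range n, Real.exp (-(k * j : ℝ)) * ((1 + k * j / X) ^ (μ * (k+1)) *
    (√(1 + (μ+1) / X * j))⁻¹ ^ k) ≤ W * (3 * (√(1 + (j:ℝ)))⁻¹ ^ 3 +
      (if (j:ℝ) ≤ Δ then (√(k * Δ / X)) ^ k * Real.exp (1 + 3 * Δ ^ 2 / (8 * X)) else 0) +
      (√(2 * k / Δ)) ^ k * Real.exp (1 + Δ ^ 2 / (2 * X)) *
        Real.exp (-(k ^ 2 / (2 * X) * ((j:ℝ) - Δ / k) ^ 2))) := by
    intro j hj
    rw [mem_range] at hj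
    have hjX : (j:ℝ) ≤ X := by
      have : (j:ℝ) + 1 ≤ n := by exact_mod_cast hj
      linarith
    have h1 := g_bound k hk hX0 hD0 (by
      refine hD3.trans ?_
      gcongr) j hjX
    have h2 := JJ_term (j := j) hX0 hD0.le hμ
    have hj0 : (0:ℝ) ≤ j := Nat.cast_nonneg j
    have h3 : (√(1 + (μ+1) / X * j))⁻¹ ≤ √(2 * ((k:ℝ)+1)) * (√(1 + (j:ℝ)))⁻¹ := by
      rw [← Real.sqrt_inv, ← Real.sqrt_inv, ← Real.sqrt_mul (by positivity)]
      apply Real.sqrt_le_sqrt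
      rw [inv_eq_one_div, ← div_eq_mul_inv, div_le_div_iff₀ (by positivity) (by positivity)]
      have h4 : 1 ≤ 2 * ((k:ℝ)+1) * ((μ+1) / X) := by
        rw [mul_div_assoc', le_div_iff₀ hX0]
        have e : 2 * ((k:ℝ)+1) * ((μ:ℝ)+1) = 2 * (μ * (k+1)) + 2 * (k+1) := by ring
        rw [e]
        linarith
      have h5 : (j:ℝ) ≤ 2 * ((k:ℝ)+1) * ((μ+1) / X) * j := le_mul_of_one_le_left hj0 h4
      have e : 2 * ((k:ℝ)+1) * (1 + (μ+1) / X * j) =
        2 * (k+1) + 2 * ((k:ℝ)+1) * ((μ+1) / X) * j := by ring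
      rw [e]
      linarith
    calc Real.exp (-(k * j : ℝ)) * ((1 + k * j / X) ^ (μ * (k+1)) *
          (√(1 + (μ+1) / X * j))⁻¹ ^ k)
        = (Real.exp (-(k * j : ℝ)) * (1 + k * j / X) ^ (μ * (k+1))) *
          (√(1 + (μ+1) / X * j))⁻¹ ^ k := by ring
      _ ≤ Real.exp (Δ * (k * j / X) - X * (k * j / X) ^ 2 / (2 * (1 + k * j / X))) *
          (√(2 * ((k:ℝ)+1)) * (√(1 + (j:ℝ)))⁻¹) ^ k := by gcongr
      _ = W * ((√(1 + (j:ℝ)))⁻¹ ^ k *
          Real.exp (Δ * (k * j / X) - X * (k * j / X) ^ 2 / (2 * (1 + k * j / X)))) := by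
          rw [mul_pow]; ring
      _ ≤ _ := by gcongr
  unfold JJ
  refine (Finset.sum_le_sum hterm).trans ?_
  rw [← Finset.mul_sum, Finset.sum_add_distrib, Finset.sum_add_distrib, ← Finset.mul_sum,
    ← Finset.mul_sum]
  have hDX : Δ ^ 2 / X ≤ Qf k C L / 2 := by
    rw [hD2, div_le_iff₀ hX0]
    have hQ0 : 0 ≤ Qf k C L := by
      have : 0 < L / 2 * Qf k C L := by rw [← hD2]; positivity
      exact ((pos_iff_pos_of_mul_pos this).mp (half_pos hL0)).le
    calc L / 2 * Qf k C L ≤ X / 2 * Qf k C L := by gcongr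
      _ = Qf k C L / 2 * X := by ring
  have s2 : ∑ j ∈ range n, (if (j:ℝ) ≤ Δ then (√(k * Δ / X)) ^ k *
      Real.exp (1 + 3 * Δ ^ 2 / (8 * X)) else 0) ≤ B3 := by
    rw [← Finset.sum_filter, Finset.sum_const, nsmul_eq_mul]
    have hcard : (#((range n).filter (fun j : ℕ => (j:ℝ) ≤ Δ)) : ℝ) ≤ Δ + 1 := by
      have hsub : (range n).filter (fun j : ℕ => (j:ℝ) ≤ Δ) ⊆ range (⌊Δ⌋₊ + 1) := by
        intro j hj
        rw [mem_filter] at hj
        rw [mem_range]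
        have := Nat.le_floor hj.2
        omega
      have h1 : (#((range n).filter (fun j : ℕ => (j:ℝ) ≤ Δ)) : ℝ) ≤ #(range (⌊Δ⌋₊ + 1)) := by
        exact_mod_cast Finset.card_le_card hsub
      rw [card_range] at h1
      push_cast at h1
      have := Nat.floor_le hD0.le
      linarith
    have hP1 : 1 ≤ Real.exp ((a + b) / 2) := by
      rw [← Real.exp_zero]
      apply Real.exp_le_exp.mpr
      have : 0 ≤ a := by rw [ha]; exact Real.log_nonneg (by linarith)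
      positivity
    have h1 : Δ + 1 ≤ 2 * A * Real.exp ((a + b) / 2) := by
      have h0 : 1 ≤ A * Real.exp ((a + b) / 2) := one_le_mul_of_one_le_of_one_le hA1 hP1
      linarith
    have h2 : √(k * Δ / X) ≤ √(k * A) * Real.exp ((b - a) / 4) := by
      rw [show Real.exp ((b - a) / 4) = √(Real.exp ((b - a) / 4) ^ 2) from
        (Real.sqrt_sq (Real.exp_pos _).le).symm, ← Real.sqrt_mul (by positivity)]
      apply Real.sqrt_le_sqrt
      have h3 : Real.exp ((b - a) / 4) ^ 2 = Real.exp ((a + b) / 2) / L := by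
        rw [← Real.exp_nat_mul, hL0a, ← Real.exp_sub]
        congr 1; push_cast; ring
      rw [h3]
      calc k * Δ / X ≤ k * Δ / L := by gcongr
        _ ≤ k * (A * Real.exp ((a + b) / 2)) / L := by gcongr
        _ = _ := by ring
    have h3 : Real.exp (1 + 3 * Δ ^ 2 / (8 * X)) ≤ Real.exp (1 + 3 * Qf k C L / 16) := by
      apply Real.exp_le_exp.mpr
      have : 3 * Δ ^ 2 / (8 * X) = 3 / 8 * (Δ ^ 2 / X) := by field_simp
      rw [this]; linarith
    calc (#((range n).filter (fun j : ℕ => (j:ℝ) ≤ Δ)) : ℝ) * ((√(k * Δ / X)) ^ k *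
          Real.exp (1 + 3 * Δ ^ 2 / (8 * X)))
        ≤ (2 * A * Real.exp ((a + b) / 2)) * ((√(k * A) * Real.exp ((b - a) / 4)) ^ k *
          Real.exp (1 + 3 * Qf k C L / 16)) := by
          have := hcard.trans h1
          gcongr
      _ = 2 * A * (√(k * A)) ^ k * (Real.exp ((a + b) / 2) * Real.exp ((b - a) / 4) ^ k *
          Real.exp (1 + 3 * Qf k C L / 16)) := by rw [mul_pow]; ring
      _ ≤ _ := by
          rw [hB3, ← Real.exp_nat_mul, ← Real.exp_add, ← Real.exp_add]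
          have h4 : (a + b) / 2 + k * ((b - a) / 4) + (1 + 3 * Qf k C L / 16) ≤ 1 + 3 * C / 16 := by
            rw [hQdef]
            have h5 : 0 ≤ a := by rw [ha]; exact Real.log_nonneg (by linarith)
            have h6 : 0 ≤ a * ((k:ℝ) - 3) := mul_nonneg h5 (by linarith)
            have e : (a + b) / 2 + k * ((b - a) / 4) + (1 + 3 * (((k:ℝ) - 2) * a + k * b + C) / 16) =
              1 + 3 * C / 16 - (a * ((k:ℝ) - 3)) / 16 - (a - (8 + 7 * k) * b) / 16 := by ring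
            rw [e]
            linarith
          have h5 := Real.exp_le_exp.mpr h4
          gcongr
  have hα : 0 < (k:ℝ) ^ 2 / (2 * X) := by positivity
  have hα1 : (k:ℝ) ^ 2 / (2 * X) ≤ 1 := by rw [div_le_one (by positivity)]; linarith
  have s3 := gauss_sum hα hα1 (Δ / k) n
  have s4 : (√(2 * k / Δ)) ^ k * Real.exp (1 + Δ ^ 2 / (2 * X)) * (9 / √((k:ℝ) ^ 2 / (2 * X))) ≤
      B4 := by
    have h1 : √(2 * k / Δ) ≤ √(4 * k) * Real.exp (-(a + b) / 4) := by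
      rw [show Real.exp (-(a + b) / 4) = √(Real.exp (-(a + b) / 4) ^ 2) from
        (Real.sqrt_sq (Real.exp_pos _).le).symm, ← Real.sqrt_mul (by positivity)]
      apply Real.sqrt_le_sqrt
      have h3 : Real.exp (-(a + b) / 4) ^ 2 = (Real.exp ((a + b) / 2))⁻¹ := by
        rw [← Real.exp_nat_mul, ← Real.exp_neg]
        congr 1; push_cast; ring
      rw [h3, ← div_eq_mul_inv, div_le_div_iff₀ hD0 (Real.exp_pos _)]
      calc 2 * (k:ℝ) * Real.exp ((a + b) / 2) ≤ 2 * k * (2 * Δ) := by gcongr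
        _ = 4 * k * Δ := by ring
    have h2 : Real.exp (1 + Δ ^ 2 / (2 * X)) ≤ Real.exp (1 + Qf k C L / 4) := by
      apply Real.exp_le_exp.mpr
      have : Δ ^ 2 / (2 * X) = 1 / 2 * (Δ ^ 2 / X) := by field_simp
      rw [this]; linarith
    have h3 : 9 / √((k:ℝ) ^ 2 / (2 * X)) ≤ 18 * Real.exp (a / 2) := by
      rw [Real.sqrt_div (by positivity), Real.sqrt_sq hk0.le]
      have h4 : √(2 * X) ≤ 2 * Real.exp (a / 2) := by
        rw [Real.sqrt_le_left (by positivity)]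
        have : (2 * Real.exp (a / 2)) ^ 2 = 4 * L := by
          rw [mul_pow, ← Real.exp_nat_mul, hL0a]
          have : ((2:ℕ):ℝ) * (a / 2) = a := by push_cast; ring
          rw [this]; norm_num
        rw [this]; linarith
      rw [div_div_eq_mul_div, div_le_iff₀ hk0]
      have h5 : 0 < Real.exp (a / 2) := Real.exp_pos _
      calc 9 * √(2 * X) ≤ 9 * (2 * Real.exp (a / 2)) := by gcongr
        _ = 18 * Real.exp (a / 2) * 1 := by ring
        _ ≤ 18 * Real.exp (a / 2) * k := mul_le_mul_of_nonneg_left (by linarith) (by positivity)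
    calc (√(2 * k / Δ)) ^ k * Real.exp (1 + Δ ^ 2 / (2 * X)) * (9 / √((k:ℝ) ^ 2 / (2 * X)))
        ≤ (√(4 * k) * Real.exp (-(a + b) / 4)) ^ k * Real.exp (1 + Qf k C L / 4) *
          (18 * Real.exp (a / 2)) := by gcongr
      _ = (√(4 * k)) ^ k * 18 * (Real.exp (-(a + b) / 4) ^ k * Real.exp (1 + Qf k C L / 4) *
          Real.exp (a / 2)) := by rw [mul_pow]; ring
      _ = B4 := by
          rw [hB4, ← Real.exp_nat_mul, ← Real.exp_add, ← Real.exp_add]
          have h4 : (k:ℝ) * (-(a + b) / 4) + (1 + Qf k C L / 4) + a / 2 = 1 + C / 4 := by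
            rw [hQdef]; ring
          rw [h4]; ring
  have s5 : (√(2 * k / Δ)) ^ k * Real.exp (1 + Δ ^ 2 / (2 * X)) *
      ∑ j ∈ range n, Real.exp (-(k ^ 2 / (2 * X) * ((j:ℝ) - Δ / k) ^ 2)) ≤ B4 := by
    refine le_trans ?_ s4
    gcongr
  have s1 := hS n
  have h6 : W * (3 * ∑ j ∈ range n, (√(1 + (j:ℝ)))⁻¹ ^ 3 +
      ∑ j ∈ range n, (if (j:ℝ) ≤ Δ then (√(k * Δ / X)) ^ k *
      Real.exp (1 + 3 * Δ ^ 2 / (8 * X)) else 0) +
      (√(2 * k / Δ)) ^ k * Real.exp (1 + Δ ^ 2 / (2 * X)) *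
      ∑ j ∈ range n, Real.exp (-(k ^ 2 / (2 * X) * ((j:ℝ) - Δ / k) ^ 2))) ≤
      W * (3 * S0 + B3 + B4) := by
    apply mul_le_mul_of_nonneg_left _ hW0.le
    linarith
  linarith

end Pool.Agent.MP6396c4
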