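import Mathlib
import Pool.Agent.Lib.MP_6396c4_an.LBr0
import Pool.Agent.Lib.MP_6396c4_an.ScalUB2

open Finset ArithmeticFunction

noncomputable section

namespace Pool.Agent.MP6396c4

/-- scalar facts for the near-threshold lower bound -/
lemma delta_facts2 (k : ℕ) (hk : 3 ≤ k) (C : ℝ) (hC : 0 < C) (S0 : ℕ) (s0 : ℝ) :
    ∃ L0 : ℝ, 3 ≤ L0 ∧ ∀ L : ℝ, L0 ≤ L →
      0 < Df k C L ∧ Df k C L ^ 2 = L / 2 * Qf k C L ∧
      Df k C L ≤ √k * Real.exp ((Real.log L + Real.log (Real.log L)) / 2) ∧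
      (k:ℝ) * √L ≤ Df k C L ∧ 2 * Df k C L ≤ k * (4/5 * L) ∧
      2 * Df k C L ^ 3 ≤ L ^ 2 / 2 ∧ 2 * (k+1) ^ 2 * Df k C L ≤ L / 2 ∧ 
      s0 * k ≤ Df k C L ∧ 8 * (S0 : ℝ) ≤ √L ∧ ((k:ℝ)+1)^2 ≤ L := by
  obtain ⟨L1, A, hL1, hA, hfacts⟩ := delta_facts k hk C hC (16 * (4 * ((k:ℝ)+1) ^ 2) ^ 3) (by positivity)
  have hk3 : (3:ℝ) ≤ k := by exact_mod_cast hk
  have e1 : ∀ᶠ L : ℝ in Filter.atTop, max C (4 * k ^ 2) ≤ Real.log L :=
    Real.tendsto_log_atTop.eventually_ge_atTop _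
  have hsq : Filter.Tendsto (fun L : ℝ => √L) Filter.atTop Filter.atTop := Real.tendsto_sqrt_atTop
  have e2 : ∀ᶠ L : ℝ in Filter.atTop, max (|s0|) (8 * (S0:ℝ)) ≤ √L := hsq.eventually_ge_atTop _
  have e3 : ∀ᶠ L : ℝ in Filter.atTop, ((k:ℝ)+1)^2 ≤ L := Filter.eventually_ge_atTop _
  obtain ⟨L2, hL2⟩ := Filter.eventually_atTop.mp (e1.and (e2.and e3))
  refine ⟨max L1 L2, le_max_of_le_left hL1, ?_⟩
  intro L hL
  obtain ⟨hD0, hD2, _, hDlo, hD3, _, hm0⟩ := hfacts L (le_trans (le_max_left _ _) hL)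
  obtain ⟨h1, h2, h3⟩ := hL2 L (le_trans (le_max_right _ _) hL)
  have hL3 : 3 ≤ L := by linarith [le_trans (le_max_left _ _) hL]
  have hL0 : 0 < L := by linarith
  set Δ := Df k C L with hΔ
  have hCl : C ≤ Real.log L := le_trans (le_max_left _ _) h1
  have h4l : 4 * (k:ℝ) ^ 2 ≤ Real.log L := le_trans (le_max_right _ _) h1
  have hs0 : |s0| ≤ √L := le_trans (le_max_left _ _) h2
  have hS0 : 8 * (S0:ℝ) ≤ √L := le_trans (le_max_right _ _) h2
  have hlog0 : 0 < Real.log L := by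
    have : 0 < 4 * (k:ℝ) ^ 2 := by positivity
    linarith
  have hm1 : Real.log (Real.log L) ≤ Real.log L := by
    have := Real.log_le_sub_one_of_pos hlog0; linarith
  have hQdef : Qf k C L = ((k:ℝ) - 2) * Real.log L + k * Real.log (Real.log L) + C := rfl
  have hQ : Qf k C L ≤ 2 * k * Real.log L := by
    rw [hQdef]
    have h8 : (k:ℝ) * Real.log (Real.log L) ≤ k * Real.log L := by gcongr
    have h9 : ((k:ℝ) - 2) * Real.log L = k * Real.log L - 2 * Real.log L := by ring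
    rw [h9]; linarith
  have hQ' : 4 * (k:ℝ) ^ 2 ≤ Qf k C L := by
    rw [hQdef]
    have h4 : 0 ≤ (k:ℝ) * Real.log (Real.log L) := by positivity
    have h5 : 1 * Real.log L ≤ ((k:ℝ) - 2) * Real.log L := by
      apply mul_le_mul_of_nonneg_right _ hlog0.le; linarith
    linarith
  have hsL : √L ^ 2 = L := Real.sq_sqrt hL0.le
  have hsL0 : 0 < √L := Real.sqrt_pos.mpr hL0
  have hk0 : (0:ℝ) < k := by linarith
  have hkΔ : (k:ℝ) * √L ≤ Δ := by
    apply (pow_le_pow_iff_left₀ (by positivity) hD0.le two_ne_zero).mp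
    rw [mul_pow, hsL, hD2]
    have h8 : L / 2 * (4 * (k:ℝ) ^ 2) ≤ L / 2 * Qf k C L := by gcongr
    have h9 : 0 ≤ (k:ℝ) ^ 2 * L := by positivity
    linarith
  have hcube : (4 * ((k:ℝ)+1) ^ 2) ^ 3 * Δ ^ 3 ≤ L ^ 2 / 8 := by linarith
  have hΔL : 4 * ((k:ℝ)+1) ^ 2 * Δ ≤ L := by
    apply (pow_le_pow_iff_left₀ (by positivity) hL0.le three_ne_zero).mp
    rw [mul_pow]
    refine hcube.trans ?_
    have h8 : 0 < L ^ 2 := by positivity
    calc L ^ 2 / 8 ≤ L ^ 2 * 1 := by linarith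
      _ ≤ L ^ 2 * L := by gcongr; linarith
      _ = _ := by ring
  refine ⟨hD0, hD2, ?_, hkΔ, ?_, ?_, by linarith, ?_, hS0, h3⟩
  · have hE : Real.exp ((Real.log L + Real.log (Real.log L)) / 2) ^ 2 = L * Real.log L := by
      rw [← Real.exp_nat_mul]
      have : ((2:ℕ):ℝ) * ((Real.log L + Real.log (Real.log L)) / 2) =
          Real.log L + Real.log (Real.log L) := by push_cast; ring
      rw [this, Real.exp_add, Real.exp_log hL0, Real.exp_log hlog0]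
    apply (pow_le_pow_iff_left₀ hD0.le (by positivity) two_ne_zero).mp
    rw [mul_pow, hE, hD2, Real.sq_sqrt hk0.le]
    have : L / 2 * Qf k C L ≤ L / 2 * (2 * k * Real.log L) := by gcongr
    linarith
  · have h4 : (16:ℝ) ≤ ((k:ℝ)+1) ^ 2 := by
      calc (16:ℝ) = (3 + 1) ^ 2 := by norm_num
        _ ≤ _ := by gcongr
    have h5 : 16 * (4 * Δ) ≤ L := by
      calc 16 * (4 * Δ) ≤ ((k:ℝ)+1) ^ 2 * (4 * Δ) := by gcongr
        _ = 4 * ((k:ℝ)+1) ^ 2 * Δ := by ring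
        _ ≤ L := hΔL
    have h6 : 3 * (4/5 * L) ≤ k * (4/5 * L) := by gcongr
    linarith
  · have h4 : (16:ℝ) ≤ ((k:ℝ)+1) ^ 2 := by
      calc (16:ℝ) = (3 + 1) ^ 2 := by norm_num
        _ ≤ _ := by gcongr
    have h5 : (64:ℝ) ≤ (4 * ((k:ℝ)+1) ^ 2) ^ 3 := by
      have : (4:ℝ) ≤ 4 * ((k:ℝ)+1) ^ 2 := by linarith
      calc (64:ℝ) = 4 ^ 3 := by norm_num
        _ ≤ _ := by gcongr
    have h6 : 64 * Δ ^ 3 ≤ (4 * ((k:ℝ)+1) ^ 2) ^ 3 * Δ ^ 3 := by gcongr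
    have h7 := sq_nonneg L
    linarith
  · have h4 : s0 ≤ √L := (le_abs_self s0).trans hs0
    calc s0 * k ≤ √L * k := by gcongr
      _ = k * √L := by ring
      _ ≤ Δ := hkΔ

/-- `K = k + 1 ≥ 4`. -/
theorem region_four (k : ℕ) (hk : 3 ≤ k) (B : ℝ) : ∃ C1 L1 : ℝ, 0 < C1 ∧ 3 ≤ L1 ∧ ∀ N m : ℕ,
    L1 ≤ Real.log (Real.log N) →
    Real.log (Real.log N) + Df k C1 (Real.log (Real.log N)) < ((k:ℝ)+1) * m →
    (m:ℝ) ≤ 19/10 * Real.log (Real.log N) →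
    B * (#(om m N) : ℝ) ^ (k+1) < #(sols (k+1) N m) := by
  have hk3 : (3:ℝ) ≤ k := by exact_mod_cast hk
  have hk0 : (0:ℝ) < k := by linarith
  obtain ⟨c, s0, L0, S0, hc, hs0, hL0, hS0, h⟩ := lb_ratio k (by omega) (c1 := 1/((k:ℝ)+1))
    (by positivity)
  have hS0' : (1:ℝ) ≤ S0 := by exact_mod_cast hS0
  set c' : ℝ := (1 / (4 * S0)) * (√(2 / √k))⁻¹ ^ k * Real.exp (-((k:ℝ) ^ 2 / 2) - 1) with hc'
  have hc'0 : 0 < c' := by positivity
  -- choose C1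
  obtain ⟨C1, hC10, hC1⟩ : ∃ C1 : ℝ, 0 < C1 ∧ |B| + 1 ≤ c * (c' * Real.exp (C1 / 4)) := by
    refine ⟨4 * ((|B| + 1) / (c * c')), by positivity, ?_⟩
    have h1 := Real.add_one_le_exp ((|B| + 1) / (c * c'))
    have h2 : (4 * ((|B| + 1) / (c * c'))) / 4 = (|B| + 1) / (c * c') := by ring
    rw [h2]
    have h3 : (|B| + 1) / (c * c') ≤ Real.exp ((|B| + 1) / (c * c')) := by linarith
    calc |B| + 1 = c * (c' * ((|B| + 1) / (c * c'))) := by field_simp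
      _ ≤ _ := by gcongr
  obtain ⟨L2, hL2, hfacts⟩ := delta_facts2 k hk C1 hC10 S0 s0
  refine ⟨C1, max L0 L2, hC10, le_max_of_le_left hL0, ?_⟩
  intro N m hL hm hmhi
  set L := Real.log (Real.log N) with hLd
  obtain ⟨hD0, hD2, hDup, hkΔ, h2Δ, hcube, hΔL, hs0Δ, h8S, hKL⟩ :=
    hfacts L (le_trans (le_max_right _ _) hL)
  have hL3 : 3 ≤ L := by linarith [le_trans (le_max_left _ _) hL]
  have hLpos : 0 < L := by linarith
  set Δ := Df k C1 L with hΔ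
  have hsL : √L ^ 2 = L := Real.sq_sqrt hLpos.le
  have hsL0 : 0 < √L := Real.sqrt_pos.mpr hLpos
  have hK0 : (0:ℝ) < (k:ℝ) + 1 := by positivity
  have hmlo : 1/((k:ℝ)+1) * L ≤ m := by
    rw [one_div, inv_mul_le_iff₀ hK0]; linarith
  have hkm' : ((k:ℝ)+1) ≤ m := by
    have h1 : ((k:ℝ)+1) * ((k:ℝ)+1) ≤ ((k:ℝ)+1) * m := by
      calc ((k:ℝ)+1) * ((k:ℝ)+1) = ((k:ℝ)+1) ^ 2 := by ring
        _ ≤ L := hKL
        _ ≤ _ := by linarith
    exact le_of_mul_le_mul_left h1 hK0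
  have hkm : k + 1 ≤ m := by
    have : ((k + 1 : ℕ) : ℝ) ≤ m := by push_cast; exact hkm'
    exact_mod_cast this
  -- the scales
  set t0 : ℕ := ⌈Δ / (k * S0)⌉₊ with ht0
  set n : ℕ := ⌊√L / (2 * S0)⌋₊ with hn
  have ht0lo : Δ / (k * S0) ≤ t0 := Nat.le_ceil _
  have ht0hi : (t0:ℝ) < Δ / (k * S0) + 1 := Nat.ceil_lt_add_one (by positivity)
  have hnhi : (n:ℝ) ≤ √L / (2 * S0) := Nat.floor_le (by positivity)
  have hnlo : √L / (4 * S0) ≤ n := by
    have h1 := Nat.lt_floor_add_one (√L / (2 * S0))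
    have h2 : 1 ≤ √L / (4 * S0) := by
      rw [le_div_iff₀ (by positivity)]; linarith
    have h3 : √L / (2 * S0) = 2 * (√L / (4 * S0)) := by field_simp; ring
    rw [h3] at h1
    rw [hn, h3]
    linarith
  set S := (Ico t0 (t0 + n)).image (fun t => S0 * t) with hS
  have hinj : Set.InjOn (fun t => S0 * t) (Ico t0 (t0 + n) : Set ℕ) := by
    intro a _ b _ hab
    exact Nat.eq_of_mul_eq_mul_left (by omega) hab
  have hSle : ∀ s ∈ S, Δ ≤ k * (s:ℝ) ∧ k * (s:ℝ) ≤ Δ + k * √L := by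
    intro s hs
    rw [hS, mem_image] at hs
    obtain ⟨t, ht, rfl⟩ := hs
    rw [mem_Ico] at ht
    push_cast
    constructor
    · have h1 : Δ / (k * S0) ≤ t := ht0lo.trans (by exact_mod_cast ht.1)
      rw [div_le_iff₀ (by positivity)] at h1
      linarith
    · have h1 : (t:ℝ) ≤ t0 + n := by exact_mod_cast ht.2.le
      have h2 : (t:ℝ) ≤ Δ / (k * S0) + 1 + √L / (2 * S0) := by linarith
      calc k * (S0 * (t:ℝ)) ≤ k * (S0 * (Δ / (k * S0) + 1 + √L / (2 * S0))) := by gcongr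
        _ = Δ + k * (S0 + √L / 2) := by field_simp; ring
        _ ≤ Δ + k * √L := by
            have : (S0:ℝ) + √L / 2 ≤ √L := by linarith
            gcongr
  have hsfacts : ∀ s ∈ S, s0 ≤ (s:ℝ) ∧ k * (s:ℝ) ≤ 2 * Δ ∧ (s:ℝ) ≤ 4/5 * L := by
    intro s hs
    obtain ⟨h1, h2⟩ := hSle s hs
    refine ⟨?_, by linarith, ?_⟩
    · have : k * s0 ≤ k * (s:ℝ) := by linarith
      exact le_of_mul_le_mul_left this hk0
    · have : k * (s:ℝ) ≤ k * (4/5 * L) := by linarith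
      exact le_of_mul_le_mul_left this hk0
  have h1 := h N m S (le_trans (le_max_left _ _) hL) hmlo hmhi
    (fun s hs => ⟨(hsfacts s hs).1, (hsfacts s hs).2.2⟩) (by
    intro s hs s' hs' hss
    rw [hS, mem_image] at hs hs'
    obtain ⟨t, ht, rfl⟩ := hs
    obtain ⟨t', ht', rfl⟩ := hs'
    have : t < t' := lt_of_mul_lt_mul_left hss (Nat.zero_le _)
    calc S0 * t + S0 = S0 * (t + 1) := by ring
      _ ≤ S0 * t' := Nat.mul_le_mul_left _ this)
  refine lt_of_lt_of_le ?_ h1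
  set Q := Qf k C1 L with hQ
  have hterm : ∀ s ∈ S, (√(2 * Δ / k))⁻¹ ^ k * Real.exp (Q / 4 - k ^ 2 / 2 - 1) ≤
      Real.exp (-(k * s)) * ((√(s:ℝ))⁻¹ ^ k * (1 + k * s / L) ^ ((m - (k+1)) * (k+1))) := by
    intro s hs
    obtain ⟨hs1, hs2⟩ := hSle s hs
    obtain ⟨hs3, hs4, hs5⟩ := hsfacts s hs
    have hspos : (0:ℝ) < s := by linarith
    set u : ℝ := (k:ℝ) * s / L with hu
    have hu0 : 0 ≤ u := by positivity
    have h2 := pow_ge_exp hu0 ((m - (k+1)) * (k+1))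
    have hcast : (((m - (k+1)) * (k+1) : ℕ) : ℝ) = ((k:ℝ)+1) * m - (k+1) ^ 2 := by
      rw [Nat.cast_mul, Nat.cast_sub hkm]; push_cast; ring
    rw [hcast] at h2
    have hw0 : 0 ≤ k * (s:ℝ) - Δ := by linarith
    have hw1 : k * (s:ℝ) - Δ ≤ k * √L := by linarith
    have hw2 : (k * (s:ℝ) - Δ) ^ 2 ≤ k ^ 2 * L := by
      calc (k * (s:ℝ) - Δ) ^ 2 ≤ (k * √L) ^ 2 := by gcongr
        _ = _ := by rw [mul_pow, hsL]
    have hLu : L * u = k * s := by rw [hu]; field_simp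
    have hu2 : u ≤ 2 * Δ / L := by rw [hu]; gcongr
    have hu1 : u ≤ 1 := by
      refine hu2.trans ?_
      rw [div_le_one hLpos]
      have h8 : (1:ℝ) ≤ ((k:ℝ)+1) ^ 2 := one_le_pow₀ (by linarith)
      have h9 : 2 * Δ ≤ 2 * ((k:ℝ)+1) ^ 2 * Δ := by
        calc 2 * Δ = 2 * 1 * Δ := by ring
          _ ≤ _ := by gcongr
      linarith
    have huu : 0 ≤ u - u ^ 2 / 2 := by
      have h8 : u ^ 2 ≤ u := pow_le_of_le_one hu0 hu1 two_ne_zero
      linarith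
    have hexpo : Q / 4 - k ^ 2 / 2 - 1 ≤
        -(k * (s:ℝ)) + (((k:ℝ)+1) * m - (k+1) ^ 2) * (u - u ^ 2 / 2) := by
      have h3 : (L + Δ - (k+1) ^ 2) * (u - u ^ 2 / 2) ≤
          (((k:ℝ)+1) * m - (k+1) ^ 2) * (u - u ^ 2 / 2) := by
        gcongr
      have h4 : Δ * u - L * u ^ 2 / 2 = (Δ ^ 2 - (k * (s:ℝ) - Δ) ^ 2) / (2 * L) := by
        rw [hu]; field_simp; ring
      have h5 : Q / 4 - k ^ 2 / 2 ≤ Δ * u - L * u ^ 2 / 2 := by
        rw [h4, le_div_iff₀ (by positivity), hD2]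
        have e : (Q / 4 - (k:ℝ) ^ 2 / 2) * (2 * L) = L / 2 * Q - k ^ 2 * L := by ring
        rw [e]; linarith
      have h6 : Δ * u ^ 2 / 2 ≤ 1 / 2 := by
        have : Δ * u ^ 2 / 2 ≤ Δ * (2 * Δ / L) ^ 2 / 2 := by gcongr
        refine this.trans ?_
        have e : Δ * (2 * Δ / L) ^ 2 / 2 = 2 * Δ ^ 3 / L ^ 2 := by field_simp
        rw [e, div_le_iff₀ (by positivity)]
        linarith
      have h7 : ((k:ℝ)+1) ^ 2 * (u - u ^ 2 / 2) ≤ 1 / 2 := by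
        have : ((k:ℝ)+1) ^ 2 * (u - u ^ 2 / 2) ≤ ((k:ℝ)+1) ^ 2 * (2 * Δ / L) := by
          have h8 : 0 ≤ u ^ 2 / 2 := by positivity
          gcongr; linarith
        refine this.trans ?_
        rw [mul_div_assoc', div_le_iff₀ hLpos]
        linarith
      have h8 : (L + Δ - ((k:ℝ)+1) ^ 2) * (u - u ^ 2 / 2) = L * u + (Δ * u - L * u ^ 2 / 2) -
          Δ * u ^ 2 / 2 - ((k:ℝ)+1) ^ 2 * (u - u ^ 2 / 2) := by ring
      rw [h8, hLu] at h3
      linarith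
    have hsq : (√(2 * Δ / k))⁻¹ ^ k ≤ (√(s:ℝ))⁻¹ ^ k := by
      apply inv_sqrt_pow_le hspos
      rw [le_div_iff₀ hk0]; linarith
    calc (√(2 * Δ / k))⁻¹ ^ k * Real.exp (Q / 4 - k ^ 2 / 2 - 1)
        ≤ (√(s:ℝ))⁻¹ ^ k * Real.exp (-(k * (s:ℝ)) +
          (((k:ℝ)+1) * m - (k+1) ^ 2) * (u - u ^ 2 / 2)) := by gcongr
      _ = Real.exp (-(k * (s:ℝ))) * ((√(s:ℝ))⁻¹ ^ k *
          Real.exp ((((k:ℝ)+1) * m - (k+1) ^ 2) * (u - u ^ 2 / 2))) := by
          rw [Real.exp_add]; ring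
      _ ≤ _ := by gcongr
  have hlogL0 : 0 < Real.log L := Real.log_pos (by linarith)
  have hsum : c' * Real.exp (C1 / 4) ≤ ∑ s ∈ S, Real.exp (-(k * s)) * ((√(s:ℝ))⁻¹ ^ k *
      (1 + k * s / L) ^ ((m - (k+1)) * (k+1))) := by
    refine le_trans ?_ (Finset.sum_le_sum hterm)
    rw [Finset.sum_const, nsmul_eq_mul, hS, Finset.card_image_of_injOn hinj]
    simp only [Nat.card_Ico, add_tsub_cancel_left]
    have hsqD : √(2 * Δ / k) ≤ √(2 / √k) * Real.exp ((Real.log L + Real.log (Real.log L)) / 4) := by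
      rw [show Real.exp ((Real.log L + Real.log (Real.log L)) / 4) =
        √(Real.exp ((Real.log L + Real.log (Real.log L)) / 4) ^ 2) from
        (Real.sqrt_sq (Real.exp_pos _).le).symm, ← Real.sqrt_mul (by positivity)]
      apply Real.sqrt_le_sqrt
      have e1 : Real.exp ((Real.log L + Real.log (Real.log L)) / 4) ^ 2 =
          Real.exp ((Real.log L + Real.log (Real.log L)) / 2) := by
        rw [← Real.exp_nat_mul]; congr 1; push_cast; ring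
      rw [e1]
      have hskk : √(k:ℝ) * √k = k := Real.mul_self_sqrt hk0.le
      have hsk0 : 0 < √(k:ℝ) := Real.sqrt_pos.mpr hk0
      rw [div_le_iff₀ hk0]
      calc 2 * Δ ≤ 2 * (√k * Real.exp ((Real.log L + Real.log (Real.log L)) / 2)) := by gcongr
        _ = 2 / √k * Real.exp ((Real.log L + Real.log (Real.log L)) / 2) * (√(k:ℝ) * √k) := by
            field_simp
        _ = _ := by rw [hskk]
    have hsqD0 : 0 < √(2 * Δ / k) := Real.sqrt_pos.mpr (by positivity)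
    have h3 : (√(2 / √k) * Real.exp ((Real.log L + Real.log (Real.log L)) / 4))⁻¹ ^ k ≤
        (√(2 * Δ / k))⁻¹ ^ k := by
      gcongr
    have hsLe : √L = Real.exp (Real.log L / 2) := by
      rw [Real.sqrt_eq_rpow, Real.rpow_def_of_pos hLpos]; congr 1; ring
    calc c' * Real.exp (C1 / 4)
        = √L / (4 * S0) * ((√(2 / √k) * Real.exp ((Real.log L + Real.log (Real.log L)) / 4))⁻¹ ^ k *
          Real.exp (Q / 4 - k ^ 2 / 2 - 1)) := by
          rw [hsLe, hc', mul_inv, mul_pow, ← Real.exp_neg, ← Real.exp_nat_mul]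
          have e1 : Real.exp (-((k:ℝ) ^ 2 / 2) - 1) * Real.exp (C1 / 4) =
              Real.exp (Real.log L / 2) * (Real.exp (k * -((Real.log L + Real.log (Real.log L)) / 4))
              * Real.exp (Q / 4 - k ^ 2 / 2 - 1)) := by
            rw [← Real.exp_add, ← Real.exp_add, ← Real.exp_add]
            congr 1
            rw [hQ]; unfold Qf; ring
          calc 1 / (4 * (S0:ℝ)) * (√(2 / √k))⁻¹ ^ k * Real.exp (-((k:ℝ) ^ 2 / 2) - 1) *
                Real.exp (C1 / 4)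
              = 1 / (4 * (S0:ℝ)) * (√(2 / √k))⁻¹ ^ k * (Real.exp (-((k:ℝ) ^ 2 / 2) - 1) *
                Real.exp (C1 / 4)) := by ring
            _ = _ := by rw [e1]; ring
      _ ≤ n * ((√(2 * Δ / k))⁻¹ ^ k * Real.exp (Q / 4 - k ^ 2 / 2 - 1)) := by gcongr
  have hπ : 0 < (#(om m N) : ℝ) ^ (k+1) := by
    have := om_pos (two_pow_le_N (N := N) (m := m) (by linarith) (by linarith))
    positivity
  calc B * (#(om m N) : ℝ) ^ (k+1) < (|B| + 1) * (#(om m N) : ℝ) ^ (k+1) := by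
        have : B < |B| + 1 := by linarith [le_abs_self B]
        gcongr
    _ ≤ (c * (c' * Real.exp (C1 / 4))) * (#(om m N) : ℝ) ^ (k+1) := by gcongr
    _ = c * (#(om m N) : ℝ) ^ (k+1) * (c' * Real.exp (C1 / 4)) := by ring
    _ ≤ _ := by gcongr

end Pool.Agent.MP6396c4
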