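import Mathlib
import Pool.Agent.Lib.MP_6396c4_an.LBr0

open Finset ArithmeticFunction

noncomputable section

namespace Pool.Agent.MP6396c4

/-- harmonic type lower bound -/
lemma harm_lower {a b : ℕ} (ha : 1 ≤ a) (hab : a ≤ b) :
    Real.log ((b:ℝ) / a) ≤ ∑ t ∈ Ico a b, (t:ℝ)⁻¹ := by
  induction b, hab using Nat.le_induction with
  | base =>
    have : (a:ℝ) ≠ 0 := by positivity
    simp [div_self this]
  | succ b hab ih =>
    rw [Finset.sum_Ico_succ_top hab]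
    have ha0 : (0:ℝ) < a := by exact_mod_cast ha
    have hb0 : (0:ℝ) < b := by exact_mod_cast (lt_of_lt_of_le ha hab)
    have h1 : Real.log (((b+1 : ℕ):ℝ) / a) = Real.log ((b:ℝ) / a) + Real.log (1 + (b:ℝ)⁻¹) := by
      rw [← Real.log_mul (by positivity) (by positivity)]
      congr 1; push_cast; field_simp
    have h2 : Real.log (1 + (b:ℝ)⁻¹) ≤ (b:ℝ)⁻¹ := by
      have := Real.log_le_sub_one_of_pos (x := 1 + (b:ℝ)⁻¹) (by positivity)
      linarith
    linarith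

/-- `K = 3`. -/
theorem region_three (B : ℝ) : ∃ C1 L1 : ℝ, 1 ≤ C1 ∧ 3 ≤ L1 ∧ ∀ N m : ℕ,
    L1 ≤ Real.log (Real.log N) → (1/3 - 1/C1) * Real.log (Real.log N) < m →
    (m:ℝ) ≤ 19/10 * Real.log (Real.log N) → B * (#(om m N) : ℝ) ^ 3 < #(sols 3 N m) := by
  obtain ⟨c, s0, L0, S0, hc, hs0, hL0, hS0, h⟩ := lb_ratio 2 (by norm_num) (c1 := 1/6) (by norm_num)
  have hS0' : (0:ℝ) < S0 := by exact_mod_cast hS0
  -- choose t0, t1
  set t0 : ℕ := ⌈s0⌉₊ with ht0
  have ht01 : 1 ≤ t0 := by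
    rw [ht0, Nat.one_le_ceil_iff]; linarith
  have ht0' : (0:ℝ) < t0 := by exact_mod_cast ht01
  -- need c * e^{-26} / S0 * log (t1/t0) > B
  obtain ⟨t1, ht1⟩ : ∃ t1 : ℕ, (t0:ℝ) * Real.exp ((|B| + 1) * S0 / (c * Real.exp (-26))) ≤ t1 :=
    exists_nat_ge _
  have hx0 : 0 ≤ (|B| + 1) * S0 / (c * Real.exp (-26)) := by positivity
  have ht01' : t0 ≤ t1 := by
    have h1 := Real.one_le_exp hx0
    have : (t0:ℝ) ≤ t1 := (le_mul_of_one_le_right ht0'.le h1).trans ht1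
    exact_mod_cast this
  have ht1p : (0:ℝ) < t1 := by
    have : (t0:ℝ) ≤ t1 := by exact_mod_cast ht01'
    linarith
  set R : ℝ := S0 * t1 with hR
  have hR1 : 1 ≤ R := by
    rw [hR]
    have h1 : (1:ℝ) ≤ S0 := by exact_mod_cast hS0
    have h2 : (1:ℝ) ≤ t1 := by exact_mod_cast (ht01.trans ht01')
    exact one_le_mul_of_one_le_of_one_le h1 h2
  refine ⟨6 + R, L0 + 54 + 2 * R ^ 2, by linarith, by have := sq_nonneg R; linarith, ?_⟩
  intro N m hL hm hmhi
  set L := Real.log (Real.log N) with hLd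
  have hR2 : 0 ≤ R ^ 2 := sq_nonneg R
  have hL54 : 54 ≤ L := by linarith
  have hLpos : 0 < L := by linarith
  have hLR : R ^ 2 ≤ L := by linarith
  have hLR2 : 2 * R ≤ L := by
    have h11 := sq_nonneg (R - 1)
    have e : (R - 1) ^ 2 = R ^ 2 - 2 * R + 1 := by ring
    linarith
  have hCp : 0 < 6 + R := by linarith
  have hmlo : 1/6 * L ≤ m := by
    have : 1 / (6 + R) ≤ 1/6 := by
      apply one_div_le_one_div_of_le (by norm_num); linarith
    have h11 : (1/3 - 1/6) * L ≤ (1/3 - 1/(6 + R)) * L :=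
      mul_le_mul_of_nonneg_right (by linarith) hLpos.le
    linarith
  have hm3 : 3 ≤ m := by
    have : (3:ℝ) ≤ m := by linarith
    exact_mod_cast this
  set S := (Ico t0 t1).image (fun t => S0 * t) with hS
  have hinj : Set.InjOn (fun t => S0 * t) (Ico t0 t1 : Set ℕ) := by
    intro a _ b _ hab
    exact Nat.eq_of_mul_eq_mul_left (by omega) hab
  have hSle : ∀ s ∈ S, (s:ℝ) ≤ R ∧ s0 ≤ s := by
    intro s hs
    rw [hS, mem_image] at hs
    obtain ⟨t, ht, rfl⟩ := hs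
    rw [mem_Ico] at ht
    push_cast
    constructor
    · rw [hR]
      have : (t:ℝ) ≤ t1 := by exact_mod_cast ht.2.le
      gcongr
    · have h1 : (1:ℝ) ≤ S0 := by exact_mod_cast hS0
      have h2 : (t0:ℝ) ≤ t := by exact_mod_cast ht.1
      have h3 : s0 ≤ t0 := Nat.le_ceil s0
      exact (h3.trans h2).trans (le_mul_of_one_le_left (Nat.cast_nonneg t) h1)
  have h1 := h N m S (by linarith) hmlo hmhi (fun s hs => ⟨(hSle s hs).2, by
      have := (hSle s hs).1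
      linarith⟩) (by
    intro s hs s' hs' hss
    rw [hS, mem_image] at hs hs'
    obtain ⟨t, ht, rfl⟩ := hs
    obtain ⟨t', ht', rfl⟩ := hs'
    have : t < t' := lt_of_mul_lt_mul_left hss (Nat.zero_le _)
    calc S0 * t + S0 = S0 * (t + 1) := by ring
      _ ≤ S0 * t' := Nat.mul_le_mul_left _ this)
  refine lt_of_lt_of_le ?_ h1
  have hterm : ∀ s ∈ S, Real.exp (-26) * (s:ℝ)⁻¹ ≤ Real.exp (-((2:ℕ) * s)) * ((√(s:ℝ))⁻¹ ^ 2 *
        (1 + (2:ℕ) * s / L) ^ ((m - (2+1)) * (2+1))) := by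
    intro s hs
    obtain ⟨hsR, hss0⟩ := hSle s hs
    have hspos : (0:ℝ) < s := by linarith
    have e1 : (√(s:ℝ))⁻¹ ^ 2 = (s:ℝ)⁻¹ := by
      rw [inv_pow, Real.sq_sqrt hspos.le]
    rw [e1]
    set u : ℝ := ((2:ℕ):ℝ) * s / L with hu
    have hu0 : 0 ≤ u := by positivity
    have h2 := pow_ge_exp hu0 ((m - (2+1)) * (2+1))
    have hcast : (((m - (2+1)) * (2+1) : ℕ) : ℝ) = 3 * m - 9 := by
      push_cast [Nat.cast_sub hm3]
      ring
    rw [hcast] at h2
    have hexpo : -26 ≤ -(((2:ℕ):ℝ) * s) + (3 * m - 9) * (u - u ^ 2 / 2) := by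
      have hu1 : u ≤ 1 := by
        rw [hu, div_le_one hLpos]; push_cast; linarith
      have hw : 0 ≤ u - u ^ 2 / 2 := by
        have : u * u ≤ 1 * u := mul_le_mul_of_nonneg_right hu1 hu0
        rw [pow_two]; linarith
      have hm' : L - 3 * L / (6 + R) - 9 ≤ 3 * m - 9 := by
        have : 3 * ((1/3 - 1/(6 + R)) * L) = L - 3 * L / (6 + R) := by ring
        linarith
      have h3 : (L - 3 * L / (6 + R) - 9) * (u - u ^ 2 / 2) ≤ (3 * m - 9) * (u - u ^ 2 / 2) := by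
        gcongr
      have hLu : L * u = 2 * s := by rw [hu]; push_cast; field_simp
      have hLu2 : L * u ^ 2 / 2 ≤ 2 := by
        have : L * u ^ 2 / 2 = 2 * s ^ 2 / L := by rw [hu]; push_cast; field_simp
        rw [this, div_le_iff₀ hLpos]
        have : (s:ℝ) ^ 2 ≤ R ^ 2 := by gcongr
        linarith
      have h4 : 3 * L / (6 + R) * (u - u ^ 2 / 2) ≤ 6 := by
        calc 3 * L / (6 + R) * (u - u ^ 2 / 2) ≤ 3 * L / (6 + R) * u := by
              have : 0 ≤ u ^ 2 / 2 := by positivity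
              gcongr; linarith
          _ = 3 * (2 * s) / (6 + R) := by rw [← hLu]; ring
          _ ≤ 6 := by rw [div_le_iff₀ hCp]; linarith
      have h5 : 9 * (u - u ^ 2 / 2) ≤ 9 := by
        have := sq_nonneg u
        linarith
      have e : (L - 3 * L / (6 + R) - 9) * (u - u ^ 2 / 2) =
        L * u - L * u ^ 2 / 2 - 3 * L / (6 + R) * (u - u ^ 2 / 2) - 9 * (u - u ^ 2 / 2) := by ring
      rw [e, hLu] at h3
      push_cast
      linarith
    calc Real.exp (-26) * (s:ℝ)⁻¹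
        ≤ Real.exp (-(((2:ℕ):ℝ) * s) + (3 * m - 9) * (u - u ^ 2 / 2)) * (s:ℝ)⁻¹ := by gcongr
      _ = Real.exp (-(((2:ℕ):ℝ) * s)) * ((s:ℝ)⁻¹ * Real.exp ((3 * m - 9) * (u - u ^ 2 / 2))) := by
          rw [Real.exp_add]; ring
      _ ≤ _ := by gcongr
  have hsum : Real.exp (-26) * (1 / S0 * Real.log ((t1:ℝ) / t0)) ≤
      ∑ s ∈ S, Real.exp (-((2:ℕ) * s)) * ((√(s:ℝ))⁻¹ ^ 2 *
        (1 + (2:ℕ) * s / L) ^ ((m - (2+1)) * (2+1))) := by
    refine le_trans ?_ (Finset.sum_le_sum hterm)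
    rw [← Finset.mul_sum, hS, Finset.sum_image hinj]
    have h2 : ∑ t ∈ Ico t0 t1, (((S0 * t : ℕ)) : ℝ)⁻¹ = 1 / S0 * ∑ t ∈ Ico t0 t1, (t:ℝ)⁻¹ := by
      rw [Finset.mul_sum]
      apply Finset.sum_congr rfl
      intro t _
      push_cast
      rw [mul_inv]; ring
    rw [h2]
    have := harm_lower ht01 ht01'
    gcongr
  have hlog : (|B| + 1) * S0 / (c * Real.exp (-26)) ≤ Real.log ((t1:ℝ) / t0) := by
    rw [Real.le_log_iff_exp_le (by positivity), le_div_iff₀ ht0']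
    linarith
  have hπ : 0 < (#(om m N) : ℝ) ^ (2+1) := by
    have hm2 : 2 ^ m ≤ N := two_pow_le_N (by linarith) (by linarith)
    have := om_pos hm2
    positivity
  calc B * (#(om m N) : ℝ) ^ 3 < (|B| + 1) * (#(om m N) : ℝ) ^ (2+1) := by
        have : B < |B| + 1 := by linarith [le_abs_self B]
        gcongr
    _ = c * (#(om m N) : ℝ) ^ (2+1) * (Real.exp (-26) * (1 / S0 *
          ((|B| + 1) * S0 / (c * Real.exp (-26))))) := by field_simp
    _ ≤ c * (#(om m N) : ℝ) ^ (2+1) * (Real.exp (-26) * (1 / S0 * Real.log ((t1:ℝ) / t0))) := by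
        gcongr
    _ ≤ _ := by gcongr

end Pool.Agent.MP6396c4
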