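import Mathlib
import Pool.Agent.Lib.MP_6396c4_an.Sols

open Finset ArithmeticFunction MeasureTheory

noncomputable section

namespace Pool.Agent.MP6396c4

/-- The infinite torus `𝕋^∞`: one point `θ_p` of `ℝ/ℤ` for every prime `p`. -/
abbrev Torus : Type := Nat.Primes → AddCircle (1 : ℝ)

/-- The product of the normalised Haar (Lebesgue) measures. -/
def torusMeasure : Measure Torus := Measure.infinitePi fun _ => AddCircle.haarAddCircle

/-- The coordinate `z_p = e^{2 π i θ_p}`. -/
def zc (x : Torus) (p : Nat.Primes) : ℂ := (AddCircle.toCircle (x p) : ℂ)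

/-- The monomial `∏_p z_p ^ (v_p(n))` corresponding to `n ^ (-s)`. -/
def mono (n : ℕ) (x : Torus) : ℂ := ∏ᶠ p : Nat.Primes, zc x p ^ (n.factorization p)

/-- The polynomial of `F_{N,m}(s) = ∑_{n ≤ N, Ω(n) = m} n^{-s}`. -/
def FNm (N m : ℕ) (x : Torus) : ℂ :=
  ∑ n ∈ (Icc 1 N).filter (fun n => cardFactors n = m), mono n x

/-- `‖f‖_q = (∫_{𝕋^∞} |f|^q)^{1/q}`. -/
def normT (q : ℝ) (f : Torus → ℂ) : ℝ := (∫ x, ‖f x‖ ^ q ∂torusMeasure) ^ (1 / q)

instance : IsProbabilityMeasure torusMeasure := by
  unfold torusMeasure; infer_instance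

lemma int_fourier (n : ℤ) : ∫ x : AddCircle (1:ℝ), (fourier n x : ℂ) ∂AddCircle.haarAddCircle =
    if n = 0 then 1 else 0 := by
  split_ifs with h
  · subst h
    simp
  · exact integral_eq_zero_of_add_right_eq_neg (fourier_add_half_inv_index h one_pos)

lemma zc_eq (x : Torus) (p : Nat.Primes) : zc x p = fourier 1 (x p) := by
  unfold zc; rw [fourier_one]

/-- primes in a finite set, as a finset of the subtype -/
def prs (M : ℕ) : Finset Nat.Primes := (M.primeFactors).subtype Nat.Prime |>.image
  (fun p => (⟨p.1, p.2⟩ : Nat.Primes))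

lemma mem_prs {M : ℕ} {p : Nat.Primes} : p ∈ prs M ↔ (p : ℕ) ∈ M.primeFactors := by
  unfold prs
  rw [mem_image]
  constructor
  · rintro ⟨q, hq, rfl⟩
    rw [mem_subtype] at hq
    exact hq
  · intro h
    exact ⟨⟨p.1, p.2⟩, by rw [mem_subtype]; exact h, rfl⟩

lemma mono_eq {n M : ℕ} (hM : M ≠ 0) (h : n ∣ M) (x : Torus) :
    mono n x = ∏ p ∈ prs M, fourier ((n.factorization p : ℕ) : ℤ) (x p) := by
  unfold mono
  rw [finprod_eq_prod_of_mulSupport_subset (s := prs M)]
  · apply Finset.prod_congr rfl
    intro p _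
    rw [zc_eq]
    induction (n.factorization (p:ℕ)) with
    | zero => simp
    | succ k ih =>
      rw [pow_succ, ih]
      push_cast
      rw [fourier_add]
  · intro p hp
    rw [Function.mem_mulSupport] at hp
    rw [mem_coe, mem_prs, Nat.mem_primeFactors]
    refine ⟨p.2, ?_, hM⟩
    by_contra hc
    apply hp
    have : n.factorization (p:ℕ) = 0 := by
      apply Nat.factorization_eq_zero_of_not_dvd
      intro h2
      exact hc (h2.trans h)
    rw [this, pow_zero]

lemma mono_one (x : Torus) : mono 1 x = 1 := by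
  rw [mono_eq one_ne_zero dvd_rfl]
  have : prs 1 = ∅ := by
    ext p
    rw [mem_prs]
    simp
  rw [this, prod_empty]

lemma mono_mul {a b : ℕ} (ha : a ≠ 0) (hb : b ≠ 0) (x : Torus) :
    mono (a * b) x = mono a x * mono b x := by
  have hab : a * b ≠ 0 := Nat.mul_ne_zero ha hb
  rw [mono_eq hab dvd_rfl, mono_eq hab (Dvd.intro b rfl), mono_eq hab (Dvd.intro_left a rfl),
    ← Finset.prod_mul_distrib]
  apply Finset.prod_congr rfl
  intro p _
  rw [← fourier_add, Nat.factorization_mul ha hb]
  simp

lemma mono_prod {ι : Type*} (s : Finset ι) (a : ι → ℕ) (ha : ∀ i ∈ s, a i ≠ 0) (x : Torus) :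
    ∏ i ∈ s, mono (a i) x = mono (∏ i ∈ s, a i) x := by
  classical
  induction s using Finset.induction_on with
  | empty => rw [prod_empty, prod_empty, mono_one]
  | insert j s hj ih =>
    rw [prod_insert hj, prod_insert hj, ih (fun i hi => ha i (mem_insert_of_mem hi)),
      mono_mul (ha j (mem_insert_self j s))
        (Finset.prod_ne_zero_iff.mpr fun i hi => ha i (mem_insert_of_mem hi))]

lemma mono_conj_eq {A B : ℕ} (hA : A ≠ 0) (hB : B ≠ 0) (x : Torus) :
    mono A x * (starRingEnd ℂ) (mono B x) =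
      (fun y : (∀ _ : prs (A * B), AddCircle (1:ℝ)) =>
        ∏ i : prs (A * B), fourier (((A.factorization (i : Nat.Primes) : ℕ) : ℤ) -
          ((B.factorization (i : Nat.Primes) : ℕ) : ℤ)) (y i)) ((prs (A * B)).restrict x) := by
  have hab : A * B ≠ 0 := Nat.mul_ne_zero hA hB
  rw [mono_eq hab (Dvd.intro B rfl), mono_eq hab (Dvd.intro_left A rfl), map_prod,
    ← Finset.prod_mul_distrib]
  simp only [Finset.restrict]
  rw [Finset.prod_coe_sort (prs (A * B)) (fun p => fourier (((A.factorization (p : ℕ) : ℕ) : ℤ) -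
          ((B.factorization (p : ℕ) : ℕ) : ℤ)) (x p))]
  apply Finset.prod_congr rfl
  intro p _
  rw [← fourier_neg, ← fourier_add, sub_eq_add_neg]

lemma orthogonality {A B : ℕ} (hA : A ≠ 0) (hB : B ≠ 0) :
    ∫ x, mono A x * (starRingEnd ℂ) (mono B x) ∂torusMeasure = if A = B then 1 else 0 := by
  have hmeas : AEStronglyMeasurable (fun y : (∀ _ : prs (A * B), AddCircle (1:ℝ)) =>
        ∏ i : prs (A * B), (fourier (((A.factorization (i : Nat.Primes) : ℕ) : ℤ) -
          ((B.factorization (i : Nat.Primes) : ℕ) : ℤ)) (y i) : ℂ))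
        (Measure.pi (fun _ : prs (A * B) => AddCircle.haarAddCircle)) := by
    apply Continuous.aestronglyMeasurable
    apply continuous_finsetProd
    intro i _
    exact (ContinuousMap.continuous _).comp (continuous_apply i)
  have hstep := integral_restrict_infinitePi (μ := fun _ : Nat.Primes => AddCircle.haarAddCircle)
    (s := prs (A * B)) hmeas
  have hstep2 : ∫ x, mono A x * (starRingEnd ℂ) (mono B x) ∂torusMeasure =
      ∫ y : (∀ _ : prs (A * B), AddCircle (1:ℝ)),
        ∏ i : prs (A * B), (fourier (((A.factorization (i : Nat.Primes) : ℕ) : ℤ) -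
          ((B.factorization (i : Nat.Primes) : ℕ) : ℤ)) (y i) : ℂ)
        ∂(Measure.pi (fun _ : prs (A * B) => AddCircle.haarAddCircle)) := by
    rw [← hstep]
    exact integral_congr_ae (ae_of_all _ (fun x => mono_conj_eq hA hB x))
  rw [hstep2]
  · rw [integral_fintype_prod_eq_prod (μ := fun _ : prs (A * B) => AddCircle.haarAddCircle)
      (fun (i : prs (A * B)) (t : AddCircle (1:ℝ)) =>
        fourier (((A.factorization (i : Nat.Primes) : ℕ) : ℤ) -
          ((B.factorization (i : Nat.Primes) : ℕ) : ℤ)) t)]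
    simp_rw [int_fourier]
    split_ifs with h
    · subst h
      simp
    · -- there is a prime where the valuations differ
      have hex : ∃ p : ℕ, A.factorization p ≠ B.factorization p := by
        by_contra hc
        push Not at hc
        exact h (Nat.eq_of_factorization_eq hA hB hc)
      obtain ⟨p, hp⟩ := hex
      have hpp : p.Prime := by
        by_contra hnp
        apply hp
        rw [Nat.factorization_eq_zero_of_not_prime _ hnp, Nat.factorization_eq_zero_of_not_prime _ hnp]
      obtain ⟨q, rfl⟩ : ∃ q : Nat.Primes, (q:ℕ) = p := ⟨⟨p, hpp⟩, rfl⟩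
      set p : ℕ := (q:ℕ) with hpq
      have hpm : q ∈ prs (A * B) := by
        apply mem_prs.mpr
        rw [Nat.mem_primeFactors]
        refine ⟨hpp, ?_, Nat.mul_ne_zero hA hB⟩
        by_contra hnd
        apply hp
        have h1 : ¬ p ∣ A := fun h => hnd (h.mul_right B)
        have h2 : ¬ p ∣ B := fun h => hnd (h.mul_left A)
        rw [Nat.factorization_eq_zero_of_not_dvd h1, Nat.factorization_eq_zero_of_not_dvd h2]
      apply Finset.prod_eq_zero (mem_univ (⟨q, hpm⟩ : prs (A * B)))
      rw [if_neg]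
      intro h0
      apply hp
      have : (A.factorization p : ℤ) = (B.factorization p : ℤ) := by
        have := sub_eq_zero.mp h0
        exact this
      exact_mod_cast this

lemma norm_mono {n : ℕ} (hn : n ≠ 0) (x : Torus) : ‖mono n x‖ = 1 := by
  rw [mono_eq hn dvd_rfl, norm_prod]
  apply Finset.prod_eq_one
  intro p _
  rw [fourier_apply]
  exact Circle.norm_coe _

lemma measurable_mono {n : ℕ} (hn : n ≠ 0) : Measurable (mono n) := by
  have : mono n = fun x => ∏ p ∈ prs n, fourier ((n.factorization p : ℕ) : ℤ) (x p) := by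
    funext x; exact mono_eq hn dvd_rfl x
  rw [this]
  apply Finset.measurable_fun_prod
  intro p _
  exact (ContinuousMap.continuous _).measurable.comp (measurable_pi_apply p)

lemma integrable_term {A B : ℕ} (hA : A ≠ 0) (hB : B ≠ 0) :
    Integrable (fun x => mono A x * (starRingEnd ℂ) (mono B x)) torusMeasure := by
  apply Integrable.of_bound (C := 1)
  · apply Measurable.aestronglyMeasurable
    apply (measurable_mono hA).mul
    exact (Complex.continuous_conj.measurable).comp (measurable_mono hB)
  · filter_upwards with x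
    rw [norm_mul, RCLike.norm_conj, norm_mono hA, norm_mono hB, mul_one]

lemma FNm_pow (k N m : ℕ) (x : Torus) : (FNm N m x) ^ k =
    ∑ a ∈ Fintype.piFinset (fun _ : Fin k => om m N), mono (∏ i, a i) x := by
  have h1 : (FNm N m x) ^ k = ∏ _i : Fin k, ∑ n ∈ om m N, mono n x := by
    rw [Finset.prod_const, card_univ, Fintype.card_fin]; rfl
  rw [h1, Finset.prod_univ_sum]
  apply Finset.sum_congr rfl
  intro a ha
  rw [Fintype.mem_piFinset] at ha
  rw [mono_prod]
  intro i _
  have := (mem_om.mp (ha i)).1.1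
  omega

theorem moment_eq (k N m : ℕ) :
    ∫ x, ‖FNm N m x‖ ^ (2 * (k:ℝ)) ∂torusMeasure = #(sols k N m) := by
  classical
  set P := Fintype.piFinset (fun _ : Fin k => om m N) with hP
  have hne : ∀ a ∈ P, ∏ i, a i ≠ 0 := by
    intro a ha
    rw [hP, Fintype.mem_piFinset] at ha
    apply Finset.prod_ne_zero_iff.mpr
    intro i _
    have := (mem_om.mp (ha i)).1.1
    omega
  have h1 : ∀ x, ((‖FNm N m x‖ ^ (2 * (k:ℝ)) : ℝ) : ℂ) =
      ∑ a ∈ P, ∑ b ∈ P, mono (∏ i, a i) x * (starRingEnd ℂ) (mono (∏ i, b i) x) := by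
    intro x
    have e1 : ‖FNm N m x‖ ^ (2 * (k:ℝ)) = (‖FNm N m x‖ ^ 2) ^ k := by
      rw [Real.rpow_mul (norm_nonneg _), Real.rpow_natCast]
      norm_num
    rw [e1]
    push_cast
    rw [← Complex.mul_conj', mul_pow, ← map_pow, FNm_pow, map_sum, Finset.sum_mul_sum]
  have h2 : ((∫ x, ‖FNm N m x‖ ^ (2 * (k:ℝ)) ∂torusMeasure : ℝ) : ℂ) = ((#(sols k N m) : ℝ) : ℂ) := by
    rw [← integral_complex_ofReal]
    simp_rw [h1]
    rw [integral_finsetSum]
    · have h3 : ∀ a ∈ P, ∫ x, ∑ b ∈ P, mono (∏ i, a i) x * (starRingEnd ℂ) (mono (∏ i, b i) x)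
          ∂torusMeasure = ∑ b ∈ P, (if ∏ i, a i = ∏ i, b i then 1 else 0 : ℂ) := by
        intro a ha
        rw [integral_finsetSum]
        · apply Finset.sum_congr rfl
          intro b hb
          exact orthogonality (hne a ha) (hne b hb)
        · intro b hb
          exact integrable_term (hne a ha) (hne b hb)
      rw [Finset.sum_congr rfl h3]
      have h4 : (#(sols k N m) : ℝ) = ∑ a ∈ P, ∑ b ∈ P, (if ∏ i, a i = ∏ i, b i then 1 else 0 : ℝ) := by
        rw [← Finset.sum_product']
        unfold sols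
        rw [Finset.card_filter]
        push_cast
        rfl
      rw [h4]
      push_cast
      apply Finset.sum_congr rfl
      intro a _
      apply Finset.sum_congr rfl
      intro b _
      split_ifs <;> simp
    · intro a ha
      apply integrable_finsetSum
      intro b hb
      exact integrable_term (hne a ha) (hne b hb)
  exact_mod_cast h2

end Pool.Agent.MP6396c4
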