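import Mathlib
import Pool.Agent.Lib.MP_6396c4_an.Base

open Finset

noncomputable section

namespace Pool.Agent.MP6396c4

/-- sum along a path. -/
lemma path_sum {A : Type*} [AddCommGroup A] [Fintype A] [DecidableEq A] (k : ℕ) (F : A → ℝ)
    (h : Fin k → A → ℝ) (hF : ∀ a, 0 ≤ F a) (hh : ∀ l a, 0 ≤ h l a) :
    ∑ x : Fin (k+1) → A, ∑ y : Fin (k+1) → A,
      (∏ i, F (x i - y i)) * ∏ l : Fin k, h l (x l.succ - y l.castSucc) ≤
      (Fintype.card A) * (∑ a, F a) ^ (k+1) * ∏ l : Fin k, ∑ a, h l a := by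
  classical
  have hR : (Fintype.card A : ℝ) * (∑ a, F a) ^ (k+1) * ∏ l : Fin k, ∑ a, h l a =
      ∑ z : A × (Fin (k+1) → A) × (Fin k → A), (∏ i, F (z.2.1 i)) * ∏ l, h l (z.2.2 l) := by
    rw [Fintype.sum_prod_type]
    simp only
    rw [Finset.sum_const, Finset.card_univ, nsmul_eq_mul, Fintype.sum_prod_type, mul_assoc]
    congr 1
    simp only
    rw [← Finset.sum_mul_sum]
    congr 1
    · have := Finset.prod_univ_sum (fun _ : Fin (k+1) => (univ : Finset A)) (fun _ a => F a)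
      rw [Finset.prod_const, Finset.card_univ, Fintype.card_fin] at this
      rw [this, Fintype.piFinset_univ]
    · have := Finset.prod_univ_sum (fun _ : Fin k => (univ : Finset A)) (fun l a => h l a)
      rw [this, Fintype.piFinset_univ]
  rw [hR, ← Fintype.sum_prod_type']
  -- injection
  set m : (Fin (k+1) → A) × (Fin (k+1) → A) → A × (Fin (k+1) → A) × (Fin k → A) :=
    fun z => (z.1 0, fun i => z.1 i - z.2 i, fun l => z.1 l.succ - z.2 l.castSucc) with hm
  have hinj : Function.Injective m := by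
    rintro ⟨x, y⟩ ⟨x', y'⟩ heq
    simp only [hm, Prod.mk.injEq] at heq
    obtain ⟨h0, ha, hb⟩ := heq
    have hx : ∀ i : Fin (k+1), x i = x' i := by
      intro i
      induction i using Fin.induction with
      | zero => exact h0
      | succ l ih =>
        have h1 := congrFun ha l.castSucc
        have h2 := congrFun hb l
        rw [ih] at h1
        have h3 : y l.castSucc = y' l.castSucc := sub_right_injective h1
        rw [h3] at h2
        exact sub_left_injective h2
    have hy : ∀ i : Fin (k+1), y i = y' i := by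
      intro i
      have h1 := congrFun ha i
      rw [hx i] at h1
      exact sub_right_injective h1
    rw [Prod.mk.injEq]
    exact ⟨funext hx, funext hy⟩
  calc ∑ z : (Fin (k+1) → A) × (Fin (k+1) → A),
        (∏ i, F (z.1 i - z.2 i)) * ∏ l : Fin k, h l (z.1 l.succ - z.2 l.castSucc)
      = ∑ z ∈ univ.map ⟨m, hinj⟩, (∏ i, F (z.2.1 i)) * ∏ l, h l (z.2.2 l) := by
        rw [Finset.sum_map]; rfl
    _ ≤ _ := by
        apply Finset.sum_le_sum_of_subset_of_nonneg (Finset.subset_univ _)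
        intro z _ _
        exact mul_nonneg (Finset.prod_nonneg fun i _ => hF _) (Finset.prod_nonneg fun l _ => hh _ _)

/-- `1 - cos (2πt) ≥ 8 t²` for `0 ≤ t ≤ 1/2`. -/
lemma one_sub_cos_ge {t : ℝ} (h0 : 0 ≤ t) (h1 : t ≤ 1/2) :
    8 * t ^ 2 ≤ 1 - Real.cos (2 * Real.pi * t) := by
  have hpi := Real.pi_pos
  have h2 : 1 - Real.cos (2 * Real.pi * t) = 2 * Real.sin (Real.pi * t) ^ 2 := by
    have : 2 * Real.pi * t = 2 * (Real.pi * t) := by ring
    rw [this, Real.cos_two_mul, ← Real.sin_sq_add_cos_sq (Real.pi * t)]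
    ring
  have h3 : 2 * t ≤ Real.sin (Real.pi * t) := by
    have := Real.mul_le_sin (x := Real.pi * t) (by positivity) (by nlinarith)
    have e : 2 / Real.pi * (Real.pi * t) = 2 * t := by field_simp
    linarith
  rw [h2]
  nlinarith

/-- the average of `exp (-w (1 - cos θ))` over `M`-th roots of unity. -/
lemma cos_average {M : ℕ} (hM : 1 ≤ M) {w : ℝ} (hw : 0 ≤ w) (hMw : 1 + w ≤ (M : ℝ) ^ 2) :
    ∑ j ∈ range M, Real.exp (-(w * (1 - Real.cos (2 * Real.pi * (j / M))))) ≤
      16 * M / √(1 + w) := by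
  have hM0 : (0:ℝ) < M := by exact_mod_cast hM
  set R := √(1 + w) with hR
  have hR1 : 1 ≤ R := Real.one_le_sqrt.mpr (by linarith)
  have hRM : R ≤ M := by
    rw [hR]; exact Real.sqrt_le_iff.mpr ⟨hM0.le, hMw⟩
  have hRsq : R ^ 2 = 1 + w := Real.sq_sqrt (by linarith)
  set q := ⌈M / R⌉₊ with hq
  have hq1 : 1 ≤ q := Nat.one_le_ceil_iff.mpr (by positivity)
  have hq2 : (q : ℝ) ≤ 2 * (M / R) := by
    have := Nat.ceil_lt_add_one (show 0 ≤ M / R by positivity)
    have h1 : 1 ≤ M / R := by rw [le_div_iff₀ (by linarith)]; linarith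
    linarith
  have hq3 : M / R ≤ q := Nat.le_ceil _
  have hq1' : (1:ℝ) ≤ q := by exact_mod_cast hq1
  -- pointwise bound
  have hpt : ∀ j : ℕ, (j : ℝ) ≤ M / 2 →
      Real.exp (-(w * (1 - Real.cos (2 * Real.pi * (j / M))))) ≤
        if j < q then 1 else (q:ℝ) ^ 2 * ((j:ℝ) ^ 2)⁻¹ := by
    intro j hj
    have ht0 : 0 ≤ (j:ℝ) / M := by positivity
    have ht1 : (j:ℝ) / M ≤ 1/2 := by rw [div_le_iff₀ hM0]; linarith
    have h1 := one_sub_cos_ge ht0 ht1
    have h2 : 0 ≤ w * (1 - Real.cos (2 * Real.pi * (j / M))) := by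
      apply mul_nonneg hw; linarith [Real.cos_le_one (2 * Real.pi * (j / M))]
    split_ifs with hjq
    · exact Real.exp_le_one_iff.mpr (by linarith)
    · push Not at hjq
      have hjpos : (0:ℝ) < j := by
        have : 0 < j := by omega
        exact_mod_cast this
      have hjq' : (q:ℝ) ≤ j := by exact_mod_cast hjq
      -- exp(-y) ≤ 1/(1+y)
      have h3 : Real.exp (-(w * (1 - Real.cos (2 * Real.pi * (j / M))))) ≤
          1 / (1 + w * (8 * ((j:ℝ) / M) ^ 2)) := by
        rw [Real.exp_neg, ← one_div]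
        apply one_div_le_one_div_of_le (by positivity)
        have := Real.add_one_le_exp (w * (1 - Real.cos (2 * Real.pi * (j / M))))
        have h4 : w * (8 * ((j:ℝ) / M) ^ 2) ≤ w * (1 - Real.cos (2 * Real.pi * (j / M))) := by
          gcongr
        linarith
      refine h3.trans ?_
      rw [← div_eq_mul_inv, div_le_div_iff₀ (by positivity) (by positivity), one_mul]
      have h5 : (M:ℝ) ^ 2 ≤ (q:ℝ) ^ 2 * (1 + w) := by
        have : (M:ℝ) ≤ q * R := by
          rw [div_le_iff₀ (by linarith)] at hq3; exact hq3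
        calc (M:ℝ) ^ 2 ≤ (q * R) ^ 2 := by gcongr
          _ = _ := by rw [mul_pow, hRsq]
      have h6 : (q:ℝ) ^ 2 * (w * (8 * ((j:ℝ) / M) ^ 2)) = 8 * (j:ℝ) ^ 2 * ((q:ℝ) ^ 2 * w / M ^ 2) := by
        field_simp
      have h7 : 1 ≤ ((q:ℝ) ^ 2 * (1 + w)) / M ^ 2 := by
        rw [le_div_iff₀ (by positivity)]; linarith
      have h8 : (q:ℝ) ^ 2 * (1 + w) / M ^ 2 = (q:ℝ) ^ 2 / M ^ 2 + (q:ℝ) ^ 2 * w / M ^ 2 := by
        ring
      -- q² / M² * j² ≤ q²  since j ≤ M/2
      have h9 : (q:ℝ) ^ 2 / M ^ 2 * (j:ℝ) ^ 2 ≤ (q:ℝ) ^ 2 := by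
        rw [div_mul_eq_mul_div, div_le_iff₀ (by positivity)]
        have : (j:ℝ) ^ 2 ≤ (M:ℝ) ^ 2 := by
          have : (j:ℝ) ≤ M := by linarith
          gcongr
        nlinarith [sq_nonneg (q:ℝ)]
      have h10 : (j:ℝ) ^ 2 ≤ (j:ℝ) ^ 2 * ((q:ℝ) ^ 2 / M ^ 2 + (q:ℝ) ^ 2 * w / M ^ 2) := by
        rw [← h8]; nlinarith [sq_nonneg (j:ℝ)]
      have h11 : 0 ≤ (q:ℝ) ^ 2 * w / M ^ 2 := by positivity
      rw [mul_add, mul_one, h6]
      nlinarith [mul_nonneg (sq_nonneg (j:ℝ)) h11]
  -- sum of the pointwise bound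
  have hsum : ∀ n : ℕ, ∑ j ∈ range n, (if j < q then (1:ℝ) else (q:ℝ) ^ 2 * ((j:ℝ) ^ 2)⁻¹) ≤ 3 * q := by
    intro n
    rw [Finset.sum_ite]
    have h1 : ∑ x ∈ (range n).filter (fun j => j < q), (1:ℝ) ≤ q := by
      rw [Finset.sum_const, nsmul_eq_mul, mul_one]
      have : #((range n).filter (fun j => j < q)) ≤ #(range q) := by
        apply Finset.card_le_card
        intro j hj
        rw [mem_filter] at hj
        exact mem_range.mpr hj.2
      rw [card_range] at this
      exact_mod_cast this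
    have h2 : ∑ x ∈ (range n).filter (fun j => ¬ j < q), (q:ℝ) ^ 2 * ((x:ℝ) ^ 2)⁻¹ ≤ 2 * q := by
      rw [← Finset.mul_sum]
      have h3 := sum_inv_sq_tail q n hq1
      have h4 : ∑ x ∈ (range n).filter (fun j => ¬ j < q), ((x:ℝ) ^ 2)⁻¹ ≤ 2 / q := by
        refine le_trans ?_ h3
        apply Finset.sum_le_sum_of_subset_of_nonneg
        · intro j hj
          rw [mem_filter, mem_range] at hj
          rw [mem_filter, mem_Icc]
          omega
        · intro j _ _; positivity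
      calc (q:ℝ) ^ 2 * ∑ x ∈ (range n).filter (fun j => ¬ j < q), ((x:ℝ) ^ 2)⁻¹
          ≤ (q:ℝ) ^ 2 * (2 / (q:ℝ)) := by gcongr
        _ = 2 * (q:ℝ) := by field_simp
    linarith
  -- split into two halves
  have hsplit : ∑ j ∈ range M, Real.exp (-(w * (1 - Real.cos (2 * Real.pi * (j / M))))) ≤
      3 * q + 3 * q := by
    rw [← Finset.sum_filter_add_sum_filter_not (range M) (fun j : ℕ => (j:ℝ) ≤ M / 2)]
    apply add_le_add
    · refine le_trans ?_ (hsum M)
      calc _ ≤ ∑ j ∈ (range M).filter (fun j : ℕ => (j:ℝ) ≤ M / 2),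
            (if j < q then (1:ℝ) else (q:ℝ) ^ 2 * ((j:ℝ) ^ 2)⁻¹) := by
            apply Finset.sum_le_sum
            intro j hj
            exact hpt j (mem_filter.mp hj).2
        _ ≤ _ := Finset.sum_le_sum_of_subset_of_nonneg (filter_subset _ _)
            (fun j _ _ => by split_ifs <;> positivity)
    · refine le_trans ?_ (hsum (M+1))
      have h1 : ∑ j ∈ (range M).filter (fun j : ℕ => ¬ (j:ℝ) ≤ M / 2),
          Real.exp (-(w * (1 - Real.cos (2 * Real.pi * (j / M))))) ≤
          ∑ j ∈ (range M).filter (fun j : ℕ => ¬ (j:ℝ) ≤ M / 2),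
            (if M - j < q then (1:ℝ) else (q:ℝ) ^ 2 * (((M - j : ℕ):ℝ) ^ 2)⁻¹) := by
        apply Finset.sum_le_sum
        intro j hj
        rw [mem_filter, mem_range] at hj
        have h2 : ((M - j : ℕ) : ℝ) = M - j := by push_cast [Nat.cast_sub hj.1.le]; ring
        have h3 := hpt (M - j) (by rw [h2]; linarith [hj.2])
        have h4 : Real.cos (2 * Real.pi * (((M - j : ℕ) : ℝ) / M)) =
            Real.cos (2 * Real.pi * ((j:ℝ) / M)) := by
          rw [h2]
          have : 2 * Real.pi * (((M:ℝ) - j) / M) = 2 * Real.pi - 2 * Real.pi * ((j:ℝ) / M) := by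
            field_simp
          rw [this, Real.cos_two_pi_sub]
        rw [h4] at h3
        exact h3
      refine h1.trans ?_
      have h2 : ∑ j ∈ (range M).filter (fun j : ℕ => ¬ (j:ℝ) ≤ M / 2),
            (if M - j < q then (1:ℝ) else (q:ℝ) ^ 2 * (((M - j : ℕ):ℝ) ^ 2)⁻¹) =
          ∑ i ∈ ((range M).filter (fun j : ℕ => ¬ (j:ℝ) ≤ M / 2)).image (fun j => M - j),
            (if i < q then (1:ℝ) else (q:ℝ) ^ 2 * ((i:ℝ) ^ 2)⁻¹) := by
        rw [Finset.sum_image]
        intro a ha b hb hab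
        rw [mem_coe, mem_filter, mem_range] at ha hb
        simp only at hab
        omega
      rw [h2]
      apply Finset.sum_le_sum_of_subset_of_nonneg
      · intro i hi
        rw [mem_image] at hi
        obtain ⟨j, _, rfl⟩ := hi
        rw [mem_range]; omega
      · intro j _ _; split_ifs <;> positivity
  calc _ ≤ 3 * (q:ℝ) + 3 * q := hsplit
    _ ≤ 12 * (M / R) := by linarith
    _ ≤ 16 * M / R := by
        rw [mul_div_assoc]
        have : 0 ≤ (M:ℝ) / R := by positivity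
        linarith

end Pool.Agent.MP6396c4
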