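import Mathlib

open Finset

noncomputable section

namespace Pool.Agent.MP6396c4

/-- exponential sum -/
def esum (H : ℕ) (T u : ℝ) : ℂ := ∑ h ∈ range H, Complex.exp ((h * u / T : ℝ) * Complex.I)

/-- Fejér-type kernel -/
def KH (H : ℕ) (T u : ℝ) : ℝ := ‖esum H T u‖ ^ 2 / (H:ℝ) ^ 2

lemma KH_nonneg (H : ℕ) (T u : ℝ) : 0 ≤ KH H T u := by unfold KH; positivity

lemma KH_ge {H : ℕ} {T u : ℝ} (hH : 1 ≤ H) (hHT : (H:ℝ) ≤ T) (hu : |u| ≤ 1/2) :
    1/2 ≤ KH H T u := by
  have hH0 : (0:ℝ) < H := by exact_mod_cast hH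
  have hT0 : 0 < T := by linarith
  have h1 : (H:ℝ) * (7/8) ≤ (esum H T u).re := by
    rw [esum, Complex.re_sum]
    calc (H:ℝ) * (7/8) = ∑ h ∈ range H, (7/8 : ℝ) := by simp
      _ ≤ _ := by
        apply Finset.sum_le_sum
        intro h hh
        rw [mem_range] at hh
        rw [Complex.exp_ofReal_mul_I_re]
        have h2 : |h * u / T| ≤ 1/2 := by
          rw [abs_div, abs_mul, abs_of_pos hT0, abs_of_nonneg (by positivity : (0:ℝ) ≤ h),
            div_le_iff₀ hT0]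
          have : (h:ℝ) ≤ H := by exact_mod_cast hh.le
          have h3 : (h:ℝ) * |u| ≤ H * (1/2) := by gcongr
          nlinarith
        have h3 := Real.one_sub_sq_div_two_le_cos (x := h * u / T)
        have h4 : (h * u / T) ^ 2 ≤ (1/2) ^ 2 := by
          rw [← sq_abs]; gcongr
        linarith
  have h2 : (H:ℝ) * (7/8) ≤ ‖esum H T u‖ := h1.trans (Complex.re_le_norm _)
  rw [KH, le_div_iff₀ (by positivity)]
  have h3 : ((H:ℝ) * (7/8)) ^ 2 ≤ ‖esum H T u‖ ^ 2 := by gcongr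
  nlinarith [sq_nonneg (H:ℝ)]

lemma KH_expand (H : ℕ) (T u : ℝ) : ((KH H T u : ℝ) : ℂ) =
    ((H:ℂ) ^ 2)⁻¹ * ∑ h ∈ range H, ∑ h' ∈ range H,
      Complex.exp (((((h:ℤ) - (h':ℤ) : ℤ) : ℝ) * u / T : ℝ) * Complex.I) := by
  rw [KH]
  push_cast
  rw [← Complex.mul_conj']
  have : (starRingEnd ℂ) (esum H T u) =
      ∑ h ∈ range H, Complex.exp (-((h * u / T : ℝ) * Complex.I)) := by
    rw [esum, map_sum]
    apply Finset.sum_congr rfl
    intro h _
    rw [← Complex.exp_conj, map_mul, Complex.conj_ofReal, Complex.conj_I, mul_neg]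
  rw [this, esum, Finset.sum_mul_sum, div_eq_mul_inv, mul_comm]
  congr 1
  apply Finset.sum_congr rfl
  intro h _
  apply Finset.sum_congr rfl
  intro h' _
  rw [← Complex.exp_add]
  congr 1
  push_cast
  ring

/-- pointwise kernel majorant of `1/max(b,c)`. -/
lemma inv_max_le {H : ℕ} {T : ℝ} (hH : 1 ≤ H) (hHT : (H:ℝ) ≤ T) {b c V : ℕ} (hb : 1 ≤ b)
    (hc : 1 ≤ c) (hV : |Real.log b - Real.log c| + 1/2 ≤ V) :
    ((max b c : ℕ) : ℝ)⁻¹ ≤ ((b:ℝ) * c) ^ (-(1/2) : ℝ) *
      (4 * ∑ v ∈ Icc (-(V:ℤ)) V, Real.exp (-(|(v:ℝ)| / 2)) *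
        KH H T (Real.log b - Real.log c - v)) := by
  have hb0 : (0:ℝ) < b := by exact_mod_cast hb
  have hc0 : (0:ℝ) < c := by exact_mod_cast hc
  set u := Real.log b - Real.log c with hu
  have h1 : ((max b c : ℕ) : ℝ)⁻¹ = ((b:ℝ) * c) ^ (-(1/2) : ℝ) * Real.exp (-(|u| / 2)) := by
    rw [Real.rpow_def_of_pos (by positivity), ← Real.exp_add,
      Real.log_mul hb0.ne' hc0.ne']
    have hm : (0:ℝ) < ((max b c : ℕ) : ℝ) := by
      have : 0 < max b c := by omega
      exact_mod_cast this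
    rw [← Real.exp_log hm, ← Real.exp_neg]
    congr 1
    push_cast
    rcases le_total b c with h | h
    · have h' : (b:ℝ) ≤ c := by exact_mod_cast h
      have h2 := Real.log_le_log hb0 h'
      rw [max_eq_right h', abs_of_nonpos (by rw [hu]; linarith), hu]
      ring
    · have h' : (c:ℝ) ≤ b := by exact_mod_cast h
      have h2 := Real.log_le_log hc0 h'
      rw [max_eq_left h', abs_of_nonneg (by rw [hu]; linarith), hu]
      ring
  rw [h1]
  apply mul_le_mul_of_nonneg_left _ (by positivity)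
  -- choose v = round u
  have hr : |u - round u| ≤ 1/2 := abs_sub_round u
  have hrabs : |(round u : ℝ)| ≤ |u| + 1/2 := by
    have : |(round u : ℝ)| ≤ |u| + |u - round u| := by
      calc |(round u : ℝ)| = |u - (u - round u)| := by congr 1; ring
        _ ≤ _ := abs_sub _ _
    linarith
  have hmem : round u ∈ Icc (-(V:ℤ)) V := by
    rw [mem_Icc]
    have h3 : |(round u : ℝ)| ≤ V := hrabs.trans hV
    rw [abs_le] at h3
    constructor
    · exact_mod_cast h3.1
    · exact_mod_cast h3.2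
  have h4 : Real.exp (-(|((round u : ℤ) : ℝ)| / 2)) * KH H T (u - ((round u : ℤ) : ℝ)) ≤
      ∑ v ∈ Icc (-(V:ℤ)) V, Real.exp (-(|(v:ℝ)| / 2)) * KH H T (u - v) :=
    Finset.single_le_sum (f := fun v : ℤ => Real.exp (-(|(v:ℝ)| / 2)) * KH H T (u - v))
      (fun v _ => mul_nonneg (Real.exp_pos _).le (KH_nonneg _ _ _)) hmem
  have h5 := KH_ge hH hHT hr
  have h6 : Real.exp (-(|u| / 2)) ≤ 2 * Real.exp (-(|(round u : ℝ)| / 2)) := by
    have h7 : Real.exp (-(|u| / 2)) ≤ Real.exp (1/4) * Real.exp (-(|(round u : ℝ)| / 2)) := by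
      rw [← Real.exp_add]
      apply Real.exp_le_exp.mpr
      linarith
    have h8 : Real.exp (1/4) ≤ 2 := by
      have h9 : Real.exp (1/4) ≤ Real.exp (Real.log 2) := by
        apply Real.exp_le_exp.mpr
        have := Real.log_two_gt_d9
        linarith
      rwa [Real.exp_log (by norm_num)] at h9
    have h10 := Real.exp_pos (-(|(round u : ℝ)| / 2))
    nlinarith
  have h7 := Real.exp_pos (-(|(round u : ℝ)| / 2))
  nlinarith

lemma sum_exp_abs (V : ℕ) : ∑ v ∈ Icc (-(V:ℤ)) V, Real.exp (-(|(v:ℝ)| / 2)) ≤ 6 := by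
  have h1 : ∀ n : ℕ, ∑ v ∈ range n, Real.exp (-((v:ℝ) / 2)) ≤ 3 := by
    intro n
    have e : ∀ v : ℕ, Real.exp (-((v:ℝ) / 2)) = (Real.exp (-(1/2))) ^ v := by
      intro v; rw [← Real.exp_nat_mul]; congr 1; ring
    simp_rw [e]
    have hq : Real.exp (-(1/2)) ≤ 2/3 := by
      rw [Real.exp_neg]
      rw [inv_le_comm₀ (Real.exp_pos _) (by norm_num)]
      have := Real.add_one_le_exp (1/2 : ℝ)
      linarith
    have hq0 := Real.exp_pos (-(1/2 : ℝ))
    calc ∑ v ∈ range n, (Real.exp (-(1/2))) ^ v ≤ ∑' v : ℕ, (Real.exp (-(1/2))) ^ v :=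
          (summable_geometric_of_lt_one hq0.le (by linarith)).sum_le_tsum _
            (fun v _ => by positivity)
      _ = (1 - Real.exp (-(1/2)))⁻¹ := tsum_geometric_of_lt_one hq0.le (by linarith)
      _ ≤ 3 := by
          rw [inv_le_comm₀ (by linarith) (by norm_num)]; linarith
  have h2 : ∑ v ∈ Icc (-(V:ℤ)) V, Real.exp (-(|(v:ℝ)| / 2)) ≤
      ∑ v ∈ (range (V+1)).map ⟨fun n : ℕ => (n:ℤ), Nat.cast_injective⟩ ∪
        (range (V+1)).map ⟨fun n : ℕ => -(n:ℤ), fun a b h => by simpa using h⟩,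
        Real.exp (-(|(v:ℝ)| / 2)) := by
    apply Finset.sum_le_sum_of_subset_of_nonneg
    · intro v hv
      rw [mem_Icc] at hv
      rw [mem_union, mem_map, mem_map]
      rcases le_total 0 v with h | h
      · left; exact ⟨v.toNat, by rw [mem_range]; omega, by simp; omega⟩
      · right; exact ⟨(-v).toNat, by rw [mem_range]; omega, by simp; omega⟩
    · intro v _ _; positivity
  refine h2.trans ?_
  have h3 := Finset.sum_union_inter (s₁ := (range (V+1)).map ⟨fun n : ℕ => (n:ℤ), Nat.cast_injective⟩)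
    (s₂ := (range (V+1)).map ⟨fun n : ℕ => -(n:ℤ), fun a b h => by simpa using h⟩)
    (f := fun v : ℤ => Real.exp (-(|(v:ℝ)| / 2)))
  have h4 : 0 ≤ ∑ v ∈ (range (V+1)).map ⟨fun n : ℕ => (n:ℤ), Nat.cast_injective⟩ ∩
      (range (V+1)).map ⟨fun n : ℕ => -(n:ℤ), fun a b h => by simpa using h⟩,
        Real.exp (-(|(v:ℝ)| / 2)) := Finset.sum_nonneg fun v _ => by positivity
  rw [Finset.sum_map, Finset.sum_map] at h3
  simp only [Function.Embedding.coeFn_mk, Int.cast_natCast, Int.cast_neg, abs_neg,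
    Nat.abs_cast] at h3
  have h5 := h1 (V+1)
  linarith

end Pool.Agent.MP6396c4
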