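import Mathlib
import Pool.Agent.Lib.MP_6396c4_an.Kernel
import Pool.Agent.Lib.MP_6396c4_an.Base

open Finset ArithmeticFunction

noncomputable section

namespace Pool.Agent.MP6396c4

/-- off-diagonal matrices with entries in a given set -/
def offsD (K : ℕ) (Ds : Finset ℕ) : Finset (Fin K → Fin K → ℕ) :=
  Fintype.piFinset fun i => Fintype.piFinset fun j => if i = j then {1} else Ds

lemma mem_offsD {K : ℕ} {Ds : Finset ℕ} {d : Fin K → Fin K → ℕ} :
    d ∈ offsD K Ds ↔ (∀ i, d i i = 1) ∧ ∀ i j, i ≠ j → d i j ∈ Ds := by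
  rw [offsD, Fintype.mem_piFinset]
  constructor
  · intro h
    refine ⟨fun i => ?_, fun i j hij => ?_⟩
    · have := (Fintype.mem_piFinset.mp (h i)) i
      simpa using this
    · have := (Fintype.mem_piFinset.mp (h i)) j
      rwa [if_neg hij] at this
  · rintro ⟨h1, h2⟩ i
    rw [Fintype.mem_piFinset]
    intro j
    split_ifs with hij
    · subst hij; rw [mem_singleton]; exact h1 i
    · exact h2 i j hij

/-- the exponents -/
def sij {K : ℕ} (σ T : ℝ) (g : Fin K → ℤ) (i j : Fin K) : ℂ :=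
  (1 + σ : ℝ) - (((g i - g j : ℤ) : ℝ) / T : ℝ) * Complex.I

/-- the exponential sum over off-diagonal matrices -/
def GG (K : ℕ) (Ds : Finset ℕ) (X : ℝ) (μ : ℕ) (σ T : ℝ) (g : Fin K → ℤ) : ℂ :=
  ∑ d ∈ offsD K Ds, (∏ i, ∏ j, (d i j : ℂ) ^ (-sij σ T g i j)) *
    ∏ i, (phi X μ (cardFactors (rowp d i)) (cardFactors (colp d i)) : ℂ)

lemma cpow_sij {K : ℕ} {σ T : ℝ} (g : Fin K → ℤ) (i j : Fin K) {n : ℕ} (hn : 1 ≤ n) :
    (n : ℂ) ^ (-sij σ T g i j) = (((n:ℝ) ^ (-(1 + σ)) : ℝ) : ℂ) *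
      Complex.exp (((((g i - g j : ℤ) : ℝ) * Real.log n / T : ℝ)) * Complex.I) := by
  have hn0 : (0:ℝ) < n := by exact_mod_cast hn
  have hn0' : (n : ℂ) ≠ 0 := by exact_mod_cast hn0.ne'
  rw [Complex.cpow_def_of_ne_zero hn0', Real.rpow_def_of_pos hn0, Complex.ofReal_exp,
    ← Complex.exp_add, ← Complex.ofReal_natCast, ← Complex.ofReal_log hn0.le, sij]
  congr 1
  push_cast
  ring

lemma prod_exp_pairs {K : ℕ} (T : ℝ) (g : Fin K → ℤ) (d : Fin K → Fin K → ℕ)
    (hd : ∀ i j, 1 ≤ d i j) :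
    ∏ i, Complex.exp ((((g i : ℤ) : ℝ) * (Real.log (rowp d i) - Real.log (colp d i)) / T : ℝ) *
      Complex.I) =
    ∏ i, ∏ j, Complex.exp (((((g i - g j : ℤ) : ℝ) * Real.log (d i j) / T : ℝ)) * Complex.I) := by
  simp_rw [← Complex.exp_sum]
  congr 1
  have hrow : ∀ i, Real.log (rowp d i : ℕ) = ∑ j, Real.log (d i j) := by
    intro i
    rw [rowp]; push_cast
    rw [Real.log_prod]
    intro j _
    have : 0 < d i j := hd i j
    exact_mod_cast this.ne'
  have hcol : ∀ i, Real.log (colp d i : ℕ) = ∑ j, Real.log (d j i) := by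
    intro i
    rw [colp]; push_cast
    rw [Real.log_prod]
    intro j _
    have : 0 < d j i := hd j i
    exact_mod_cast this.ne'
  simp_rw [← Finset.sum_mul, ← Complex.ofReal_sum]
  congr 2
  simp_rw [hrow, hcol, ← Finset.sum_div]
  congr 1
  have e1 : ∀ i : Fin K, ((g i : ℤ) : ℝ) * (∑ j, Real.log (d i j) - ∑ j, Real.log (d j i)) =
      ∑ j, (((g i : ℤ) : ℝ) * Real.log (d i j)) - ∑ j, (((g i : ℤ) : ℝ) * Real.log (d j i)) := by
    intro i; rw [mul_sub, Finset.mul_sum, Finset.mul_sum]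
  simp_rw [e1]
  rw [Finset.sum_sub_distrib, Finset.sum_comm (f := fun i j => ((g i : ℤ) : ℝ) * Real.log (d j i)),
    ← Finset.sum_sub_distrib]
  apply Finset.sum_congr rfl
  intro i _
  rw [← Finset.sum_sub_distrib]
  apply Finset.sum_congr rfl
  intro j _
  push_cast
  ring

/-- kernel-weighted sum -/
def Zv (K : ℕ) (Ds : Finset ℕ) (X : ℝ) (μ : ℕ) (σ T : ℝ) (H : ℕ) (v : Fin K → ℤ) : ℝ :=
  ∑ d ∈ offsD K Ds, (∏ i, ∏ j, (d i j : ℝ) ^ (-(1 + σ))) *
    (∏ i, phi X μ (cardFactors (rowp d i)) (cardFactors (colp d i))) *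
    ∏ i, KH H T (Real.log (rowp d i) - Real.log (colp d i) - v i)

lemma Zv_nonneg (K : ℕ) (Ds : Finset ℕ) {X : ℝ} (hX : 0 ≤ X) (μ : ℕ) (σ T : ℝ) (H : ℕ)
    (v : Fin K → ℤ) : 0 ≤ Zv K Ds X μ σ T H v := by
  apply Finset.sum_nonneg
  intro d _
  apply mul_nonneg
  · apply mul_nonneg
    · exact Finset.prod_nonneg fun i _ => Finset.prod_nonneg fun j _ => by positivity
    · exact Finset.prod_nonneg fun i _ => phi_nonneg hX _ _ _
  · exact Finset.prod_nonneg fun i _ => KH_nonneg _ _ _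

lemma Zv_le (K : ℕ) (Ds : Finset ℕ) (hDs : ∀ n ∈ Ds, 1 ≤ n) {X : ℝ} (hX : 0 ≤ X) (μ : ℕ)
    (σ T : ℝ) (H : ℕ) (v : Fin K → ℤ) : Zv K Ds X μ σ T H v ≤
    (((H:ℝ) ^ 2) ^ K)⁻¹ * ∑ h ∈ Fintype.piFinset (fun _ : Fin K => range H),
      ∑ h' ∈ Fintype.piFinset (fun _ : Fin K => range H),
        ‖GG K Ds X μ σ T (fun i => (h i : ℤ) - (h' i : ℤ))‖ := by
  have hd1 : ∀ d ∈ offsD K Ds, ∀ i j, 1 ≤ d i j := by
    intro d hd i j
    rw [mem_offsD] at hd
    by_cases hij : i = j
    · subst hij; rw [hd.1 i]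
    · exact hDs _ (hd.2 i j hij)
  have key : ((Zv K Ds X μ σ T H v : ℝ) : ℂ) =
      (((H:ℂ) ^ 2) ^ K)⁻¹ * ∑ h ∈ Fintype.piFinset (fun _ : Fin K => range H),
      ∑ h' ∈ Fintype.piFinset (fun _ : Fin K => range H),
        (∏ i, Complex.exp (-(((((h i:ℤ) - (h' i:ℤ) : ℤ) : ℝ) * v i / T : ℝ) * Complex.I))) *
        GG K Ds X μ σ T (fun i => (h i : ℤ) - (h' i : ℤ)) := by
    rw [Zv]
    push_cast
    have h1 : ∀ d ∈ offsD K Ds, (∏ i, ∏ j, (((d i j : ℝ) ^ (-(1 + σ)) : ℝ) : ℂ)) *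
        (∏ i, (phi X μ (cardFactors (rowp d i)) (cardFactors (colp d i)) : ℂ)) *
        ∏ i, ((KH H T (Real.log (rowp d i) - Real.log (colp d i) - v i) : ℝ) : ℂ) =
        (((H:ℂ) ^ 2) ^ K)⁻¹ * ∑ h ∈ Fintype.piFinset (fun _ : Fin K => range H),
        ∑ h' ∈ Fintype.piFinset (fun _ : Fin K => range H),
        (∏ i, Complex.exp (-(((((h i:ℤ) - (h' i:ℤ) : ℤ) : ℝ) * v i / T : ℝ) * Complex.I))) *
        ((∏ i, ∏ j, (d i j : ℂ) ^ (-sij σ T (fun i => (h i : ℤ) - (h' i : ℤ)) i j)) *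
          ∏ i, (phi X μ (cardFactors (rowp d i)) (cardFactors (colp d i)) : ℂ)) := by
      intro d hd
      have h2 : ∏ i, ((KH H T (Real.log (rowp d i) - Real.log (colp d i) - v i) : ℝ) : ℂ) =
          (((H:ℂ) ^ 2) ^ K)⁻¹ * ∑ h ∈ Fintype.piFinset (fun _ : Fin K => range H),
          ∑ h' ∈ Fintype.piFinset (fun _ : Fin K => range H),
          ∏ i, Complex.exp (((((h i:ℤ) - (h' i:ℤ) : ℤ) : ℝ) *
            (Real.log (rowp d i) - Real.log (colp d i) - v i) / T : ℝ) * Complex.I) := by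
        simp_rw [KH_expand]
        rw [Finset.prod_mul_distrib, Finset.prod_const, Finset.card_univ, Fintype.card_fin, inv_pow,
          Finset.prod_univ_sum]
        congr 1
        apply Finset.sum_congr rfl
        intro h _
        rw [Finset.prod_univ_sum]
      rw [h2, mul_left_comm, Finset.mul_sum]
      congr 1
      apply Finset.sum_congr rfl
      intro h _
      rw [Finset.mul_sum]
      apply Finset.sum_congr rfl
      intro h' _
      have h3 := prod_exp_pairs T (fun i => (h i : ℤ) - (h' i : ℤ)) d (hd1 d hd)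
      have h4 : ∏ i, Complex.exp (((((h i:ℤ) - (h' i:ℤ) : ℤ) : ℝ) *
            (Real.log (rowp d i) - Real.log (colp d i) - v i) / T : ℝ) * Complex.I) =
          (∏ i, Complex.exp ((((((h i : ℤ) - (h' i : ℤ)) : ℤ) : ℝ) *
            (Real.log (rowp d i) - Real.log (colp d i)) / T : ℝ) * Complex.I)) *
          ∏ i, Complex.exp (-(((((h i:ℤ) - (h' i:ℤ) : ℤ) : ℝ) * v i / T : ℝ) * Complex.I)) := by
        rw [← Finset.prod_mul_distrib]
        apply Finset.prod_congr rfl
        intro i _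
        rw [← Complex.exp_add]
        congr 1
        push_cast
        ring
      have h5 : ∏ i, ∏ j, (d i j : ℂ) ^ (-sij σ T (fun i => (h i : ℤ) - (h' i : ℤ)) i j) =
          (∏ i, ∏ j, (((d i j : ℝ) ^ (-(1 + σ)) : ℝ) : ℂ)) *
          ∏ i, ∏ j, Complex.exp (((((((h i : ℤ) - (h' i : ℤ)) - ((h j : ℤ) - (h' j : ℤ)) : ℤ) : ℝ) *
            Real.log (d i j) / T : ℝ)) * Complex.I) := by
        rw [← Finset.prod_mul_distrib]
        apply Finset.prod_congr rfl
        intro i _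
        rw [← Finset.prod_mul_distrib]
        apply Finset.prod_congr rfl
        intro j _
        rw [cpow_sij _ _ _ (hd1 d hd i j)]
      rw [h4, h3, h5]
      ring
    rw [Finset.sum_congr rfl h1, ← Finset.mul_sum, Finset.sum_comm]
    congr 1
    apply Finset.sum_congr rfl
    intro h _
    rw [Finset.sum_comm]
    apply Finset.sum_congr rfl
    intro h' _
    rw [← Finset.mul_sum, GG]
    congr 1
    apply Finset.prod_congr rfl
    intro i _
    push_cast
    rfl
  have h1 : Zv K Ds X μ σ T H v = ‖((Zv K Ds X μ σ T H v : ℝ) : ℂ)‖ := by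
    rw [Complex.norm_real, Real.norm_eq_abs, abs_of_nonneg (Zv_nonneg K Ds hX μ σ T H v)]
  rw [h1, key, norm_mul]
  have h2 : ‖((((H:ℂ) ^ 2) ^ K)⁻¹ : ℂ)‖ = (((H:ℝ) ^ 2) ^ K)⁻¹ := by
    rw [norm_inv, norm_pow, norm_pow, Complex.norm_natCast]
  rw [h2]
  apply mul_le_mul_of_nonneg_left _ (by positivity)
  refine (norm_sum_le _ _).trans (Finset.sum_le_sum fun h _ => ?_)
  refine (norm_sum_le _ _).trans (Finset.sum_le_sum fun h' _ => ?_)
  rw [norm_mul, norm_prod]
  have h3 : ∀ i, ‖Complex.exp (-(((((h i:ℤ) - (h' i:ℤ) : ℤ) : ℝ) * v i / T : ℝ) * Complex.I))‖ = 1 := by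
    intro i
    rw [← neg_mul, ← Complex.ofReal_neg, Complex.norm_exp_ofReal_mul_I]
  rw [Finset.prod_congr rfl (fun i _ => h3 i), Finset.prod_const_one, one_mul]

/-- reduction of `ZZ` to the exponential sums `GG`. -/
theorem ZZ_le (K N V : ℕ) (Ds : Finset ℕ) (hDs : ∀ n ∈ Ds, 1 ≤ n) (hN : Icc 1 N ⊆ Ds) {X : ℝ}
    (hX : 0 ≤ X) (μ : ℕ) {σ T : ℝ} (hσ : 0 ≤ σ) (hσN : σ * Real.log N ≤ 1) {H : ℕ} (hH : 1 ≤ H)
    (hHT : (H:ℝ) ≤ T) (hV : K * Real.log N + 1/2 ≤ V) :
    ZZ K N X μ ≤ 24 ^ K * Real.exp (K ^ 2) * ((((H:ℝ) ^ 2) ^ K)⁻¹ *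
      ∑ h ∈ Fintype.piFinset (fun _ : Fin K => range H),
      ∑ h' ∈ Fintype.piFinset (fun _ : Fin K => range H),
        ‖GG K Ds X μ σ T (fun i => (h i : ℤ) - (h' i : ℤ))‖) := by
  set B := (((H:ℝ) ^ 2) ^ K)⁻¹ *
      ∑ h ∈ Fintype.piFinset (fun _ : Fin K => range H),
      ∑ h' ∈ Fintype.piFinset (fun _ : Fin K => range H),
        ‖GG K Ds X μ σ T (fun i => (h i : ℤ) - (h' i : ℤ))‖ with hB
  have hB0 : 0 ≤ B := by
    rw [hB]
    apply mul_nonneg (by positivity)
    exact Finset.sum_nonneg fun _ _ => Finset.sum_nonneg fun _ _ => norm_nonneg _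
  -- pointwise bound
  have hpt : ∀ d ∈ offs K N, ∏ i : Fin K,
      (phi X μ (cardFactors (rowp d i)) (cardFactors (colp d i)) *
        ((max (rowp d i) (colp d i) : ℕ) : ℝ)⁻¹) ≤
      4 ^ K * Real.exp (K ^ 2) * ∑ v ∈ Fintype.piFinset (fun _ : Fin K => Icc (-(V:ℤ)) V),
        (∏ i, Real.exp (-(|(v i:ℝ)| / 2))) *
        ((∏ i, ∏ j, (d i j : ℝ) ^ (-(1 + σ))) *
        (∏ i, phi X μ (cardFactors (rowp d i)) (cardFactors (colp d i))) *
        ∏ i, KH H T (Real.log (rowp d i) - Real.log (colp d i) - v i)) := by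
    intro d hd
    rw [mem_offs] at hd
    have hpos : ∀ i j, (0:ℝ) < d i j := fun i j => by
      have := (hd.1 i j).1
      exact_mod_cast this
    have hr1 : ∀ i, 1 ≤ rowp d i := fun i => Finset.one_le_prod' fun j _ => (hd.1 i j).1
    have hc1 : ∀ i, 1 ≤ colp d i := fun i => Finset.one_le_prod' fun j _ => (hd.1 j i).1
    have hlog : ∀ i j, 0 ≤ Real.log (d i j) ∧ Real.log (d i j) ≤ Real.log N := fun i j =>
      ⟨Real.log_natCast_nonneg _, Real.log_le_log (hpos i j) (by exact_mod_cast (hd.1 i j).2)⟩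
    have hlr : ∀ i, 0 ≤ Real.log (rowp d i) ∧ Real.log (rowp d i) ≤ K * Real.log N := by
      intro i
      refine ⟨Real.log_natCast_nonneg _, ?_⟩
      rw [rowp]; push_cast
      rw [Real.log_prod (fun j _ => (hpos i j).ne')]
      calc _ ≤ ∑ j : Fin K, Real.log N := Finset.sum_le_sum fun j _ => (hlog i j).2
        _ = _ := by simp
    have hlc : ∀ i, 0 ≤ Real.log (colp d i) ∧ Real.log (colp d i) ≤ K * Real.log N := by
      intro i
      refine ⟨Real.log_natCast_nonneg _, ?_⟩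
      rw [colp]; push_cast
      rw [Real.log_prod (fun j _ => (hpos j i).ne')]
      calc _ ≤ ∑ j : Fin K, Real.log N := Finset.sum_le_sum fun j _ => (hlog j i).2
        _ = _ := by simp
    have h1 : ∀ i : Fin K, ((max (rowp d i) (colp d i) : ℕ) : ℝ)⁻¹ ≤
        ((rowp d i : ℝ) * colp d i) ^ (-(1/2) : ℝ) *
        (4 * ∑ v ∈ Icc (-(V:ℤ)) V, Real.exp (-(|(v:ℝ)| / 2)) *
          KH H T (Real.log (rowp d i) - Real.log (colp d i) - v)) := by
      intro i
      apply inv_max_le hH hHT (hr1 i) (hc1 i)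
      have : |Real.log (rowp d i) - Real.log (colp d i)| ≤ K * Real.log N := by
        rw [abs_le]
        constructor <;> linarith [(hlr i).1, (hlr i).2, (hlc i).1, (hlc i).2]
      linarith
    have h2 : ∏ i : Fin K, ((rowp d i : ℝ) * colp d i) ^ (-(1/2) : ℝ) ≤
        Real.exp (K ^ 2) * ∏ i, ∏ j, (d i j : ℝ) ^ (-(1 + σ)) := by
      have h3 : ∏ i : Fin K, ((rowp d i : ℝ) * colp d i) ^ (-(1/2) : ℝ) =
          ∏ i, ∏ j, (d i j : ℝ) ^ (-1 : ℝ) := by
        have hrow : ∀ i, (0:ℝ) ≤ rowp d i := fun i => by positivity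
        have hcol : ∀ i, (0:ℝ) ≤ colp d i := fun i => by positivity
        rw [Finset.prod_congr rfl (fun i _ => Real.mul_rpow (hrow i) (hcol i)),
          Finset.prod_mul_distrib]
        have e1 : ∏ i : Fin K, (rowp d i : ℝ) ^ (-(1/2) : ℝ) =
            ∏ i, ∏ j, (d i j : ℝ) ^ (-(1/2) : ℝ) := by
          apply Finset.prod_congr rfl
          intro i _
          rw [rowp]; push_cast
          rw [Real.finsetProd_rpow _ _ (fun j _ => (hpos i j).le)]
        have e2 : ∏ i : Fin K, (colp d i : ℝ) ^ (-(1/2) : ℝ) =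
            ∏ i, ∏ j, (d i j : ℝ) ^ (-(1/2) : ℝ) := by
          rw [Finset.prod_comm]
          apply Finset.prod_congr rfl
          intro i _
          rw [colp]; push_cast
          rw [Real.finsetProd_rpow _ _ (fun j _ => (hpos j i).le)]
        rw [e1, e2, ← Finset.prod_mul_distrib]
        apply Finset.prod_congr rfl
        intro i _
        rw [← Finset.prod_mul_distrib]
        apply Finset.prod_congr rfl
        intro j _
        rw [← Real.rpow_add (hpos i j)]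
        norm_num
      rw [h3]
      have h4 : Real.exp (K ^ 2) = ∏ i : Fin K, ∏ j : Fin K, Real.exp 1 := by
        rw [Finset.prod_const, Finset.prod_const, Finset.card_univ, Fintype.card_fin,
          ← Real.exp_nat_mul, ← Real.exp_nat_mul]
        congr 1; ring
      rw [h4, ← Finset.prod_mul_distrib]
      apply Finset.prod_le_prod (fun i _ => Finset.prod_nonneg fun j _ => by
        have := hpos i j; positivity)
      intro i _
      rw [← Finset.prod_mul_distrib]
      apply Finset.prod_le_prod (fun j _ => by have := hpos i j; positivity)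
      intro j _
      rw [Real.rpow_def_of_pos (hpos i j), Real.rpow_def_of_pos (hpos i j), ← Real.exp_add]
      apply Real.exp_le_exp.mpr
      have h5 := hlog i j
      have h6 : σ * Real.log (d i j) ≤ 1 :=
        (mul_le_mul_of_nonneg_left h5.2 hσ).trans hσN
      nlinarith
    have hφ : ∀ i, 0 ≤ phi X μ (cardFactors (rowp d i)) (cardFactors (colp d i)) :=
      fun i => phi_nonneg hX _ _ _
    have hS0 : ∀ i : Fin K, 0 ≤ ∑ v ∈ Icc (-(V:ℤ)) V, Real.exp (-(|(v:ℝ)| / 2)) *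
          KH H T (Real.log (rowp d i) - Real.log (colp d i) - v) := fun i =>
      Finset.sum_nonneg fun v _ => mul_nonneg (Real.exp_pos _).le (KH_nonneg _ _ _)
    calc ∏ i : Fin K, (phi X μ (cardFactors (rowp d i)) (cardFactors (colp d i)) *
        ((max (rowp d i) (colp d i) : ℕ) : ℝ)⁻¹)
        ≤ ∏ i : Fin K, (phi X μ (cardFactors (rowp d i)) (cardFactors (colp d i)) *
          (((rowp d i : ℝ) * colp d i) ^ (-(1/2) : ℝ) *
        (4 * ∑ v ∈ Icc (-(V:ℤ)) V, Real.exp (-(|(v:ℝ)| / 2)) *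
          KH H T (Real.log (rowp d i) - Real.log (colp d i) - v)))) := by
          apply Finset.prod_le_prod
          · intro i _; exact mul_nonneg (hφ i) (by positivity)
          · intro i _; exact mul_le_mul_of_nonneg_left (h1 i) (hφ i)
      _ = (∏ i : Fin K, phi X μ (cardFactors (rowp d i)) (cardFactors (colp d i))) *
          ((∏ i : Fin K, ((rowp d i : ℝ) * colp d i) ^ (-(1/2) : ℝ)) *
          (4 ^ K * ∏ i : Fin K, ∑ v ∈ Icc (-(V:ℤ)) V, Real.exp (-(|(v:ℝ)| / 2)) *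
          KH H T (Real.log (rowp d i) - Real.log (colp d i) - v))) := by
          rw [Finset.prod_mul_distrib, Finset.prod_mul_distrib, Finset.prod_mul_distrib,
            Finset.prod_const, Finset.card_univ, Fintype.card_fin]
      _ ≤ (∏ i : Fin K, phi X μ (cardFactors (rowp d i)) (cardFactors (colp d i))) *
          ((Real.exp (K ^ 2) * ∏ i, ∏ j, (d i j : ℝ) ^ (-(1 + σ))) *
          (4 ^ K * ∏ i : Fin K, ∑ v ∈ Icc (-(V:ℤ)) V, Real.exp (-(|(v:ℝ)| / 2)) *
          KH H T (Real.log (rowp d i) - Real.log (colp d i) - v))) := by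
          apply mul_le_mul_of_nonneg_left _ (Finset.prod_nonneg fun i _ => hφ i)
          apply mul_le_mul_of_nonneg_right h2
          exact mul_nonneg (by positivity) (Finset.prod_nonneg fun i _ => hS0 i)
      _ = _ := by
          rw [Finset.prod_univ_sum, Finset.mul_sum, Finset.mul_sum, Finset.mul_sum, Finset.mul_sum]
          apply Finset.sum_congr rfl
          intro v _
          rw [Finset.prod_mul_distrib]
          ring
  rw [ZZ]
  calc ∑ d ∈ offs K N, ∏ i : Fin K,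
      (phi X μ (cardFactors (rowp d i)) (cardFactors (colp d i)) *
        ((max (rowp d i) (colp d i) : ℕ) : ℝ)⁻¹)
      ≤ ∑ d ∈ offs K N, 4 ^ K * Real.exp (K ^ 2) *
        ∑ v ∈ Fintype.piFinset (fun _ : Fin K => Icc (-(V:ℤ)) V),
        (∏ i, Real.exp (-(|(v i:ℝ)| / 2))) *
        ((∏ i, ∏ j, (d i j : ℝ) ^ (-(1 + σ))) *
        (∏ i, phi X μ (cardFactors (rowp d i)) (cardFactors (colp d i))) *
        ∏ i, KH H T (Real.log (rowp d i) - Real.log (colp d i) - v i)) := Finset.sum_le_sum hpt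
    _ ≤ ∑ d ∈ offsD K Ds, 4 ^ K * Real.exp (K ^ 2) *
        ∑ v ∈ Fintype.piFinset (fun _ : Fin K => Icc (-(V:ℤ)) V),
        (∏ i, Real.exp (-(|(v i:ℝ)| / 2))) *
        ((∏ i, ∏ j, (d i j : ℝ) ^ (-(1 + σ))) *
        (∏ i, phi X μ (cardFactors (rowp d i)) (cardFactors (colp d i))) *
        ∏ i, KH H T (Real.log (rowp d i) - Real.log (colp d i) - v i)) := by
        apply Finset.sum_le_sum_of_subset_of_nonneg
        · intro d hd
          rw [mem_offs] at hd
          rw [mem_offsD]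
          exact ⟨hd.2, fun i j _ => hN (mem_Icc.mpr (hd.1 i j))⟩
        · intro d _ _
          apply mul_nonneg (by positivity)
          apply Finset.sum_nonneg
          intro v _
          apply mul_nonneg (Finset.prod_nonneg fun i _ => (Real.exp_pos _).le)
          apply mul_nonneg
          · apply mul_nonneg
            · exact Finset.prod_nonneg fun i _ => Finset.prod_nonneg fun j _ => by positivity
            · exact Finset.prod_nonneg fun i _ => phi_nonneg hX _ _ _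
          · exact Finset.prod_nonneg fun i _ => KH_nonneg _ _ _
    _ = 4 ^ K * Real.exp (K ^ 2) * ∑ v ∈ Fintype.piFinset (fun _ : Fin K => Icc (-(V:ℤ)) V),
        (∏ i, Real.exp (-(|(v i:ℝ)| / 2))) * Zv K Ds X μ σ T H v := by
        rw [← Finset.mul_sum, Finset.sum_comm]
        congr 1
        apply Finset.sum_congr rfl
        intro v _
        rw [← Finset.mul_sum, Zv]
    _ ≤ 4 ^ K * Real.exp (K ^ 2) * ∑ v ∈ Fintype.piFinset (fun _ : Fin K => Icc (-(V:ℤ)) V),
        (∏ i, Real.exp (-(|(v i:ℝ)| / 2))) * B := by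
        apply mul_le_mul_of_nonneg_left _ (by positivity)
        apply Finset.sum_le_sum
        intro v _
        exact mul_le_mul_of_nonneg_left (Zv_le K Ds hDs hX μ σ T H v)
          (Finset.prod_nonneg fun i _ => (Real.exp_pos _).le)
    _ = 4 ^ K * Real.exp (K ^ 2) * (∏ i : Fin K, ∑ v ∈ Icc (-(V:ℤ)) V,
          Real.exp (-(|(v:ℝ)| / 2))) * B := by
        rw [← Finset.sum_mul, Finset.prod_univ_sum]; ring
    _ ≤ 4 ^ K * Real.exp (K ^ 2) * 6 ^ K * B := by
        apply mul_le_mul_of_nonneg_right _ hB0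
        apply mul_le_mul_of_nonneg_left _ (by positivity)
        calc ∏ i : Fin K, ∑ v ∈ Icc (-(V:ℤ)) V, Real.exp (-(|(v:ℝ)| / 2)) ≤ ∏ i : Fin K, (6:ℝ) :=
              Finset.prod_le_prod (fun _ _ => Finset.sum_nonneg fun _ _ => (Real.exp_pos _).le)
                (fun _ _ => sum_exp_abs V)
          _ = 6 ^ K := by rw [Finset.prod_const, Finset.card_univ, Fintype.card_fin]
    _ = 24 ^ K * Real.exp (K ^ 2) * B := by
        have : (24:ℝ) ^ K = 4 ^ K * 6 ^ K := by rw [← mul_pow]; norm_num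
        rw [this]; ring

end Pool.Agent.MP6396c4
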