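import Mathlib
import Pool.Agent.Lib.MP_6396c4_an.Reduce
import Pool.Agent.Lib.MP_6396c4_an.EulerSum
import Pool.Agent.Lib.MP_6396c4_an.Extract
import Pool.Agent.Lib.MP_6396c4_an.Path

open Finset ArithmeticFunction

noncomputable section

namespace Pool.Agent.MP6396c4

/-- uniform bound for truncated sums of `fz`. -/
lemma fz_sum_bound : ∃ ρ C : ℝ, 0 < ρ ∧ ρ ≤ 1 ∧ 0 < C ∧ ∀ (N : ℕ) (σ : ℝ), 0 < σ → σ < 1 →
    ∃ B : ℕ, N ≤ B ∧ ∀ z s : ℂ, ‖z‖ ≤ 1 → s.re = 1 + σ → ‖s - 1‖ < ρ →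
      ‖∑ n ∈ Icc 1 B, fz z s n‖ ≤ C * Real.exp (-z.re * Real.log ‖s - 1‖) := by
  obtain ⟨ρ, C, hρ, hρ1, hC, h⟩ := tsum_fz_bound
  refine ⟨ρ, Real.exp C + 1, hρ, hρ1, by positivity, fun N σ hσ hσ1 => ?_⟩
  have hf0 : Summable (fun n : ℕ => (n : ℝ) ^ (-(1 + σ))) :=
    Real.summable_nat_rpow.mpr (by linarith)
  have ht := hf0.hasSum.tendsto_sum_nat
  rw [Metric.tendsto_atTop] at ht
  obtain ⟨B0, hB0⟩ := ht σ hσ
  refine ⟨max N B0, le_max_left _ _, fun z s hz hs hsρ => ?_⟩
  set B := max N B0 with hB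
  have hs1 : 1 < s.re := by rw [hs]; linarith
  have hsum := summable_norm_fz hz hs1
  have hsumz : Summable (fz z s) := hsum.of_norm
  have h1 := hB0 (B+1) (by omega)
  rw [Real.dist_eq] at h1
  have h2 : ∑ n ∈ range (B+1), fz z s n = ∑ n ∈ Icc 1 B, fz z s n := by
    rw [Finset.range_eq_Ico, Finset.sum_eq_sum_Ico_succ_bot (by omega)]
    simp only [_root_.map_zero, zero_add]
    apply Finset.sum_congr _ (fun _ _ => rfl)
    ext n
    simp only [mem_Ico, mem_Icc]
    omega
  have h3 := hsumz.sum_add_tsum_nat_add (B+1)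
  have h4 := hf0.sum_add_tsum_nat_add (B+1)
  have h5 : ‖∑' i : ℕ, fz z s (i + (B+1))‖ ≤ ∑' i : ℕ, ((i + (B+1) : ℕ) : ℝ) ^ (-(1 + σ)) := by
    apply tsum_of_norm_bounded ((summable_nat_add_iff (B+1)).mpr hf0).hasSum
    intro i
    have := norm_fz_le hz hs1 (i + (B+1))
    rw [hs] at this
    exact this
  have h6 : ∑' i : ℕ, ((i + (B+1) : ℕ) : ℝ) ^ (-(1 + σ)) < σ := by
    have := (abs_lt.mp h1).1
    linarith
  obtain ⟨h7, h8⟩ := h z s hz hs1 hsρ
  have h9 : ∑ n ∈ Icc 1 B, fz z s n = ∑' n, fz z s n - ∑' i : ℕ, fz z s (i + (B+1)) := by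
    rw [← h2, ← h3]; ring
  rw [h9]
  have h10 : σ ≤ Real.exp (-z.re * Real.log ‖s - 1‖) := by
    have hσs : σ ≤ ‖s - 1‖ := by
      have : (s - 1).re = σ := by rw [Complex.sub_re, hs, Complex.one_re]; ring
      rw [← this]; exact Complex.re_le_norm _
    have hl1 : Real.log σ ≤ Real.log ‖s - 1‖ := Real.log_le_log hσ hσs
    have hl2 : Real.log ‖s - 1‖ ≤ 0 := Real.log_nonpos (norm_nonneg _) (by linarith)
    have hzr : |z.re| ≤ 1 := (Complex.abs_re_le_norm z).trans hz
    rw [abs_le] at hzr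
    rw [← Real.log_le_iff_le_exp hσ]
    nlinarith
  calc ‖∑' n, fz z s n - ∑' i : ℕ, fz z s (i + (B+1))‖
      ≤ ‖∑' n, fz z s n‖ + ‖∑' i : ℕ, fz z s (i + (B+1))‖ := norm_sub_le _ _
    _ ≤ Real.exp (-z.re * Real.log ‖s - 1‖ + C) + σ := by linarith
    _ ≤ _ := by rw [Real.exp_add]; linarith

lemma norm_sij_sub {K : ℕ} {T : ℝ} (hT : 0 < T) (g : Fin K → ℤ) (i j : Fin K) :
    ‖sij (1/T) T g i j - 1‖ = √(1 + ((g i - g j : ℤ) : ℝ) ^ 2) / T := by
  have e : sij (1/T) T g i j - 1 = ((1 / T : ℝ) : ℂ) * ((1 : ℝ) + (-((g i - g j : ℤ) : ℝ) : ℝ) * Complex.I) := by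
    rw [sij]; push_cast; field_simp; ring
  rw [e, norm_mul, Complex.norm_real, Complex.norm_add_mul_I, Real.norm_eq_abs,
    abs_of_pos (by positivity)]
  rw [neg_sq, one_pow]
  ring

lemma neg_log_sij_bounds {K : ℕ} {T : ℝ} (hT : 0 < T) (g : Fin K → ℤ) (i j : Fin K) :
    LT T (g i - g j).natAbs ≤ -Real.log ‖sij (1/T) T g i j - 1‖ ∧
    -Real.log ‖sij (1/T) T g i j - 1‖ ≤ LT T (g i - g j).natAbs + 1 := by
  rw [norm_sij_sub hT]
  set n := (g i - g j).natAbs with hn
  have hn2 : ((g i - g j : ℤ) : ℝ) ^ 2 = (n:ℝ) ^ 2 := by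
    have : ((g i - g j).natAbs : ℤ) ^ 2 = (g i - g j) ^ 2 := Int.natAbs_sq _
    exact_mod_cast this.symm
  rw [hn2, LT, Real.log_div (by positivity) hT.ne', Real.log_div hT.ne' (by positivity)]
  have h1 : √(1 + (n:ℝ) ^ 2) ≤ 1 + n := by
    rw [Real.sqrt_le_left (by positivity)]
    have : (0:ℝ) ≤ n := Nat.cast_nonneg n
    nlinarith
  have h2 : 1 + (n:ℝ) ≤ Real.exp 1 * √(1 + (n:ℝ) ^ 2) := by
    have h3 : (1 + (n:ℝ)) ^ 2 ≤ (2 * √(1 + (n:ℝ) ^ 2)) ^ 2 := by
      rw [mul_pow, Real.sq_sqrt (by positivity)]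
      nlinarith [sq_nonneg ((n:ℝ) - 1)]
    have h4 := abs_le_of_sq_le_sq h3 (by positivity)
    have h5 : 1 + (n:ℝ) ≤ 2 * √(1 + (n:ℝ) ^ 2) := (abs_le.mp (by simpa using h4)).2
    have := Real.exp_one_gt_d9
    have h6 := Real.sqrt_nonneg (1 + (n:ℝ) ^ 2)
    nlinarith
  constructor
  · have := Real.log_le_log (by positivity) h1
    linarith
  · have := Real.log_le_log (by positivity) h2
    rw [Real.log_mul (Real.exp_pos _).ne' (by positivity), Real.log_exp] at this
    linarith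

lemma cardFactors_finset_prod {ι : Type*} (s : Finset ι) (f : ι → ℕ) (hf : ∀ i ∈ s, f i ≠ 0) :
    cardFactors (∏ i ∈ s, f i) = ∑ i ∈ s, cardFactors (f i) := by
  classical
  induction s using Finset.induction_on with
  | empty => simp
  | insert a s ha ih =>
    rw [Finset.prod_insert ha, Finset.sum_insert ha, cardFactors_mul (hf a (mem_insert_self _ _)),
      ih (fun i hi => hf i (mem_insert_of_mem hi))]
    exact Finset.prod_ne_zero_iff.mpr fun i hi => hf i (mem_insert_of_mem hi)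

lemma offsD_factor (K : ℕ) (Ds : Finset ℕ) (hDs : ∀ n ∈ Ds, 1 ≤ n) (s : Fin K → Fin K → ℂ)
    (u v : Fin K → ℂ) :
    ∑ d ∈ offsD K Ds, (∏ i, ∏ j, (d i j : ℂ) ^ (-s i j)) *
      ∏ i, ((u i) ^ (cardFactors (rowp d i)) * (v i) ^ (cardFactors (colp d i))) =
    ∏ i, ∏ j, ∑ n ∈ (if i = j then {1} else Ds), fz (u i * v j) (s i j) n := by
  rw [offsD]
  simp_rw [Finset.prod_univ_sum]
  apply Finset.sum_congr rfl
  intro d hd
  have hd' : d ∈ offsD K Ds := hd
  have hd1 : ∀ i j, d i j ≠ 0 := by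
    intro i j
    rw [mem_offsD] at hd'
    by_cases hij : i = j
    · subst hij; rw [hd'.1 i]; norm_num
    · have := hDs _ (hd'.2 i j hij); omega
  have h1 : ∀ i, (u i) ^ (cardFactors (rowp d i)) = ∏ j, (u i) ^ (cardFactors (d i j)) := by
    intro i
    rw [rowp, cardFactors_finset_prod _ _ (fun j _ => hd1 i j), Finset.prod_pow_eq_pow_sum]
  have h2 : ∀ i, (v i) ^ (cardFactors (colp d i)) = ∏ j, (v i) ^ (cardFactors (d j i)) := by
    intro i
    rw [colp, cardFactors_finset_prod _ _ (fun j _ => hd1 j i), Finset.prod_pow_eq_pow_sum]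
  rw [Finset.prod_mul_distrib, Finset.prod_congr rfl (fun i _ => h1 i),
    Finset.prod_congr rfl (fun i _ => h2 i),
    Finset.prod_comm (f := fun i j => (v i) ^ (cardFactors (d j i))), ← Finset.prod_mul_distrib,
    ← Finset.prod_mul_distrib]
  apply Finset.prod_congr rfl
  intro i _
  rw [← Finset.prod_mul_distrib, ← Finset.prod_mul_distrib]
  apply Finset.prod_congr rfl
  intro j _
  rw [fz_apply (hd1 i j), mul_pow]
  ring

/-- bound for the sum over a cyclic group of `exp (-w (1 - re ψ))`. -/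
lemma zmod_average {M : ℕ} [NeZero M] {w : ℝ} (hw : 0 ≤ w) (hMw : 1 + w ≤ (M : ℝ) ^ 2) :
    ∑ a : ZMod M, Real.exp (-(w * (1 - (ZMod.stdAddChar a : ℂ).re))) ≤ 16 * M / √(1 + w) := by
  have hM : 1 ≤ M := Nat.one_le_iff_ne_zero.mpr (NeZero.ne M)
  refine le_trans (le_of_eq ?_) (cos_average hM hw hMw)
  have h1 : ∀ j : ℕ, (ZMod.stdAddChar ((j : ℕ) : ZMod M) : ℂ).re =
      Real.cos (2 * Real.pi * (j / M)) := by
    intro j
    have := ZMod.stdAddChar_coe (N := M) (j : ℤ)
    push_cast at this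
    rw [this]
    have e : 2 * (Real.pi : ℂ) * Complex.I * j / M = ((2 * Real.pi * (j / M) : ℝ) : ℂ) * Complex.I := by
      push_cast; ring
    rw [e, Complex.exp_ofReal_mul_I_re]
  symm
  apply Finset.sum_bij (fun (j : ℕ) _ => (j : ZMod M))
  · intro j _; exact mem_univ _
  · intro a ha b hb hab
    rw [mem_range] at ha hb
    rw [ZMod.natCast_eq_natCast_iff', Nat.mod_eq_of_lt ha, Nat.mod_eq_of_lt hb] at hab
    exact hab
  · intro b _
    exact ⟨b.val, mem_range.mpr (ZMod.val_lt b), ZMod.natCast_zmod_val b⟩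
  · intro j _
    rw [h1 j]

lemma int_sq_natAbs (a : ℤ) : (a : ℝ) ^ 2 = (a.natAbs : ℝ) ^ 2 := by
  have h : (((a.natAbs : ℤ) ^ 2 : ℤ) : ℝ) = ((a ^ 2 : ℤ) : ℝ) := by rw [Int.natAbs_sq]
  rw [Int.cast_pow, Int.cast_pow, Int.cast_natCast] at h
  exact h.symm

lemma prod_subset_le {ι : Type*} [DecidableEq ι] {s t : Finset ι} (hst : s ⊆ t) {f : ι → ℝ}
    (h0 : ∀ i, 0 ≤ f i) (h1 : ∀ i, f i ≤ 1) : ∏ i ∈ t, f i ≤ ∏ i ∈ s, f i := by
  rw [← Finset.prod_sdiff hst]
  calc _ ≤ 1 * ∏ i ∈ s, f i := by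
        apply mul_le_mul_of_nonneg_right _ (Finset.prod_nonneg fun i _ => h0 i)
        exact Finset.prod_le_one (fun i _ => h0 i) (fun i _ => h1 i)
    _ = _ := one_mul _

lemma norm_std {M : ℕ} [NeZero M] (a : ZMod M) : ‖(ZMod.stdAddChar a : ℂ)‖ = 1 := by
  rw [ZMod.stdAddChar_apply, Circle.norm_coe]

lemma re_std_le {M : ℕ} [NeZero M] (a : ZMod M) : (ZMod.stdAddChar a : ℂ).re ≤ 1 :=
  (Complex.re_le_norm _).trans (norm_std a).le

/-- main bound for `GG`. -/
theorem GG_bound (k : ℕ) : ∃ ρ C : ℝ, 0 < ρ ∧ ρ ≤ 1 ∧ 0 < C ∧ ∀ (N : ℕ) (T : ℝ), 1 < T →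
    ∃ B : ℕ, N ≤ B ∧ ∀ (X : ℝ) (μ : ℕ), Real.log T ≤ X → ∀ g : Fin (k+1) → ℤ,
      (∀ i j, ((g i - g j).natAbs + 1 : ℝ) / T < ρ) → ∀ r : ℝ, 0 < r → r ≤ 1 →
      ∀ π : Equiv.Perm (Fin (k+1)),
      ‖GG (k+1) (Icc 1 B) X μ (1/T) T g‖ ≤ C * (r ^ (2 * μ * (k+1)))⁻¹ *
        Real.exp (r ^ 2 * ((k+1) * X + ∑ i, ∑ j ∈ univ.erase i, LT T (g i - g j).natAbs)) *
        (√(1 + r ^ 2 * X))⁻¹ ^ (k+1) *
        ∏ l : Fin k, (√(1 + r ^ 2 * LT T (g (π l.succ) - g (π l.castSucc)).natAbs))⁻¹ := by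
  obtain ⟨ρ, C, hρ, hρ1, hC, h⟩ := fz_sum_bound
  refine ⟨ρ, (2:ℝ) ^ (k+1) * (C + 1) ^ ((k+1) * (k+1)) * Real.exp ((k+1) ^ 2) * 16 ^ (2 * k + 1),
    hρ, hρ1, by positivity, ?_⟩
  intro N T hT
  have hT0 : 0 < T := by linarith
  obtain ⟨B, hNB, hB⟩ := h N (1/T) (by positivity) (by rw [div_lt_one hT0]; exact hT)
  refine ⟨B, hNB, ?_⟩
  intro X μ hX g hg r hr0 hr1 π
  have hlT : 0 < Real.log T := Real.log_pos hT
  have hX0 : 0 < X := by linarith
  have hr2 : r ^ 2 ≤ 1 := pow_le_one₀ hr0.le hr1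
  have hr20 : 0 < r ^ 2 := by positivity
  -- exponents
  set ℓ : Fin (k+1) → Fin (k+1) → ℝ := fun i j => -Real.log ‖sij (1/T) T g i j - 1‖ with hℓ
  set L : Fin (k+1) → Fin (k+1) → ℝ := fun i j => LT T (g i - g j).natAbs with hL
  have hLℓ : ∀ i j, L i j ≤ ℓ i j ∧ ℓ i j ≤ L i j + 1 := fun i j => neg_log_sij_bounds hT0 g i j
  have hLT0 : ∀ i j, 0 ≤ L i j := by
    intro i j
    apply Real.log_nonneg
    rw [le_div_iff₀ (by positivity), one_mul]
    have := hg i j
    rw [div_lt_iff₀ hT0] at this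
    nlinarith
  have hLTX : ∀ i j, L i j ≤ X := by
    intro i j
    refine le_trans ?_ hX
    apply Real.log_le_log
    · positivity
    · apply div_le_self hT0.le
      have : (0:ℝ) ≤ (g i - g j).natAbs := Nat.cast_nonneg _
      linarith
  have hnorm : ∀ i j, ‖sij (1/T) T g i j - 1‖ < ρ := by
    intro i j
    rw [norm_sij_sub hT0]
    refine lt_of_le_of_lt ?_ (hg i j)
    apply div_le_div_of_nonneg_right _ hT0.le
    rw [Real.sqrt_le_left (by positivity)]
    rw [int_sq_natAbs]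
    have : (0:ℝ) ≤ (g i - g j).natAbs := Nat.cast_nonneg _
    nlinarith
  have hre : ∀ i j, (sij (1/T) T g i j).re = 1 + 1/T := by
    intro i j
    rw [sij]
    simp
  -- truncation parameters
  obtain ⟨M', hM'μ, hM'⟩ := Etr_bound X μ
  set Am := (k+1) * B with hAm
  obtain ⟨M, hM1, hM2⟩ : ∃ M : ℕ, M' + Am + μ < M ∧ 1 + X ≤ (M:ℝ) ^ 2 := by
    refine ⟨M' + Am + μ + 1 + ⌈1 + X⌉₊, by omega, ?_⟩
    have h1 : 1 + X ≤ (⌈1 + X⌉₊ : ℝ) := Nat.le_ceil _
    push_cast
    have h2 : (0:ℝ) ≤ M' + Am + μ := by positivity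
    nlinarith
  have : NeZero M := ⟨by omega⟩
  have hM0 : (0:ℝ) < M := by
    have : 0 < M := by omega
    exact_mod_cast this
  have hDs : ∀ n ∈ Icc 1 B, 1 ≤ n := fun n hn => (mem_Icc.mp hn).1
  -- bounds on Ω
  have hd1 : ∀ d ∈ offsD (k+1) (Icc 1 B), ∀ i j, 1 ≤ d i j ∧ cardFactors (d i j) ≤ B := by
    intro d hd i j
    rw [mem_offsD] at hd
    by_cases hij : i = j
    · subst hij; rw [hd.1 i]; simp
    · have h1 := mem_Icc.mp (hd.2 i j hij)
      refine ⟨h1.1, ?_⟩
      have h2 : cardFactors (d i j) ≤ d i j := by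
        have h3 : 2 ^ (cardFactors (d i j)) ≤ d i j := by
          rw [cardFactors_apply]
          have h4 := Nat.prod_primeFactorsList (n := d i j) (by omega)
          nth_rewrite 2 [← h4]
          apply List.pow_card_le_prod
          intro p hp
          exact (Nat.prime_of_mem_primeFactorsList hp).two_le
        exact (Nat.lt_two_pow_self.le).trans h3
      exact h2.trans h1.2
  have hrow : ∀ d ∈ offsD (k+1) (Icc 1 B), ∀ i, cardFactors (rowp d i) ≤ Am := by
    intro d hd i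
    rw [rowp, cardFactors_finset_prod _ _ (fun j _ => by have := (hd1 d hd i j).1; omega)]
    calc _ ≤ ∑ j : Fin (k+1), B := Finset.sum_le_sum fun j _ => (hd1 d hd i j).2
      _ = Am := by simp [hAm]
  have hcol : ∀ d ∈ offsD (k+1) (Icc 1 B), ∀ i, cardFactors (colp d i) ≤ Am := by
    intro d hd i
    rw [colp, cardFactors_finset_prod _ _ (fun j _ => by have := (hd1 d hd j i).1; omega)]
    calc _ ≤ ∑ j : Fin (k+1), B := Finset.sum_le_sum fun j _ => (hd1 d hd j i).2
      _ = Am := by simp [hAm]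
  have hext := extract (offsD (k+1) (Icc 1 B)) (k+1)
    (fun d => ∏ i, ∏ j, (d i j : ℂ) ^ (-sij (1/T) T g i j))
    (fun d i => cardFactors (rowp d i)) (fun d i => cardFactors (colp d i)) M M' μ Am hM1 hM'μ X r
    hrow hcol hr0
  -- weights
  set Fw : ZMod M → ℝ := fun a => Real.exp (-(r ^ 2 * X * (1 - (ZMod.stdAddChar a : ℂ).re))) with hFw
  set hw : Fin k → ZMod M → ℝ := fun l a =>
    Real.exp (-(r ^ 2 * L (π l.succ) (π l.castSucc) * (1 - (ZMod.stdAddChar a : ℂ).re))) with hhw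
  set S := ∑ i, ∑ j ∈ univ.erase i, L i j with hS
  set C1 := (2:ℝ) ^ (k+1) * (C + 1) ^ ((k+1) * (k+1)) * Real.exp ((k+1) ^ 2) with hC1
  have hterm : ∀ x y : Fin (k+1) → ZMod M,
      (∏ i, ‖Etr M' ((r ^ 2 * X : ℝ) * ZMod.stdAddChar (x i - y i))‖) *
        ‖∑ d ∈ offsD (k+1) (Icc 1 B), (∏ i, ∏ j, (d i j : ℂ) ^ (-sij (1/T) T g i j)) *
          ∏ i, ((r * ZMod.stdAddChar (x i)) ^ (cardFactors (rowp d i)) *
          (r * ZMod.stdAddChar (-(y i))) ^ (cardFactors (colp d i)) : ℂ)‖ ≤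
      C1 * Real.exp (r ^ 2 * ((k+1) * X + S)) *
        ((∏ i, Fw (x (π i) - y (π i))) *
          ∏ l : Fin k, hw l (x (π l.succ) - y (π l.castSucc))) := by
    intro x y
    rw [offsD_factor (k+1) (Icc 1 B) hDs (sij (1/T) T g) (fun i => r * ZMod.stdAddChar (x i))
      (fun i => r * ZMod.stdAddChar (-(y i)))]
    -- truncated exponentials
    have h1 : ∏ i, ‖Etr M' ((r ^ 2 * X : ℝ) * ZMod.stdAddChar (x i - y i))‖ ≤
        2 ^ (k+1) * Real.exp (r ^ 2 * ((k+1) * X)) * ∏ i, Fw (x i - y i) := by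
      have h2 : ∀ i, ‖Etr M' ((r ^ 2 * X : ℝ) * ZMod.stdAddChar (x i - y i))‖ ≤
          2 * (Real.exp (r ^ 2 * X) * Fw (x i - y i)) := by
        intro i
        refine (hM' _ ?_).trans ?_
        · rw [norm_mul, norm_std, mul_one, Complex.norm_real, Real.norm_eq_abs,
            abs_of_nonneg (by positivity)]
          nlinarith
        · rw [hFw]; simp only
          rw [← Real.exp_add, Complex.re_ofReal_mul]
          apply le_of_eq
          congr 2
          ring
      calc _ ≤ ∏ i : Fin (k+1), 2 * (Real.exp (r ^ 2 * X) * Fw (x i - y i)) :=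
            Finset.prod_le_prod (fun _ _ => norm_nonneg _) (fun i _ => h2 i)
        _ = _ := by
            rw [Finset.prod_mul_distrib, Finset.prod_mul_distrib, Finset.prod_const,
              Finset.prod_const, Finset.card_univ, Fintype.card_fin, ← Real.exp_nat_mul]
            push_cast
            have : ((k:ℝ) + 1) * (r ^ 2 * X) = r ^ 2 * (((k:ℝ)+1) * X) := by ring
            rw [this]; ring
    -- Euler factors
    have h3 : ‖∏ i, ∏ j, ∑ n ∈ (if i = j then {1} else Icc 1 B),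
        fz (r * ZMod.stdAddChar (x i) * (r * ZMod.stdAddChar (-(y j)))) (sij (1/T) T g i j) n‖ ≤
        (C + 1) ^ ((k+1) * (k+1)) * Real.exp ((k+1) ^ 2) * (Real.exp (r ^ 2 * S) *
          ∏ l : Fin k, hw l (x (π l.succ) - y (π l.castSucc))) := by
      rw [norm_prod]
      simp_rw [norm_prod]
      have h4 : ∀ i j, ‖∑ n ∈ (if i = j then {1} else Icc 1 B),
          fz (r * ZMod.stdAddChar (x i) * (r * ZMod.stdAddChar (-(y j)))) (sij (1/T) T g i j) n‖ ≤
          (C + 1) * Real.exp 1 * ((if i = j then 1 else Real.exp (r ^ 2 * L i j)) *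
            (if i = j then 1 else
              Real.exp (-(r ^ 2 * L i j * (1 - (ZMod.stdAddChar (x i - y j) : ℂ).re))))) := by
        intro i j
        have hee : 1 ≤ Real.exp 1 := by have := Real.exp_one_gt_d9; linarith
        split_ifs with hij
        · simp only [sum_singleton, map_one, norm_one, mul_one]
          nlinarith
        · have e1 : (r:ℂ) * ZMod.stdAddChar (x i) * (r * ZMod.stdAddChar (-(y j))) =
              ((r ^ 2 : ℝ) : ℂ) * ZMod.stdAddChar (x i - y j) := by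
            rw [sub_eq_add_neg, AddChar.map_add_eq_mul]; push_cast; ring
          rw [e1]
          have h5 := hB (((r ^ 2 : ℝ) : ℂ) * ZMod.stdAddChar (x i - y j)) (sij (1/T) T g i j)
            (by rw [norm_mul, norm_std, mul_one, Complex.norm_real, Real.norm_eq_abs,
                  abs_of_nonneg hr20.le]; exact hr2) (hre i j) (hnorm i j)
          refine h5.trans ?_
          rw [Complex.re_ofReal_mul, ← Real.exp_add, mul_assoc, ← Real.exp_add]
          have h6 : -(r ^ 2 * (ZMod.stdAddChar (x i - y j) : ℂ).re) *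
              Real.log ‖sij (1/T) T g i j - 1‖ ≤
              1 + (r ^ 2 * L i j + -(r ^ 2 * L i j * (1 - (ZMod.stdAddChar (x i - y j) : ℂ).re))) := by
            have h7 := hLℓ i j
            have h8 : -(r ^ 2 * (ZMod.stdAddChar (x i - y j) : ℂ).re) *
              Real.log ‖sij (1/T) T g i j - 1‖ =
              r ^ 2 * (ZMod.stdAddChar (x i - y j) : ℂ).re * ℓ i j := by rw [hℓ]; ring
            rw [h8]
            set c := (ZMod.stdAddChar (x i - y j) : ℂ).re with hc
            have hc1 : |c| ≤ 1 := (Complex.abs_re_le_norm _).trans (norm_std _).le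
            rw [abs_le] at hc1
            have h9 : r ^ 2 * c * ℓ i j - r ^ 2 * c * L i j ≤ 1 := by
              have e : r ^ 2 * c * ℓ i j - r ^ 2 * c * L i j = r ^ 2 * (c * (ℓ i j - L i j)) := by ring
              rw [e]
              have h10 : c * (ℓ i j - L i j) ≤ 1 := by nlinarith
              have h11 : -1 ≤ c * (ℓ i j - L i j) := by nlinarith
              nlinarith
            linarith
          have h12 : C * Real.exp (-(r ^ 2 * (ZMod.stdAddChar (x i - y j) : ℂ).re) *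
              Real.log ‖sij (1/T) T g i j - 1‖) ≤ (C + 1) * Real.exp (1 + (r ^ 2 * L i j +
                -(r ^ 2 * L i j * (1 - (ZMod.stdAddChar (x i - y j) : ℂ).re)))) := by
            gcongr
            linarith
          exact h12
      calc ∏ i, ∏ j, ‖∑ n ∈ (if i = j then {1} else Icc 1 B),
          fz (r * ZMod.stdAddChar (x i) * (r * ZMod.stdAddChar (-(y j)))) (sij (1/T) T g i j) n‖
          ≤ ∏ i, ∏ j, (C + 1) * Real.exp 1 * ((if i = j then 1 else Real.exp (r ^ 2 * L i j)) *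
            (if i = j then 1 else
              Real.exp (-(r ^ 2 * L i j * (1 - (ZMod.stdAddChar (x i - y j) : ℂ).re))))) := by
            apply Finset.prod_le_prod (fun _ _ => Finset.prod_nonneg fun _ _ => norm_nonneg _)
            intro i _
            exact Finset.prod_le_prod (fun _ _ => norm_nonneg _) (fun j _ => h4 i j)
        _ = (C + 1) ^ ((k+1) * (k+1)) * Real.exp ((k+1) ^ 2) * (Real.exp (r ^ 2 * S) *
            ∏ i, ∏ j, (if i = j then 1 else
              Real.exp (-(r ^ 2 * L i j * (1 - (ZMod.stdAddChar (x i - y j) : ℂ).re))))) := by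
            simp_rw [Finset.prod_mul_distrib, Finset.prod_const, Finset.card_univ, Fintype.card_fin,
              ← pow_mul]
            have e1 : Real.exp 1 ^ ((k+1) * (k+1)) = Real.exp (((k:ℝ)+1) ^ 2) := by
              rw [← Real.exp_nat_mul]; congr 1; push_cast; ring
            have e2 : ∏ i, ∏ j, (if i = j then 1 else Real.exp (r ^ 2 * L i j)) =
                Real.exp (r ^ 2 * S) := by
              rw [hS, Finset.mul_sum, Real.exp_sum]
              apply Finset.prod_congr rfl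
              intro i _
              rw [Finset.mul_sum, Real.exp_sum, ← Finset.mul_prod_erase univ _ (mem_univ i)]
              simp only [if_true, one_mul]
              apply Finset.prod_congr rfl
              intro j hj
              rw [mem_erase] at hj
              rw [if_neg (fun h => hj.1 h.symm)]
            rw [e1, e2]
        _ ≤ _ := by
            apply mul_le_mul_of_nonneg_left _ (by positivity)
            apply mul_le_mul_of_nonneg_left _ (Real.exp_pos _).le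
            -- product over a subset
            rw [← Finset.prod_product']
            set ff : Fin (k+1) × Fin (k+1) → ℝ := fun p => if p.1 = p.2 then 1 else
              Real.exp (-(r ^ 2 * L p.1 p.2 * (1 - (ZMod.stdAddChar (x p.1 - y p.2) : ℂ).re)))
              with hff
            have hff1 : ∀ p, ff p ≤ 1 := by
              intro p
              rw [hff]; simp only
              split_ifs
              · exact le_rfl
              · apply Real.exp_le_one_iff.mpr
                have h5 := hLT0 p.1 p.2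
                have h6 := re_std_le (x p.1 - y p.2)
                have : 0 ≤ r ^ 2 * L p.1 p.2 * (1 - (ZMod.stdAddChar (x p.1 - y p.2) : ℂ).re) := by
                  apply mul_nonneg (by positivity); linarith
                linarith
            have hff0 : ∀ p, 0 ≤ ff p := by
              intro p
              rw [hff]; simp only
              split_ifs <;> positivity
            have hinj : Function.Injective (fun l : Fin k => (π l.succ, π l.castSucc)) := by
              intro a b hab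
              simp only [Prod.mk.injEq] at hab
              exact Fin.succ_injective _ (π.injective hab.1)
            have h5 : ∏ l : Fin k, hw l (x (π l.succ) - y (π l.castSucc)) =
                ∏ p ∈ univ.map ⟨fun l : Fin k => (π l.succ, π l.castSucc), hinj⟩, ff p := by
              rw [Finset.prod_map]
              apply Finset.prod_congr rfl
              intro l _
              simp only [Function.Embedding.coeFn_mk, hff, hhw]
              rw [if_neg]
              intro h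
              have := π.injective h
              have h2 := congrArg Fin.val this
              simp at h2
            rw [h5]
            exact prod_subset_le (Finset.subset_univ _) hff0 hff1
    have hFw0 : ∀ a, 0 ≤ Fw a := fun a => (Real.exp_pos _).le
    have hprodFw : ∏ i, Fw (x i - y i) = ∏ i, Fw (x (π i) - y (π i)) :=
      (Equiv.prod_comp π (fun i => Fw (x i - y i))).symm
    have hhw0 : 0 ≤ ∏ l : Fin k, hw l (x (π l.succ) - y (π l.castSucc)) :=
      Finset.prod_nonneg fun l _ => (Real.exp_pos _).le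
    calc _ ≤ (2 ^ (k+1) * Real.exp (r ^ 2 * ((k+1) * X)) * ∏ i, Fw (x i - y i)) *
          ((C + 1) ^ ((k+1) * (k+1)) * Real.exp ((k+1) ^ 2) * (Real.exp (r ^ 2 * S) *
          ∏ l : Fin k, hw l (x (π l.succ) - y (π l.castSucc)))) := by
          apply mul_le_mul h1 h3 (norm_nonneg _)
          apply mul_nonneg (by positivity)
          exact Finset.prod_nonneg fun i _ => hFw0 _
      _ = _ := by
          rw [hprodFw, hC1, mul_add (r ^ 2), Real.exp_add]
          ring
  -- sum over x, y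
  have hX1 : 1 + r ^ 2 * X ≤ (M:ℝ) ^ 2 := by nlinarith
  have hsum1 : ∑ a, Fw a ≤ 16 * M / √(1 + r ^ 2 * X) :=
    zmod_average (by positivity) hX1
  have hsum2 : ∀ l, ∑ a, hw l a ≤ 16 * M / √(1 + r ^ 2 * L (π l.succ) (π l.castSucc)) := by
    intro l
    apply zmod_average (mul_nonneg (by positivity) (hLT0 _ _))
    have := hLTX (π l.succ) (π l.castSucc)
    have h0 := hLT0 (π l.succ) (π l.castSucc)
    nlinarith
  have hreindex : ∑ x : Fin (k+1) → ZMod M, ∑ y : Fin (k+1) → ZMod M,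
      ((∏ i, Fw (x (π i) - y (π i))) * ∏ l : Fin k, hw l (x (π l.succ) - y (π l.castSucc))) =
      ∑ x : Fin (k+1) → ZMod M, ∑ y : Fin (k+1) → ZMod M,
      ((∏ i, Fw (x i - y i)) * ∏ l : Fin k, hw l (x l.succ - y l.castSucc)) := by
    symm
    rw [← Equiv.sum_comp (Equiv.arrowCongr π.symm (Equiv.refl (ZMod M)))]
    apply Finset.sum_congr rfl
    intro x _
    rw [← Equiv.sum_comp (Equiv.arrowCongr π.symm (Equiv.refl (ZMod M)))]
    apply Finset.sum_congr rfl
    intro y _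
    simp [Equiv.arrowCongr]
  have hpath := path_sum k Fw hw (fun a => (Real.exp_pos _).le) (fun l a => (Real.exp_pos _).le)
  rw [ZMod.card] at hpath
  set E := Real.exp (r ^ 2 * ((k+1) * X + S)) with hE
  have hC10 : 0 ≤ C1 := by positivity
  have hE0 : 0 ≤ E := (Real.exp_pos _).le
  have htot : ‖GG (k+1) (Icc 1 B) X μ (1/T) T g‖ * ((M : ℝ) ^ 2 * r ^ (2 * μ)) ^ (k+1) ≤
      C1 * E * (M * (16 * M / √(1 + r ^ 2 * X)) ^ (k+1) *
        ∏ l : Fin k, 16 * M / √(1 + r ^ 2 * L (π l.succ) (π l.castSucc))) := by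
    rw [GG]
    refine hext.trans ?_
    refine (Finset.sum_le_sum fun x _ => Finset.sum_le_sum fun y _ => hterm x y).trans ?_
    simp_rw [← Finset.mul_sum]
    apply mul_le_mul_of_nonneg_left _ (mul_nonneg hC10 hE0)
    rw [hreindex]
    refine hpath.trans ?_
    have h1 : 0 ≤ ∑ a, Fw a := Finset.sum_nonneg fun _ _ => (Real.exp_pos _).le
    have h2 : ∏ l : Fin k, ∑ a, hw l a ≤
        ∏ l : Fin k, 16 * M / √(1 + r ^ 2 * L (π l.succ) (π l.castSucc)) :=
      Finset.prod_le_prod (fun l _ => Finset.sum_nonneg fun _ _ => (Real.exp_pos _).le)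
        (fun l _ => hsum2 l)
    have h3 : 0 ≤ ∏ l : Fin k, ∑ a, hw l a :=
      Finset.prod_nonneg fun l _ => Finset.sum_nonneg fun _ _ => (Real.exp_pos _).le
    gcongr
  have hMr : 0 < ((M : ℝ) ^ 2 * r ^ (2 * μ)) ^ (k+1) := by positivity
  rw [← le_div_iff₀ hMr] at htot
  refine htot.trans (le_of_eq ?_)
  have hs : √(1 + r ^ 2 * X) ≠ 0 := by
    have : 0 < 1 + r ^ 2 * X := by positivity
    positivity
  have e1 : ∏ l : Fin k, 16 * (M:ℝ) / √(1 + r ^ 2 * L (π l.succ) (π l.castSucc)) =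
      (16 * M) ^ k * ∏ l : Fin k, (√(1 + r ^ 2 * L (π l.succ) (π l.castSucc)))⁻¹ := by
    simp_rw [div_eq_mul_inv]
    rw [Finset.prod_mul_distrib, Finset.prod_const, Finset.card_univ, Fintype.card_fin]
  rw [e1]
  have e2 : ((M : ℝ) ^ 2 * r ^ (2 * μ)) ^ (k+1) = M ^ (2 * (k+1)) * r ^ (2 * μ * (k+1)) := by
    rw [mul_pow, ← pow_mul, ← pow_mul]
  rw [e2, div_pow]
  have e3 : (M:ℝ) ^ (2 * (k+1)) = M * (M ^ (k+1) * M ^ k) := by
    rw [← pow_add, ← pow_succ']; congr 1; ring
  have e4 : (16:ℝ) ^ (2 * k + 1) = 16 ^ (k+1) * 16 ^ k := by rw [← pow_add]; congr 1; ring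
  have hMk : (M:ℝ) ^ (k+1) ≠ 0 := by positivity
  have hMk' : (M:ℝ) ^ k ≠ 0 := by positivity
  have hrk : r ^ (2 * μ * (k+1)) ≠ 0 := by positivity
  rw [e3, e4, mul_pow, mul_pow, inv_pow]
  set P := ∏ l : Fin k, (√(1 + r ^ 2 * L (π l.succ) (π l.castSucc)))⁻¹ with hP
  have hsk : √(1 + r ^ 2 * X) ^ (k+1) ≠ 0 := pow_ne_zero _ hs
  field_simp

end Pool.Agent.MP6396c4
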