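import Mathlib
import Pool.Agent.Lib.MP_6396c4_an.Base

open Finset

noncomputable section

namespace Pool.Agent.MP6396c4

/-- gaps of a sequence -/
def gapf {k : ℕ} (g : Fin (k+1) → ℤ) (l : Fin k) : ℕ := (g l.succ - g l.castSucc).natAbs

lemma LT_anti {T : ℝ} (hT : 0 < T) {m n : ℕ} (h : m ≤ n) : LT T n ≤ LT T m := by
  unfold LT
  have : (m:ℝ) ≤ n := by exact_mod_cast h
  gcongr

/-- pair-sum estimate for monotone sequences. -/
lemma pair_sum {k : ℕ} (g : Fin (k+1) → ℤ) (hg : Monotone g) {T : ℝ} (hT : 0 < T) (l0 : Fin k)
    (hmax : ∀ l, gapf g l ≤ gapf g l0) :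
    ∑ i, ∑ j ∈ univ.erase i, LT T (g i - g j).natAbs ≤
      k * (k+1) * LT T (gapf g l0) + k * ∑ l, (LT T (gapf g l) - LT T (gapf g l0)) := by
  classical
  set s := LT T (gapf g l0) with hs
  set v : Fin k → ℝ := fun l => LT T (gapf g l) - s with hv
  have hv0 : ∀ l, 0 ≤ v l := fun l => by
    have := LT_anti hT (hmax l)
    simp only [hv]; linarith
  set P : Fin k → Fin (k+1) → Fin (k+1) → Prop := fun l i j =>
    (i = l.castSucc ∧ l.succ ≤ j ∧ (l0 < l ∨ j ≤ l0.castSucc)) ∨
    (i = l.succ ∧ j ≤ l.castSucc ∧ (l < l0 ∨ l0.succ ≤ j)) with hP
  -- gaps are bounded by differences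
  have hgap : ∀ (l : Fin k) (a b : Fin (k+1)), a ≤ l.castSucc → l.succ ≤ b →
      gapf g l ≤ (g b - g a).natAbs := by
    intro l a b h1 h2
    have e1 := hg h1
    have e2 := hg h2
    have e3 : g l.castSucc ≤ g l.succ := hg (by rw [Fin.le_def]; simp)
    unfold gapf
    omega
  have hpt : ∀ i j : Fin (k+1), i ≠ j → LT T (g i - g j).natAbs ≤
      s + ∑ l, (if P l i j then v l else 0) := by
    intro i j hij
    have hsum0 : 0 ≤ ∑ l, (if P l i j then v l else 0) :=
      Finset.sum_nonneg fun l _ => by split_ifs; exacts [hv0 l, le_rfl]
    have hsingle : ∀ l, P l i j → v l ≤ ∑ l, (if P l i j then v l else 0) := by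
      intro l hl
      have := Finset.single_le_sum (f := fun l => if P l i j then v l else 0)
        (fun l _ => by split_ifs; exacts [hv0 l, le_rfl]) (mem_univ l)
      simp only [hl, if_true] at this
      exact this
    rcases lt_or_gt_of_ne hij with h | h
    · -- i < j
      have hik : i.val < k := by
        have h1 : i.val < j.val := h
        have := j.isLt
        omega
      set l : Fin k := ⟨i.val, hik⟩ with hl
      have hli : l.castSucc = i := by ext; simp [hl]
      have hlj : l.succ ≤ j := by
        rw [Fin.le_def, Fin.val_succ]
        exact h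
      by_cases hc : l0 < l ∨ j ≤ l0.castSucc
      · have hPl : P l i j := Or.inl ⟨hli.symm, hlj, hc⟩
        have h1 := hgap l i j (by rw [hli]) hlj
        have h2 := LT_anti hT h1
        have h3 := hsingle l hPl
        have h4 : (g i - g j).natAbs = (g j - g i).natAbs := by omega
        rw [h4]
        have : LT T (gapf g l) = s + v l := by simp only [hv]; ring
        linarith
      · push Not at hc
        have h1 := hgap l0 i j (by
          rw [← hli]
          exact Fin.castSucc_le_castSucc_iff.mpr hc.1) (by
          rw [Fin.le_def, Fin.val_succ]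
          have := hc.2
          rw [Fin.lt_def] at this
          simp at this
          omega)
        have h2 := LT_anti hT h1
        have h4 : (g i - g j).natAbs = (g j - g i).natAbs := by omega
        rw [h4]
        linarith
    · -- j < i
      have hi0 : 0 < i.val := by
        have h1 : j.val < i.val := h
        omega
      have hik : i.val - 1 < k := by have := i.isLt; omega
      set l : Fin k := ⟨i.val - 1, hik⟩ with hl
      have hli : l.succ = i := by ext; simp [hl]; omega
      have hlj : j ≤ l.castSucc := by
        rw [Fin.le_def]
        simp only [hl, Fin.castSucc_mk]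
        have h1 : j.val < i.val := h
        omega
      by_cases hc : l < l0 ∨ l0.succ ≤ j
      · have hPl : P l i j := Or.inr ⟨hli.symm, hlj, hc⟩
        have h1 := hgap l j i hlj (by rw [hli])
        have h2 := LT_anti hT h1
        have h3 := hsingle l hPl
        have : LT T (gapf g l) = s + v l := by simp only [hv]; ring
        linarith
      · push Not at hc
        have h1 := hgap l0 j i (by
          rw [Fin.le_def]
          have := hc.2
          rw [Fin.lt_def, Fin.val_succ] at this
          simp
          omega) (by
          rw [← hli]
          exact Fin.succ_le_succ_iff.mpr hc.1)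
        have h2 := LT_anti hT h1
        linarith
  -- count of pairs
  have hcount : ∀ l : Fin k, v l ≠ 0 →
      #((univ ×ˢ univ : Finset (Fin (k+1) × Fin (k+1))).filter (fun p => P l p.1 p.2)) ≤ k := by
    intro l hvl
    have hll0 : l ≠ l0 := by
      rintro rfl
      apply hvl
      simp only [hv]
      linarith
    obtain ⟨e, he⟩ : ∃ e : Fin (k+1), ∀ i j, P l i j → j ≠ e := by
      rcases lt_or_gt_of_ne hll0 with h | h
      · refine ⟨Fin.last k, fun i j hp => ?_⟩
        rintro rfl
        rcases hp with ⟨_, _, h3⟩ | ⟨_, h2, _⟩
        · rcases h3 with h3 | h3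
          · exact absurd h (not_lt.mpr h3.le)
          · rw [Fin.le_def] at h3
            simp at h3
            have := l0.isLt
            omega
        · rw [Fin.le_def] at h2
          simp at h2
          have := l.isLt
          omega
      · refine ⟨0, fun i j hp => ?_⟩
        rintro rfl
        rcases hp with ⟨_, h2, _⟩ | ⟨_, _, h3⟩
        · rw [Fin.le_def] at h2
          simp at h2
        · rcases h3 with h3 | h3
          · exact absurd h (not_lt.mpr h3.le)
          · rw [Fin.le_def] at h3
            simp at h3
    calc #((univ ×ˢ univ : Finset (Fin (k+1) × Fin (k+1))).filter (fun p => P l p.1 p.2))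
        ≤ #((univ : Finset (Fin (k+1))).erase e) := by
          apply Finset.card_le_card_of_injOn (fun p => p.2)
          · intro p hp
            rw [mem_coe, mem_filter] at hp
            rw [mem_coe, mem_erase]
            exact ⟨he _ _ hp.2, mem_univ _⟩
          · intro p hp q hq hpq
            rw [mem_coe, mem_filter] at hp hq
            simp only at hpq
            have h1 : p.1 = q.1 := by
              rcases hp.2 with ⟨a1, a2, _⟩ | ⟨a1, a2, _⟩ <;>
                rcases hq.2 with ⟨b1, b2, _⟩ | ⟨b1, b2, _⟩
              · rw [a1, b1]
              · exfalso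
                rw [hpq] at a2
                have := a2.trans b2
                rw [Fin.le_def] at this
                simp at this
              · exfalso
                rw [hpq] at a2
                have := b2.trans a2
                rw [Fin.le_def] at this
                simp at this
              · rw [a1, b1]
            exact Prod.ext h1 hpq
      _ = k := by rw [Finset.card_erase_of_mem (mem_univ _)]; simp
  calc ∑ i, ∑ j ∈ univ.erase i, LT T (g i - g j).natAbs
      ≤ ∑ i, ∑ j ∈ univ.erase i, (s + ∑ l, (if P l i j then v l else 0)) := by
        apply Finset.sum_le_sum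
        intro i _
        apply Finset.sum_le_sum
        intro j hj
        exact hpt i j (fun h => (mem_erase.mp hj).1 h.symm)
    _ = k * (k+1) * s + ∑ i, ∑ j ∈ univ.erase i, ∑ l, (if P l i j then v l else 0) := by
        simp_rw [Finset.sum_add_distrib]
        congr 1
        rw [Finset.sum_congr rfl (fun i _ => by
          rw [Finset.sum_const, Finset.card_erase_of_mem (mem_univ i)])]
        simp
        ring
    _ ≤ k * (k+1) * s + ∑ i, ∑ j, ∑ l, (if P l i j then v l else 0) := by
        gcongr with i _
        · intro j _ _
          exact Finset.sum_nonneg fun l _ => by split_ifs; exacts [hv0 l, le_rfl]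
        · exact Finset.erase_subset _ _
    _ = k * (k+1) * s + ∑ l, v l *
          #((univ ×ˢ univ : Finset (Fin (k+1) × Fin (k+1))).filter (fun p => P l p.1 p.2)) := by
        congr 1
        rw [← Finset.sum_product', Finset.sum_comm]
        apply Finset.sum_congr rfl
        intro l _
        rw [← Finset.sum_filter, Finset.sum_const, nsmul_eq_mul, mul_comm]
    _ ≤ k * (k+1) * s + ∑ l, v l * k := by
        apply add_le_add le_rfl
        apply Finset.sum_le_sum
        intro l _
        by_cases hvl : v l = 0
        · rw [hvl]; simp
        · have := hcount l hvl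
          have h2 : (#((univ ×ˢ univ : Finset (Fin (k+1) × Fin (k+1))).filter
            (fun p => P l p.1 p.2)) : ℝ) ≤ k := by exact_mod_cast this
          exact mul_le_mul_of_nonneg_left h2 (hv0 l)
    _ = _ := by rw [← Finset.sum_mul]; ring

end Pool.Agent.MP6396c4
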