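import Mathlib
import Pool.Agent.Lib.MP_6396c4_an.Gap

open Finset

noncomputable section

namespace Pool.Agent.MP6396c4

lemma sum_rpow_le {η : ℝ} (h0 : 0 ≤ η) (h1 : η < 1) (M : ℕ) :
    ∑ n ∈ range M, (1 + (n:ℝ)) ^ (-η) ≤ (M:ℝ) ^ (1 - η) / (1 - η) := by
  have hp : 0 < 1 - η := by linarith
  induction M with
  | zero => simp; positivity
  | succ M ih =>
    rw [Finset.sum_range_succ]
    have hM : (0:ℝ) < (M:ℝ) + 1 := by positivity
    have key : (M:ℝ) ^ (1 - η) ≤ ((M:ℝ)+1) ^ (1 - η) - (1 - η) * ((M:ℝ)+1) ^ (-η) := by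
      have h2 := rpow_one_add_le_one_add_mul_self (s := -(1 / ((M:ℝ)+1))) (p := 1 - η)
        (by
          have : 1 / ((M:ℝ)+1) ≤ 1 := by rw [div_le_one hM]; linarith [(Nat.cast_nonneg M : (0:ℝ) ≤ M)]
          linarith) hp.le (by linarith)
      have e1 : (M:ℝ) = (1 + -(1 / ((M:ℝ)+1))) * ((M:ℝ)+1) := by field_simp; ring
      have e2 : 0 ≤ 1 + -(1 / ((M:ℝ)+1)) := by
        have : 1 / ((M:ℝ)+1) ≤ 1 := by rw [div_le_one hM]; linarith [(Nat.cast_nonneg M : (0:ℝ) ≤ M)]
        linarith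
      have e3 : (M:ℝ) ^ (1 - η) = (1 + -(1 / ((M:ℝ)+1))) ^ (1 - η) * ((M:ℝ)+1) ^ (1 - η) := by
        nth_rewrite 1 [e1]
        rw [Real.mul_rpow e2 hM.le]
      have e4 : ((M:ℝ)+1) ^ (-η) = ((M:ℝ)+1) ^ (1 - η) / ((M:ℝ)+1) := by
        rw [show -η = (1 - η) - 1 by ring, Real.rpow_sub_one hM.ne']
      rw [e3, e4]
      have h3 : 0 ≤ ((M:ℝ)+1) ^ (1 - η) := by positivity
      calc _ ≤ (1 + (1 - η) * -(1 / ((M:ℝ)+1))) * ((M:ℝ)+1) ^ (1 - η) := by gcongr
        _ = _ := by ring
    push_cast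
    rw [add_comm 1 (M:ℝ)]
    rw [le_div_iff₀ hp] at ih ⊢
    nlinarith

lemma inner_sum {η : ℝ} (h0 : 0 ≤ η) (h1 : η < 1) (Γ : ℕ) :
    ∑ n ∈ range (Γ+1), ((1 + (Γ:ℝ)) / (1 + n)) ^ η ≤ (1 + (Γ:ℝ)) / (1 - η) := by
  have hp : 0 < 1 - η := by linarith
  have hG : (0:ℝ) < 1 + Γ := by positivity
  have e : ∀ n : ℕ, ((1 + (Γ:ℝ)) / (1 + n)) ^ η = (1 + (Γ:ℝ)) ^ η * (1 + (n:ℝ)) ^ (-η) := by
    intro n
    rw [Real.div_rpow hG.le (by positivity), Real.rpow_neg (by positivity), div_eq_mul_inv]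
  simp_rw [e]
  rw [← Finset.mul_sum]
  have h2 := sum_rpow_le h0 h1 (Γ+1)
  push_cast at h2
  rw [add_comm (Γ:ℝ) 1] at h2
  calc (1 + (Γ:ℝ)) ^ η * ∑ n ∈ range (Γ+1), (1 + (n:ℝ)) ^ (-η)
      ≤ (1 + (Γ:ℝ)) ^ η * ((1 + (Γ:ℝ)) ^ (1 - η) / (1 - η)) := by gcongr
    _ = _ := by
      rw [mul_div_assoc', ← Real.rpow_add hG]
      congr 1
      rw [show η + (1 - η) = 1 by ring, Real.rpow_one]

/-- sum over gap vectors -/
lemma gap_total {k : ℕ} (hk : 1 ≤ k) (R : ℕ) (Ψ : ℕ → ℝ) (hΨ : ∀ n, 0 ≤ Ψ n) {η : ℝ} (h0 : 0 ≤ η)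
    (h1 : η < 1) :
    ∑ γ ∈ Fintype.piFinset (fun _ : Fin k => range R),
      Ψ (univ.sup γ) * ∏ l, ((1 + ((univ.sup γ : ℕ) : ℝ)) / (1 + γ l)) ^ η ≤
      k * ∑ Γ ∈ range R, Ψ Γ * ((1 + (Γ:ℝ)) / (1 - η)) ^ (k - 1) := by
  classical
  set Θ : (Fin k → ℕ) → ℝ := fun γ =>
    Ψ (univ.sup γ) * ∏ l, ((1 + ((univ.sup γ : ℕ) : ℝ)) / (1 + γ l)) ^ η with hΘ
  have hΘ0 : ∀ γ, 0 ≤ Θ γ := fun γ => mul_nonneg (hΨ _) (Finset.prod_nonneg fun l _ => by positivity)
  have hne : (univ : Finset (Fin k)).Nonempty := ⟨⟨0, hk⟩, mem_univ _⟩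
  -- choose the index of the maximum
  have h2 : ∀ γ : Fin k → ℕ, Θ γ ≤ ∑ l0 : Fin k, (if γ l0 = univ.sup γ then Θ γ else 0) := by
    intro γ
    obtain ⟨l0, _, hl0⟩ := Finset.exists_mem_eq_sup univ hne γ
    have := Finset.single_le_sum (f := fun l0 : Fin k => if γ l0 = univ.sup γ then Θ γ else 0)
      (fun l _ => by split_ifs; exacts [hΘ0 γ, le_rfl]) (mem_univ l0)
    simp only [← hl0, if_true] at this
    exact this
  have h3 : ∀ l0 : Fin k, ∑ γ ∈ Fintype.piFinset (fun _ : Fin k => range R),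
      (if γ l0 = univ.sup γ then Θ γ else 0) ≤
      ∑ Γ ∈ range R, Ψ Γ * ((1 + (Γ:ℝ)) / (1 - η)) ^ (k - 1) := by
    intro l0
    have hmaps : ∀ γ ∈ (Fintype.piFinset (fun _ : Fin k => range R)), γ l0 ∈ range R := by
      intro γ hγ
      exact Fintype.mem_piFinset.mp hγ l0
    rw [← Finset.sum_fiberwise_of_maps_to hmaps]
    apply Finset.sum_le_sum
    intro Γ _
    set 𝒮 := Fintype.piFinset (fun l : Fin k => if l = l0 then {Γ} else range (Γ+1)) with h𝒮
    calc ∑ γ ∈ (Fintype.piFinset (fun _ : Fin k => range R)).filter (fun γ => γ l0 = Γ),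
          (if γ l0 = univ.sup γ then Θ γ else 0)
        ≤ ∑ γ ∈ 𝒮, Ψ Γ * ∏ l, ((1 + (Γ : ℝ)) / (1 + γ l)) ^ η := by
          rw [← Finset.sum_filter]
          have hsub : ((Fintype.piFinset (fun _ : Fin k => range R)).filter
              (fun γ => γ l0 = Γ)).filter (fun γ => γ l0 = univ.sup γ) ⊆ 𝒮 := by
            intro γ hγ
            rw [mem_filter, mem_filter] at hγ
            rw [h𝒮, Fintype.mem_piFinset]
            intro l
            split_ifs with hl
            · rw [mem_singleton, hl]; exact hγ.1.2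
            · rw [mem_range]
              have : γ l ≤ univ.sup γ := Finset.le_sup (mem_univ l)
              rw [← hγ.2, hγ.1.2] at this
              omega
          refine le_trans (Finset.sum_le_sum fun γ hγ => ?_)
            (Finset.sum_le_sum_of_subset_of_nonneg hsub (fun γ _ _ =>
              mul_nonneg (hΨ _) (Finset.prod_nonneg fun l _ => by positivity)))
          rw [mem_filter, mem_filter] at hγ
          rw [hΘ]
          simp only
          rw [← hγ.2, hγ.1.2]
      _ = Ψ Γ * ∏ l, ∑ n ∈ (if l = l0 then {Γ} else range (Γ+1)), ((1 + (Γ:ℝ)) / (1 + n)) ^ η := by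
          rw [← Finset.mul_sum, h𝒮, Finset.prod_univ_sum]
      _ ≤ Ψ Γ * ((1 + (Γ:ℝ)) / (1 - η)) ^ (k - 1) := by
          apply mul_le_mul_of_nonneg_left _ (hΨ Γ)
          rw [← Finset.mul_prod_erase univ _ (mem_univ l0)]
          simp only [if_true, sum_singleton]
          rw [div_self (by positivity), Real.one_rpow, one_mul]
          calc ∏ l ∈ univ.erase l0, ∑ n ∈ (if l = l0 then {Γ} else range (Γ+1)),
                ((1 + (Γ:ℝ)) / (1 + n)) ^ η
              ≤ ∏ l ∈ univ.erase l0, (1 + (Γ:ℝ)) / (1 - η) := by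
                apply Finset.prod_le_prod
                · intro l _
                  exact Finset.sum_nonneg fun n _ => by positivity
                · intro l hl
                  rw [mem_erase] at hl
                  rw [if_neg hl.1]
                  exact inner_sum h0 h1 Γ
            _ = _ := by rw [Finset.prod_const, Finset.card_erase_of_mem (mem_univ _)]; simp
  calc ∑ γ ∈ Fintype.piFinset (fun _ : Fin k => range R), Θ γ
      ≤ ∑ γ ∈ Fintype.piFinset (fun _ : Fin k => range R),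
          ∑ l0 : Fin k, (if γ l0 = univ.sup γ then Θ γ else 0) :=
        Finset.sum_le_sum fun γ _ => h2 γ
    _ = ∑ l0 : Fin k, ∑ γ ∈ Fintype.piFinset (fun _ : Fin k => range R),
          (if γ l0 = univ.sup γ then Θ γ else 0) := Finset.sum_comm
    _ ≤ ∑ _l0 : Fin k, ∑ Γ ∈ range R, Ψ Γ * ((1 + (Γ:ℝ)) / (1 - η)) ^ (k - 1) :=
        Finset.sum_le_sum fun l0 _ => h3 l0
    _ = _ := by simp

/-- sum over sequences via sorting -/
lemma sort_sum {k : ℕ} (H : ℕ) (G : (Fin (k+1) → ℤ) → ℝ) 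
    (Θ : (Fin k → ℕ) → ℝ) (hΘ : ∀ γ, 0 ≤ Θ γ)
    (hGΘ : ∀ g : Fin (k+1) → ℤ, (∀ i, g i ∈ Icc (-(H:ℤ)) H) → ∀ π : Equiv.Perm (Fin (k+1)),
      Monotone (g ∘ π) → G g ≤ Θ (gapf (g ∘ π))) :
    ∑ g ∈ Fintype.piFinset (fun _ : Fin (k+1) => Icc (-(H:ℤ)) H), G g ≤
      (k+1).factorial * (2 * H + 1) *
        ∑ γ ∈ Fintype.piFinset (fun _ : Fin k => range (2 * H + 1)), Θ γ := by
  classical
  set Q := Fintype.piFinset (fun _ : Fin (k+1) => Icc (-(H:ℤ)) H) with hQ
  -- monotone sum
  have hmono : ∑ g ∈ Q.filter (fun g => Monotone g), Θ (gapf g) ≤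
      (2 * H + 1) * ∑ γ ∈ Fintype.piFinset (fun _ : Fin k => range (2 * H + 1)), Θ γ := by
    have hinj : ∀ g ∈ Q.filter (fun g => Monotone g), ∀ g' ∈ Q.filter (fun g => Monotone g),
        ((g 0, gapf g) : ℤ × (Fin k → ℕ)) = (g' 0, gapf g') → g = g' := by
      intro g hg g' hg' h
      rw [Prod.mk.injEq] at h
      rw [mem_filter] at hg hg'
      funext i
      induction i using Fin.induction with
      | zero => exact h.1
      | succ l ih =>
        have h1 := congrFun h.2 l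
        unfold gapf at h1
        have h2 : g l.castSucc ≤ g l.succ := hg.2 (by rw [Fin.le_def]; simp)
        have h3 : g' l.castSucc ≤ g' l.succ := hg'.2 (by rw [Fin.le_def]; simp)
        omega
    calc ∑ g ∈ Q.filter (fun g => Monotone g), Θ (gapf g)
        = ∑ p ∈ (Q.filter (fun g => Monotone g)).image
            (fun g => ((g 0, gapf g) : ℤ × (Fin k → ℕ))), Θ p.2 := by
          rw [Finset.sum_image]
          intro g hg g' hg' h
          exact hinj g hg g' hg' h
      _ ≤ ∑ p ∈ (Icc (-(H:ℤ)) H) ×ˢ Fintype.piFinset (fun _ : Fin k => range (2 * H + 1)),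
            Θ p.2 := by
          apply Finset.sum_le_sum_of_subset_of_nonneg
          · intro p hp
            rw [mem_image] at hp
            obtain ⟨g, hg, rfl⟩ := hp
            rw [mem_filter, hQ, Fintype.mem_piFinset] at hg
            rw [mem_product, Fintype.mem_piFinset]
            refine ⟨hg.1 0, fun l => ?_⟩
            have h1 := mem_Icc.mp (hg.1 l.castSucc)
            have h2 := mem_Icc.mp (hg.1 l.succ)
            rw [mem_range]
            simp only [gapf]
            omega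
          · intro p _ _; exact hΘ _
      _ = _ := by
          rw [Finset.sum_product]
          simp only [Finset.sum_const, Int.card_Icc, nsmul_eq_mul]
          congr 1
          have : ((H:ℤ) + 1 - -(H:ℤ)).toNat = 2 * H + 1 := by omega
          rw [this]; push_cast; ring
  -- assign to each g its sorting permutation
  calc ∑ g ∈ Q, G g ≤ ∑ g ∈ Q, ∑ π : Equiv.Perm (Fin (k+1)),
        (if Monotone (g ∘ π) then Θ (gapf (g ∘ π)) else 0) := by
        apply Finset.sum_le_sum
        intro g hg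
        rw [hQ, Fintype.mem_piFinset] at hg
        have h1 : Monotone (g ∘ Tuple.sort g) := Tuple.monotone_sort g
        refine (hGΘ g hg (Tuple.sort g) h1).trans ?_
        have := Finset.single_le_sum (f := fun π : Equiv.Perm (Fin (k+1)) =>
          if Monotone (g ∘ π) then Θ (gapf (g ∘ π)) else 0)
          (fun π _ => by split_ifs; exacts [hΘ _, le_rfl]) (mem_univ (Tuple.sort g))
        simp only [h1, if_true] at this
        exact this
    _ = ∑ π : Equiv.Perm (Fin (k+1)), ∑ g ∈ Q,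
        (if Monotone (g ∘ π) then Θ (gapf (g ∘ π)) else 0) := Finset.sum_comm
    _ ≤ ∑ _π : Equiv.Perm (Fin (k+1)), (2 * (H:ℝ) + 1) *
        ∑ γ ∈ Fintype.piFinset (fun _ : Fin k => range (2 * H + 1)), Θ γ := by
        apply Finset.sum_le_sum
        intro π _
        refine le_trans ?_ hmono
        rw [← Finset.sum_filter]
        apply le_of_eq
        apply Finset.sum_bij (fun g _ => g ∘ π)
        · intro g hg
          rw [mem_filter, hQ, Fintype.mem_piFinset] at hg
          rw [mem_filter, hQ, Fintype.mem_piFinset]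
          exact ⟨fun i => hg.1 _, hg.2⟩
        · intro g _ g' _ h
          funext i
          have := congrFun h (π.symm i)
          simpa using this
        · intro g hg
          rw [mem_filter, hQ, Fintype.mem_piFinset] at hg
          refine ⟨g ∘ π.symm, ?_, ?_⟩
          · rw [mem_filter, hQ, Fintype.mem_piFinset]
            refine ⟨fun i => hg.1 _, ?_⟩
            have : (g ∘ π.symm) ∘ π = g := by funext i; simp
            rw [this]; exact hg.2
          · funext i; simp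
        · intro g _; rfl
    _ = _ := by
        rw [Finset.sum_const, Finset.card_univ, Fintype.card_perm, Fintype.card_fin, nsmul_eq_mul]
        ring

end Pool.Agent.MP6396c4
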