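import Mathlib
import Pool.Agent.Lib.MP_6396c4_an.Base

open Finset

noncomputable section

namespace Pool.Agent.MP6396c4

lemma exp_bound_fact (n : ℕ) : Real.exp (n+1) ≤
    Real.exp 1 * √(n+1) * ((n:ℝ)+1) ^ n / n.factorial := by
  have h := stirling_upper n
  rw [le_div_iff₀ (by positivity)]
  have e1 : ((n+1).factorial : ℝ) = (n+1) * n.factorial := by
    rw [Nat.factorial_succ]; push_cast; ring
  rw [e1, div_pow, ← Real.exp_nat_mul] at h
  push_cast at h
  rw [mul_one] at h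
  have hE : 0 < Real.exp ((n:ℝ)+1) := Real.exp_pos _
  have h2 : ((n:ℝ)+1) * n.factorial * Real.exp ((n:ℝ)+1) ≤
      ((n:ℝ)+1) * (Real.exp 1 * √(n+1) * ((n:ℝ)+1) ^ n) := by
    have h3 := mul_le_mul_of_nonneg_right h hE.le
    refine h3.trans (le_of_eq ?_)
    rw [pow_succ]
    field_simp
  have h4 : (0:ℝ) < (n:ℝ) + 1 := by positivity
  have h5 : ((n:ℝ)+1) * (Real.exp ((n:ℝ)+1) * n.factorial) ≤
      ((n:ℝ)+1) * (Real.exp 1 * √(n+1) * ((n:ℝ)+1) ^ n) := by
    refine le_trans (le_of_eq ?_) h2; ring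
  exact le_of_mul_le_mul_left h5 h4

/-- the pointwise algebra -/
lemma theta_algebra (k n : ℕ) (X s κ : ℝ) (hX : 0 < X) (hs0 : 0 ≤ s) (hsX : s ≤ X)
    (hn : ((n:ℝ)+1) ≤ κ * X) :
    ∃ r : ℝ, 0 < r ∧ (κ ≤ 1 → r ≤ 1) ∧ r ^ 2 ≤ κ ∧ r ^ 2 * ((k+1) * (X + k * s)) = (k+1) * (n+1) ∧
    (r ^ (2 * n * (k+1)))⁻¹ * Real.exp ((k+1) * (n+1)) * (√(1 + r ^ 2 * X))⁻¹ ^ (k+1) *
      (√(1 + r ^ 2 * s))⁻¹ ^ k ≤
    (Real.exp 1 * √(k+1)) ^ (k+1) * √(k+1) ^ k *
      (((X + k * s) ^ n / n.factorial) ^ (k+1) * (√(1 + (n+1) / X * s))⁻¹ ^ k) := by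
  set Y := X + k * s with hY
  have hY0 : 0 < Y := by positivity
  have hYX : X ≤ Y := by rw [hY]; nlinarith [mul_nonneg (Nat.cast_nonneg k : (0:ℝ) ≤ k) hs0]
  have hYK : Y ≤ (k+1) * X := by
    rw [hY]
    have : (k:ℝ) * s ≤ k * X := by gcongr
    linarith
  have hn0 : (0:ℝ) < (n:ℝ) + 1 := by positivity
  set q := ((n:ℝ)+1) / Y with hq
  have hq0 : 0 < q := by positivity
  have hqκ : q ≤ κ := by
    rw [hq, div_le_iff₀ hY0]
    have hκ : 0 < κ := by
      by_contra hc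
      push Not at hc
      nlinarith
    nlinarith
  have hr2 : (√q) ^ 2 = q := Real.sq_sqrt hq0.le
  refine ⟨√q, Real.sqrt_pos.mpr hq0, fun h1 => by
    rw [Real.sqrt_le_left (by norm_num)]; linarith, by rw [hr2]; exact hqκ, by
    rw [hr2, hq]; field_simp, ?_⟩
  have e1 : (√q ^ (2 * n * (k+1)))⁻¹ = ((Y / (n+1)) ^ n) ^ (k+1) := by
    rw [mul_assoc, pow_mul, hr2, ← pow_mul, ← inv_pow, hq, inv_div]
  have e2 : Real.exp (((k:ℝ)+1) * (n+1)) = (Real.exp (n+1)) ^ (k+1) := by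
    rw [← Real.exp_nat_mul]; push_cast; ring_nf
  rw [e1, e2, hr2]
  have hK : (0:ℝ) < (k:ℝ) + 1 := by positivity
  -- first factor
  have h1 : (Y / (n+1)) ^ n * Real.exp (n+1) * (√(1 + q * X))⁻¹ ≤
      Real.exp 1 * √(k+1) * (Y ^ n / n.factorial) := by
    have h2 : √((n:ℝ)+1) * (√(1 + q * X))⁻¹ ≤ √(k+1) := by
      rw [← div_eq_mul_inv, ← Real.sqrt_div' _ (by positivity)]
      apply Real.sqrt_le_sqrt
      rw [div_le_iff₀ (by positivity)]
      have h3 : ((n:ℝ)+1) ≤ (k+1) * (q * X) := by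
        rw [hq]
        have : (n:ℝ) + 1 = ((n:ℝ)+1) / Y * Y := by field_simp
        nth_rewrite 1 [this]
        have h4 : 0 ≤ ((n:ℝ)+1) / Y := by positivity
        nlinarith
      nlinarith
    have h3 := exp_bound_fact n
    have h4 : 0 ≤ (√(1 + q * X))⁻¹ := by positivity
    calc (Y / (n+1)) ^ n * Real.exp (n+1) * (√(1 + q * X))⁻¹
        ≤ (Y / (n+1)) ^ n * (Real.exp 1 * √(n+1) * ((n:ℝ)+1) ^ n / n.factorial) *
          (√(1 + q * X))⁻¹ := by gcongr
      _ = Real.exp 1 * (√((n:ℝ)+1) * (√(1 + q * X))⁻¹) * (Y ^ n / n.factorial) := by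
          rw [div_pow]; field_simp
      _ ≤ _ := by gcongr
  have h2 : (√(1 + q * s))⁻¹ ≤ √(k+1) * (√(1 + (n+1) / X * s))⁻¹ := by
    rw [← div_eq_mul_inv, ← Real.sqrt_div' _ (by positivity), ← Real.sqrt_inv]
    apply Real.sqrt_le_sqrt
    rw [inv_eq_one_div, div_le_div_iff₀ (by positivity) (by positivity), one_mul]
    have h3 : (n+1) / X * s ≤ (k+1) * (q * s) := by
      rw [hq]
      have : ((n:ℝ)+1) / X ≤ (k+1) * (((n:ℝ)+1) / Y) := by
        rw [mul_div_assoc', div_le_div_iff₀ hX hY0]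
        nlinarith
      calc (n+1) / X * s ≤ ((k+1) * (((n:ℝ)+1) / Y)) * s := by gcongr
        _ = _ := by ring
    nlinarith
  calc ((Y / (n+1)) ^ n) ^ (k+1) * (Real.exp (n+1)) ^ (k+1) * (√(1 + q * X))⁻¹ ^ (k+1) *
      (√(1 + q * s))⁻¹ ^ k
      = ((Y / (n+1)) ^ n * Real.exp (n+1) * (√(1 + q * X))⁻¹) ^ (k+1) * (√(1 + q * s))⁻¹ ^ k := by
        rw [mul_pow, mul_pow]
    _ ≤ (Real.exp 1 * √(k+1) * (Y ^ n / n.factorial)) ^ (k+1) *
        (√(k+1) * (√(1 + (n+1) / X * s))⁻¹) ^ k := by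
        gcongr
    _ = _ := by rw [mul_pow (Real.exp 1 * √(k+1)), mul_pow (√(k+1))]; ring

lemma sum_erase_perm {K : ℕ} (F : Fin K → Fin K → ℝ) (π : Equiv.Perm (Fin K)) :
    ∑ i, ∑ j ∈ univ.erase i, F (π i) (π j) = ∑ i, ∑ j ∈ univ.erase i, F i j := by
  have h1 : ∀ G : Fin K → Fin K → ℝ, ∑ i, ∑ j ∈ univ.erase i, G i j =
      ∑ i, (∑ j, G i j - G i i) := by
    intro G
    apply Finset.sum_congr rfl
    intro i _
    rw [← Finset.add_sum_erase univ (G i) (mem_univ i)]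
    ring
  rw [h1, h1]
  rw [← Equiv.sum_comp π (fun i => ∑ j, F i j - F i i)]
  apply Finset.sum_congr rfl
  intro i _
  rw [Equiv.sum_comp π (fun j => F (π i) j)]

/-- grouping by integer scale -/
lemma group_scales {T : ℝ} (hT : 1 < T) (R : ℕ) (hR : (R:ℝ) ≤ T) (f : ℕ → ℝ)
    (hf : ∀ j, 0 ≤ f j) :
    ∑ Γ ∈ range R, (1 + (Γ:ℝ))⁻¹ * f ⌊LT T Γ⌋₊ ≤
      Real.exp 1 * ∑ j ∈ range (⌊Real.log T⌋₊ + 1), f j := by
  have hT0 : 0 < T := by linarith
  have hmaps : ∀ Γ ∈ range R, ⌊LT T Γ⌋₊ ∈ range (⌊Real.log T⌋₊ + 1) := by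
    intro Γ _
    rw [mem_range, Nat.lt_succ_iff]
    apply Nat.floor_le_floor
    unfold LT
    apply Real.log_le_log (by positivity)
    apply div_le_self hT0.le
    have : (0:ℝ) ≤ Γ := Nat.cast_nonneg _
    linarith
  rw [← Finset.sum_fiberwise_of_maps_to hmaps, Finset.mul_sum]
  apply Finset.sum_le_sum
  intro j _
  have h1 : ∀ Γ ∈ (range R).filter (fun Γ => ⌊LT T Γ⌋₊ = j), (1 + (Γ:ℝ))⁻¹ * f ⌊LT T Γ⌋₊ ≤
      Real.exp (j+1) / T * f j := by
    intro Γ hΓ
    rw [mem_filter] at hΓ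
    rw [hΓ.2]
    apply mul_le_mul_of_nonneg_right _ (hf j)
    have h2 := Nat.lt_floor_add_one (LT T Γ)
    rw [hΓ.2] at h2
    have h3 : T / (1 + Γ) ≤ Real.exp (j+1) := by
      rw [← Real.log_le_iff_le_exp (by positivity)]
      exact h2.le
    rw [div_le_iff₀ (by positivity)] at h3
    rw [inv_eq_one_div, div_le_div_iff₀ (by positivity) hT0]
    linarith
  refine (Finset.sum_le_sum h1).trans ?_
  rw [Finset.sum_const, nsmul_eq_mul]
  have hcard : (#((range R).filter (fun Γ => ⌊LT T Γ⌋₊ = j)) : ℝ) ≤ T * Real.exp (-j) := by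
    have hsub : ((range R).filter (fun Γ => ⌊LT T Γ⌋₊ = j)) ⊆ range ⌊T * Real.exp (-j)⌋₊ := by
      intro Γ hΓ
      rw [mem_filter, mem_range] at hΓ
      rw [mem_range]
      have hpos : 0 ≤ LT T Γ := by
        apply Real.log_nonneg
        rw [le_div_iff₀ (by positivity), one_mul]
        have : (Γ:ℝ) + 1 ≤ R := by exact_mod_cast hΓ.1
        linarith
      have h2 : (j:ℝ) ≤ LT T Γ := by
        have := Nat.floor_le hpos
        rw [hΓ.2] at this
        exact this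
      have h3 : Real.exp j ≤ T / (1 + Γ) := by
        rw [← Real.le_log_iff_exp_le (by positivity)]
        exact h2
      rw [le_div_iff₀ (by positivity)] at h3
      have h4 : ((Γ + 1 : ℕ) : ℝ) ≤ T * Real.exp (-j) := by
        rw [Real.exp_neg, ← div_eq_mul_inv, le_div_iff₀ (Real.exp_pos _)]
        push_cast
        linarith
      have := Nat.le_floor h4
      omega
    calc (#((range R).filter (fun Γ => ⌊LT T Γ⌋₊ = j)) : ℝ) ≤ #(range ⌊T * Real.exp (-j)⌋₊) := by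
          exact_mod_cast Finset.card_le_card hsub
      _ = ⌊T * Real.exp (-j)⌋₊ := by simp
      _ ≤ _ := Nat.floor_le (by positivity)
  calc (#((range R).filter (fun Γ => ⌊LT T Γ⌋₊ = j)) : ℝ) * (Real.exp (j+1) / T * f j)
      ≤ (T * Real.exp (-j)) * (Real.exp (j+1) / T * f j) := by
        have := hf j
        gcongr
    _ = (Real.exp (-j) * Real.exp (j+1)) * f j := by field_simp
    _ = Real.exp 1 * f j := by
        rw [← Real.exp_add]; congr 2; ring

/-- reduction of the double sum over differences -/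
lemma diff_sum {K : ℕ} (H : ℕ) (F : (Fin K → ℤ) → ℝ) (hF : ∀ g, 0 ≤ F g) :
    ∑ h ∈ Fintype.piFinset (fun _ : Fin K => range H),
      ∑ h' ∈ Fintype.piFinset (fun _ : Fin K => range H),
        F (fun i => (h i : ℤ) - (h' i : ℤ)) ≤
    (H:ℝ) ^ K * ∑ g ∈ Fintype.piFinset (fun _ : Fin K => Icc (-(H:ℤ)) H), F g := by
  classical
  rw [Finset.sum_comm]
  calc ∑ h' ∈ Fintype.piFinset (fun _ : Fin K => range H),
      ∑ h ∈ Fintype.piFinset (fun _ : Fin K => range H),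
        F (fun i => (h i : ℤ) - (h' i : ℤ))
      ≤ ∑ _h' ∈ Fintype.piFinset (fun _ : Fin K => range H),
        ∑ g ∈ Fintype.piFinset (fun _ : Fin K => Icc (-(H:ℤ)) H), F g := by
        apply Finset.sum_le_sum
        intro h' hh'
        rw [Fintype.mem_piFinset] at hh'
        rw [← Finset.sum_image (s := Fintype.piFinset (fun _ : Fin K => range H))
          (g := fun h i => (h i : ℤ) - (h' i : ℤ)) (f := F)]
        · apply Finset.sum_le_sum_of_subset_of_nonneg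
          · intro g hg
            rw [mem_image] at hg
            obtain ⟨h, hh, rfl⟩ := hg
            rw [Fintype.mem_piFinset] at hh ⊢
            intro i
            have h1 := mem_range.mp (hh i)
            have h2 := mem_range.mp (hh' i)
            rw [mem_Icc]
            constructor <;> omega
          · intro g _ _; exact hF g
        · intro a _ b _ hab
          funext i
          have := congrFun hab i
          simp only at this
          omega
    _ = _ := by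
        rw [Finset.sum_const, Fintype.card_piFinset]
        simp

def fsc (k μ : ℕ) (X : ℝ) (j : ℕ) : ℝ := Real.exp (-(k * j : ℝ)) *
  (((X + k * j) ^ μ / μ.factorial) ^ (k+1) * (√(1 + (μ+1) / X * j))⁻¹ ^ k)

lemma fsc_nonneg (k μ : ℕ) {X : ℝ} (hX : 0 ≤ X) (j : ℕ) : 0 ≤ fsc k μ X j := by
  unfold fsc; positivity

lemma fsc_shift (k μ : ℕ) {X s κ : ℝ} (hX : 0 < X) (hs : 0 ≤ s) (hμ : (μ:ℝ) + 1 ≤ κ * X)
    (hkκ : k * κ ≤ 1) :
    Real.exp (-(k * s : ℝ)) *
  (((X + k * s) ^ μ / μ.factorial) ^ (k+1) * (√(1 + (μ+1) / X * s))⁻¹ ^ k) ≤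
    Real.exp (k+1) * fsc k μ X ⌊s⌋₊ := by
  have h1 := Nat.floor_le hs
  have h2 := Nat.lt_floor_add_one s
  set j := ⌊s⌋₊ with hj
  have hk0 : (0:ℝ) ≤ k := Nat.cast_nonneg _
  have hj0 : (0:ℝ) ≤ j := Nat.cast_nonneg _
  have e1 : Real.exp (-(k * s : ℝ)) ≤ Real.exp (-(k * j : ℝ)) := by
    apply Real.exp_le_exp.mpr; nlinarith
  have e2 : (X + k * s) ^ μ ≤ Real.exp 1 * (X + k * j) ^ μ := by
    have h3 : X + k * s ≤ (X + k * j) * Real.exp (k / X) := by
      have h4 : 1 + k / X ≤ Real.exp (k / X) := by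
        have := Real.add_one_le_exp (k / X); linarith
      have h5 : X + k * s ≤ X + k * j + k := by nlinarith
      have h6 : X + k * j + k ≤ (X + k * j) * (1 + k / X) := by
        have : (X + k * j) * (1 + k / X) = X + k * j + k + (k * j) * (k / X) := by
          field_simp; ring
        rw [this]
        have : 0 ≤ (k * j) * (k / X) := by positivity
        linarith
      have h7 : 0 ≤ X + k * j := by positivity
      calc X + k * s ≤ (X + k * j) * (1 + k / X) := h5.trans h6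
        _ ≤ _ := by gcongr
    calc (X + k * s) ^ μ ≤ ((X + k * j) * Real.exp (k / X)) ^ μ := by
          apply pow_le_pow_left₀ (by positivity) h3
      _ = Real.exp (μ * (k / X)) * (X + k * j) ^ μ := by
          rw [mul_pow, ← Real.exp_nat_mul, mul_comm]
      _ ≤ Real.exp 1 * (X + k * j) ^ μ := by
          have : μ * (k / X) ≤ 1 := by
            rw [mul_div_assoc', div_le_one hX]
            nlinarith
          gcongr
  have e3 : (√(1 + (μ+1) / X * s))⁻¹ ≤ (√(1 + (μ+1) / X * j))⁻¹ := by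
    have : (0:ℝ) < (μ:ℝ) + 1 := by positivity
    gcongr
  unfold fsc
  have e4 : Real.exp ((k:ℝ)+1) = Real.exp 1 ^ (k+1) := by
    rw [← Real.exp_nat_mul]; push_cast; ring_nf
  have e5 : ((X + k * s) ^ μ / μ.factorial) ^ (k+1) ≤
      Real.exp 1 ^ (k+1) * ((X + k * j) ^ μ / μ.factorial) ^ (k+1) := by
    rw [← mul_pow]
    have : (X + k * s) ^ μ / μ.factorial ≤ Real.exp 1 * ((X + k * j) ^ μ / μ.factorial) := by
      rw [mul_div_assoc']
      gcongr
    gcongr
  rw [e4]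
  calc Real.exp (-(k * s : ℝ)) * (((X + k * s) ^ μ / μ.factorial) ^ (k+1) *
        (√(1 + (μ+1) / X * s))⁻¹ ^ k)
      ≤ Real.exp (-(k * j : ℝ)) * ((Real.exp 1 ^ (k+1) * ((X + k * j) ^ μ / μ.factorial) ^ (k+1)) *
        (√(1 + (μ+1) / X * j))⁻¹ ^ k) := by
        gcongr
    _ = _ := by ring

end Pool.Agent.MP6396c4
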