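import Mathlib
import Pool.Agent.Lib.MP_6396c4_an.GBound
import Pool.Agent.Lib.MP_6396c4_an.GapSum
import Pool.Agent.Lib.MP_6396c4_an.ZZA

open Finset

noncomputable section

namespace Pool.Agent.MP6396c4

lemma zz_chain {C R e1 e2 S P Q PR W : ℝ} (hC : 0 ≤ C) (hR : 0 ≤ R) (hS : 0 ≤ S) (he1 : 0 ≤ e1)
    (hPR : 0 ≤ PR) (hP : 0 ≤ P) (h1 : e1 ≤ e2 * PR) (h2 : P ≤ Q) (h3 : R * e2 * S * Q ≤ W) :
    C * R * e1 * S * P ≤ C * W * PR := by
  have h4 : 0 ≤ e2 * PR := he1.trans h1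
  calc C * R * e1 * S * P ≤ C * R * (e2 * PR) * S * P := by gcongr
    _ ≤ C * R * (e2 * PR) * S * Q :=
        mul_le_mul_of_nonneg_left h2 (mul_nonneg (mul_nonneg (mul_nonneg hC hR) h4) hS)
    _ = C * (R * e2 * S * Q) * PR := by ring
    _ ≤ _ := by gcongr

/-- The bound for `ZZ`. -/
theorem ZZ_bound (k : ℕ) (hk : 1 ≤ k) {κ : ℝ} (hκ0 : 0 < κ) (hκ : k * κ < 1) :
    ∃ C T0 : ℝ, 0 < C ∧ 1 ≤ T0 ∧ ∀ (N μ : ℕ) (X : ℝ), T0 ≤ Real.log N →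
      Real.log (Real.log N) ≤ X → ((μ:ℝ)+1) ≤ κ * X →
      ZZ (k+1) N X μ ≤ C * ∑ j ∈ range (⌊Real.log (Real.log N)⌋₊ + 1), fsc k μ X j := by
  classical
  obtain ⟨ρ, C, hρ0, hρ1, hC, hGG⟩ := GG_bound k
  have hk1 : (1:ℝ) ≤ k := by exact_mod_cast hk
  have hκ1 : κ ≤ 1 := by
    have : 1 * κ ≤ k * κ := by gcongr
    linarith
  set η := (k:ℝ) * κ with hη
  have hη0 : 0 ≤ η := by positivity
  set C1 := (Real.exp 1 * √(k+1)) ^ (k+1) * √(k+1) ^ k with hC1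
  have hC1p : 0 < C1 := by positivity
  set Ctot := 24 ^ (k+1) * Real.exp ((k+1 : ℕ) ^ 2) * ((k+1).factorial * 3 * (C * C1 * k *
    (1 / (1 - η)) ^ (k-1) * (8 / ρ) ^ k * Real.exp (k+1))) * Real.exp 1 with hCtot
  have h1η : 0 < 1 - η := by linarith
  refine ⟨Ctot, 4 / ρ, ?_, ?_, ?_⟩
  · have hkp : (0:ℝ) < k := by linarith
    positivity
  · rw [le_div_iff₀ hρ0]; linarith
  intro N μ X hT hX hμ
  set T := Real.log N with hTd
  have hT4 : 4 ≤ T := by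
    refine le_trans ?_ hT
    rw [le_div_iff₀ hρ0]; linarith
  have hT0 : 0 < T := by linarith
  have hT1 : 1 < T := by linarith
  have hlogT : 0 < Real.log T := Real.log_pos hT1
  have hX0 : 0 < X := by linarith
  have hρT : 4 ≤ ρ * T := by
    rw [div_le_iff₀ hρ0] at hT; linarith
  obtain ⟨B, hB, hGB⟩ := hGG N T hT1
  set H := ⌊ρ * T / 4⌋₊ with hH
  have hH1 : 1 ≤ H := by
    rw [hH]; apply Nat.le_floor; push_cast; linarith
  have hHle : (H:ℝ) ≤ ρ * T / 4 := Nat.floor_le (by positivity)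
  have hHge : ρ * T / 8 ≤ H := by
    have h1 := Nat.lt_floor_add_one (ρ * T / 4)
    rw [← hH] at h1
    have h2 : (1:ℝ) ≤ H := by exact_mod_cast hH1
    linarith
  have hρTT : ρ * T ≤ T := mul_le_of_le_one_left hT0.le hρ1
  have hHT : (H:ℝ) ≤ T := by linarith
  have hRT : 2 * (H:ℝ) + 1 ≤ T := by linarith
  have hRρ : 2 * (H:ℝ) + 1 < ρ * T := by linarith
  obtain ⟨V, hV⟩ : ∃ V : ℕ, ((k+1 : ℕ):ℝ) * Real.log N + 1/2 ≤ V := exists_nat_ge _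
  have h1 := ZZ_le (k+1) N V (Icc 1 B) (fun n hn => (mem_Icc.mp hn).1)
    (Finset.Icc_subset_Icc_right hB) hX0.le μ (σ := 1/T) (T := T) (by positivity)
    (by rw [← hTd, one_div, inv_mul_cancel₀ hT0.ne']) hH1 hHT hV
  refine h1.trans ?_
  -- the bound of the GG values
  set Ψ : ℕ → ℝ := fun Γ => C * C1 * (((X + k * max 0 (LT T Γ)) ^ μ / μ.factorial) ^ (k+1) *
    (√(1 + (μ+1) / X * max 0 (LT T Γ)))⁻¹ ^ k) with hΨ
  have hΨ0 : ∀ n, 0 ≤ Ψ n := fun n => by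
    have h2 : 0 ≤ max 0 (LT T n) := le_max_left _ _
    simp only [hΨ]
    positivity
  set Θ : (Fin k → ℕ) → ℝ := fun γ =>
    Ψ (univ.sup γ) * ∏ l, ((1 + ((univ.sup γ : ℕ) : ℝ)) / (1 + γ l)) ^ η with hΘ
  have hΘ0 : ∀ γ, 0 ≤ Θ γ := fun γ => mul_nonneg (hΨ0 _) (Finset.prod_nonneg fun l _ => by positivity)
  have hne : (univ : Finset (Fin k)).Nonempty := ⟨⟨0, hk⟩, mem_univ _⟩
  have hG : ∀ g : Fin (k+1) → ℤ, (∀ i, g i ∈ Icc (-(H:ℤ)) H) → ∀ π : Equiv.Perm (Fin (k+1)),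
      Monotone (g ∘ π) → ‖GG (k+1) (Icc 1 B) X μ (1/T) T g‖ ≤ Θ (gapf (g ∘ π)) := by
    intro g hg π hmono
    set γ := gapf (g ∘ π) with hγ
    have hdiff : ∀ i j, (g i - g j).natAbs ≤ 2 * H := by
      intro i j
      have h2 := mem_Icc.mp (hg i)
      have h3 := mem_Icc.mp (hg j)
      omega
    have hγH : ∀ l, γ l ≤ 2 * H := fun l => hdiff _ _
    obtain ⟨l0, _, hl0⟩ := Finset.exists_mem_eq_sup univ hne γ
    set Γ := univ.sup γ with hΓ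
    have hmax : ∀ l, γ l ≤ γ l0 := by
      intro l
      rw [← hl0]
      exact Finset.le_sup (mem_univ l)
    have hΓH : Γ ≤ 2 * H := by rw [hl0]; exact hγH l0
    set s := LT T Γ with hs
    have hs0 : 0 ≤ s := by
      apply Real.log_nonneg
      rw [le_div_iff₀ (by positivity), one_mul]
      have : (Γ:ℝ) ≤ 2 * H := by exact_mod_cast hΓH
      linarith
    have hsX : s ≤ X := by
      refine le_trans ?_ hX
      apply Real.log_le_log (by positivity)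
      apply div_le_self hT0.le
      have : (0:ℝ) ≤ Γ := Nat.cast_nonneg _
      linarith
    obtain ⟨r, hr0, hr1, hrκ, hrY, hralg⟩ := theta_algebra k μ X s κ hX0 hs0 hsX hμ
    have h2 := hGB X μ hX g (by
      intro i j
      rw [div_lt_iff₀ hT0]
      have : ((g i - g j).natAbs : ℝ) ≤ 2 * H := by exact_mod_cast hdiff i j
      linarith) r hr0 (hr1 hκ1) π
    refine h2.trans ?_
    have hps := pair_sum (g ∘ π) hmono hT0 l0 hmax
    have hperm := sum_erase_perm (fun i j => LT T (g i - g j).natAbs) π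
    simp only [Function.comp] at hps
    rw [hperm] at hps
    have hLTγ : ∀ l, s ≤ LT T (γ l) := fun l => LT_anti hT0 (Finset.le_sup (mem_univ l))
    have hprod : ∏ l : Fin k, (√(1 + r ^ 2 * LT T (g (π l.succ) - g (π l.castSucc)).natAbs))⁻¹ ≤
        (√(1 + r ^ 2 * s))⁻¹ ^ k := by
      calc ∏ l : Fin k, (√(1 + r ^ 2 * LT T (g (π l.succ) - g (π l.castSucc)).natAbs))⁻¹
          ≤ ∏ _l : Fin k, (√(1 + r ^ 2 * s))⁻¹ := by
            apply Finset.prod_le_prod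
            · intro l _; positivity
            · intro l _
              have h3 : s ≤ LT T (g (π l.succ) - g (π l.castSucc)).natAbs := hLTγ l
              have h4 : r ^ 2 * s ≤ r ^ 2 * LT T (g (π l.succ) - g (π l.castSucc)).natAbs := by
                gcongr
              gcongr
        _ = _ := by simp
    have hsum : r ^ 2 * ((k+1) * X + ∑ i, ∑ j ∈ univ.erase i, LT T (g i - g j).natAbs) ≤
        (k+1) * (μ+1) + η * ∑ l, (LT T (γ l) - s) := by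
      have h3 : r ^ 2 * ((k+1) * X + ∑ i, ∑ j ∈ univ.erase i, LT T (g i - g j).natAbs) ≤
          r ^ 2 * ((k+1) * X + (k * (k+1) * s + k * ∑ l, (LT T (γ l) - s))) := by
        have h4 : LT T (gapf (g ∘ π) l0) = s := by
          rw [hs, hl0]
        rw [h4] at hps
        have h5 : ∑ i, ∑ j ∈ univ.erase i, LT T (g i - g j).natAbs ≤
            k * (k+1) * s + k * ∑ l, (LT T (γ l) - s) := hps
        gcongr
      refine h3.trans ?_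
      have h4 : r ^ 2 * ((k+1) * X + (k * (k+1) * s + k * ∑ l, (LT T (γ l) - s))) =
          r ^ 2 * ((k+1) * (X + k * s)) + r ^ 2 * (k * ∑ l, (LT T (γ l) - s)) := by ring
      rw [h4, hrY, hη]
      have h5 : 0 ≤ ∑ l, (LT T (γ l) - s) := Finset.sum_nonneg fun l _ => by
        have := hLTγ l; linarith
      have h6 : r ^ 2 * (k * ∑ l, (LT T (γ l) - s)) ≤ κ * (k * ∑ l, (LT T (γ l) - s)) := by
        gcongr
      have h7 : κ * (k * ∑ l, (LT T (γ l) - s)) = k * κ * ∑ l, (LT T (γ l) - s) := by ring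
      rw [h7] at h6
      linarith
    have hexp : Real.exp (η * ∑ l, (LT T (γ l) - s)) =
        ∏ l, ((1 + (Γ:ℝ)) / (1 + γ l)) ^ η := by
      rw [Finset.mul_sum, Real.exp_sum]
      apply Finset.prod_congr rfl
      intro l _
      rw [hs]
      unfold LT
      rw [← Real.log_div (by positivity) (by positivity)]
      have : T / (1 + (γ l : ℝ)) / (T / (1 + (Γ:ℝ))) = (1 + (Γ:ℝ)) / (1 + γ l) := by
        field_simp
      rw [this, Real.rpow_def_of_pos (by positivity), mul_comm]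
    have hmaxs : max 0 s = s := max_eq_right hs0
    have hexp2 : Real.exp (r ^ 2 * ((k+1) * X + ∑ i, ∑ j ∈ univ.erase i, LT T (g i - g j).natAbs)) ≤
        Real.exp ((k+1) * (μ+1)) * ∏ l, ((1 + (Γ:ℝ)) / (1 + γ l)) ^ η := by
      rw [← hexp, ← Real.exp_add]
      exact Real.exp_le_exp.mpr hsum
    have hprod0 : 0 ≤ ∏ l, ((1 + (Γ:ℝ)) / (1 + γ l)) ^ η :=
      Finset.prod_nonneg fun l _ => by positivity
    refine (zz_chain hC.le (by positivity) (by positivity) (Real.exp_pos _).le hprod0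
      (Finset.prod_nonneg fun l _ => by positivity) hexp2 hprod hralg).trans (le_of_eq ?_)
    rw [hΘ]
    simp only [hΨ]
    rw [← hΓ, ← hs, hmaxs]
    ring
  have h2 : ∑ h ∈ Fintype.piFinset (fun _ : Fin (k+1) => range H),
      ∑ h' ∈ Fintype.piFinset (fun _ : Fin (k+1) => range H),
        ‖GG (k+1) (Icc 1 B) X μ (1/T) T (fun i => (h i : ℤ) - (h' i : ℤ))‖ ≤
      (H:ℝ) ^ (k+1) * ((k+1).factorial * (2 * H + 1) *
        (k * ∑ Γ ∈ range (2 * H + 1), Ψ Γ * ((1 + (Γ:ℝ)) / (1 - η)) ^ (k - 1))) := by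
    refine (diff_sum H (fun g => ‖GG (k+1) (Icc 1 B) X μ (1/T) T g‖)
      (fun g => norm_nonneg _)).trans ?_
    have h3 := sort_sum H (fun g => ‖GG (k+1) (Icc 1 B) X μ (1/T) T g‖) Θ hΘ0 hG
    have h4 := gap_total hk (2 * H + 1) Ψ hΨ0 hη0 hκ
    have h5 : ((k+1).factorial * (2 * (H:ℝ) + 1)) *
        ∑ γ ∈ Fintype.piFinset (fun _ : Fin k => range (2 * H + 1)), Θ γ ≤
        (k+1).factorial * (2 * H + 1) *
        (k * ∑ Γ ∈ range (2 * H + 1), Ψ Γ * ((1 + (Γ:ℝ)) / (1 - η)) ^ (k - 1)) := by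
      gcongr
    have h6 := h3.trans h5
    gcongr
  have hHpos : (0:ℝ) < H := by exact_mod_cast hH1
  have h3 : (((H:ℝ) ^ 2) ^ (k+1))⁻¹ * ((H:ℝ) ^ (k+1) * ((k+1).factorial * (2 * H + 1) *
        (k * ∑ Γ ∈ range (2 * H + 1), Ψ Γ * ((1 + (Γ:ℝ)) / (1 - η)) ^ (k - 1)))) ≤
      (k+1).factorial * 3 * (((H:ℝ) ^ k)⁻¹ *
        (k * ∑ Γ ∈ range (2 * H + 1), Ψ Γ * ((1 + (Γ:ℝ)) / (1 - η)) ^ (k - 1))) := by
    have hS : 0 ≤ ∑ Γ ∈ range (2 * H + 1), Ψ Γ * ((1 + (Γ:ℝ)) / (1 - η)) ^ (k - 1) :=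
      Finset.sum_nonneg fun Γ _ => mul_nonneg (hΨ0 _) (by positivity)
    have e1 : (((H:ℝ) ^ 2) ^ (k+1))⁻¹ * (H:ℝ) ^ (k+1) * (2 * H + 1) ≤ 3 * ((H:ℝ) ^ k)⁻¹ := by
      have : (((H:ℝ) ^ 2) ^ (k+1))⁻¹ * (H:ℝ) ^ (k+1) = ((H:ℝ) ^ k)⁻¹ * (H:ℝ)⁻¹ := by
        rw [← pow_mul, ← mul_inv, ← pow_succ, mul_comm 2 (k+1), pow_mul, pow_two, mul_inv]
        rw [mul_assoc, inv_mul_cancel₀ (by positivity), mul_one]
      rw [this, mul_assoc, mul_comm (3:ℝ)]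
      have h4 : (H:ℝ)⁻¹ * (2 * H + 1) ≤ 3 := by
        rw [inv_mul_le_iff₀ hHpos]
        have : (1:ℝ) ≤ H := by exact_mod_cast hH1
        linarith
      gcongr
    calc (((H:ℝ) ^ 2) ^ (k+1))⁻¹ * ((H:ℝ) ^ (k+1) * ((k+1).factorial * (2 * H + 1) *
        (k * ∑ Γ ∈ range (2 * H + 1), Ψ Γ * ((1 + (Γ:ℝ)) / (1 - η)) ^ (k - 1))))
        = ((k+1).factorial * (k * ∑ Γ ∈ range (2 * H + 1), Ψ Γ *
          ((1 + (Γ:ℝ)) / (1 - η)) ^ (k - 1))) *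
          ((((H:ℝ) ^ 2) ^ (k+1))⁻¹ * (H:ℝ) ^ (k+1) * (2 * H + 1)) := by ring
      _ ≤ ((k+1).factorial * (k * ∑ Γ ∈ range (2 * H + 1), Ψ Γ *
          ((1 + (Γ:ℝ)) / (1 - η)) ^ (k - 1))) * (3 * ((H:ℝ) ^ k)⁻¹) := by
          gcongr
      _ = _ := by ring
  have h4 : ((H:ℝ) ^ k)⁻¹ * (k * ∑ Γ ∈ range (2 * H + 1), Ψ Γ * ((1 + (Γ:ℝ)) / (1 - η)) ^ (k - 1)) ≤
      (C * C1 * k * (1 / (1 - η)) ^ (k-1) * (8 / ρ) ^ k * Real.exp (k+1)) *
        ∑ Γ ∈ range (2 * H + 1), (1 + (Γ:ℝ))⁻¹ * fsc k μ X ⌊LT T Γ⌋₊ := by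
    rw [Finset.mul_sum, Finset.mul_sum, Finset.mul_sum]
    apply Finset.sum_le_sum
    intro Γ hΓ
    rw [mem_range] at hΓ
    have hΓ' : (Γ:ℝ) + 1 ≤ 2 * H + 1 := by exact_mod_cast hΓ
    set s := LT T Γ with hs
    have hs0 : 0 ≤ s := by
      apply Real.log_nonneg
      rw [le_div_iff₀ (by positivity), one_mul]
      linarith
    have hmaxs : max 0 s = s := max_eq_right hs0
    have hshift := fsc_shift k μ hX0 hs0 hμ hκ.le
    have hHk : ((H:ℝ) ^ k)⁻¹ * (1 + (Γ:ℝ)) ^ (k-1) ≤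
        (8 / ρ) ^ k * ((1 + (Γ:ℝ))⁻¹ * Real.exp (-(k * s))) := by
      have e1 : Real.exp (-(k * s)) = ((1 + (Γ:ℝ)) / T) ^ k := by
        have : -(k * s) = k * Real.log ((1 + (Γ:ℝ)) / T) := by
          rw [hs]; unfold LT
          rw [Real.log_div (by positivity) (by positivity), Real.log_div (by positivity) (by positivity)]
          ring
        rw [this, Real.exp_nat_mul, Real.exp_log (by positivity)]
      rw [e1]
      have e2 : (1 + (Γ:ℝ))⁻¹ * ((1 + (Γ:ℝ)) / T) ^ k = (1 + (Γ:ℝ)) ^ (k-1) * (T ^ k)⁻¹ := by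
        obtain ⟨k', rfl⟩ : ∃ k', k = k' + 1 := ⟨k - 1, by omega⟩
        rw [div_pow]
        simp only [Nat.add_sub_cancel]
        rw [pow_succ (1 + (Γ:ℝ))]
        field_simp
      rw [e2]
      have e3 : ((H:ℝ) ^ k)⁻¹ ≤ (8 / ρ) ^ k * (T ^ k)⁻¹ := by
        rw [← inv_pow, ← inv_pow, ← mul_pow]
        apply pow_le_pow_left₀ (by positivity)
        rw [inv_le_comm₀ hHpos (by positivity)]
        refine le_trans (le_of_eq ?_) hHge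
        field_simp
      calc ((H:ℝ) ^ k)⁻¹ * (1 + (Γ:ℝ)) ^ (k-1) ≤ ((8 / ρ) ^ k * (T ^ k)⁻¹) * (1 + (Γ:ℝ)) ^ (k-1) := by
            gcongr
        _ = _ := by ring
    calc ((H:ℝ) ^ k)⁻¹ * (k * (Ψ Γ * ((1 + (Γ:ℝ)) / (1 - η)) ^ (k - 1)))
        = (C * C1 * k * (1 / (1 - η)) ^ (k-1)) * (((X + k * s) ^ μ / μ.factorial) ^ (k+1) *
            (√(1 + (μ+1) / X * s))⁻¹ ^ k) * (((H:ℝ) ^ k)⁻¹ * (1 + (Γ:ℝ)) ^ (k-1)) := by
          simp only [hΨ]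
          rw [← hs, hmaxs, div_pow (1 + (Γ:ℝ)), one_div, inv_pow]
          ring
      _ ≤ (C * C1 * k * (1 / (1 - η)) ^ (k-1)) * (((X + k * s) ^ μ / μ.factorial) ^ (k+1) *
            (√(1 + (μ+1) / X * s))⁻¹ ^ k) * ((8 / ρ) ^ k * ((1 + (Γ:ℝ))⁻¹ * Real.exp (-(k * s)))) := by
          gcongr
      _ = (C * C1 * k * (1 / (1 - η)) ^ (k-1)) * (8 / ρ) ^ k * (1 + (Γ:ℝ))⁻¹ *
            (Real.exp (-(k * s)) * (((X + k * s) ^ μ / μ.factorial) ^ (k+1) *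
            (√(1 + (μ+1) / X * s))⁻¹ ^ k)) := by ring
      _ ≤ (C * C1 * k * (1 / (1 - η)) ^ (k-1)) * (8 / ρ) ^ k * (1 + (Γ:ℝ))⁻¹ *
            (Real.exp (k+1) * fsc k μ X ⌊s⌋₊) := by
          gcongr
      _ = _ := by ring
  have h5 := group_scales hT1 (2 * H + 1) (by push_cast; exact hRT) (fsc k μ X)
    (fun j => fsc_nonneg k μ hX0.le j)
  calc (24:ℝ) ^ (k+1) * Real.exp ((k+1 : ℕ) ^ 2) * ((((H:ℝ) ^ 2) ^ (k+1))⁻¹ *
      ∑ h ∈ Fintype.piFinset (fun _ : Fin (k+1) => range H),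
      ∑ h' ∈ Fintype.piFinset (fun _ : Fin (k+1) => range H),
        ‖GG (k+1) (Icc 1 B) X μ (1/T) T (fun i => (h i : ℤ) - (h' i : ℤ))‖)
      ≤ (24:ℝ) ^ (k+1) * Real.exp ((k+1 : ℕ) ^ 2) * ((((H:ℝ) ^ 2) ^ (k+1))⁻¹ *
        ((H:ℝ) ^ (k+1) * ((k+1).factorial * (2 * H + 1) *
        (k * ∑ Γ ∈ range (2 * H + 1), Ψ Γ * ((1 + (Γ:ℝ)) / (1 - η)) ^ (k - 1))))) := by
        gcongr
    _ ≤ (24:ℝ) ^ (k+1) * Real.exp ((k+1 : ℕ) ^ 2) * ((k+1).factorial * 3 * (((H:ℝ) ^ k)⁻¹ *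
        (k * ∑ Γ ∈ range (2 * H + 1), Ψ Γ * ((1 + (Γ:ℝ)) / (1 - η)) ^ (k - 1)))) := by
        gcongr
    _ ≤ (24:ℝ) ^ (k+1) * Real.exp ((k+1 : ℕ) ^ 2) * ((k+1).factorial * 3 *
        ((C * C1 * k * (1 / (1 - η)) ^ (k-1) * (8 / ρ) ^ k * Real.exp (k+1)) *
        ∑ Γ ∈ range (2 * H + 1), (1 + (Γ:ℝ))⁻¹ * fsc k μ X ⌊LT T Γ⌋₊)) := by
        gcongr
    _ ≤ (24:ℝ) ^ (k+1) * Real.exp ((k+1 : ℕ) ^ 2) * ((k+1).factorial * 3 *
        ((C * C1 * k * (1 / (1 - η)) ^ (k-1) * (8 / ρ) ^ k * Real.exp (k+1)) *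
        (Real.exp 1 * ∑ j ∈ range (⌊Real.log T⌋₊ + 1), fsc k μ X j))) := by
        gcongr
    _ = Ctot * ∑ j ∈ range (⌊Real.log T⌋₊ + 1), fsc k μ X j := by
        rw [hCtot]; ring

end Pool.Agent.MP6396c4
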