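import Mathlib
import Pool.Agent.Lib.MP_6396c4_an.OmB
import Pool.Agent.Lib.MP_6396c4_an.ScalUB2
import Pool.Agent.Lib.MP_6396c4_an.ZZBound
import Pool.Agent.Lib.MP_6396c4_an.Diag

open Finset ArithmeticFunction

noncomputable section

namespace Pool.Agent.MP6396c4

theorem ub1 (k : ℕ) (hk : 1 ≤ k) {κ : ℝ} (hκ0 : 0 < κ) (hκ : k * κ < 1) :
    ∃ C D L0 : ℝ, 0 < C ∧ 0 < D ∧ 3 ≤ L0 ∧ ∀ N μ : ℕ, L0 ≤ Real.log (Real.log N) →
      (μ:ℝ) + 1 ≤ κ * Real.log (Real.log N) →
      (#(sols (k+1) N (μ+1)) : ℝ) ≤ C * (#(om (μ+1) N) : ℝ) ^ (k+1) *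
        (1 + JJ k μ (Real.log (1 + Real.log N) + D) (⌊Real.log (Real.log N)⌋₊ + 1)) := by
  obtain ⟨D, C1, hD, hC1, hup⟩ := upper_count k
  obtain ⟨C2, T0, hC2, hT0, hZ⟩ := ZZ_bound k hk hκ0 hκ
  obtain ⟨c, L1, hc, hL1, hpi⟩ := pi_lower D hD
  have hk1 : (1:ℝ) ≤ k := by exact_mod_cast hk
  have hκ1 : κ < 1 := by nlinarith
  set b : ℝ := 1 / (2 * ((k:ℝ)+1)) with hb
  have hb0 : 0 < b := by positivity
  obtain ⟨C3, hC3, hexp⟩ := pow_le_exp_mul ((k+1) * k + (k+1)) hb0
  refine ⟨(C1 * C3 + C1 * C2) / c ^ (k+1), D, max L1 (Real.log T0), by positivity, hD,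
    le_max_of_le_left hL1, ?_⟩
  intro N μ hL hμ
  have hLL1 : L1 ≤ Real.log (Real.log N) := le_trans (le_max_left _ _) hL
  obtain ⟨hT1, hN2, hLX, hXL⟩ := LL_facts hL1 hLL1
  set T := Real.log N with hT
  set L := Real.log T with hLd
  have hT00 : 0 < T := by linarith
  have hTT0 : T0 ≤ T := by
    have h1 : Real.log T0 ≤ Real.log T := le_trans (le_max_right _ _) hL
    exact (Real.log_le_log_iff (by linarith) hT00).mp h1
  set X := Real.log (1 + T) + D with hX
  have hLX' : L ≤ X := by linarith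
  have hL0 : 0 < L := by linarith
  have hX0 : 0 < X := by linarith
  have hμL : (μ:ℝ) ≤ L := by nlinarith
  have hμX : (μ:ℝ) ≤ X := by linarith
  have hμκ : (μ:ℝ) + 1 ≤ κ * X := by nlinarith
  have h1 := hup N μ X hN2 le_rfl hμX
  have h2 := hZ N μ X hTT0 hLX' hμκ
  have h3 := hpi N μ hLL1 hμL
  have hNpos : (0:ℝ) < N := by have : 0 < N := by omega
                               exact_mod_cast this
  set P := X ^ μ / μ.factorial with hP
  have hP0 : 0 < P := by positivity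
  have hP1 : 1 ≤ P := pow_div_fact_ge_one hμX
  set M := (N:ℝ) / (1 + T) with hM
  have hM0 : 0 < M := by positivity
  set n := ⌊L⌋₊ + 1 with hn
  have hJ0 : 0 ≤ JJ k μ X n := by
    unfold JJ
    exact Finset.sum_nonneg fun j _ => by positivity
  have hf : ∑ j ∈ range n, fsc k μ X j = P ^ (k+1) * JJ k μ X n := by
    unfold JJ
    rw [Finset.mul_sum]
    apply Finset.sum_congr rfl
    intro j _
    unfold fsc
    have e1 : X + k * j = X * (1 + k * j / X) := by field_simp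
    rw [e1, hP, mul_pow, div_pow, mul_pow, div_pow, ← pow_mul, ← pow_mul]
    ring
  rw [hf] at h2
  -- the main term
  have h4 : C1 * M ^ (k+1) * ZZ (k+1) N X μ ≤ C1 * C2 * (M * P) ^ (k+1) * JJ k μ X n := by
    calc C1 * M ^ (k+1) * ZZ (k+1) N X μ ≤ C1 * M ^ (k+1) * (C2 * (P ^ (k+1) * JJ k μ X n)) := by
          gcongr
      _ = _ := by rw [mul_pow]; ring
  have h5 : C1 * ((N : ℝ) ^ ((k:ℝ) + 1 - 1 / (2 * (k+1))) * (1 + T) ^ ((k+1) * k)) ≤
      C1 * C3 * (M * P) ^ (k+1) := by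
    have e1 : (N:ℝ) ^ ((k:ℝ) + 1 - 1 / (2 * (k+1))) = (N:ℝ) ^ (k+1) * Real.exp (-(b * T)) := by
      rw [Real.rpow_sub hNpos, ← hb, div_eq_mul_inv]
      congr 1
      · rw [← Real.rpow_natCast]; push_cast; rfl
      · rw [Real.exp_neg, Real.rpow_def_of_pos hNpos, mul_comm b T]
    have e2 := hexp T hT00.le
    have e3 : (1 + T) ^ ((k+1) * k) ≤ C3 * Real.exp (b * T) * ((1 + T) ^ (k+1))⁻¹ := by
      rw [← div_eq_mul_inv, le_div_iff₀ (by positivity), ← pow_add]
      exact e2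
    rw [e1]
    calc C1 * ((N:ℝ) ^ (k+1) * Real.exp (-(b * T)) * (1 + T) ^ ((k+1) * k))
        ≤ C1 * ((N:ℝ) ^ (k+1) * Real.exp (-(b * T)) *
            (C3 * Real.exp (b * T) * ((1 + T) ^ (k+1))⁻¹)) := by gcongr
      _ = C1 * C3 * M ^ (k+1) * (Real.exp (-(b * T)) * Real.exp (b * T)) := by
          rw [hM, div_pow]; ring
      _ = C1 * C3 * M ^ (k+1) := by rw [← Real.exp_add]; simp
      _ ≤ C1 * C3 * (M * P) ^ (k+1) := by
          have : M ≤ M * P := by nlinarith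
          gcongr
  have h6 : (M * P) ^ (k+1) ≤ (#(om (μ+1) N) : ℝ) ^ (k+1) / c ^ (k+1) := by
    rw [← div_pow]
    have : M * P ≤ (#(om (μ+1) N) : ℝ) / c := by
      rw [le_div_iff₀ hc]
      calc M * P * c = c * M * P := by ring
        _ ≤ _ := h3
    gcongr
  have hMP : 0 ≤ (M * P) ^ (k+1) := by positivity
  have hJ1 : JJ k μ X n ≤ 1 + JJ k μ X n := by linarith
  calc (#(sols (k+1) N (μ+1)) : ℝ) ≤ C1 * C3 * (M * P) ^ (k+1) +
        C1 * C2 * (M * P) ^ (k+1) * JJ k μ X n := by linarith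
    _ ≤ C1 * C3 * (M * P) ^ (k+1) * (1 + JJ k μ X n) +
        C1 * C2 * (M * P) ^ (k+1) * (1 + JJ k μ X n) := by
        have e1 : C1 * C3 * (M * P) ^ (k+1) ≤ C1 * C3 * (M * P) ^ (k+1) * (1 + JJ k μ X n) := by
          have : 0 ≤ C1 * C3 * (M * P) ^ (k+1) := by positivity
          nlinarith
        have e2 : C1 * C2 * (M * P) ^ (k+1) * JJ k μ X n ≤
            C1 * C2 * (M * P) ^ (k+1) * (1 + JJ k μ X n) := by gcongr
        linarith
    _ = (C1 * C3 + C1 * C2) * (M * P) ^ (k+1) * (1 + JJ k μ X n) := by ring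
    _ ≤ (C1 * C3 + C1 * C2) * ((#(om (μ+1) N) : ℝ) ^ (k+1) / c ^ (k+1)) * (1 + JJ k μ X n) := by
        gcongr
    _ = _ := by ring

/-- The comparability condition, `K = k + 1` being the exponent. -/
def CondK (k : ℕ) (C : ℝ) (N m : ℕ) : Prop :=
  (N:ℝ) ≤ C * 2 ^ m ∨ (k = 2 ∧ (m:ℝ) ≤ (1/3 - 1/C) * Real.log (Real.log N)) ∨
    (3 ≤ k ∧ ((k:ℝ)+1) * m ≤ Real.log (Real.log N) + Df k C (Real.log (Real.log N)))

lemma exists_N_of_L (L0 : ℝ) : ∃ N0 : ℕ, 1 ≤ N0 ∧ ∀ N : ℕ, N0 ≤ N → L0 ≤ Real.log (Real.log N) := by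
  have h1 : Filter.Tendsto (fun N : ℕ => Real.log (Real.log N)) Filter.atTop Filter.atTop :=
    Real.tendsto_log_atTop.comp (Real.tendsto_log_atTop.comp tendsto_natCast_atTop_atTop)
  obtain ⟨N0, h⟩ := Filter.eventually_atTop.mp (h1.eventually_ge_atTop L0)
  exact ⟨max N0 1, le_max_right _ _, fun N hN => h N (le_trans (le_max_left _ _) hN)⟩

theorem ub_final (k : ℕ) (hk : 2 ≤ k) (C : ℝ) (hC : 0 < C) : ∃ B : ℝ, 0 < B ∧ ∀ N m : ℕ,
    1 ≤ m → 2 ^ m ≤ N → CondK k C N m →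
    (#(sols (k+1) N m) : ℝ) ≤ B * (#(om m N) : ℝ) ^ (k+1) := by
  have hk2 : (2:ℝ) ≤ k := by exact_mod_cast hk
  -- bounded case
  have hbdd : ∀ B0 : ℕ, ∀ N m : ℕ, #(om m N) ≤ B0 → 
      (#(sols (k+1) N m) : ℝ) ≤ (B0:ℝ) ^ (k+1) * (#(om m N) : ℝ) ^ (k+1) := by
    intro B0 N m h
    have h1 : (#(sols (k+1) N m) : ℝ) ≤ (#(om m N) : ℝ) ^ (2 * (k+1)) := by
      exact_mod_cast sols_le (k+1) N m
    refine h1.trans ?_
    rw [two_mul, pow_add]
    have h2 : (#(om m N) : ℝ) ≤ B0 := by exact_mod_cast h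
    gcongr
  obtain ⟨B0, hB0⟩ := om_bdd C
  -- the main case: there are B1, L0 such that the bound holds for L ≥ L0
  have hmain : ∃ B1 L0 : ℝ, 0 ≤ B1 ∧ ∀ N m : ℕ, 1 ≤ m → L0 ≤ Real.log (Real.log N) →
      ((k = 2 ∧ (m:ℝ) ≤ (1/3 - 1/C) * Real.log (Real.log N)) ∨
      (3 ≤ k ∧ ((k:ℝ)+1) * m ≤ Real.log (Real.log N) + Df k C (Real.log (Real.log N)))) →
      (#(sols (k+1) N m) : ℝ) ≤ B1 * (#(om m N) : ℝ) ^ (k+1) := by
    rcases hk.eq_or_lt with hk2' | hk3
    · subst hk2'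
      obtain ⟨C1, D, L0, hC1, hD, hL0, h⟩ := ub1 2 (by norm_num) (κ := 1/3) (by norm_num)
        (by norm_num)
      refine ⟨C1 * (1 + (1 + 1 / (3 / C))), L0, by positivity, ?_⟩
      intro N m hm hL hcond
      rcases hcond with ⟨_, hm2⟩ | ⟨h3, _⟩
      · obtain ⟨hT1, hN2, hLX, hXL⟩ := LL_facts hL0 hL
        obtain ⟨μ, rfl⟩ : ∃ μ, m = μ + 1 := ⟨m - 1, by omega⟩
        set L := Real.log (Real.log N) with hLd
        have hLpos : 0 < L := by linarith
        have hC' : 0 < 1 / C := by positivity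
        have h1 := h N μ hL (by
          push_cast at hm2
          nlinarith)
        refine h1.trans ?_
        have h2 := JJ_small (k := 2) (μ := μ) (by norm_num) (X := Real.log (1 + Real.log N) + D)
          (δ := 3 / C) (by linarith) (by positivity) (by
            push_cast at hm2 ⊢
            have h4 : (μ:ℝ) * (2 + 1) ≤ (1 - 3 / C) * L := by
              have : (1 - 3 / C) * L = 3 * ((1/3 - 1/C) * L) := by ring
              rw [this]; nlinarith
            have h5 : 0 ≤ 1 - 3 / C := by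
              by_contra hc
              push Not at hc
              have : (0:ℝ) ≤ μ := Nat.cast_nonneg μ
              nlinarith
            refine h4.trans ?_
            gcongr
            linarith) (⌊L⌋₊ + 1)
        have h3 : 0 ≤ C1 * (#(om (μ+1) N) : ℝ) ^ (2+1) := by positivity
        calc C1 * (#(om (μ+1) N) : ℝ) ^ (2+1) * (1 + JJ 2 μ (Real.log (1 + Real.log N) + D)
              (⌊L⌋₊ + 1))
            ≤ C1 * (#(om (μ+1) N) : ℝ) ^ (2+1) * (1 + (1 + 1 / (3 / C))) := by gcongr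
          _ = _ := by ring
      · omega
    · have hk3' : (3:ℝ) ≤ k := by exact_mod_cast hk3
      set κ : ℝ := (2 * k + 1) / (2 * k * (k + 1)) with hκ
      have hκ0 : 0 < κ := by positivity
      have hkκ : k * κ < 1 := by
        rw [hκ, mul_div_assoc', div_lt_one (by positivity)]
        nlinarith
      obtain ⟨C1, D, L0, hC1, hD, hL0, h⟩ := ub1 k (by omega) hκ0 hkκ
      obtain ⟨B2, L2, hB2, hL2, hJ⟩ := JJ_bound k hk3 C hC
      obtain ⟨L3, A, hL3, hA, hfacts⟩ := delta_facts k hk3 C hC (2 * (2 * k) ^ 3) (by positivity)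
      refine ⟨C1 * (1 + B2), max (max L0 L2) (max L3 (D + 1)), by positivity, ?_⟩
      intro N m hm hL hcond
      have hLL0 : L0 ≤ Real.log (Real.log N) :=
        le_trans (le_trans (le_max_left _ _) (le_max_left _ _)) hL
      have hLL2 : L2 ≤ Real.log (Real.log N) :=
        le_trans (le_trans (le_max_right _ _) (le_max_left _ _)) hL
      have hLL3 : L3 ≤ Real.log (Real.log N) :=
        le_trans (le_trans (le_max_left _ _) (le_max_right _ _)) hL
      have hLLD : D + 1 ≤ Real.log (Real.log N) :=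
        le_trans (le_trans (le_max_right _ _) (le_max_right _ _)) hL
      rcases hcond with ⟨h3, _⟩ | ⟨_, hm2⟩
      · omega
      · obtain ⟨hT1, hN2, hLX, hXL⟩ := LL_facts hL0 hLL0
        obtain ⟨μ, rfl⟩ : ∃ μ, m = μ + 1 := ⟨m - 1, by omega⟩
        obtain ⟨hD0, _, _, _, hD3, _, _⟩ := hfacts _ hLL3
        set L := Real.log (Real.log N) with hLd
        set Δ := Df k C L with hΔ
        have hLpos : 0 < L := by linarith
        have hΔL : Δ ≤ L / (2 * k) := by
          apply (pow_le_pow_iff_left₀ hD0.le (by positivity) (three_ne_zero)).mp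
          rw [div_pow, le_div_iff₀ (by positivity)]
          have h1 : L ^ 2 ≤ L ^ 3 := pow_le_pow_right₀ (by linarith) (by norm_num)
          nlinarith
        push_cast at hm2
        have h1 := h N μ hLL0 (by
          rw [hκ, div_mul_eq_mul_div, le_div_iff₀ (by positivity)]
          have h4 : ((k:ℝ) + 1) * (μ + 1) ≤ L + L / (2 * k) := hm2.trans (by linarith)
          have h5 : (L + L / (2 * k)) * (2 * k) = (2 * k + 1) * L := by field_simp
          have h6 : ((k:ℝ) + 1) * (μ + 1) * (2 * k) ≤ (L + L / (2 * k)) * (2 * k) := by gcongr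
          rw [h5] at h6
          linarith)
        refine h1.trans ?_
        have h2 := hJ L (Real.log (1 + Real.log N) + D) μ (⌊L⌋₊ + 1) hLL2 (by linarith)
          (by linarith) (by
            push_cast
            have := Nat.floor_le hLpos.le
            linarith) (by nlinarith)
        have h3 : 0 ≤ C1 * (#(om (μ+1) N) : ℝ) ^ (k+1) := by positivity
        calc C1 * (#(om (μ+1) N) : ℝ) ^ (k+1) * (1 + JJ k μ (Real.log (1 + Real.log N) + D)
              (⌊L⌋₊ + 1))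
            ≤ C1 * (#(om (μ+1) N) : ℝ) ^ (k+1) * (1 + B2) := by gcongr
          _ = _ := by ring
  obtain ⟨B1, L0, hB1, hmain⟩ := hmain
  obtain ⟨N0, hN01, hN0⟩ := exists_N_of_L L0
  refine ⟨B1 + (B0:ℝ) ^ (k+1) + (N0:ℝ) ^ (k+1), by positivity, ?_⟩
  intro N m hm h2m hcond
  have hπ : 0 ≤ (#(om m N) : ℝ) ^ (k+1) := by positivity
  have hB0' : 0 ≤ (B0:ℝ) ^ (k+1) := by positivity
  have hN0' : 0 ≤ (N0:ℝ) ^ (k+1) := by positivity
  by_cases hN : N0 ≤ N
  · rcases hcond with h1 | h1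
    · have h2 := hbdd B0 N m (hB0 N m h1)
      refine h2.trans ?_
      gcongr
      linarith
    · have h2 := hmain N m hm (hN0 N hN) h1
      refine h2.trans ?_
      gcongr
      linarith
  · push Not at hN
    have h2 := hbdd N0 N m ((om_le m N).trans hN.le)
    refine h2.trans ?_
    gcongr
    linarith

end Pool.Agent.MP6396c4
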