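import Mathlib
import Pool.Agent.Lib.MP_6396c4_an.Torus
import Pool.Agent.Lib.MP_6396c4_an.LBfour
import Pool.Agent.Lib.MP_6396c4_an.LBrat
import Pool.Agent.Lib.MP_6396c4_an.LBfar
import Pool.Agent.Lib.MP_6396c4_an.UBA

open Finset ArithmeticFunction MeasureTheory

noncomputable section

namespace Pool.Agent.MP6396c4

lemma Df_mono (k : ℕ) {C1 C2 L : ℝ} (h : C1 ≤ C2) (hL : 0 ≤ L) : Df k C1 L ≤ Df k C2 L := by
  unfold Df Qf
  apply Real.sqrt_le_sqrt
  have : 0 ≤ L / 2 := by linarith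
  gcongr

lemma LL_ge_of {N : ℕ} {L1 C : ℝ} (hC : Real.exp (Real.exp L1) ≤ C) {m : ℕ}
    (h : C * 2 ^ m ≤ (N:ℝ)) : L1 ≤ Real.log (Real.log N) := by
  have h1 : (1:ℝ) ≤ 2 ^ m := one_le_pow₀ (by norm_num)
  have h2 : Real.exp (Real.exp L1) ≤ N := by
    refine le_trans ?_ h
    have h3 := Real.exp_pos (Real.exp L1)
    calc Real.exp (Real.exp L1) ≤ C := hC
      _ ≤ C * 2 ^ m := le_mul_of_one_le_right (by linarith) h1
  have hN0 : (0:ℝ) < N := lt_of_lt_of_le (Real.exp_pos _) h2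
  have h4 : Real.exp L1 ≤ Real.log N := by
    rw [Real.le_log_iff_exp_le hN0]; exact h2
  rw [Real.le_log_iff_exp_le (lt_of_lt_of_le (Real.exp_pos _) h4)]
  exact h4

theorem lb_final (k : ℕ) (hk : 2 ≤ k) (B : ℝ) : ∃ C : ℝ, 0 < C ∧ ∀ N m : ℕ,
    (#(sols (k+1) N m) : ℝ) ≤ B * (#(om m N) : ℝ) ^ (k+1) → CondK k C N m := by
  obtain ⟨C2, hC2, hfar⟩ := region_far k hk B
  rcases hk.eq_or_lt with hk2 | hk3
  · subst hk2
    obtain ⟨C1, L1, hC1, hL1, h3⟩ := region_three B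
    set C := max (max C1 C2) (Real.exp (Real.exp L1)) with hC
    have hCC1 : C1 ≤ C := le_trans (le_max_left _ _) (le_max_left _ _)
    have hCC2 : C2 ≤ C := le_trans (le_max_right _ _) (le_max_left _ _)
    have hCL : Real.exp (Real.exp L1) ≤ C := le_max_right _ _
    refine ⟨C, by linarith, fun N m hle => ?_⟩
    by_contra hcond
    unfold CondK at hcond
    push Not at hcond
    obtain ⟨hn1, hn2, _⟩ := hcond
    have hn2 := hn2 rfl
    have hL := LL_ge_of hCL hn1.le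
    have h2m : (0:ℝ) < 2 ^ m := by positivity
    rcases lt_or_ge (19/10 * Real.log (Real.log N)) (m:ℝ) with h | h
    · have h5 := hfar N m (le_trans (by gcongr) hn1.le) h
      linarith
    · have h5 := h3 N m hL (by
        refine lt_of_le_of_lt ?_ hn2
        have : 0 ≤ Real.log (Real.log (N:ℝ)) := by linarith
        have h6 : 1 / C ≤ 1 / C1 := one_div_le_one_div_of_le (by linarith) hCC1
        gcongr) h
      norm_num at h5 hle
      linarith
  · obtain ⟨C1, L1, hC1, hL1, h4⟩ := region_four k hk3 B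
    set C := max (max C1 C2) (Real.exp (Real.exp L1)) with hC
    have hCC1 : C1 ≤ C := le_trans (le_max_left _ _) (le_max_left _ _)
    have hCC2 : C2 ≤ C := le_trans (le_max_right _ _) (le_max_left _ _)
    have hCL : Real.exp (Real.exp L1) ≤ C := le_max_right _ _
    refine ⟨C, by linarith, fun N m hle => ?_⟩
    by_contra hcond
    unfold CondK at hcond
    push Not at hcond
    obtain ⟨hn1, _, hn2⟩ := hcond
    have hn2 := hn2 hk3
    have hL := LL_ge_of hCL hn1.le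
    have h2m : (0:ℝ) < 2 ^ m := by positivity
    rcases lt_or_ge (19/10 * Real.log (Real.log N)) (m:ℝ) with h | h
    · have h5 := hfar N m (le_trans (by gcongr) hn1.le) h
      linarith
    · have h5 := h4 N m hL (by
        refine lt_of_le_of_lt ?_ hn2
        have := Df_mono k hCC1 (show 0 ≤ Real.log (Real.log (N:ℝ)) by linarith)
        linarith) h
      linarith

lemma FNm_ne_zero_iff {N m : ℕ} : FNm N m ≠ 0 ↔ 2 ^ m ≤ N := by
  constructor
  · intro h
    by_contra hc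
    apply h
    funext x
    unfold FNm
    rw [Pi.zero_apply]
    apply Finset.sum_eq_zero
    intro n hn
    exfalso
    rw [mem_filter, mem_Icc] at hn
    obtain ⟨⟨hn1, hnN⟩, hΩ⟩ := hn
    apply hc
    refine le_trans ?_ hnN
    rw [← hΩ]
    obtain ⟨a, n', h1, h2, h3, h4⟩ := odd_part (show n ≠ 0 by omega)
    rw [h4, h1, pow_add]
    have h5 := three_pow_le h3 h2
    apply Nat.mul_le_mul_left
    exact le_trans (Nat.pow_le_pow_left (by norm_num) _) h5
  · intro h h0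
    have h1 := om_pos h
    have h2 := congrFun h0 (fun _ => 0)
    unfold FNm at h2
    have h3 : ∀ n ∈ (Icc 1 N).filter (fun n => cardFactors n = m), mono n (fun _ => 0) = 1 := by
      intro n hn
      rw [mem_filter, mem_Icc] at hn
      rw [mono_eq (show n ≠ 0 by omega) dvd_rfl]
      apply Finset.prod_eq_one
      intro p _
      exact fourier_eval_zero _
    rw [Finset.sum_congr rfl h3] at h2
    simp only [Finset.sum_const, nsmul_eq_mul, mul_one, Pi.zero_apply, Nat.cast_eq_zero] at h2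
    have : #(om m N) = 0 := h2
    omega

lemma card_sols_one (N m : ℕ) : #(sols 1 N m) = #(om m N) := by
  classical
  symm
  apply Finset.card_bij (fun n _ => ((fun _ => n, fun _ => n) : (Fin 1 → ℕ) × (Fin 1 → ℕ)))
  · intro n hn
    rw [mem_sols]
    exact ⟨fun _ => hn, fun _ => hn, rfl⟩
  · intro a _ b _ h
    have := congrArg (fun x => x.1 0) h
    exact this
  · rintro ⟨x, y⟩ h
    rw [mem_sols] at h
    refine ⟨x 0, h.1 0, ?_⟩
    have h2 := h.2.2
    simp only [univ_unique, Fin.default_eq_zero, Fin.isValue, prod_singleton] at h2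
    ext i
    · simp only
      rw [Subsingleton.elim i 0]
    · simp only
      rw [Subsingleton.elim i 0, h2]

/-- `F_{N,m}` is `k`-comparable along the sequence `m`. -/
def Comparable (k : ℕ) (m : ℕ → ℕ) : Prop :=
  ∃ C : ℝ, ∀ N : ℕ, 2 ≤ N → FNm N (m N) ≠ 0 →
    normT (2 * k) (FNm N (m N)) ≤ C * normT 2 (FNm N (m N))

lemma normT_eq (k N m : ℕ) : normT (2 * k) (FNm N m) = (#(sols k N m) : ℝ) ^ (1 / (2 * (k:ℝ))) := by
  unfold normT
  rw [moment_eq]

lemma normT_two (N m : ℕ) : normT 2 (FNm N m) = (#(om m N) : ℝ) ^ (1 / 2 : ℝ) := by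
  have h := normT_eq 1 N m
  rw [card_sols_one] at h
  push_cast at h
  rw [mul_one] at h
  exact h

theorem comparable_iff (k : ℕ) (hk : 1 ≤ k) (m : ℕ → ℕ) : Comparable k m ↔
    ∃ B : ℝ, ∀ N : ℕ, 2 ≤ N → 2 ^ (m N) ≤ N →
      (#(sols k N (m N)) : ℝ) ≤ B * (#(om (m N) N) : ℝ) ^ k := by
  have hk0 : (0:ℝ) < k := by exact_mod_cast hk
  unfold Comparable
  constructor
  · rintro ⟨C, hC⟩
    refine ⟨|C| ^ (2 * k), fun N hN h2 => ?_⟩
    have h1 := hC N hN (FNm_ne_zero_iff.mpr h2)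
    rw [normT_eq, normT_two] at h1
    set s : ℝ := (#(sols k N (m N)) : ℝ) with hs
    set t : ℝ := (#(om (m N) N) : ℝ) with ht
    have hs0 : 0 ≤ s := Nat.cast_nonneg _
    have ht0 : 0 ≤ t := Nat.cast_nonneg _
    have h3 : s ^ (1 / (2 * (k:ℝ))) ≤ |C| * t ^ (1 / 2 : ℝ) := by
      refine h1.trans ?_
      have := le_abs_self C
      gcongr
    have h4 : (s ^ (1 / (2 * (k:ℝ)))) ^ (2 * k) ≤ (|C| * t ^ (1 / 2 : ℝ)) ^ (2 * k) := by
      gcongr
    have e1 : (s ^ (1 / (2 * (k:ℝ)))) ^ (2 * k) = s := by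
      rw [← Real.rpow_natCast, ← Real.rpow_mul hs0]
      push_cast
      rw [one_div, inv_mul_cancel₀ (by positivity), Real.rpow_one]
    have e2 : (t ^ (1 / 2 : ℝ)) ^ (2 * k) = t ^ k := by
      rw [pow_mul, ← Real.rpow_natCast (t ^ (1 / 2 : ℝ)) 2, ← Real.rpow_mul ht0]
      norm_num
    rw [e1, mul_pow, e2] at h4
    exact h4
  · rintro ⟨B, hB⟩
    refine ⟨|B| ^ (1 / (2 * (k:ℝ))), fun N hN hF => ?_⟩
    have h1 := hB N hN (FNm_ne_zero_iff.mp hF)
    rw [normT_eq, normT_two]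
    set s : ℝ := (#(sols k N (m N)) : ℝ) with hs
    set t : ℝ := (#(om (m N) N) : ℝ) with ht
    have hs0 : 0 ≤ s := Nat.cast_nonneg _
    have ht0 : 0 ≤ t := Nat.cast_nonneg _
    have h3 : s ≤ |B| * t ^ k := by
      refine h1.trans ?_
      have := le_abs_self B
      gcongr
    have e2 : (t ^ k) ^ (1 / (2 * (k:ℝ))) = t ^ (1 / 2 : ℝ) := by
      rw [← Real.rpow_natCast, ← Real.rpow_mul ht0]
      congr 1
      field_simp
    calc s ^ (1 / (2 * (k:ℝ))) ≤ (|B| * t ^ k) ^ (1 / (2 * (k:ℝ))) := by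
          apply Real.rpow_le_rpow hs0 h3 (by positivity)
      _ = |B| ^ (1 / (2 * (k:ℝ))) * (t ^ k) ^ (1 / (2 * (k:ℝ))) := by
          rw [Real.mul_rpow (abs_nonneg _) (by positivity)]
      _ = _ := by rw [e2]

/-- The condition on `(N, m)` with constant `C`; `L = log log N`. -/
def Cond (k : ℕ) (C : ℝ) (N m : ℕ) : Prop :=
  (N : ℝ) ≤ C * 2 ^ m ∨
  (k = 3 ∧ (m : ℝ) ≤ (1 / 3 - 1 / C) * Real.log (Real.log N)) ∨
  (4 ≤ k ∧ (k : ℝ) * m ≤ Real.log (Real.log N) + √(Real.log (Real.log N) / 2 *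
    (((k : ℝ) - 3) * Real.log (Real.log (Real.log N)) +
      ((k : ℝ) - 1) * Real.log (Real.log (Real.log (Real.log N))) + C)))

lemma cond_eq (k : ℕ) (C : ℝ) (N m : ℕ) : Cond (k+1) C N m ↔ CondK k C N m := by
  unfold Cond CondK Df Qf
  have e1 : (((k+1 : ℕ) : ℝ) - 3) = (k:ℝ) - 2 := by push_cast; ring
  have e2 : (((k+1 : ℕ) : ℝ) - 1) = (k:ℝ) := by push_cast; ring
  rw [e1, e2]
  have h3 : k + 1 = 3 ↔ k = 2 := by omega
  have h4 : 4 ≤ k + 1 ↔ 3 ≤ k := by omega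
  rw [h3, h4]
  push_cast
  exact Iff.rfl

theorem main (k : ℕ) (hk : 3 ≤ k) (m : ℕ → ℕ) (hm : ∀ N, 1 ≤ m N) :
    Comparable k m ↔ ∃ C : ℝ, 0 < C ∧ ∀ N : ℕ, 2 ≤ N → 2 ^ (m N) ≤ N → Cond k C N (m N) := by
  rw [comparable_iff k (by omega)]
  obtain ⟨j, rfl⟩ : ∃ j, k = j + 1 := ⟨k - 1, by omega⟩
  constructor
  · rintro ⟨B, hB⟩
    obtain ⟨C, hC, h⟩ := lb_final j (by omega) B
    exact ⟨C, hC, fun N hN h2 => (cond_eq j C N (m N)).mpr (h N (m N) (hB N hN h2))⟩
  · rintro ⟨C, hC, h⟩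
    obtain ⟨B, hB, h'⟩ := ub_final j (by omega) C hC
    exact ⟨B, fun N hN h2 => h' N (m N) (hm N) h2 ((cond_eq j C N (m N)).mp (h N hN h2))⟩

end Pool.Agent.MP6396c4
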